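import Pool.Agent.P.MP_0b9d6e_co.Base

/-!
Numerical instances of the tilt lemma.
-/

namespace Pool.Agent.P.MP_0b9d6e_co

open Real

namespace BadNP

theorem half {a c : ℝ} (h : c + 1 ≤ a) : exp (-a) ≤ exp (-c) / 2 := by
  have h1 : exp (-a) ≤ exp (-c) * exp (-1) := by
    rw [← exp_add]; exact exp_le_exp.2 (by linarith)
  have h2 : exp (-1) ≤ 1 / 2 := by
    rw [exp_neg, one_div]
    exact inv_anti₀ two_pos (by linarith [add_one_le_exp (1 : ℝ)])
  nlinarith [exp_pos (-c)]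

theorem pow_le {x a : ℝ} (hx : 0 ≤ x) {n : ℕ} (hn : n = ⌈a / exp (-x)⌉₊) :
    (1 - exp (-x)) ^ n ≤ exp (-a) := by
  have h0 := exp_pos (-x)
  have h1 : exp (-x) ≤ 1 := exp_le_one_iff.2 (by linarith)
  have h2 : a / exp (-x) ≤ n := hn ▸ Nat.le_ceil _
  rw [div_le_iff₀ h0] at h2
  calc (1 - exp (-x)) ^ n ≤ exp (-exp (-x)) ^ n :=
        pow_le_pow_left₀ (by linarith) (one_sub_le_exp_neg _) n
    _ = exp (n * -exp (-x)) := (exp_nat_mul _ _).symm
    _ ≤ _ := exp_le_exp.2 (by linarith)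

end BadNP

open BadNP in
theorem badN (h : S_Bad) : S_BadN := by
  obtain ⟨d₀, hd₀⟩ := exists_nat_ge ((10 : ℝ) ^ 100)
  refine ⟨d₀, fun d hd => ?_⟩
  have hD : (10 : ℝ) ^ 100 ≤ d := hd₀.trans (Nat.cast_le.2 hd)
  have hl := lam_nonneg d
  refine ⟨?_, ?_, fun p hp => ⟨pow_le (by positivity) hp.φ₁, pow_le (by positivity) hp.φ₂⟩⟩
  · refine h d ((10 ^ 30 + 1) * lam d) (10 ^ 28 * lam d) ((1 + 21 / 10 ^ 8) / 10 ^ 36) (1 / 10)
      (1 / 10 ^ 45) (1 / 10 ^ 11) _ _ (by norm_num) (by norm_num) (by norm_num) (by norm_num)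
      (by norm_num) (by norm_num) (by norm_num) ?_ (half ?_)
    · unfold thr loss eta
      rw [lam_eq]
      linarith
    · unfold cost
      rw [lam_eq]
      linarith
  · refine h d ((10 ^ 30 + 1) * lam d) ((10 ^ 30 + 1) * lam d) ((1 + 21 / 10 ^ 7) / 10 ^ 36) 1
      (1 / 10 ^ 45) (1 / 10 ^ 11) _ _ (by norm_num) (by norm_num) (by norm_num) (by norm_num)
      (by norm_num) (by norm_num) (by norm_num) ?_ (half ?_)
    · unfold thr loss eta
      rw [lam_eq]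
      linarith
    · unfold cost
      rw [lam_eq]
      linarith

end Pool.Agent.P.MP_0b9d6e_co
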