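import Pool.Agent.P.MP_0b9d6e_co.Base

/-!
Balanced subintervals.
-/

namespace Pool.Agent.P.MP_0b9d6e_co

namespace BalP

variable {m n : ℕ} {δ : ℕ → ℕ → Fin m}

theorem mono_r (hU : Ultra n δ) {x y y' : ℕ} (h1 : x < y) (h2 : y ≤ y') (h3 : y' < n) :
    δ x y ≤ δ x y' := by
  rcases h2.eq_or_lt with rfl | h2
  · exact le_rfl
  · rw [(hU x y y' h1 h2 h3).2]
    exact le_max_left _ _

theorem mono_l (hU : Ultra n δ) {x x' y : ℕ} (h1 : x ≤ x') (h2 : x' < y) (h3 : y < n) :
    δ x' y ≤ δ x y := by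
  rcases h1.eq_or_lt with rfl | h1
  · exact le_rfl
  · rw [(hU x x' y h1 h2 h3).2]
    exact le_max_right _ _

theorem eq_l (hU : Ultra n δ) {x y z : ℕ} (h1 : x < y) (h2 : y < z) (h3 : z < n)
    (h : δ y z < δ x z) : δ x y = δ x z := by
  have h4 := (hU x y z h1 h2 h3).2
  rcases max_choice (δ x y) (δ y z) with h5 | h5
  · rw [h4, h5]
  · rw [h4, h5] at h
    exact absurd h (lt_irrefl _)

theorem eq_r (hU : Ultra n δ) {x y z : ℕ} (h1 : x < y) (h2 : y < z) (h3 : z < n)
    (h : δ x y < δ x z) : δ y z = δ x z := by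
  have h4 := (hU x y z h1 h2 h3).2
  rcases max_choice (δ x y) (δ y z) with h5 | h5
  · rw [h4, h5] at h
    exact absurd h (lt_irrefl _)
  · rw [h4, h5]

/-- the split of `[x, z]` at the first point where the top level is reached -/
theorem split (hU : Ultra n δ) {x z : ℕ} (hxz : x < z) (hz : z < n) :
    ∃ mid, x < mid ∧ mid ≤ z ∧ (∀ y, x < y → δ x y = δ x z → mid ≤ y) ∧
      (∀ u y, x ≤ u → u < mid → mid ≤ y → y < z + 1 → δ u y = δ x z) ∧
      (∀ u y, x ≤ u → u < y → y < mid → δ u y < δ x z) ∧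
      ∀ u y, mid ≤ u → u < y → y < z + 1 → δ u y < δ x z := by
  classical
  have hex : ∃ y, x < y ∧ δ x y = δ x z := ⟨z, hxz, rfl⟩
  have h1 := (Nat.find_spec hex).1
  have h2 := (Nat.find_spec hex).2
  have h3 : ∀ y, x < y → δ x y = δ x z → Nat.find hex ≤ y := fun y a b => Nat.find_min' hex ⟨a, b⟩
  generalize Nat.find hex = mid at h1 h2 h3
  have h4 : mid ≤ z := h3 z hxz rfl
  have hlt : ∀ y, x < y → y < mid → δ x y < δ x z := fun y a b =>
    lt_of_le_of_ne (mono_r hU a (by omega) hz) fun e => absurd (h3 y a e) (by omega)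
  have heq : ∀ y, mid ≤ y → y ≤ z → δ x y = δ x z := fun y a b =>
    le_antisymm (mono_r hU (by omega) b hz) (h2 ▸ mono_r hU h1 a (by omega))
  refine ⟨mid, h1, h4, h3, fun u y a b c d => ?_, fun u y a b c => ?_, fun u y a b c => ?_⟩
  · have e := heq y c (by omega)
    rcases a.eq_or_lt with rfl | a
    · exact e
    · rw [← e]
      exact eq_r hU a (by omega) (by omega) (e ▸ hlt u a b)
  · exact (mono_l hU a b (by omega)).trans_lt (hlt y (by omega) c)
  · have e1 := heq u a (by omega)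
    have e2 := heq y (by omega) (by omega)
    have h5 := (hU x u y (by omega) b (by omega)).1
    refine lt_of_le_of_ne (e2 ▸ mono_l hU (by omega) b (by omega)) fun e => h5 ?_
    rw [e1, e]

theorem num {S B D Kc p₀ : ℕ} (hp : 0 < p₀) (hD : 0 < D) (hK : 0 < Kc) (hB : 16 * D * Kc ≤ B)
    (hS : 2 * p₀ * B ≤ S) : ∃ h μ, 2 * p₀ < h ∧ S ≤ B * h ∧ Kc * h < μ ∧ 2 * D * (2 * μ) ≤ S ∧
      μ + 2 * h ≤ S / 2 ∧ 0 < μ := by
  have hDK : 0 < D * Kc := Nat.mul_pos hD hK
  have hB0 : 0 < B := by nlinarith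
  have h1 : 2 * p₀ ≤ S / B := (Nat.le_div_iff_mul_le hB0).2 hS
  have h2 : B * (S / B) ≤ S := Nat.mul_div_le S B
  have h3 : S < B * (S / B + 1) := Nat.lt_mul_div_succ S hB0
  have h4 : 2 * B ≤ S := by nlinarith
  have h5 : 4 * D * (S / (4 * D)) ≤ S := Nat.mul_div_le S _
  generalize S / B = q at h1 h2 h3
  have h6 : 16 * D * Kc * (q + 1) ≤ B * (q + 1) := Nat.mul_le_mul_right _ hB
  have h7 : 16 * D ≤ B := by nlinarith
  have h8 : 16 ≤ B := by omega
  have h9 : Kc * (q + 1) < S / (4 * D) := by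
    refine Nat.lt_iff_add_one_le.2 ((Nat.le_div_iff_mul_le (by omega)).2 ?_)
    nlinarith
  have h10 : 16 * (q + 1) ≤ B * (q + 1) := Nat.mul_le_mul_right _ h8
  have h11 : 4 * (S / (4 * D)) ≤ 4 * D * (S / (4 * D)) := Nat.mul_le_mul_right _ (by omega)
  have h12 : B * (q + 1) = B * q + B := by ring
  refine ⟨q + 1, S / (4 * D), by omega, h3.le, h9, by linarith, by omega, by omega⟩

end BalP

open BalP

theorem bal : S_Bal := by
  intro m k n p₀ B D Kc δ c P hU hJ hC hP hp hD hK hB lo hi hhi hlo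
  obtain ⟨S, rfl⟩ : ∃ S, hi = lo + S := ⟨hi - lo, by omega⟩
  obtain ⟨h, μ, h1, h2, h3, h4, h5, h6⟩ := num hp hD hK hB (S := S) (by omega)
  have hBm : ∀ a b, a ≤ S → h ≤ b → a ≤ B * b := fun a b ha hb =>
    ha.trans (h2.trans (Nat.mul_le_mul_left _ hb))
  obtain ⟨cc, hc1, hc2⟩ : ∃ cc, lo + μ + 2 * h ≤ cc ∧ cc + μ + 2 * h ≤ lo + S :=
    ⟨lo + S / 2, by omega, by omega⟩
  have hL : ∃ x x', lo ≤ x ∧ x < lo + μ ∧ x + h ≤ x' ∧ x' < cc ∧ δ x cc ≤ δ x' cc := by
    by_contra hn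
    push Not at hn
    obtain ⟨l, hl⟩ := hP false
    refine absurd (hC l (fun t => δ (lo + t) cc) μ h p₀ (by omega) h1.le
      (fun x y a b => mono_l hU (by omega) (by omega) (by omega))
      (fun x y a b => hn _ _ (by omega) (by omega) (by omega) (by omega)) ?_) (not_le.2 h3)
    intro x₀ x₁ y₀ y₁ a1 a2 a3 a4 a5 _ a7
    obtain ⟨x, y, z, b1, b2, b3, b4, b5, b6, hR⟩ := hJ (lo + x₀) (lo + x₁) (lo + y₀) (lo + y₁)
      (lo + μ + h) cc (by omega) (by omega) (by omega) (by omega) (by omega) (by omega)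
      (by rw [Nat.add_sub_add_left, Nat.add_sub_add_left]; exact a5)
      (hBm _ _ (by omega) (by omega))
    obtain ⟨x, rfl⟩ : ∃ t, x = lo + t := ⟨x - lo, by omega⟩
    obtain ⟨y, rfl⟩ : ∃ t, y = lo + t := ⟨y - lo, by omega⟩
    have e1 : δ (lo + y) cc < δ (lo + x) cc := a7 x y (by omega) (by omega) (by omega) (by omega)
    have e2 : δ z cc < δ (lo + y) cc := hn _ _ (by omega) (by omega) (by omega) b6
    rw [eq_l hU (by omega) (by omega) (by omega) e1, eq_l hU (by omega) b6 (by omega) e2] at hR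
    rcases hR with hR | hR
    · exact ⟨x, y, by omega, by omega, by omega, by omega, hl _ _ hR.2⟩
    · exact absurd hR.1 e1.not_gt
  have hR : ∃ z z', lo + S ≤ z + μ ∧ z < lo + S ∧ z' + h ≤ z ∧ cc < z' ∧ δ cc z ≤ δ cc z' := by
    by_contra hn
    push Not at hn
    obtain ⟨l, hl⟩ := hP true
    refine absurd (hC l (fun t => δ cc (lo + S - 1 - t)) μ h p₀ (by omega) h1.le
      (fun x y a b => mono_r hU (by omega) (by omega) (by omega))
      (fun x y a b => hn _ _ (by omega) (by omega) (by omega) (by omega)) ?_) (not_le.2 h3)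
    intro x₀ x₁ y₀ y₁ a1 a2 a3 a4 a5 _ a7
    obtain ⟨u, v, w, b1, b2, b3, b4, b5, b6, hR⟩ := hJ (cc + 1) (lo + S - μ - h + 1)
      (lo + S - y₁) (lo + S - y₀) (lo + S - x₁) (lo + S - x₀)
      (by omega) (by omega) (by omega) (by omega) (by omega) (by omega)
      (hBm _ _ (by omega) (by omega))
      (by
        rw [show lo + S - x₀ - (lo + S - y₁) = y₁ - x₀ by omega,
          show lo + S - x₀ - (lo + S - x₁) = x₁ - x₀ by omega]
        exact a5)
    obtain ⟨x, rfl, c1, c2⟩ : ∃ t, w = lo + S - 1 - t ∧ x₀ ≤ t ∧ t < x₁ :=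
      ⟨lo + S - 1 - w, by omega, by omega, by omega⟩
    obtain ⟨y, rfl, c3, c4⟩ : ∃ t, v = lo + S - 1 - t ∧ y₀ ≤ t ∧ t < y₁ :=
      ⟨lo + S - 1 - v, by omega, by omega, by omega⟩
    have e1 : δ cc (lo + S - 1 - y) < δ cc (lo + S - 1 - x) := a7 x y c1 c2 c3 c4
    have e2 : δ cc u < δ cc (lo + S - 1 - y) := hn _ _ (by omega) (by omega) (by omega) (by omega)
    rw [eq_r hU (by omega) (by omega) (by omega) e1,
      eq_r hU (by omega) (by omega) (by omega) e2] at hR
    rcases hR with hR | hR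
    · exact absurd hR.1 e1.not_gt
    · exact ⟨x, y, c1, c2, c3, c4, hl _ _ hR.2⟩
  obtain ⟨x, x', a1, a2, a3, a4, a5⟩ := hL
  obtain ⟨z, z', b1, b2, b3, b4, b5⟩ := hR
  obtain ⟨mid, m1, m2, m3, m4, m5, m6⟩ := split hU (x := x) (z := z) (by omega) (by omega)
  obtain ⟨u1, u2⟩ := hU x cc z (by omega) (by omega) (by omega)
  have key : x + h ≤ mid ∧ mid + h ≤ z + 1 := by
    rcases lt_or_gt_of_ne u1 with hlt | hlt
    · have e : δ x z = δ cc z := by rw [u2, max_eq_right hlt.le]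
      have i1 : cc < mid := by
        by_contra hc
        have := m4 x cc le_rfl m1 (by omega) (by omega)
        rw [e] at this
        exact hlt.ne this
      have i2 : mid ≤ z' := by
        refine m3 z' (by omega) (le_antisymm (mono_r hU (by omega) (by omega) (by omega)) ?_)
        rw [e]
        exact b5.trans (mono_l hU (by omega) b4 (by omega))
      omega
    · have e : δ x z = δ x cc := by rw [u2, max_eq_left hlt.le]
      have i1 : mid ≤ cc := m3 cc (by omega) e.symm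
      have i2 : x' < mid := by
        by_contra hc
        have := m6 x' cc (by omega) a4 (by omega)
        rw [e] at this
        exact absurd a5 (not_le.2 this)
      omega
  refine ⟨x, mid, z + 1, δ x z, a1, m1, by omega, by omega, ?_, hBm _ _ (by omega) (by omega),
    hBm _ _ (by omega) (by omega), m4, m5, m6⟩
  rw [Nat.add_sub_cancel_left]
  exact (Nat.mul_le_mul_left _ (by omega)).trans h4

end Pool.Agent.P.MP_0b9d6e_co
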