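import Pool.Agent.P.MP_0b9d6e_co.Base

/-!
Basic facts on the words of a tree, and the three cases.
-/

namespace Pool.Agent.P.MP_0b9d6e_co

open Finset

namespace BasicP

theorem lt_of_get {w : List Bool} {i : ℕ} {b : Bool} (h : w[i]? = some b) : i < w.length :=
  (List.getElem?_eq_some_iff.1 h).1

section tree

variable {m : ℕ} {P : Bool → Fin m → Fin m → Prop} {𝒟 : Finset (List Bool)}
  {lev : List Bool → Fin m} {w : List Bool} {i j : ℕ} {b : Bool}

theorem both (hT : IsTree P 𝒟 lev) (hw : w ∈ 𝒟) (h : i < j) (hb : w[i]? = some b) :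
    lev (w.take j) < lev (w.take i) ∧ P b (lev (w.take i)) (lev (w.take j)) := by
  have := hT.rel _ (hT.pre w hw j) i b (by rw [List.getElem?_take, if_pos h, hb])
  rwa [List.take_take, min_eq_left h.le] at this

theorem anti (hT : IsTree P 𝒟 lev) (hw : w ∈ 𝒟) (h : i < j) (hj : j ≤ w.length) :
    lev (w.take j) < lev (w.take i) :=
  (both hT hw h (List.getElem?_eq_getElem (h.trans_le hj))).1

theorem lt_of_lev (hT : IsTree P 𝒟 lev) (hw : w ∈ 𝒟) (hi : i ≤ w.length)
    (h : lev (w.take j) < lev (w.take i)) : i < j := by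
  rcases lt_trichotomy i j with h' | h' | h'
  · exact h'
  · rw [h'] at h; exact (lt_irrefl _ h).elim
  · exact (lt_asymm h (anti hT hw h' hi)).elim

theorem card_img (hT : IsTree P 𝒟 lev) (hw : w ∈ 𝒟) {I : Finset ℕ} (hI : ∀ i ∈ I, i ≤ w.length) :
    (I.image fun i => lev (w.take i)).card = I.card :=
  card_image_of_injOn fun i hi j hj e => by
    rcases lt_trichotomy i j with h | h | h
    · exact ((anti hT hw h (hI j hj)).ne' e).elim
    · exact h
    · exact ((anti hT hw h (hI i hi)).ne e).elim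

theorem mem_anc {a : Fin m} : a ∈ Anc lev b w ↔ ∃ i, w[i]? = some b ∧ lev (w.take i) = a := by
  simp only [Anc, mem_image, mem_filter, mem_range]
  exact exists_congr fun i => and_congr_left fun _ => and_iff_right_of_imp lt_of_get

theorem pair (hT : IsTree P 𝒟 lev) (hw : w ∈ 𝒟) {u v : Fin m} (hu : u ∈ Anc lev b w)
    (hv : v ∈ Anc lev b w) (h : v < u) : P b u v := by
  obtain ⟨i, hi, rfl⟩ := mem_anc.1 hu
  obtain ⟨j, -, rfl⟩ := mem_anc.1 hv
  exact (both hT hw (lt_of_lev hT hw (lt_of_get hi).le h) hi).2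

theorem anc (hT : IsTree P 𝒟 lev) (hw : w ∈ 𝒟) (b : Bool) (hi : i ≤ w.length) :
    Anc lev b (w.take i) = (Anc lev b w).filter (lev (w.take i) < ·) := by
  ext a
  rw [mem_filter, mem_anc, mem_anc]
  constructor
  · rintro ⟨j, h1, rfl⟩
    have h2 : j < i := (lt_of_get h1).trans_le (List.length_take_le _ _)
    rw [List.getElem?_take, if_pos h2] at h1
    rw [List.take_take, min_eq_left h2.le]
    exact ⟨⟨j, h1, rfl⟩, anti hT hw h2 hi⟩
  · rintro ⟨⟨j, h1, rfl⟩, h2⟩
    have h3 := lt_of_lev hT hw (lt_of_get h1).le h2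
    exact ⟨j, by rw [List.getElem?_take, if_pos h3, h1],
      by rw [List.take_take, min_eq_left h3.le]⟩

theorem card_le_anc (hT : IsTree P 𝒟 lev) (hw : w ∈ 𝒟) {I : Finset ℕ}
    (hI : ∀ i ∈ I, w[i]? = some b) : I.card ≤ (Anc lev b w).card := by
  rw [← card_img hT hw fun i hi => (lt_of_get (hI i hi)).le]
  refine card_le_card fun a ha => ?_
  obtain ⟨i, hi, e⟩ := mem_image.1 ha
  exact mem_anc.2 ⟨i, hI i hi, e⟩

theorem anc_eq (hT : IsTree P 𝒟 lev) (hw : w ∈ 𝒟) (hi : i ≤ w.length) (hj : j ≤ w.length)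
    (h : (Anc lev b (w.take i)).card = (Anc lev b (w.take j)).card) :
    Anc lev b (w.take i) = Anc lev b (w.take j) := by
  wlog hij : i < j generalizing i j
  · rcases (not_lt.1 hij).eq_or_lt with e | e
    · rw [e]
    · exact (this hj hi h.symm e).symm
  refine eq_of_subset_of_card_le ?_ h.ge
  rw [anc hT hw b hi, anc hT hw b hj]
  exact monotone_filter_right _ fun a _ ha => (anti hT hw hij hj).trans ha

end tree

theorem ok_true {V : Type} {k : ℕ} {c : V → V → Option (Fin k × Bool)} {Ga Gb : V → V → Prop}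
    {a y : V} (h : OK c Ga Gb true a y) (hc : c a y = none) : Ga a y := by
  rcases h with ⟨j, h⟩ | h
  · rw [hc] at h; cases h
  · simpa using h.2

theorem ok_false {V : Type} {k : ℕ} {c : V → V → Option (Fin k × Bool)} {Ga Gb : V → V → Prop}
    {a y : V} (h : OK c Ga Gb false a y) (hc : c a y = none) : ¬ Gb a y := by
  rcases h with ⟨j, h⟩ | h
  · rw [hc] at h; cases h
  · simpa using h.2

theorem card_le_of_free {V T : Type} {c : V → V → Option T} {s₀ C a : ℕ} (h : Free c s₀ C)
    (hs : C * a + 1 ≤ s₀) {A : Finset V}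
    (hA : ∀ A' ⊆ A, (∀ u ∈ A', ∀ v ∈ A', c u v = none) → A'.card ≤ a) : A.card ≤ C * a := by
  by_contra h1
  obtain ⟨B, h2, h3⟩ := exists_subset_card_eq (Nat.succ_le_of_lt (not_le.1 h1))
  obtain ⟨A', h4, h5, h6⟩ := h B (h3.trans_le hs)
  have := Nat.mul_le_mul_left C (hA A' (h4.trans h2) h6)
  omega

theorem exists_cut (Q : ℕ → Prop) [DecidablePred Q] (k n : ℕ)
    (h : k ≤ ((range n).filter Q).card) : ∃ τ ≤ n, ((range τ).filter Q).card = k := by
  induction n with
  | zero => exact ⟨0, le_rfl, le_antisymm (Nat.zero_le _) h⟩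
  | succ n ih =>
    by_cases h1 : k ≤ ((range n).filter Q).card
    · obtain ⟨τ, h2, h3⟩ := ih h1
      exact ⟨τ, h2.trans n.le_succ, h3⟩
    · refine ⟨n + 1, le_rfl, le_antisymm ?_ h⟩
      have := card_insert_le n ((range n).filter Q)
      rw [range_add_one, filter_insert]
      split_ifs <;> omega

end BasicP

open BasicP in
theorem basic : S_Basic := by
  classical
  intro p m c Ga Gb Rig W 𝒟 lev hH hT
  have cA : ∀ w ∈ 𝒟, (Anc lev true w).card ≤ p.I := fun w hw =>
    card_le_of_free hH.free hH.sI fun A' h1 h2 => hH.clq A' fun u hu v hv h =>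
      ok_true (pair hT hw (h1 hu) (h1 hv) h) (h2 u hu v hv)
  have cR : ∀ w ∈ 𝒟, (Anc lev false w).card ≤ p.L := fun w hw =>
    card_le_of_free hH.free hH.sL fun A' h1 h2 => hH.ind A' h2 fun u hu v hv h =>
      ok_false (pair hT hw (h1 hu) (h1 hv) h) (h2 u hu v hv)
  refine ⟨cA, cR, fun w hw => ?_, fun w hw i j => anti hT hw, fun w hw b i => anc hT hw b,
    fun w hw I hI => (card_le_anc hT hw hI).trans (cR w hw), fun w hw I hI => ?_,
    fun w hw hR I hI => ?_, fun w hw i i' t h1 h2 h3 => ?_⟩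
  · have h1 := card_filter_add_card_filter_not (s := range w.length) fun i => w[i]? = some true
    have h2 := (card_le_anc hT hw (I := (range w.length).filter fun i => w[i]? = some true)
      fun i hi => (mem_filter.1 hi).2).trans (cA w hw)
    have h3 := (card_le_anc hT hw (b := false)
      (I := (range w.length).filter fun i => ¬ w[i]? = some true) fun i hi => by
        obtain ⟨h4, h5⟩ := mem_filter.1 hi
        rw [List.getElem?_eq_getElem (mem_range.1 h4)] at h5 ⊢
        simpa using h5).trans (cR w hw)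
    rw [card_range] at h1
    unfold Par.D
    omega
  · have := card_le_mul_card_image_of_maps_to (s := I) (t := range (p.I + 1))
      (f := fun i => (Anc lev true (w.take i)).card)
      (fun i _ => mem_range.2 (Nat.lt_succ_of_le (cA _ (hT.pre w hw i)))) p.t fun a _ => ?_
    · rwa [card_range, mul_comm] at this
    rcases (I.filter fun i => (Anc lev true (w.take i)).card = a).eq_empty_or_nonempty with
      e | ⟨i0, h0⟩
    · rw [e]; exact Nat.zero_le _
    rw [← card_img hT hw fun i hi => (hI i (mem_filter.1 hi).1).1]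
    refine hH.rig (Anc lev true (w.take i0)) _ (cA _ (hT.pre w hw i0)) fun v hv => ?_
    obtain ⟨i, hi, rfl⟩ := mem_image.1 hv
    rw [mem_filter] at h0 hi
    rw [anc_eq hT hw (hI _ h0.1).1 (hI _ hi.1).1 (h0.2.trans hi.2.symm)]
    refine ⟨fun h => ?_, (hI i hi.1).2⟩
    rw [anc hT hw true (hI i hi.1).1] at h
    exact lt_irrefl _ (mem_filter.1 h).2
  · have hl : ∀ i ∈ I, i ≤ w.length := fun i hi => (lt_of_get (hI i hi).1).le
    have := hH.sharp (Anc lev true w) (I.image fun i => lev (w.take i)) (lev w) (cA w hw)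
      (fun a ha => ?_) (fun a ha => ?_) (fun a ha => ?_) hR fun a ha h => ?_
    · rw [card_img hT hw hl] at this
      refine ⟨this.1, fun hC => this.2 fun v hv S hS h => ?_⟩
      obtain ⟨i', hi', rfl⟩ := mem_image.1 hv
      have h1 : S ⊆ (I.filter fun i => lev (w.take i) ∈ S).image fun i => lev (w.take i) :=
        fun a ha => by
          obtain ⟨i, hi, rfl⟩ := mem_image.1 (hS ha)
          exact mem_image.2 ⟨i, mem_filter.2 ⟨hi, ha⟩, rfl⟩
      refine (card_le_card h1).trans (card_image_le.trans (not_lt.1 fun h2 =>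
        hC ⟨i', hI i' hi', _, h2, fun i hi => ?_⟩))
      obtain ⟨h3, h4⟩ := mem_filter.1 hi
      have h5 := lt_of_lev hT hw (hl i h3) (h _ h4).1
      exact ⟨h5, hI i h3, fun h6 => (h _ h4).2 (ok_true (both hT hw h5 (hI i h3).1).2 h6)⟩
    · obtain ⟨i, hi, e⟩ := mem_image.1 ha
      exact mem_anc.2 ⟨i, (hI i hi).1, e⟩
    · obtain ⟨i, hi, rfl⟩ := mem_image.1 ha
      rw [← anc hT hw true (hl i hi)]
      exact (hI i hi).2.1
    · obtain ⟨i, hi, rfl⟩ := mem_image.1 ha
      exact (hI i hi).2.2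
    · obtain ⟨i, hi, rfl⟩ := mem_anc.1 ha
      exact ok_true (hT.rel w hw i true hi).2 h
  · have h4 := List.getElem?_eq_getElem (h1.trans_le h2)
    rcases (both hT hw h1 h4).2 with ⟨j, h5⟩ | h5
    · rw [h4, ← Option.some.inj (h5.symm.trans h3)]
    · rw [h5.1] at h3; cases h3

open BasicP in
theorem tri : S_Tri := by
  classical
  intro p m c Rig 𝒟 lev hB w hw hR
  by_cases h1 : CaseI p c Rig lev w
  · exact Or.inl h1
  have h2 : ∃ τ, Cut p c Rig lev w τ := by
    have sub : ∀ τ (I : Finset ℕ), (∀ i ∈ I, i < τ ∧ InF p c Rig lev w i) →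
        I.card ≤ ((range τ).filter (InF p c Rig lev w)).card := fun τ I hI =>
      card_le_card fun i hi => mem_filter.2 ⟨mem_range.2 (hI i hi).1, (hI i hi).2⟩
    by_cases h2 : p.js ≤ ((range w.length).filter (InF p c Rig lev w)).card
    · obtain ⟨τ, h3, h4⟩ := exists_cut _ _ _ h2
      refine ⟨τ, h3, fun I hI => h4 ▸ sub τ I hI, fun I hI => ?_, fun i' _ _ =>
        ⟨_, h4.ge, fun i hi => ⟨mem_range.1 (mem_filter.1 hi).1, (mem_filter.1 hi).2⟩⟩⟩
      have h5 := (hB.sharp w hw hR (I ∪ (range τ).filter (InF p c Rig lev w)) fun i hi =>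
        (mem_union.1 hi).elim (fun h => (hI i h).2) fun h => (mem_filter.1 h).2).2 h1
      rw [card_union_of_disjoint (disjoint_left.2 fun i a b =>
        (hI i a).1.not_gt (mem_range.1 (mem_filter.1 b).1)), h4] at h5
      unfold Par.s
      omega
    · refine ⟨w.length, le_rfl, fun I hI => (sub _ I hI).trans (not_le.1 h2).le, fun I hI => ?_,
        fun i' h3 h4 => (h3.not_gt (lt_of_get h4.1)).elim⟩
      rw [eq_empty_of_forall_notMem fun i hi => (hI i hi).1.not_gt (lt_of_get (hI i hi).2.1)]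
      exact Nat.zero_le _
  obtain ⟨τ, h2⟩ := h2
  by_cases h3 : CaseII p c Rig lev w
  · exact Or.inr (Or.inl h3)
  refine Or.inr (Or.inr ⟨h1, τ, h2, fun i' h4 h5 => ?_⟩)
  by_contra h6
  exact h3 ⟨τ, h2, i', h4, h5, fun I hI => not_lt.1 fun h7 => h6 ⟨I, h7, hI⟩⟩

end Pool.Agent.P.MP_0b9d6e_co
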