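import Pool.Agent.P.MP_0b9d6e_co.Base

/-!
Counting the words of cases I and II.
-/

namespace Pool.Agent.P.MP_0b9d6e_co

open Finset

namespace C12P

/-- the hypothesis of the counting lemma for one word -/
def Ok (γ : List Bool → Cl) (n t a₁ j₁ a₂ j₂ : ℕ) (w : List Bool) : Prop :=
  w.length = n ∧ (∀ i b, i < n → γ (w.take i) = Cl.frc b → w[i]? = some b) ∧
    (∀ I : Finset ℕ, (∀ i ∈ I, i < n ∧ γ (w.take i) = Cl.rig) → I.card ≤ t) ∧
    AtMost γ w Cl.fa true a₁ ∧ AtMost γ w Cl.fa false j₁ ∧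
    AtMost γ w Cl.fb true a₂ ∧ AtMost γ w Cl.fb false j₂

theorem cover (h : S_Cnt) {H : Type} (ℋ : Finset H) (γ : H → H → ℕ → List Bool → Cl)
    (𝒲 : Finset (List Bool)) (N D t a₁ j₁ a₂ j₂ : ℕ) (hN : ℋ.card ≤ N)
    (hW : ∀ w ∈ 𝒲, ∃ a ∈ ℋ, ∃ b ∈ ℋ, ∃ τ ≤ D, w.length ≤ D ∧
      Ok (γ a b τ) w.length t a₁ j₁ a₂ j₂ w) :
    𝒲.card ≤ N ^ 2 * (D + 1) ^ 2 * 2 ^ t * (j₁ + 1) ^ a₁ * (j₂ + 1) ^ a₂ := by
  classical
  have hs : 𝒲 ⊆ ((ℋ ×ˢ ℋ) ×ˢ (range (D + 1) ×ˢ range (D + 1))).biUnion fun z =>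
      𝒲.filter (Ok (γ z.1.1 z.1.2 z.2.1) z.2.2 t a₁ j₁ a₂ j₂) := by
    intro w hw
    obtain ⟨a, ha, b, hb, τ, h1, h2, h3⟩ := hW w hw
    refine mem_biUnion.2 ⟨((a, b), (τ, w.length)), ?_, mem_filter.2 ⟨hw, h3⟩⟩
    simp only [mem_product, mem_range]
    exact ⟨⟨ha, hb⟩, by omega, by omega⟩
  refine (card_le_card hs).trans ((card_biUnion_le_card_mul _ _
    (2 ^ t * (j₁ + 1) ^ a₁ * (j₂ + 1) ^ a₂) fun z _ =>
      h _ _ z.2.2 t a₁ j₁ a₂ j₂ fun w hw => (mem_filter.1 hw).2).trans ?_)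
  simp only [card_product, card_range]
  calc ℋ.card * ℋ.card * ((D + 1) * (D + 1)) * (2 ^ t * (j₁ + 1) ^ a₁ * (j₂ + 1) ^ a₂)
      ≤ N * N * ((D + 1) * (D + 1)) * (2 ^ t * (j₁ + 1) ^ a₁ * (j₂ + 1) ^ a₂) := by gcongr
    _ = _ := by ring

open scoped Classical in
/-- the classes of steps given by two predictors and a time -/
noncomputable def gam {T : Type} (Rg : List Bool → Prop) (x : Cl)
    (a b : List Bool → Option (T × Bool)) (τ : ℕ) (u : List Bool) : Cl :=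
  if Rg u then Cl.rig else (a u).elim
    (if u.length < τ then (b u).elim Cl.fa (fun t => Cl.frc t.2) else x) fun t => Cl.frc t.2

theorem gam_cases {T : Type} (Rg : List Bool → Prop) (x : Cl)
    (a b : List Bool → Option (T × Bool)) (τ : ℕ) (u : List Bool) :
    (Rg u ∧ gam Rg x a b τ u = Cl.rig) ∨
    (∃ t, (a u = some t ∨ (u.length < τ ∧ b u = some t)) ∧ gam Rg x a b τ u = Cl.frc t.2) ∨
    (¬ Rg u ∧ a u = none ∧ ((u.length < τ ∧ b u = none ∧ gam Rg x a b τ u = Cl.fa) ∨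
      (τ ≤ u.length ∧ gam Rg x a b τ u = x))) := by
  unfold gam
  by_cases h1 : Rg u
  · simp [h1]
  · rcases h2 : a u with _ | t
    · by_cases h3 : u.length < τ
      · rcases h4 : b u with _ | t <;> simp [h1, h3]
      · simp [h1, h3, not_lt.1 h3]
    · simp [h1]

variable {p : Par} {m : ℕ} {c : Fin m → Fin m → Option (Fin p.k × Bool)}
  {Rig : Finset (Fin m) → Fin m → Prop} {lev : List Bool → Fin m} {𝒟 : Finset (List Bool)}

theorem lt_of_some {w : List Bool} {i : ℕ} {b : Bool} (h : w[i]? = some b) : i < w.length :=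
  (List.getElem?_eq_some_iff.1 h).1

theorem main (B : Basic p c Rig lev 𝒟) {ℋ : Finset (List Bool → Option (Fin p.k × Bool))}
    (P : Pred p c lev ℋ) {w : List Bool} (hw : w ∈ 𝒟) {τ i' : ℕ} (hτ : τ ≤ i')
    (hi : i' ≤ w.length) {x : Cl} (hx : x = Cl.fa ∨ x = Cl.fb) :
    ∃ a ∈ ℋ, ∃ b ∈ ℋ,
      (∀ i s, i < w.length → gam (Rigid Rig lev) x a b τ (w.take i) = Cl.frc s → w[i]? = some s) ∧
      (∀ I : Finset ℕ, (∀ i ∈ I, i < w.length ∧ gam (Rigid Rig lev) x a b τ (w.take i) = Cl.rig) →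
        I.card ≤ p.tt) ∧
      ∀ i y, i < w.length → y = Cl.fa ∨ y = Cl.fb → gam (Rigid Rig lev) x a b τ (w.take i) = y →
        ¬ Rigid Rig lev (w.take i) ∧ c (lev (w.take i)) (lev w) = none ∧
          ((i < τ ∧ c (lev (w.take i)) (lev (w.take i')) = none ∧ y = Cl.fa) ∨
            (τ ≤ i ∧ y = x)) := by
  obtain ⟨a, ha, ea⟩ := P.2 w (lev w) (B.len w hw)
  obtain ⟨b, hb, eb⟩ := P.2 w (lev (w.take i')) (B.len w hw)
  have key := fun i (h : i < w.length) => gam_cases (Rigid Rig lev) x a b τ (w.take i)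
  have hl : ∀ i, i < w.length → (w.take i).length = i := fun i h => List.length_take_of_le h.le
  refine ⟨a, ha, b, hb, fun i s h e => ?_, fun I hI => B.rigid w hw I fun i h => ?_,
    fun i y h hy e => ?_⟩
  · have k := key i h
    rw [e, hl i h, ea i h, eb i h] at k
    rcases k with ⟨-, k⟩ | ⟨t, k | ⟨k1, k⟩, e'⟩ | ⟨-, -, ⟨-, -, k⟩ | ⟨-, k⟩⟩
    · cases k
    · cases e'
      exact B.forced w hw i w.length t h le_rfl (by rwa [List.take_length])
    · cases e'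
      exact B.forced w hw i i' t (by omega) hi k
    · cases k
    · rcases hx with rfl | rfl <;> cases k
  · obtain ⟨h, e⟩ := hI i h
    have k := key i h
    rw [e] at k
    rcases k with ⟨k, -⟩ | ⟨t, -, k⟩ | ⟨-, -, ⟨-, -, k⟩ | ⟨-, k⟩⟩
    · exact ⟨h.le, k⟩
    · cases k
    · cases k
    · rcases hx with rfl | rfl <;> cases k
  · have k := key i h
    rw [e, hl i h, ea i h, eb i h] at k
    rcases k with ⟨-, k⟩ | ⟨t, -, k⟩ | k
    · rcases hy with rfl | rfl <;> cases k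
    · rcases hy with rfl | rfl <;> cases k
    · exact k

theorem none_le {I : Finset ℕ} (h : ∀ i ∈ I, False) : I.card ≤ 0 := by
  rw [eq_empty_of_forall_notMem h, card_empty]

end C12P

open C12P in
theorem c1 (h : S_Cnt) : S_C1 := by
  classical
  intro p m c Rig 𝒟 𝒲 lev ℋ B P hW
  have := cover h ℋ (gam (Rigid Rig lev) Cl.fa) 𝒲 p.Nh p.D p.tt (p.i₁ - p.ρ) p.L 0 0 P.1
    fun w hw => by
      obtain ⟨hD, hR, i', hF, I₀, h0, hI₀⟩ := hW w hw
      have hi := (lt_of_some hF.1).le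
      have hl := B.len w hD
      obtain ⟨a, ha, b, hb, k1, k2, k3⟩ := main B P hD (le_refl i') hi (Or.inl rfl)
      refine ⟨a, ha, b, hb, i', hi.trans hl, hl, rfl, k1, k2, fun I hI => ?_,
        fun I hI => B.blunt w hD I fun i h => (hI i h).2, fun I hI => none_le fun i h => ?_,
        fun I hI => none_le fun i h => ?_⟩
      · have k := fun i h => k3 i _ (lt_of_some (hI i h).2) (Or.inl rfl) (hI i h).1
        have hd : Disjoint I I₀ := disjoint_left.2 fun i h h' => by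
          obtain ⟨e1, -, e2⟩ := hI₀ i h'
          rcases (k i h).2.2 with ⟨-, e, -⟩ | ⟨e, -⟩
          · exact e2 e
          · omega
        have := (B.sharp w hD hR (I ∪ I₀) fun i h => (mem_union.1 h).elim
          (fun h => ⟨(hI i h).2, (k i h).1, (k i h).2.1⟩) fun h => (hI₀ i h).2.1).1
        rw [card_union_of_disjoint hd] at this
        omega
      · rcases (k3 i _ (lt_of_some (hI i h).2) (Or.inr rfl) (hI i h).1).2.2 with
          ⟨-, -, e⟩ | ⟨-, e⟩ <;> cases e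
      · rcases (k3 i _ (lt_of_some (hI i h).2) (Or.inr rfl) (hI i h).1).2.2 with
          ⟨-, -, e⟩ | ⟨-, e⟩ <;> cases e
  rwa [pow_zero, mul_one] at this

open C12P in
theorem c2 (h : S_Cnt) : S_C2 := by
  intro p m c Rig 𝒟 𝒲 lev ℋ B P hW
  refine cover h ℋ (gam (Rigid Rig lev) Cl.fb) 𝒲 p.Nh p.D p.tt p.js (p.C * p.J₁) p.s p.L P.1
    fun w hw => ?_
  obtain ⟨hD, τ, hC, i', hτ, hF, hJ⟩ := hW w hw
  have hi := (lt_of_some hF.1).le
  have hl := B.len w hD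
  obtain ⟨a, ha, b, hb, k1, k2, k3⟩ := main B P hD hτ hi (Or.inr rfl)
  refine ⟨a, ha, b, hb, τ, hτ.trans (hi.trans hl), hl, rfl, k1, k2,
    fun I hI => hC.2.1 I fun i h => ?_, fun I hI => hJ I fun i h => ?_,
    fun I hI => hC.2.2.1 I fun i h => ?_, fun I hI => B.blunt w hD I fun i h => (hI i h).2⟩
  · obtain ⟨e1, e2, ⟨e3, -⟩ | ⟨-, e⟩⟩ := k3 i _ (lt_of_some (hI i h).2) (Or.inl rfl) (hI i h).1
    · exact ⟨e3, (hI i h).2, e1, e2⟩
    · cases e
  · obtain ⟨-, -, ⟨e3, e4, -⟩ | ⟨-, e⟩⟩ := k3 i _ (lt_of_some (hI i h).2) (Or.inl rfl) (hI i h).1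
    · exact ⟨e3, (hI i h).2, e4⟩
    · cases e
  · obtain ⟨e1, e2, ⟨-, -, e⟩ | ⟨e3, -⟩⟩ := k3 i _ (lt_of_some (hI i h).2) (Or.inr rfl) (hI i h).1
    · cases e
    · exact ⟨e3, (hI i h).2, e1, e2⟩

end Pool.Agent.P.MP_0b9d6e_co
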