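import Pool.Agent.P.MP_0b9d6e_co.Base

/-!
The count of the words of case III.
-/

namespace Pool.Agent.P.MP_0b9d6e_co

open Finset

namespace C3P

/-- the hypothesis of the counting lemma -/
def CH (γ : List Bool → Cl) (n t a₁ j₁ a₂ j₂ : ℕ) (w : List Bool) : Prop :=
  w.length = n ∧ (∀ i b, i < n → γ (w.take i) = Cl.frc b → w[i]? = some b) ∧
    (∀ I : Finset ℕ, (∀ i ∈ I, i < n ∧ γ (w.take i) = Cl.rig) → I.card ≤ t) ∧
    AtMost γ w Cl.fa true a₁ ∧ AtMost γ w Cl.fa false j₁ ∧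
    AtMost γ w Cl.fb true a₂ ∧ AtMost γ w Cl.fb false j₂

theorem atMost_zero {γ : List Bool → Cl} {w : List Bool} {x : Cl} {b : Bool} (h : ∀ u, γ u ≠ x) :
    AtMost γ w x b 0 := fun I hI => by
  rw [eq_empty_of_forall_notMem fun i hi => h _ (hI i hi).1, card_empty]

variable {T : Type}

open scoped Classical in
/-- classes of the early steps -/
noncomputable def g₁ (Rg : List Bool → Prop) (h : List Bool → Option (T × Bool))
    (u : List Bool) : Cl :=
  if Rg u then Cl.rig else (h u).elim Cl.fa fun t => Cl.frc t.2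

open scoped Classical in
/-- classes of all steps when the early steps and the late sharp levels are known -/
noncomputable def g₂ (Rg : List Bool → Prop) (h : List Bool → Option (T × Bool))
    (w₀ : List Bool) (Q : List Bool → Prop) (u : List Bool) : Cl :=
  if u.length < w₀.length then Cl.frc (w₀.getD u.length false) else
    if Rg u then Cl.rig else (h u).elim (Cl.frc (decide (Q u))) fun t => Cl.frc t.2

variable {Rg : List Bool → Prop} {h : List Bool → Option (T × Bool)} {u w₀ : List Bool}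
  {Q : List Bool → Prop} {b : Bool}

theorem g₁_frc (e : g₁ Rg h u = Cl.frc b) : ∃ t, h u = some t ∧ t.2 = b := by
  unfold g₁ at e
  split_ifs at e
  cases hu : h u with
  | none => rw [hu] at e; cases e
  | some t => rw [hu] at e; exact ⟨t, rfl, Cl.frc.inj e⟩

theorem g₁_rig (e : g₁ Rg h u = Cl.rig) : Rg u := by
  unfold g₁ at e
  split_ifs at e with h1
  · exact h1
  · cases hu : h u <;> rw [hu] at e <;> cases e

theorem g₁_fa (e : g₁ Rg h u = Cl.fa) : ¬ Rg u ∧ h u = none := by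
  unfold g₁ at e
  split_ifs at e with h1
  cases hu : h u with
  | none => exact ⟨h1, rfl⟩
  | some t => rw [hu] at e; cases e

theorem g₁_fb (u : List Bool) : g₁ Rg h u ≠ Cl.fb := fun e => by
  unfold g₁ at e
  split_ifs at e
  cases hu : h u <;> rw [hu] at e <;> cases e

theorem g₂_frc (e : g₂ Rg h w₀ Q u = Cl.frc b) :
    (u.length < w₀.length ∧ w₀.getD u.length false = b) ∨ (∃ t, h u = some t ∧ t.2 = b) ∨
      (w₀.length ≤ u.length ∧ ¬ Rg u ∧ h u = none ∧ (b = true ↔ Q u)) := by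
  unfold g₂ at e
  split_ifs at e with h1 h2
  · exact Or.inl ⟨h1, Cl.frc.inj e⟩
  · cases hu : h u with
    | none =>
      rw [hu] at e
      refine Or.inr (Or.inr ⟨not_lt.1 h1, h2, rfl, ?_⟩)
      rw [← Cl.frc.inj e]
      exact @decide_eq_true_iff _ (Classical.propDecidable _)
    | some t => rw [hu] at e; exact Or.inr (Or.inl ⟨t, rfl, Cl.frc.inj e⟩)

theorem g₂_rig (e : g₂ Rg h w₀ Q u = Cl.rig) : Rg u := by
  unfold g₂ at e
  split_ifs at e with h1 h2
  · exact h2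
  · cases hu : h u <;> rw [hu] at e <;> cases e

theorem g₂_fa (u : List Bool) : g₂ Rg h w₀ Q u ≠ Cl.fa := fun e => by
  unfold g₂ at e
  split_ifs at e
  cases hu : h u <;> rw [hu] at e <;> cases e

theorem g₂_fb (u : List Bool) : g₂ Rg h w₀ Q u ≠ Cl.fb := fun e => by
  unfold g₂ at e
  split_ifs at e
  cases hu : h u <;> rw [hu] at e <;> cases e

theorem take_get {w : List Bool} {τ i : ℕ} (e : (w.take τ)[i]? = some b) :
    i < τ ∧ w[i]? = some b := by
  rw [List.getElem?_take] at e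
  split_ifs at e with h1
  exact ⟨h1, e⟩

end C3P

open C3P in
theorem c3 (h1 : S_Cnt) (h2 : S_Sets) (h3 : S_C3a) : S_C3 := by
  classical
  intro p m c Ga Gb Rig W 𝒟 𝒲 lev ℋ hy ht hb hp hW
  let 𝒯 : (List Bool → Option (Fin p.k × Bool)) → ℕ → Finset (List Bool) := fun h n =>
    𝒟.filter (CH (g₁ (Rigid Rig lev) h) n p.tt p.js p.L 0 0)
  let W' : List Bool → Finset (Fin m) := fun w₀ => univ.filter fun v =>
    v ∉ Anc lev true w₀ ∧ v ∉ Anc lev false w₀ ∧ W (Anc lev true w₀) (Anc lev false w₀) v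
  let 𝒮 : List Bool → Finset (Finset (Fin m)) := fun w₀ => univ.filter fun S =>
    S ⊆ W' w₀ ∧ S.card ≤ p.s ∧ ∀ I ⊆ S, (∀ u ∈ I, ∀ v ∈ I, u ≠ v → ¬ Ga u v) → I.card ≤ p.ρ + 1
  let 𝒱 : (List Bool → Option (Fin p.k × Bool)) → List Bool → Finset (Fin m) → ℕ →
      Finset (List Bool) := fun h w₀ S n =>
    𝒲.filter (CH (g₂ (Rigid Rig lev) h w₀ fun u => lev u ∈ S) n p.tt 0 0 0 0)
  have c𝒯 : ∀ h n, (𝒯 h n).card ≤ 2 ^ p.tt * (p.L + 1) ^ p.js := fun h n => by
    simpa using h1 _ (𝒯 h n) n p.tt p.js p.L 0 0 fun w hw => (mem_filter.1 hw).2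
  have c𝒱 : ∀ h w₀ S n, (𝒱 h w₀ S n).card ≤ 2 ^ p.tt := fun h w₀ S n => by
    simpa using h1 _ (𝒱 h w₀ S n) n p.tt 0 0 0 0 fun w hw => (mem_filter.1 hw).2
  have c𝒮 : ∀ w₀ ∈ 𝒟, (𝒮 w₀).card ≤
      (p.s + 1) * (p.w + 1) ^ (p.ρ + 1) * (p.s * p.g + 1) ^ p.s := fun w₀ hw =>
    h2 _ Ga p.w p.g p.s (p.ρ + 1) (W' w₀) (𝒮 w₀) hy.symm hy.degen
      (hy.wcard _ _ _ (hb.cardA _ hw) (hb.cardR _ hw) fun v hv => (mem_filter.1 hv).2)
      fun S hS => (mem_filter.1 hS).2
  have cov : 𝒲 ⊆ ℋ.biUnion fun h => (range (p.D + 1)).biUnion fun n₁ => (𝒯 h n₁).biUnion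
      fun w₀ => (𝒮 w₀).biUnion fun S => (range (p.D + 1)).biUnion fun n => 𝒱 h w₀ S n := by
    intro w hw
    obtain ⟨hD, hc⟩ := hW w hw
    obtain ⟨τ, ⟨t1, t2, -, -⟩, S, s1, s2, s3, s4⟩ := h3 p m c Ga Gb Rig W 𝒟 lev hy ht hb w hD hc
    have hl := hb.len w hD
    obtain ⟨h, hh, hh'⟩ := hp.2 w (lev w) hl
    have hτ : (w.take τ).length = τ := by rw [List.length_take, min_eq_left t1]
    have tk : ∀ i < τ, (w.take τ).take i = w.take i := fun i hi => by
      rw [List.take_take, min_eq_left hi.le]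
    have frc : ∀ i < w.length, ∀ t, h (w.take i) = some t → w[i]? = some t.2 := fun i hi t e =>
      hb.forced w hD i w.length t hi le_rfl (by rw [List.take_length, ← hh' i hi, e])
    simp only [mem_biUnion]
    refine ⟨h, hh, τ, mem_range.2 (by omega), w.take τ, mem_filter.2 ⟨ht.pre w hD τ, hτ, ?_, ?_, ?_,
      ?_, atMost_zero g₁_fb, atMost_zero g₁_fb⟩, S, mem_filter.2 ⟨mem_univ _, fun v hv =>
      mem_filter.2 ⟨mem_univ _, s2 v hv⟩, s3, s4⟩, w.length, mem_range.2 (by omega),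
      mem_filter.2 ⟨hw, rfl, ?_, ?_, atMost_zero g₂_fa, atMost_zero g₂_fa, atMost_zero g₂_fb,
      atMost_zero g₂_fb⟩⟩
    · intro i b hi e
      rw [tk i hi] at e
      obtain ⟨t, e1, rfl⟩ := g₁_frc e
      rw [List.getElem?_take, if_pos hi]
      exact frc i (by omega) t e1
    · refine fun I hI => hb.rigid w hD I fun i hi => ⟨(hI i hi).1.le.trans t1, ?_⟩
      have := g₁_rig (hI i hi).2
      rwa [tk i (hI i hi).1] at this
    · refine fun I hI => t2 I fun i hi => ?_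
      obtain ⟨e1, e2⟩ := hI i hi
      obtain ⟨e3, e4⟩ := take_get e2
      rw [tk i e3] at e1
      exact ⟨e3, e4, (g₁_fa e1).1, by rw [← hh' i (by omega), (g₁_fa e1).2]⟩
    · exact fun I hI => hb.blunt w hD I fun i hi => (take_get (hI i hi).2).2
    · intro i b hi e
      have hi' : (w.take i).length = i := by rw [List.length_take, min_eq_left hi.le]
      rcases g₂_frc e with ⟨e1, e2⟩ | ⟨t, e1, rfl⟩ | ⟨e1, e2, e3, e4⟩
      · rw [hi', hτ] at e1
        rw [hi', List.getD_eq_getElem?_getD, List.getElem?_take, if_pos e1,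
          List.getElem?_eq_getElem hi] at e2
        rw [List.getElem?_eq_getElem hi, ← e2]
        rfl
      · exact frc i hi t e1
      · rw [hi', hτ] at e1
        have e5 : b = true ↔ w[i]? = some true :=
          e4.trans ((s1 i e1 hi).trans ⟨fun a => a.1, fun a => ⟨a, e2, by rw [← hh' i hi, e3]⟩⟩)
        rw [List.getElem?_eq_getElem hi, Option.some_inj] at e5 ⊢
        exact (Bool.eq_iff_iff.2 e5).symm
    · exact fun I hI => hb.rigid w hD I fun i hi => ⟨(hI i hi).1.le, g₂_rig (hI i hi).2⟩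
  refine (card_le_card cov).trans ((card_biUnion_le_card_mul _ _ ((p.D + 1) *
    (2 ^ p.tt * (p.L + 1) ^ p.js * ((p.s + 1) * (p.w + 1) ^ (p.ρ + 1) * (p.s * p.g + 1) ^ p.s *
      ((p.D + 1) * 2 ^ p.tt)))) fun h _ => ?_).trans ?_)
  · refine (card_biUnion_le_card_mul _ _ _ fun n₁ _ => ?_).trans (by rw [card_range])
    refine (card_biUnion_le_card_mul _ _ _ fun w₀ hw => ?_).trans
      (Nat.mul_le_mul_right _ (c𝒯 h n₁))
    refine (card_biUnion_le_card_mul _ _ _ fun S _ => ?_).trans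
      (Nat.mul_le_mul_right _ (c𝒮 w₀ (mem_filter.1 hw).1))
    exact (card_biUnion_le_card_mul _ _ _ fun n _ => c𝒱 h w₀ S n).trans (by rw [card_range])
  · refine (Nat.mul_le_mul_right _ hp.1).trans (le_of_eq ?_)
    rw [Par.T₃, show (4 : ℕ) = 2 * 2 from rfl, mul_pow]
    ring

end Pool.Agent.P.MP_0b9d6e_co
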