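import Pool.Agent.P.MP_0b9d6e_co.Base

/-!
The set of late sharp levels in case III.
-/

namespace Pool.Agent.P.MP_0b9d6e_co

open Finset

namespace C3aP

theorem take_take_le (w : List Bool) {i j : ℕ} (h : i ≤ j) : (w.take j).take i = w.take i := by
  rw [List.take_take, min_eq_left h]

theorem get_take (w : List Bool) {i j : ℕ} (h : i < j) : (w.take j)[i]? = w[i]? := by
  rw [List.getElem?_take, if_pos h]

theorem rel' {V : Type} [LT V] {P : Bool → V → V → Prop} {𝒟 : Finset (List Bool)}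
    {lev : List Bool → V} (hT : IsTree P 𝒟 lev) {w : List Bool} (hw : w ∈ 𝒟) {i j : ℕ} {b : Bool}
    (h : i < j) (hb : w[i]? = some b) : P b (lev (w.take i)) (lev (w.take j)) := by
  have := (hT.rel _ (hT.pre w hw j) i b ((get_take w h).trans hb)).2
  rwa [take_take_le w h.le] at this

theorem mem_anc {V : Type} [DecidableEq V] {lev : List Bool → V} {b : Bool} {w : List Bool}
    {τ : ℕ} (hτ : τ ≤ w.length) {a : V} :
    a ∈ Anc lev b (w.take τ) ↔ ∃ i, i < τ ∧ w[i]? = some b ∧ lev (w.take i) = a := by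
  simp only [Anc, mem_image, mem_filter, mem_range, List.length_take, min_eq_left hτ]
  constructor
  · rintro ⟨i, ⟨h1, h2⟩, h3⟩
    exact ⟨i, h1, (get_take w h1).symm.trans h2, by rw [← h3, take_take_le w h1.le]⟩
  · rintro ⟨i, h1, h2, h3⟩
    exact ⟨i, ⟨h1, (get_take w h1).trans h2⟩, by rw [← h3, take_take_le w h1.le]⟩

theorem ok_true {V : Type} {k : ℕ} {c : V → V → Option (Fin k × Bool)} {Ga Gb : V → V → Prop}
    {a y : V} (h : OK c Ga Gb true a y) (hc : c a y = none) : Ga a y := by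
  rcases h with ⟨j, h⟩ | h
  · rw [hc] at h; cases h
  · simpa using h.2

theorem ok_false {V : Type} {k : ℕ} {c : V → V → Option (Fin k × Bool)} {Ga Gb : V → V → Prop}
    {a y : V} (h : OK c Ga Gb false a y) (hc : c a y = none) : ¬ Gb a y := by
  rcases h with ⟨j, h⟩ | h
  · rw [hc] at h; cases h
  · simpa using h.2

end C3aP

open C3aP in
theorem c3a : S_C3a := by
  classical
  intro p m c Ga Gb Rig W 𝒟 lev hH hT hB w hw ⟨hI, τ, hC, h3⟩
  have anti := hB.anti w hw
  have inj : ∀ i j, i ≤ w.length → j ≤ w.length → lev (w.take i) = lev (w.take j) → i = j :=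
    fun i j hi hj e => by
      rcases lt_trichotomy i j with h | h | h
      · exact ((anti i j h hj).ne' e).elim
      · exact h
      · exact ((anti j i h hi).ne e).elim
  have lt : ∀ i j, i ≤ w.length → lev (w.take j) < lev (w.take i) → i < j := fun i j hi h => by
    rcases lt_trichotomy i j with h' | h' | h'
    · exact h'
    · rw [h'] at h; exact (lt_irrefl _ h).elim
    · exact (lt_asymm h (anti j i h' hi)).elim
  have hτ := hC.1
  have few : ∀ i', InF p c Rig lev w i' → ∀ I : Finset ℕ, (∀ i ∈ I, i < i' ∧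
      InF p c Rig lev w i ∧ c (lev (w.take i)) (lev (w.take i')) ≠ none) → I.card ≤ p.ρ :=
    fun i' hi' I h => not_lt.1 fun h' => hI ⟨i', hi', I, h', h⟩
  obtain ⟨J, hJ⟩ : ∃ J : Finset ℕ, ∀ i, i ∈ J ↔ τ ≤ i ∧ i < w.length ∧ InF p c Rig lev w i :=
    ⟨(Ico τ w.length).filter (InF p c Rig lev w), fun i => by
      rw [mem_filter, mem_Ico, and_assoc]⟩
  refine ⟨τ, hC, J.image fun i => lev (w.take i), fun i h1 h2 => ⟨fun h => ?_, fun h => ?_⟩,
    fun v hv => ?_, card_image_le.trans (hC.2.2.1 J fun i hi => ⟨((hJ i).1 hi).1, ((hJ i).1 hi).2.2⟩),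
    fun I hIS hind => ?_⟩
  · obtain ⟨j, hj, e⟩ := mem_image.1 h
    have := inj j i ((hJ j).1 hj).2.1.le h2.le e
    exact this ▸ ((hJ j).1 hj).2.2
  · exact mem_image.2 ⟨i, (hJ i).2 ⟨h1, h2, h⟩, rfl⟩
  · obtain ⟨i', hi', rfl⟩ := mem_image.1 hv
    obtain ⟨t1, t2, t3⟩ := (hJ i').1 hi'
    have notm : ∀ b, lev (w.take i') ∉ Anc lev b (w.take τ) := fun b h => by
      obtain ⟨i, h1, -, e⟩ := (mem_anc hτ).1 h
      exact (anti i i' (h1.trans_le t1) t2.le).ne' e
    refine ⟨notm true, notm false, ?_⟩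
    obtain ⟨I0, c1, c2⟩ := hC.2.2.2 i' t1 t3
    obtain ⟨I1, d1, d2⟩ := h3 i' t1 t3
    have sub : (I1.image fun i => lev (w.take i)) ⊆ Anc lev false (w.take τ) := fun a ha => by
      obtain ⟨i, hi, e⟩ := mem_image.1 ha
      exact (mem_anc hτ).2 ⟨i, (d2 i hi).1, (d2 i hi).2.1, e⟩
    have hL := (card_le_card sub).trans (hB.cardR _ (hT.pre w hw τ))
    obtain ⟨R', r1, r2, r3⟩ := hH.free _ (hL.trans ((Nat.le_succ _).trans hH.sL))
    rw [card_image_of_injOn fun i hi j hj e =>
      inj i j ((d2 i hi).1.le.trans hτ) ((d2 j hj).1.le.trans hτ) e] at r2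
    refine hH.wmem _ _ ((I0.filter fun i => c (lev (w.take i)) (lev (w.take i')) = none).image
      fun i => lev (w.take i)) R' _ (fun a ha => ?_) (fun u hu => ?_) (fun u hu => ?_) ?_
      (r1.trans sub) (fun u hu => ?_) (fun u hu u' hu' h => ?_)
      (Nat.lt_of_mul_lt_mul_left (d1.trans_le r2)) (fun a ha h => ?_) fun a ha h => ?_
    · obtain ⟨i, hi, e⟩ := mem_image.1 ha
      have := c2 i (mem_filter.1 hi).1
      exact (mem_anc hτ).2 ⟨i, this.1, this.2.1, e⟩
    · obtain ⟨i, hi, rfl⟩ := mem_image.1 hu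
      have h1 := c2 i (mem_filter.1 hi).1
      have h2 := hB.anc _ (hT.pre w hw τ) true i (by rw [List.length_take, min_eq_left hτ]; omega)
      rw [take_take_le w h1.1.le] at h2
      rw [← h2]
      exact h1.2.2.1
    · obtain ⟨i, hi, rfl⟩ := mem_image.1 hu
      exact (mem_filter.1 hi).2
    · rw [card_image_of_injOn fun i hi j hj e => inj i j
        ((c2 i (mem_filter.1 hi).1).1.le.trans hτ) ((c2 j (mem_filter.1 hj).1).1.le.trans hτ) e]
      have h1 := card_filter_add_card_filter_not (s := I0)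
        (fun i => c (lev (w.take i)) (lev (w.take i')) = none)
      have h2 := few i' t3 (I0.filter fun i => ¬ c (lev (w.take i)) (lev (w.take i')) = none)
        fun i hi => ⟨(c2 i (mem_filter.1 hi).1).1.trans_le t1, (c2 i (mem_filter.1 hi).1).2,
          (mem_filter.1 hi).2⟩
      unfold Par.js at c1
      omega
    · obtain ⟨i, hi, rfl⟩ := mem_image.1 (r1 hu)
      exact (d2 i hi).2.2
    · have h0 := r3 u hu u' hu'
      obtain ⟨i, hi, rfl⟩ := mem_image.1 (r1 hu)
      obtain ⟨j, hj, rfl⟩ := mem_image.1 (r1 hu')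
      exact ok_false (rel' hT hw (lt i j ((d2 i hi).1.le.trans hτ) h) (d2 i hi).2.1) h0
    · obtain ⟨i, h1, h2, rfl⟩ := (mem_anc hτ).1 ha
      exact ok_true (rel' hT hw (h1.trans_le t1) h2) h
    · obtain ⟨i, h1, h2, rfl⟩ := (mem_anc hτ).1 ha
      exact ok_false (rel' hT hw (h1.trans_le t1) h2) h
  · rcases I.eq_empty_or_nonempty with rfl | hne
    · simp
    have hv := I.min'_mem hne
    obtain ⟨i', hi', e⟩ := mem_image.1 (hIS hv)
    have h1 : I.erase (I.min' hne) ⊆ (J.filter fun i => lev (w.take i) ∈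
        I.erase (I.min' hne)).image fun i => lev (w.take i) := fun u hu => by
      obtain ⟨i, hi, rfl⟩ := mem_image.1 (hIS (mem_of_mem_erase hu))
      exact mem_image.2 ⟨i, mem_filter.2 ⟨hi, hu⟩, rfl⟩
    have h2 := few i' ((hJ i').1 hi').2.2 (J.filter fun i => lev (w.take i) ∈
        I.erase (I.min' hne)) fun i hi => by
      obtain ⟨a1, a2⟩ := mem_filter.1 hi
      obtain ⟨a3, a4⟩ := mem_erase.1 a2
      have a5 := (hJ i).1 a1
      have a6 : i < i' := lt i i' a5.2.1.le (by
        rw [e]; exact lt_of_le_of_ne (I.min'_le _ a4) (Ne.symm a3))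
      refine ⟨a6, a5.2.2, fun h => hind _ a4 _ hv a3 ?_⟩
      rw [← e]
      exact ok_true (rel' hT hw a6 a5.2.2.1) h
    have h3 := (card_le_card h1).trans card_image_le
    rw [card_erase_of_mem hv] at h3
    omega

end Pool.Agent.P.MP_0b9d6e_co
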