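import Pool.Agent.P.MP_0b9d6e_co.Base

/-!
Package Cls: the multi-scale labels, large unlabelled subsets and the rank function.
-/

namespace Pool.Agent.P.MP_0b9d6e_co

open Finset

namespace ClsP

variable {M : ℕ} [NeZero M] {Γ : Fin M → Fin M → Option Bool}

omit [NeZero M] in
theorem div_up {a y i j : ℕ} (h : a / M ^ i = y / M ^ i) (hij : i ≤ j) :
    a / M ^ j = y / M ^ j := by
  obtain ⟨e, rfl⟩ := Nat.exists_eq_add_of_le hij
  rw [pow_add, ← Nat.div_div_eq_div_mul, ← Nat.div_div_eq_div_mul, h]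

theorem nlt (hd : ∀ u, Γ u u = none) {a y j j' : ℕ} {l : Bool}
    (h : a / M ^ (j + 2) = y / M ^ (j + 2))
    (h' : Γ (dig M (j' + 1) a) (dig M (j' + 1) y) = some l) : ¬ j < j' := by
  intro hj
  have : dig M (j' + 1) a = dig M (j' + 1) y := by
    unfold dig
    rw [div_up h (by omega : j + 2 ≤ j' + 1)]
  rw [this, hd] at h'
  cases h'

theorem free (h : S_Ind) {m s₀ r α : ℕ} (hL : Lab Γ s₀ r α) (A : Finset (Fin m))
    (hA : A.card ≤ s₀) (k : ℕ) : ∃ A' ⊆ A, A.card ≤ (r + 1) ^ k * A'.card ∧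
      ∀ j < k, ∀ u ∈ A', ∀ v ∈ A', Γ (dig M (j + 1) u.1) (dig M (j + 1) v.1) = none := by
  induction k with
  | zero => exact ⟨A, Subset.refl _, by simp, fun j hj => absurd hj (Nat.not_lt_zero j)⟩
  | succ k ih =>
    obtain ⟨A', hA', hc, hn⟩ := ih
    obtain ⟨B, hB, hc', hn'⟩ := h (Fin M) (Fin m) (fun u v => Γ u v ≠ none) s₀ r A'
      (fun u => dig M (k + 1) u.1) (fun u v huv => by rw [hL.symm]; exact huv) hL.degen
      ((card_le_card hA').trans hA)
    refine ⟨B, hB.trans hA', ?_, fun j hj u hu v hv => ?_⟩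
    · rw [pow_succ, mul_assoc]
      exact hc.trans (Nat.mul_le_mul_left _ hc')
    · rcases Nat.lt_succ_iff_lt_or_eq.1 hj with hj | rfl
      · exact hn j hj u (hB hu) v (hB hv)
      · by_cases he : dig M (j + 1) u.1 = dig M (j + 1) v.1
        · rw [he, hL.diag]
        · exact not_not.1 (hn' u hu v hv he)

open scoped Classical in
/-- the digits labelled in the same way with all points of `S` -/
noncomputable def CC (Γ : Fin M → Fin M → Option Bool) {m : ℕ} (j : ℕ) (S : Finset (Fin m)) :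
    Finset (Fin M) :=
  univ.filter fun u => (∀ y ∈ S, ∀ y' ∈ S, y.1 / M ^ (j + 2) = y'.1 / M ^ (j + 2)) ∧
    ∃ l, ∀ y ∈ S, Γ u (dig M (j + 1) y.1) = some l

/-- the digits of the points of `S` -/
def VV (M : ℕ) [NeZero M] {m : ℕ} (j : ℕ) (S : Finset (Fin m)) : Finset (Fin M) :=
  S.image fun y => dig M (j + 1) y.1

/-- the potential at one scale -/
noncomputable def pot (Γ : Fin M → Fin M → Option Bool) (r : ℕ) {m : ℕ} (j : ℕ)
    (S : Finset (Fin m)) : ℕ :=
  if (CC Γ j S).card ≤ r then 2 * r + 1 - (CC Γ j S).card else (VV M j S).card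

theorem mem_CC {m j : ℕ} {S : Finset (Fin m)} {u : Fin M} : u ∈ CC Γ j S ↔
    (∀ y ∈ S, ∀ y' ∈ S, y.1 / M ^ (j + 2) = y'.1 / M ^ (j + 2)) ∧
      ∃ l, ∀ y ∈ S, Γ u (dig M (j + 1) y.1) = some l := by
  simp only [CC, mem_filter, mem_univ, true_and]

theorem CC_mono {m j : ℕ} {S S' : Finset (Fin m)} (h : S' ⊆ S) : CC Γ j S ⊆ CC Γ j S' := by
  intro u hu
  obtain ⟨h1, l, h2⟩ := mem_CC.1 hu
  exact mem_CC.2 ⟨fun y hy y' hy' => h1 y (h hy) y' (h hy'), l, fun y hy => h2 y (h hy)⟩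

theorem kf (h : S_Kfree) {m s₀ r α : ℕ} (hL : Lab Γ s₀ r α) (hs : 2 * r + 2 ≤ s₀) (j : ℕ)
    (S : Finset (Fin m)) : (CC Γ j S).card ≤ r ∨ (VV M j S).card ≤ r := by
  refine h (Fin M) (fun u v => Γ u v ≠ none) s₀ r _ _
    (fun u v huv => by rw [hL.symm]; exact huv) (fun u hu => hu (hL.diag u)) hL.degen hs ?_
  intro u hu v hv
  obtain ⟨-, l, h2⟩ := mem_CC.1 hu
  obtain ⟨y, hy, rfl⟩ := mem_image.1 hv
  rw [h2 y hy]
  exact Option.some_ne_none l

end ClsP

open ClsP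

theorem cls (h : S_Ind) : S_Cls := by
  classical
  intro m M k _ Γ s₀ r α hL
  let P : Fin m → Fin m → Fin k × Bool → Prop := fun a y t =>
    a.1 / M ^ (t.1.1 + 2) = y.1 / M ^ (t.1.1 + 2) ∧
      Γ (dig M (t.1.1 + 1) a.1) (dig M (t.1.1 + 1) y.1) = some t.2
  have hu : ∀ a y t t', P a y t → P a y t' → t = t' := by
    rintro a y ⟨j, l⟩ ⟨j', l'⟩ h1 h2
    have e : j = j' := Fin.ext (le_antisymm (not_lt.1 (nlt hL.diag h2.1 h1.2))
      (not_lt.1 (nlt hL.diag h1.1 h2.2)))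
    subst e
    have : l = l' := Option.some.inj (h1.2.symm.trans h2.2)
    rw [this]
  refine ⟨fun a y => if h : ∃ t, P a y t then some h.choose else none, fun a y t => ?_,
    fun A hA => ?_⟩
  · change _ ↔ P a y t
    by_cases he : ∃ t, P a y t
    · simp only [dif_pos he, Option.some.injEq]
      exact ⟨fun e => e ▸ he.choose_spec, fun e => hu a y _ _ he.choose_spec e⟩
    · simp only [dif_neg he]
      exact ⟨fun e => (by cases e), fun e => absurd ⟨t, e⟩ he⟩
  · obtain ⟨A', h1, h2, h3⟩ := free h hL A hA k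
    refine ⟨A', h1, h2, fun u hu v hv => dif_neg ?_⟩
    rintro ⟨t, -, ht⟩
    rw [h3 t.1.1 t.1.2 u hu v hv] at ht
    cases ht

theorem rank (h : S_Kfree) : S_Rank := by
  intro m M k _ Γ s₀ r α c hL hs hc
  have hK := kf (m := m) h hL hs
  refine ⟨fun S => ∑ j : Fin k, pot Γ r j.1 S, fun S => ?_, fun S S' a t hSS hne hall hex => ?_⟩
  · calc ∑ j : Fin k, pot Γ r j.1 S ≤ ∑ _j : Fin k, (2 * r + 1) := sum_le_sum fun j _ => by
          have := hK j.1 S
          unfold pot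
          split_ifs <;> omega
      _ = k * (2 * r + 1) := by simp
  · have hW : ∀ j, VV M j S' ⊆ VV M j S := fun j => image_subset_image hSS
    refine sum_lt_sum (fun j _ => ?_) ⟨t.1, mem_univ _, ?_⟩
    · have h1 := hK j.1 S'
      have h2 := card_le_card (CC_mono (Γ := Γ) (j := j.1) hSS)
      have h3 := card_le_card (hW j.1)
      unfold pot
      split_ifs <;> omega
    · obtain ⟨y₀, hy₀⟩ := hne
      obtain ⟨y, hy, hyc⟩ := hex
      have hall' := fun z hz => (hc a z t).1 (hall z hz)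
      have hin : dig M (t.1.1 + 1) a.1 ∈ CC Γ t.1.1 S' :=
        mem_CC.2 ⟨fun z hz z' hz' => (hall' z hz).1.symm.trans (hall' z' hz').1, t.2,
          fun z hz => (hall' z hz).2⟩
      have hout : dig M (t.1.1 + 1) a.1 ∉ CC Γ t.1.1 S := by
        intro hm
        obtain ⟨h1, l, h2⟩ := mem_CC.1 hm
        refine hyc ((hc a y t).2 ⟨(hall' y₀ hy₀).1.trans (h1 y₀ (hSS hy₀) y hy), ?_⟩)
        rw [h2 y hy, ← h2 y₀ (hSS hy₀), (hall' y₀ hy₀).2]
      have h1 := hK t.1.1 S'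
      have h2 : (CC Γ t.1.1 S).card < (CC Γ t.1.1 S').card :=
        card_lt_card ((ssubset_iff_of_subset (CC_mono hSS)).2 ⟨_, hin, hout⟩)
      have h3 : r < (CC Γ t.1.1 S).card → (VV M t.1.1 S').card < (VV M t.1.1 S).card := by
        intro hr
        obtain ⟨u, hu⟩ := card_pos.1 (lt_of_le_of_lt (Nat.zero_le r) hr)
        refine card_lt_card ((ssubset_iff_of_subset (hW _)).2
          ⟨dig M (t.1.1 + 1) y.1, mem_image_of_mem _ hy, fun hm => ?_⟩)
        obtain ⟨z, hz, he⟩ := mem_image.1 hm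
        refine hyc ((hc a y t).2
          ⟨(hall' y₀ hy₀).1.trans ((mem_CC.1 hu).1 y₀ (hSS hy₀) y hy), ?_⟩)
        rw [← he]
        exact (hall' z hz).2
      unfold pot
      split_ifs <;> omega

end Pool.Agent.P.MP_0b9d6e_co
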