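import Pool.Agent.P.MP_0b9d6e_co.Base

/-!
Counting words with budgets.
-/

namespace Pool.Agent.P.MP_0b9d6e_co

open Finset

namespace CntP

/-- at most `t` indices have the property `P` -/
def Bd (P : ℕ → Prop) (t : ℕ) : Prop := ∀ I : Finset ℕ, (∀ i ∈ I, P i) → I.card ≤ t

theorem Bd.tail {P Q : ℕ → Prop} {t : ℕ} (h : Bd P t) (hQ : ∀ i, Q i → P (i + 1)) : Bd Q t := by
  intro I hI
  rw [← card_image_of_injective I Nat.succ_injective]
  refine h _ fun i hi => ?_
  obtain ⟨k, hk, rfl⟩ := mem_image.1 hi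
  exact hQ k (hI k hk)

theorem Bd.tail' {P Q : ℕ → Prop} {t : ℕ} (h : Bd P (t + 1)) (h0 : P 0)
    (hQ : ∀ i, Q i → P (i + 1)) : Bd Q t := by
  intro I hI
  have := h (insert 0 (I.image Nat.succ)) fun i hi => by
    rcases mem_insert.1 hi with rfl | hi
    · exact h0
    · obtain ⟨k, hk, rfl⟩ := mem_image.1 hi
      exact hQ k (hI k hk)
  rw [card_insert_of_notMem (by simp), card_image_of_injective I Nat.succ_injective] at this
  omega

theorem Bd.zero {P : ℕ → Prop} (h : Bd P 0) : ¬ P 0 := fun h0 => by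
  simpa using h {0} (by simpa using h0)

theorem rig_tail {γ : List Bool → Cl} {b : Bool} {u : List Bool} {n : ℕ} (i : ℕ)
    (h : i < n ∧ γ (b :: u.take i) = Cl.rig) :
    i + 1 < n + 1 ∧ γ ((b :: u).take (i + 1)) = Cl.rig := ⟨Nat.succ_lt_succ h.1, h.2⟩

theorem am_tail {γ : List Bool → Cl} {b c : Bool} {u : List Bool} {x : Cl} {a : ℕ}
    (h : AtMost γ (b :: u) x c a) : AtMost (fun v => γ (b :: v)) u x c a :=
  Bd.tail h fun _ h => h

theorem am_tail' {γ : List Bool → Cl} {b : Bool} {u : List Bool} {x : Cl} {a : ℕ}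
    (h : AtMost γ (b :: u) x b (a + 1)) (h0 : γ [] = x) : AtMost (fun v => γ (b :: v)) u x b a :=
  Bd.tail' h ⟨h0, rfl⟩ fun _ h => h

theorem am_zero {γ : List Bool → Cl} {b : Bool} {u : List Bool} {x : Cl}
    (h : AtMost γ (b :: u) x b 0) (h0 : γ [] = x) : False := Bd.zero h ⟨h0, rfl⟩

theorem pow_step (j a : ℕ) : (j + 1 + 1) ^ a + (j + 1) ^ (a + 1) ≤ (j + 1 + 1) ^ (a + 1) := by
  have : (j + 1) ^ a ≤ (j + 1 + 1) ^ a := Nat.pow_le_pow_left (Nat.le_succ _) a
  rw [pow_succ, pow_succ]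
  nlinarith

theorem split (𝒲 : Finset (List Bool)) (h : ∀ w ∈ 𝒲, w ≠ []) :
    ∃ T : Bool → Finset (List Bool), (∀ b, ∀ u ∈ T b, b :: u ∈ 𝒲) ∧
      𝒲.card ≤ (T true).card + (T false).card := by
  refine ⟨fun b => (𝒲.image List.tail).filter fun u => b :: u ∈ 𝒲,
    fun b u hu => (mem_filter.1 hu).2, ?_⟩
  refine le_trans (card_le_card fun w hw => ?_) ((card_union_le _ _).trans
    (add_le_add (card_image_le (f := List.cons true)) (card_image_le (f := List.cons false))))
  obtain ⟨b, u, rfl⟩ := List.exists_cons_of_ne_nil (h w hw)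
  have hu : u ∈ (𝒲.image List.tail).filter fun u => b :: u ∈ 𝒲 :=
    mem_filter.2 ⟨mem_image.2 ⟨_, hw, rfl⟩, hw⟩
  cases b
  · exact mem_union_right _ (mem_image_of_mem _ hu)
  · exact mem_union_left _ (mem_image_of_mem _ hu)

theorem short (t : ℕ) : ∃ L : Finset (List Bool), L.card + 1 ≤ 2 ^ (t + 1) ∧
    ∀ w : List Bool, w.length ≤ t → w ∈ L := by
  induction t with
  | zero => exact ⟨{[]}, by simp, fun w hw => by simpa using hw⟩
  | succ t ih =>
    obtain ⟨L, h1, h2⟩ := ih
    refine ⟨insert [] (L.image (List.cons true) ∪ L.image (List.cons false)), ?_, fun w hw => ?_⟩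
    · have := (card_insert_le [] _).trans (Nat.succ_le_succ ((card_union_le _ _).trans
        (add_le_add (card_image_le (s := L) (f := List.cons true))
          (card_image_le (s := L) (f := List.cons false)))))
      rw [pow_succ]
      omega
    · cases w with
      | nil => exact mem_insert_self _ _
      | cons b u =>
        have hu := h2 u (by simpa using hw)
        cases b
        · exact mem_insert_of_mem (mem_union_right _ (mem_image_of_mem _ hu))
        · exact mem_insert_of_mem (mem_union_left _ (mem_image_of_mem _ hu))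

end CntP

open CntP

theorem cnt : S_Cnt := by
  intro γ 𝒲 n
  induction n generalizing γ 𝒲 with
  | zero =>
    intro t a₁ j₁ a₂ j₂ h
    refine le_trans (card_le_one.2 fun a ha b hb => ?_) (Nat.succ_le_of_lt (by positivity))
    rw [List.length_eq_zero_iff.1 (h a ha).1, List.length_eq_zero_iff.1 (h b hb).1]
  | succ n ih =>
    intro t a₁ j₁ a₂ j₂ h
    obtain ⟨T, hT, hc⟩ := split 𝒲 fun w hw h0 => by simpa [h0] using (h w hw).1
    have key : ∀ b t' a₁' j₁' a₂' j₂', (∀ u ∈ T b,
        Bd (fun i => i < n ∧ γ (b :: u.take i) = Cl.rig) t' ∧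
        AtMost (fun v => γ (b :: v)) u Cl.fa true a₁' ∧
        AtMost (fun v => γ (b :: v)) u Cl.fa false j₁' ∧
        AtMost (fun v => γ (b :: v)) u Cl.fb true a₂' ∧
        AtMost (fun v => γ (b :: v)) u Cl.fb false j₂') →
        (T b).card ≤ 2 ^ t' * (j₁' + 1) ^ a₁' * (j₂' + 1) ^ a₂' := fun b _ _ _ _ _ hu =>
      ih (fun v => γ (b :: v)) (T b) _ _ _ _ _ fun u hm =>
        ⟨by simpa using (h _ (hT b u hm)).1,
          fun i c hi hf => (h _ (hT b u hm)).2.1 (i + 1) c (Nat.succ_lt_succ hi) hf, hu u hm⟩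
    have p1 := fun b u hm => Bd.tail (h _ (hT b u hm)).2.2.1 rig_tail
    have p2 := fun b u hm => am_tail (h _ (hT b u hm)).2.2.2.1
    have p3 := fun b u hm => am_tail (h _ (hT b u hm)).2.2.2.2.1
    have p4 := fun b u hm => am_tail (h _ (hT b u hm)).2.2.2.2.2.1
    have p5 := fun b u hm => am_tail (h _ (hT b u hm)).2.2.2.2.2.2
    have same := fun b => key b t a₁ j₁ a₂ j₂ fun u hm =>
      ⟨p1 b u hm, p2 b u hm, p3 b u hm, p4 b u hm, p5 b u hm⟩
    have one : ∀ b, (∀ u ∈ T b, False) → 𝒲.card ≤ 2 ^ t * (j₁ + 1) ^ a₁ * (j₂ + 1) ^ a₂ := by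
      intro b hb
      have h0 : (T b).card = 0 := card_eq_zero.2 (eq_empty_of_forall_notMem hb)
      have h1 := same true
      have h2 := same false
      cases b <;> omega
    cases hγ : γ [] with
    | frc c =>
      refine one (!c) fun u hm => ?_
      have := (h _ (hT _ u hm)).2.1 0 c (Nat.succ_pos n) hγ
      simp at this
    | rig =>
      cases t with
      | zero => exact one true fun u hm => Bd.zero (h _ (hT _ u hm)).2.2.1 ⟨Nat.succ_pos n, hγ⟩
      | succ t =>
        have h1 := fun b => key b t a₁ j₁ a₂ j₂ fun u hm =>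
          ⟨Bd.tail' (h _ (hT b u hm)).2.2.1 ⟨Nat.succ_pos n, hγ⟩ rig_tail,
            p2 b u hm, p3 b u hm, p4 b u hm, p5 b u hm⟩
        refine hc.trans ((add_le_add (h1 true) (h1 false)).trans_eq ?_)
        ring
    | fa =>
      cases a₁ with
      | zero => exact one true fun u hm => am_zero (h _ (hT _ u hm)).2.2.2.1 hγ
      | succ a₁ =>
        cases j₁ with
        | zero => exact one false fun u hm => am_zero (h _ (hT _ u hm)).2.2.2.2.1 hγ
        | succ j₁ =>
          have h1 := key true t a₁ (j₁ + 1) a₂ j₂ fun u hm => ⟨p1 _ u hm,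
            am_tail' (h _ (hT _ u hm)).2.2.2.1 hγ, p3 _ u hm, p4 _ u hm, p5 _ u hm⟩
          have h2 := key false t (a₁ + 1) j₁ a₂ j₂ fun u hm => ⟨p1 _ u hm, p2 _ u hm,
            am_tail' (h _ (hT _ u hm)).2.2.2.2.1 hγ, p4 _ u hm, p5 _ u hm⟩
          refine hc.trans ((add_le_add h1 h2).trans ?_)
          rw [← add_mul, ← mul_add]
          exact Nat.mul_le_mul_right _ (Nat.mul_le_mul_left _ (pow_step j₁ a₁))
    | fb =>
      cases a₂ with
      | zero => exact one true fun u hm => am_zero (h _ (hT _ u hm)).2.2.2.2.2.1 hγ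
      | succ a₂ =>
        cases j₂ with
        | zero => exact one false fun u hm => am_zero (h _ (hT _ u hm)).2.2.2.2.2.2 hγ
        | succ j₂ =>
          have h1 := key true t a₁ j₁ a₂ (j₂ + 1) fun u hm => ⟨p1 _ u hm, p2 _ u hm, p3 _ u hm,
            am_tail' (h _ (hT _ u hm)).2.2.2.2.2.1 hγ, p5 _ u hm⟩
          have h2 := key false t a₁ j₁ (a₂ + 1) j₂ fun u hm => ⟨p1 _ u hm, p2 _ u hm, p3 _ u hm,
            p4 _ u hm, am_tail' (h _ (hT _ u hm)).2.2.2.2.2.2 hγ⟩
          refine hc.trans ((add_le_add h1 h2).trans ?_)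
          rw [← mul_add]
          exact Nat.mul_le_mul_left _ (pow_step j₂ a₂)

theorem red : S_Red := by
  classical
  intro 𝒟 Rg t N hp hR hN
  obtain ⟨L, h1, h2⟩ := short t
  have h3 := hN (𝒟.filter fun w => ¬ Rg w) (filter_subset _ _) fun w hw => (mem_filter.1 hw).2
  have hs : 𝒟 ⊆ (insert [] (𝒟.filter fun w => ¬ Rg w) ×ˢ L).image fun x => x.1 ++ x.2 := by
    intro w hw
    by_cases h : ∃ i, i ≤ w.length ∧ ¬ Rg (w.take i)
    · obtain ⟨i0, hi0, hn0⟩ := h
      have hi := Nat.findGreatest_le (P := fun i => ¬ Rg (w.take i)) w.length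
      have hn : ¬ Rg (w.take _) := Nat.findGreatest_spec (P := fun i => ¬ Rg (w.take i)) hi0 hn0
      have hc := hR w hw (Ioc (Nat.findGreatest (fun i => ¬ Rg (w.take i)) w.length) w.length)
        fun i hi => ⟨(mem_Ioc.1 hi).2,
          not_not.1 (Nat.findGreatest_is_greatest (mem_Ioc.1 hi).1 (mem_Ioc.1 hi).2)⟩
      rw [Nat.card_Ioc] at hc
      exact mem_image.2 ⟨(w.take _, w.drop _), mem_product.2
        ⟨mem_insert_of_mem (mem_filter.2 ⟨hp w hw _, hn⟩), h2 _ (by rwa [List.length_drop])⟩,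
        List.take_append_drop _ w⟩
    · push Not at h
      have hc := hR w hw (range (w.length + 1)) fun i hi =>
        ⟨Nat.lt_succ_iff.1 (mem_range.1 hi), h i (Nat.lt_succ_iff.1 (mem_range.1 hi))⟩
      rw [card_range] at hc
      exact mem_image.2 ⟨([], w), mem_product.2 ⟨mem_insert_self _ _, h2 w (by omega)⟩, rfl⟩
  refine (card_le_card hs).trans (card_image_le.trans ?_)
  rw [card_product]
  exact Nat.mul_le_mul ((card_insert_le _ _).trans (by omega)) (by omega)

end Pool.Agent.P.MP_0b9d6e_co
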