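import Pool.Agent.P.MP_0b9d6e_co.Base

/-!
Degenerate graphs: the max cut criterion, independent sets, no large complete bipartite subgraphs.
-/

namespace Pool.Agent.P.MP_0b9d6e_co

open Finset

namespace DegP

open scoped Classical in
/-- the edges of the cut defined by `A` inside `S` -/
noncomputable def cutE {V : Type} (G : V → V → Prop) (S A : Finset V) : Finset (V × V) :=
  (S ×ˢ S).filter fun p => p.1 ∈ A ∧ p.2 ∉ A ∧ G p.1 p.2

theorem mem_cutE {V : Type} {G : V → V → Prop} {S A : Finset V} {p : V × V} :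
    p ∈ cutE G S A ↔ p.1 ∈ S ∧ p.2 ∈ S ∧ p.1 ∈ A ∧ p.2 ∉ A ∧ G p.1 p.2 := by
  classical
  unfold cutE
  rw [mem_filter, mem_product, and_assoc]

theorem cut_compl {V : Type} [DecidableEq V] {G : V → V → Prop} (hs : ∀ u v, G u v → G v u)
    (S A : Finset V) : (cutE G S A).card ≤ (cutE G S (S \ A)).card := by
  refine card_le_card_of_injOn Prod.swap (fun p hp => ?_) (Prod.swap_injective.injOn)
  have hp' := mem_cutE.1 (mem_coe.1 hp)
  refine mem_coe.2 (mem_cutE.2 ⟨hp'.2.1, hp'.1, mem_sdiff.2 ⟨hp'.2.1, hp'.2.2.2.1⟩, ?_,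
    hs _ _ hp'.2.2.2.2⟩)
  intro h
  exact (mem_sdiff.1 h).2 hp'.2.2.1

theorem cut_move {V : Type} [DecidableEq V] {G : V → V → Prop} [DecidableRel G]
    (hs : ∀ u v, G u v → G v u) {S A : Finset V} {v : V} (hv : v ∈ S) (hvA : v ∉ A)
    (hmax : (cutE G S (insert v A)).card ≤ (cutE G S A).card) :
    (S.filter fun u => u ∉ A ∧ u ≠ v ∧ G u v).card ≤ (A.filter fun u => G u v).card := by
  set E₀ := (cutE G S A).filter fun p => p.2 ≠ v with hE₀
  have h1 : (cutE G S A).card ≤ E₀.card + (A.filter fun u => G u v).card := by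
    rw [← card_filter_add_card_filter_not (s := cutE G S A) fun p => p.2 ≠ v]
    refine Nat.add_le_add_left (card_le_card_of_injOn Prod.fst (fun p hp => ?_) ?_) _
    · obtain ⟨hp, hpv⟩ := mem_filter.1 (mem_coe.1 hp)
      have hp' := mem_cutE.1 hp
      have hpv' : p.2 = v := not_not.1 hpv
      exact mem_coe.2 (mem_filter.2 ⟨hp'.2.2.1, hpv' ▸ hp'.2.2.2.2⟩)
    · intro p hp q hq hpq
      have hp' : p.2 = v := not_not.1 (mem_filter.1 (mem_coe.1 hp)).2
      have hq' : q.2 = v := not_not.1 (mem_filter.1 (mem_coe.1 hq)).2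
      exact Prod.ext hpq (hp'.trans hq'.symm)
  set E₁ := (S.filter fun u => u ∉ A ∧ u ≠ v ∧ G u v).image fun u => (v, u) with hE₁
  have hc₁ : E₁.card = (S.filter fun u => u ∉ A ∧ u ≠ v ∧ G u v).card :=
    card_image_of_injective _ fun a b hab => (Prod.ext_iff.1 hab).2
  have hd : Disjoint E₀ E₁ := by
    rw [disjoint_left]
    intro p hp hp1
    obtain ⟨u, -, rfl⟩ := mem_image.1 hp1
    exact hvA (mem_cutE.1 (mem_filter.1 hp).1).2.2.1
  have h2 : E₀ ∪ E₁ ⊆ cutE G S (insert v A) := by
    intro p hp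
    rcases mem_union.1 hp with hp | hp
    · obtain ⟨hp, hpv⟩ := mem_filter.1 hp
      have hp' := mem_cutE.1 hp
      refine mem_cutE.2 ⟨hp'.1, hp'.2.1, mem_insert_of_mem hp'.2.2.1, ?_, hp'.2.2.2.2⟩
      intro h
      rcases mem_insert.1 h with h | h
      exacts [hpv h, hp'.2.2.2.1 h]
    · obtain ⟨u, hu, rfl⟩ := mem_image.1 hp
      obtain ⟨hu, huA, huv, hG⟩ := mem_filter.1 hu
      refine mem_cutE.2 ⟨hv, hu, mem_insert_self _ _, ?_, hs _ _ hG⟩
      intro h
      rcases mem_insert.1 h with h | h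
      exacts [huv h, huA h]
  have h3 := card_le_card h2
  rw [card_union_of_disjoint hd, hc₁] at h3
  omega

/-- greedy colouring -/
theorem colour {V : Type} {G : V → V → Prop} {w r : ℕ} (hs : ∀ u v, G u v → G v u)
    (hd : Degen G w r) (S : Finset V) (hS : S.card ≤ w) :
    ∃ col : V → Fin (r + 1), ∀ u ∈ S, ∀ v ∈ S, u ≠ v → G u v → col u ≠ col v := by
  classical
  induction S using Finset.strongInduction with
  | H S ih =>
    rcases S.eq_empty_or_nonempty with rfl | hne
    · exact ⟨fun _ => 0, by simp⟩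
    obtain ⟨x, hx, hN⟩ := hd S hne hS
    obtain ⟨col, hcol⟩ := ih (S.erase x) (erase_ssubset hx) ((card_erase_le).trans hS)
    set N := S.filter fun u => u ≠ x ∧ G u x with hNdef
    have hNc : N.card ≤ r := hN N (filter_subset _ _) fun u hu => (mem_filter.1 hu).2
    have hlt : (N.image col).card < (univ : Finset (Fin (r + 1))).card := by
      rw [card_univ, Fintype.card_fin]
      exact Nat.lt_succ_of_le (card_image_le.trans hNc)
    obtain ⟨c, -, hc⟩ := exists_mem_notMem_of_card_lt_card hlt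
    have key : ∀ u ∈ S, u ≠ x → G u x → col u ≠ c := fun u hu hux hG h =>
      hc (mem_image.2 ⟨u, mem_filter.2 ⟨hu, hux, hG⟩, h⟩)
    refine ⟨Function.update col x c, fun u hu v hv huv hG => ?_⟩
    by_cases hux : u = x
    · subst hux
      rw [Function.update_self, Function.update_of_ne huv.symm]
      exact (key v hv huv.symm (hs _ _ hG)).symm
    by_cases hvx : v = x
    · subst hvx
      rw [Function.update_self, Function.update_of_ne hux]
      exact key u hu hux hG
    rw [Function.update_of_ne hux, Function.update_of_ne hvx]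
    exact hcol u (mem_erase.2 ⟨hux, hu⟩) v (mem_erase.2 ⟨hvx, hv⟩) huv hG

end DegP

open DegP

theorem mc : S_MC := by
  intro V G w g hs h S hne hS
  classical
  by_contra hc
  push Not at hc
  obtain ⟨A₀, hA₀, hmax₀⟩ := exists_max_image S.powerset (fun A => (cutE G S A).card)
    ⟨∅, empty_mem_powerset S⟩
  obtain ⟨A, hA, hmax, hle⟩ : ∃ A ⊆ S, (∀ A' ⊆ S, (cutE G S A').card ≤ (cutE G S A).card) ∧
      A.card ≤ (S \ A).card := by
    have hA₀S := mem_powerset.1 hA₀
    rcases le_total A₀.card (S \ A₀).card with hle | hle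
    · exact ⟨A₀, hA₀S, fun A' hA' => hmax₀ A' (mem_powerset.2 hA'), hle⟩
    · refine ⟨S \ A₀, sdiff_subset, fun A' hA' =>
        (hmax₀ A' (mem_powerset.2 hA')).trans (cut_compl hs S A₀), ?_⟩
      rwa [Finset.sdiff_sdiff_eq_self hA₀S]
  have hlt := h A (S \ A) ((card_le_card hA).trans hS) fun v hv => by
    obtain ⟨hvS, hvA⟩ := mem_sdiff.1 hv
    refine ⟨hvA, A.filter fun u => G u v, filter_subset _ _, ?_, fun u hu => (mem_filter.1 hu).2⟩
    have h1 := cut_move hs hvS hvA (hmax _ (insert_subset hvS hA))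
    obtain ⟨N, hNS, hN, hNc⟩ := hc v hvS
    have h2 : N ⊆ (A.filter fun u => G u v) ∪ S.filter fun u => u ∉ A ∧ u ≠ v ∧ G u v := by
      intro u hu
      by_cases huA : u ∈ A
      · exact mem_union_left _ (mem_filter.2 ⟨huA, (hN u hu).2⟩)
      · exact mem_union_right _ (mem_filter.2 ⟨hNS hu, huA, hN u hu⟩)
    have h3 := (card_le_card h2).trans (card_union_le _ _)
    omega
  have h4 := card_sdiff_add_card_eq_card hA
  have h5 := hne.card_pos
  rcases le_total A.card 1 with h6 | h6
  · rw [max_eq_right h6] at hlt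
    omega
  · rw [max_eq_left h6] at hlt
    omega

theorem ind : S_Ind := by
  intro V α G w r A f hs hd hA
  classical
  obtain ⟨col, hcol⟩ := colour hs hd (A.image f) (card_image_le.trans hA)
  obtain ⟨c, -, hc⟩ := exists_max_image (univ : Finset (Fin (r + 1)))
    (fun c => (A.filter fun a => col (f a) = c).card) univ_nonempty
  refine ⟨A.filter fun a => col (f a) = c, filter_subset _ _, ?_, fun u hu v hv huv hG => ?_⟩
  · rw [card_eq_sum_card_fiberwise (f := fun a => col (f a)) (t := univ)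
      fun a _ => mem_coe.2 (mem_univ _)]
    refine (sum_le_card_nsmul _ _ _ hc).trans (le_of_eq ?_)
    rw [card_univ, Fintype.card_fin, smul_eq_mul]
  · obtain ⟨hu, hcu⟩ := mem_filter.1 hu
    obtain ⟨hv, hcv⟩ := mem_filter.1 hv
    exact hcol _ (mem_image_of_mem f hu) _ (mem_image_of_mem f hv) huv hG (hcu.trans hcv.symm)

theorem kfree : S_Kfree := by
  intro V G w r U W hs hi hd hw hUW
  classical
  by_contra hc
  push Not at hc
  obtain ⟨U', hU', hUc⟩ := exists_subset_card_eq (Nat.succ_le_of_lt hc.1)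
  obtain ⟨W', hW', hWc⟩ := exists_subset_card_eq (Nat.succ_le_of_lt hc.2)
  have hne : (U' ∪ W').Nonempty :=
    (card_pos.1 (by rw [hUc]; exact Nat.succ_pos r)).mono subset_union_left
  obtain ⟨x, hx, hN⟩ := hd (U' ∪ W') hne ((card_union_le _ _).trans (by omega))
  rcases mem_union.1 hx with hx | hx
  · have := hN W' subset_union_right fun u hu => by
      have hG := hs _ _ (hUW x (hU' hx) u (hW' hu))
      exact ⟨fun h => hi x (h ▸ hG), hG⟩
    omega
  · have := hN U' subset_union_left fun u hu => by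
      have hG := hUW u (hU' hu) x (hW' hx)
      exact ⟨fun h => hi x (h ▸ hG), hG⟩
    omega

end Pool.Agent.P.MP_0b9d6e_co
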