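import Pool.Agent.P.MP_0b9d6e_co.Base

/-!
From a typical sample to the combinatorial input of the tree bound.
-/

namespace Pool.Agent.P.MP_0b9d6e_co

open Finset Real

namespace DerP

theorem nadj {m d : ℕ} {y : Fin m → Cube d} {t : ℝ} {R : Finset (Fin m)}
    (h : ∀ u ∈ R, ∀ v ∈ R, v < u → ¬ adj t (y u) (y v)) :
    ∀ u ∈ R, ∀ v ∈ R, u ≠ v → ¬ adj t (y u) (y v) := fun u hu v hv huv => by
  rcases lt_or_gt_of_ne huv with h1 | h1
  · rw [adj_comm]
    exact h v hv u hu h1
  · exact h u hu v hv h1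

theorem exp_neg_le {a : ℝ} (ha : 0 ≤ a) (d : ℕ) : exp (-(a * lam d)) ≤ 1 := by
  rw [exp_le_one_iff, neg_nonpos]
  exact mul_nonneg ha (lam_nonneg d)

theorem natt {m d : ℕ} {T : Type} {c : Fin m → Fin m → Option T} {x y : Fin m → Cube d}
    {A F F' : Finset (Fin m)} (hA : F ⊆ A) (hF : F' ⊆ F)
    (h : ∀ v ∈ F, ¬ RG c x y (A.filter (v < ·)) v) :
    ∀ v ∈ F', ¬ Att (atr d) x (F'.filter (v < ·)) (x v) := fun v hv ha =>
  h v (hF hv) (Or.inl (ha.mono (filter_subset_filter _ (hF.trans hA))))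

theorem nx_le {m d : ℕ} {T : Type} {c : Fin m → Fin m → Option T} {x : Fin m → Cube d}
    {A F : Finset (Fin m)} {v : Fin m} (hA : F ⊆ A) (h : ∀ u ∈ F, c u v = none) :
    pr (NX c x A v) ≤ pr (NA (thr d) x F) :=
  pr_mono fun _ hz u hu => hz u (hA hu) (h u hu)

theorem ux_le {m d : ℕ} {T : Type} {c : Fin m → Fin m → Option T} {y : Fin m → Cube d}
    {A F : Finset (Fin m)} {v : Fin m} (hA : F ⊆ A) (h : ∀ u ∈ F, c u v = none) :
    pr (UX c y A v) ≤ pr (NU (thr d) y F) :=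
  pr_mono fun _ hz u hu => hz u (hA hu) (h u hu)

end DerP

open DerP

theorem der (h1 : S_Gen) (h2 : S_FP) (h3 : S_LS) (h4 : S_MC) : S_Der := by
  classical
  intro p m d c x y G M b₁ b₂ e₁ e₂ hfree hrank sI sL hq hg
  have hatt : ∀ A S : Finset (Fin m), A.card ≤ p.I →
      (∀ v ∈ S, v ∉ A ∧ Att (atr d) x A (x v)) → S.card < p.n₀ * (A.card + 1) :=
    fun A S hA hS => G.att A S fun v hv => ⟨(hS v hv).1, (hS v hv).2, M.att A hA⟩
  refine ⟨sI, sL, fun u v h => adj_comm.1 h, hfree, hrank, fun F hF => ?_, fun R hc hR => ?_,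
    fun A S hA hS => ?_, fun A F v hA hF hr hc hv ha => ?_, fun A R S hA hR hS => ?_,
    fun A R F R' v hF hr hc hj hR hc' hn hJ ha hb => ?_, ?_⟩
  · refine M.clq F fun u hu v hv huv => ?_
    rcases lt_or_gt_of_ne huv with h | h
    · exact adj_comm.1 (hF v hv u hu h)
    · exact hF u hu v hv h
  · rcases h2 m d y (thr d) (pi₂ d) (bet d) (bet d) p.n₀ p.φ₂ R (exp_neg_le (by norm_num) d) e₂ b₂
      G.bad₂ (nadj hR) with h | ⟨A, hA, hφ, hp⟩
    · exact h
    · have k := G.ww ∅ A (R \ A) fun v hv => by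
        obtain ⟨v1, v2⟩ := mem_sdiff.1 hv
        refine ⟨notMem_empty v, v2, fun a h => absurd h (notMem_empty a), fun a h _ =>
          nadj hR a (hA h) v v1 (fun e => v2 (e ▸ h)), ?_⟩
        have := ux_le (c := c) (y := y) (v := v) (Subset.refl A) fun u hu => hc u (hA hu) v v1
        exact (mul_le_of_le_one_left (pr_nonneg _) (pr_le_one _)).trans (this.trans hp)
      have k2 := card_sdiff_add_card_eq_card hA
      have k3 : p.n₀ * (A.card + 1) ≤ p.n₀ * (p.φ₂ + 1) := by gcongr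
      rw [card_empty, zero_add] at k
      unfold Par.J₂
      omega
  · have k1 := hatt A (S.filter fun v => Att (atr d) x A (x v)) hA fun v hv =>
      ⟨(hS v (mem_filter.1 hv).1).1, (mem_filter.1 hv).2⟩
    have k2 := G.ww A ∅ (S.filter fun v => ¬ Att (atr d) x A (x v)) fun v hv =>
      ⟨(hS v (mem_filter.1 hv).1).1, notMem_empty v,
        (hS v (mem_filter.1 hv).1).2.resolve_left (mem_filter.1 hv).2⟩
    have k3 := card_filter_add_card_filter_not (s := S) fun v => Att (atr d) x A (x v)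
    have k4 : p.n₀ * (A.card + 1) ≤ p.n₀ * (p.I + 1) := by gcongr
    rw [card_empty, add_zero] at k2
    unfold Par.t
    omega
  · have k : bet d < pr (NX c x A v) := by
      by_contra hk
      refine hv (Or.inr ⟨ha, fun a h => absurd h (notMem_empty a), ?_⟩)
      exact (mul_le_of_le_one_right (pr_nonneg _) (pr_le_one _)).trans (not_lt.1 hk)
    have k' : ∀ F' ⊆ F, ¬ pr (NA (thr d) x F') ≤ bet d := fun F' h =>
      not_le.2 (k.trans_le (nx_le (h.trans hF) fun u hu => hc u (h hu)))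
    constructor
    · by_contra hk
      obtain ⟨F', h, hcard⟩ := exists_subset_card_eq (show p.i₁ + 1 ≤ F.card by omega)
      exact k' F' h (M.m₁ F' (h1 m d x _ F' (natt hF h hr)) hcard)
    · intro hs
      by_contra hk
      obtain ⟨F', h, hcard⟩ := exists_subset_card_eq (show p.i₀ + 1 ≤ F.card by omega)
      exact k' F' h (M.m₀ F' (natt hF h hr) (fun u hu S hS => hs u (h hu) S (hS.trans h)) hcard)
  · have k := G.ww A R S hS
    have k2 : p.n₀ * (A.card + R.card + 1) ≤ p.n₀ * (p.I + p.L + 1) := by gcongr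
    unfold Par.w
    omega
  · refine ⟨ha, hb, ?_⟩
    obtain ⟨F', h, hcard⟩ := exists_subset_card_eq hj
    rcases h2 m d y (thr d) (pi₁ d) (mu₀ d) (bet d) p.n₀ p.φ₁ R' (exp_neg_le (by norm_num) d) e₁ b₁
      G.bad₁ (nadj hn) with k | ⟨B, hB, -, hp⟩
    · exact absurd k (not_le.2 hJ)
    · refine le_trans ?_ (M.mj F' (h1 m d x _ F' (natt hF h hr)) hcard)
      exact mul_le_mul (nx_le (h.trans hF) fun u hu => hc u (h hu))
        ((ux_le (hB.trans hR) fun u hu => hc' u (hB hu)).trans hp) (pr_nonneg _) (pr_nonneg _)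
  · obtain ⟨P, hP, hP'⟩ := M.mq
    refine h4 _ _ p.w p.g' (fun u v h => adj_comm.1 h) fun A B hA hB =>
      G.ls A B fun v hv => ⟨(hB v hv).1, (hB v hv).2, ?_⟩
    refine (h3 m d x (thr d) (atr d) (max P 0) p.w p.q (p.n₀ * (p.q + 1)) p.gg A hA hg
      (le_max_right _ _) (fun F S hF hS => ?_) fun F hF hc => (hP F hF hc).trans
        (le_max_left _ _)).trans ?_
    · have k := hatt F S (hF.trans hq) hS
      have k2 : p.n₀ * (F.card + 1) ≤ p.n₀ * (p.q + 1) := by gcongr
      omega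
    · rcases le_total P 0 with h | h
      · rw [max_eq_right h, mul_zero]
        exact (exp_pos _).le
      · rwa [max_eq_left h]

end Pool.Agent.P.MP_0b9d6e_co
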