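import Pool.Agent.P.MP_0b9d6e_co.Base

/-!
Package FP: fingerprints and local sparsity.
-/

namespace Pool.Agent.P.MP_0b9d6e_co

open Finset Real

theorem fp : S_FP := by
  classical
  intro m d y t ϖ μ β n₀ φ R hϖ hφ hB hS hR
  obtain ⟨A, hA, hmax⟩ := exists_max_image
    (R.powerset.filter fun A => A.card ≤ φ ∧ pr (NU t y A) ≤ (1 - ϖ) ^ A.card) card
    ⟨∅, by simp [pr_le_one]⟩
  rw [mem_filter, mem_powerset] at hA
  obtain ⟨hAR, hAφ, hAp⟩ := hA
  by_cases hμ : pr (NU t y A) ≤ μ
  · exact Or.inr ⟨A, hAR, hAφ, hμ⟩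
  left
  have hlt : A.card < φ := by
    rcases hAφ.lt_or_eq with h | h
    · exact h
    · rw [h] at hAp
      exact absurd (hAp.trans hφ) hμ
  have h1 := hS A (R \ A) fun v hv => ?_
  · have h2 := card_sdiff_add_card_eq_card hAR
    have h3 : n₀ * (A.card + 1) ≤ n₀ * (φ + 1) := Nat.mul_le_mul_left _ (by omega)
    omega
  rw [mem_sdiff] at hv
  refine ⟨hv.2, ⟨fun u hu => hR u (hAR hu) v hv.1 fun e => hv.2 (e ▸ hu), ?_⟩,
    hB _ (not_le.1 hμ).le⟩
  have h2 : (1 - ϖ) ^ (A.card + 1) < pr (NU t y (insert v A)) := by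
    by_contra hc
    have := hmax (insert v A) (by
      rw [mem_filter, mem_powerset, card_insert_of_notMem hv.2]
      exact ⟨insert_subset hv.1 hAR, hlt, not_lt.1 hc⟩)
    rw [card_insert_of_notMem hv.2] at this
    omega
  have h3 : pr (NU t y (insert v A)) = pr (fun w => NU t y A w ∧ ¬ adj t (y v) w) :=
    pr_congr fun w => by simp only [NU, forall_mem_insert]; exact and_comm
  have h4 := pr_and_add_pr_and_not (NU t y A) (adj t (y v))
  have h5 : pr (NU t y A) * (1 - ϖ) ≤ (1 - ϖ) ^ (A.card + 1) := by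
    rw [pow_succ]
    exact mul_le_mul_of_nonneg_right hAp (by linarith)
  linarith

namespace FPP

open scoped Classical in
/-- generated subsets of a given size -/
noncomputable def gs {m d : ℕ} (a : ℝ) (x : Fin m → Cube d) (N : Finset (Fin m)) (i : ℕ) :
    Finset (Finset (Fin m)) := (powersetCard i N).filter (Gen a x)

theorem mem_gs {m d : ℕ} {a : ℝ} {x : Fin m → Cube d} {N F : Finset (Fin m)} {i : ℕ} :
    F ∈ gs a x N i ↔ (F ⊆ N ∧ F.card = i) ∧ Gen a x F := by
  classical
  unfold gs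
  rw [mem_filter, mem_powersetCard]

theorem step {m d : ℕ} {a : ℝ} {x : Fin m → Cube d} {q t₀ gg : ℕ} {N : Finset (Fin m)}
    (h : ∀ F S : Finset (Fin m), F.card ≤ q → (∀ v ∈ S, v ∉ F ∧ Att a x F (x v)) → S.card ≤ t₀)
    (hN : gg + t₀ + q ≤ N.card) {i : ℕ} (hi : i < q) :
    (gs a x N i).card * gg ≤ (gs a x N (i + 1)).card * q := by
  classical
  refine card_mul_le_card_mul (fun F F' => F ⊆ F') (fun F hF => ?_) fun F' hF' => ?_
  · obtain ⟨⟨hFN, hc⟩, hG⟩ := mem_gs.1 hF
    have h1 := h F ((N \ F).filter fun v => Att a x F (x v)) (by omega) fun v hv => by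
      rw [mem_filter, mem_sdiff] at hv
      exact ⟨hv.1.2, hv.2⟩
    have h2 := card_filter_add_card_filter_not (s := N \ F) fun v => Att a x F (x v)
    have h3 := card_sdiff_add_card_eq_card hFN
    refine le_trans (show gg ≤ ((N \ F).filter fun v => ¬ Att a x F (x v)).card by omega) ?_
    refine card_le_card_of_injOn (fun v => insert v F) (fun v hv => ?_) fun v hv v' hv' e => ?_
    · rw [mem_coe, mem_filter, mem_sdiff] at hv
      rw [mem_coe, mem_bipartiteAbove, mem_gs, card_insert_of_notMem hv.1.2, hc]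
      exact ⟨⟨⟨insert_subset hv.1.1 hFN, rfl⟩, Gen.step hG hv.1.2 hv.2⟩, subset_insert _ _⟩
    · rw [mem_coe, mem_filter, mem_sdiff] at hv
      have : v ∈ insert v' F := by
        have e' : insert v F = insert v' F := e
        rw [← e']
        exact mem_insert_self _ _
      rcases mem_insert.1 this with h4 | h4
      · exact h4
      · exact absurd h4 hv.1.2
  · obtain ⟨⟨-, hc⟩, -⟩ := mem_gs.1 hF'
    calc _ ≤ (powersetCard i F').card := by
          refine card_le_card fun F hF => ?_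
          rw [mem_bipartiteBelow, mem_gs] at hF
          exact mem_powersetCard.2 ⟨hF.2, hF.1.1.2⟩
      _ ≤ q := by
          rw [card_powersetCard, hc, Nat.choose_succ_self_right]
          omega

theorem many {m d : ℕ} {a : ℝ} {x : Fin m → Cube d} {q t₀ gg : ℕ} {N : Finset (Fin m)}
    (h : ∀ F S : Finset (Fin m), F.card ≤ q → (∀ v ∈ S, v ∉ F ∧ Att a x F (x v)) → S.card ≤ t₀)
    (hN : gg + t₀ + q ≤ N.card) (i : ℕ) (hi : i ≤ q) :
    gg ^ i ≤ (gs a x N i).card * q ^ i := by
  induction i with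
  | zero =>
    have : (∅ : Finset (Fin m)) ∈ gs a x N 0 := mem_gs.2 ⟨⟨empty_subset _, rfl⟩, Gen.empty⟩
    have := card_pos.2 ⟨_, this⟩
    simp only [pow_zero, mul_one]
    omega
  | succ i ih =>
    calc gg ^ (i + 1) = gg ^ i * gg := pow_succ _ _
      _ ≤ (gs a x N i).card * q ^ i * gg := Nat.mul_le_mul_right _ (ih (by omega))
      _ = (gs a x N i).card * gg * q ^ i := by ring
      _ ≤ (gs a x N (i + 1)).card * q * q ^ i := Nat.mul_le_mul_right _ (step h hN (by omega))
      _ = _ := by ring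

end FPP

open FPP in
theorem ls : S_LS := by
  classical
  intro m d x t a P w q t₀ gg A hA hgg hP h hF
  have hg : (0 : ℝ) < gg := by exact_mod_cast hgg
  have h1 := pr_le_avg (p := Dg t x (gg + t₀ + q) A)
    (fun z => ((q : ℝ) / gg) ^ q * ∑ F ∈ gs a x A q, if NA t x F z then (1 : ℝ) else 0)
    (fun z => mul_nonneg (by positivity) (sum_nonneg fun F _ => by split_ifs <;> norm_num)) ?_
  · refine h1.trans ?_
    rw [← mul_sum, sum_comm, mul_div_assoc, sum_div]
    have h2 : ∑ F ∈ gs a x A q, (∑ z, if NA t x F z then (1 : ℝ) else 0) / Fintype.card (Cube d)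
        ≤ ∑ F ∈ gs a x A q, P := by
      refine sum_le_sum fun F hF' => ?_
      rw [← pr_eq_sum]
      exact hF F (mem_gs.1 hF').2 (mem_gs.1 hF').1.2
    have h3 : (gs a x A q).card ≤ w ^ q := by
      calc _ ≤ (powersetCard q A).card := card_le_card fun F hF' =>
            mem_powersetCard.2 (mem_gs.1 hF').1
        _ ≤ A.card ^ q := by rw [card_powersetCard]; exact Nat.choose_le_pow _ _
        _ ≤ w ^ q := Nat.pow_le_pow_left hA _
    have h4 : ((gs a x A q).card : ℝ) ≤ (w : ℝ) ^ q := by exact_mod_cast h3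
    rw [sum_const, nsmul_eq_mul] at h2
    calc _ ≤ ((q : ℝ) / gg) ^ q * ((w : ℝ) ^ q * P) := by
          refine mul_le_mul_of_nonneg_left (h2.trans ?_) (by positivity)
          exact mul_le_mul_of_nonneg_right h4 hP
      _ = _ := by rw [mul_div_assoc, mul_pow]; ring
  · rintro z ⟨N, hNA, hN, hz⟩
    have h2 := many h hN q le_rfl
    have h3 : ((gs a x N q).card : ℝ) ≤ ∑ F ∈ gs a x A q, if NA t x F z then (1 : ℝ) else 0 := by
      rw [sum_boole]
      exact_mod_cast card_le_card fun F hF' => by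
        obtain ⟨⟨h4, h5⟩, h6⟩ := mem_gs.1 hF'
        exact mem_filter.2 ⟨mem_gs.2 ⟨⟨h4.trans hNA, h5⟩, h6⟩, fun v hv => hz v (h4 hv)⟩
    have h4 : (gg : ℝ) ^ q ≤ (gs a x N q).card * (q : ℝ) ^ q := by exact_mod_cast h2
    rw [div_pow, div_mul_eq_mul_div, one_le_div (by positivity)]
    calc _ ≤ _ := h4
      _ ≤ _ := by rw [mul_comm]; exact mul_le_mul_of_nonneg_left h3 (by positivity)

end Pool.Agent.P.MP_0b9d6e_co
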