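import Pool.Agent.P.MP_0b9d6e_co.Base

/-! Predictable decomposition of a distribution on the cube and the product bound. -/

namespace Pool.Agent.P.MP_0b9d6e_co

open Finset

namespace GAP

theorem sum_cube {d : ℕ} (f : Cube (d + 1) → ℝ) :
    ∑ x, f x = ∑ x : Cube d, f (Fin.cons true x) + ∑ x : Cube d, f (Fin.cons false x) := by
  rw [← (Fin.consEquiv fun _ : Fin (d + 1) => Bool).sum_comp, Fintype.sum_prod_type,
    Fintype.sum_bool]
  rfl

theorem sg_zero {d : ℕ} (s : Bool) (x : Cube d) :
    sg (Fin.cons s x : Cube (d + 1)) 0 = if s then 1 else -1 := rfl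

theorem sg_succ {d : ℕ} (s : Bool) (x : Cube d) (i : Fin d) :
    sg (Fin.cons s x : Cube (d + 1)) i.succ = sg x i := rfl

theorem prd_tail {d : ℕ} {α : Cube (d + 1) → Fin (d + 1) → ℝ} (h : Prd α) (s : Bool) :
    Prd fun (x : Cube d) (i : Fin d) => α (Fin.cons s x) i.succ := by
  refine ⟨fun x i => h.1 _ _, fun x x' i hx => h.2 _ _ _ fun j hj => ?_⟩
  cases j using Fin.cases with
  | zero => rfl
  | succ j => exact hx j (Fin.succ_lt_succ_iff.1 hj)

theorem prd_head {d : ℕ} {α : Cube (d + 1) → Fin (d + 1) → ℝ} (h : Prd α) (x : Cube (d + 1)) :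
    α x 0 = α (fun _ => true) 0 :=
  h.2 _ _ _ fun j hj => absurd hj (Fin.not_lt_zero j)

theorem cond {d : ℕ} (q : Cube d → ℝ) (h : ∀ x, 0 ≤ q x) :
    ∃ r : Cube d → ℝ, (∀ x, 0 ≤ r x) ∧ ∑ x, r x = 1 ∧ ∀ x, q x = (∑ y, q y) * r x := by
  by_cases h0 : ∑ y, q y = 0
  · refine ⟨fun _ => (Fintype.card (Cube d) : ℝ)⁻¹, fun _ => by positivity, ?_, fun x => ?_⟩
    · rw [sum_const, card_univ, nsmul_eq_mul, mul_inv_cancel₀]
      exact_mod_cast Fintype.card_ne_zero
    · rw [h0, zero_mul]
      exact (sum_eq_zero_iff_of_nonneg fun y _ => h y).1 h0 x (mem_univ x)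
  · refine ⟨fun x => q x / ∑ y, q y, fun x => div_nonneg (h x) (sum_nonneg fun y _ => h y), ?_,
      fun x => ?_⟩
    · rw [← sum_div, div_self h0]
    · rw [mul_div_cancel₀ _ h0]

end GAP

open GAP

theorem dec : S_Dec := by
  intro d
  induction d with
  | zero =>
    intro p _ h1
    refine ⟨fun _ _ => 0, ⟨fun _ i => by simp, fun _ _ _ _ => rfl⟩, fun x => ?_⟩
    rw [Fintype.sum_unique] at h1
    rw [Fin.prod_univ_zero, ← h1]; exact congrArg p (Subsingleton.elim _ _)
  | succ d ih =>
    intro p h0 h1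
    choose r r0 r1 hr using fun s : Bool =>
      GAP.cond (fun x : Cube d => p (Fin.cons s x)) fun x => h0 _
    choose α hα hα' using fun s : Bool => ih (r s) (r0 s) (r1 s)
    rw [sum_cube] at h1
    set a := ∑ x : Cube d, p (Fin.cons true x) with ha
    set b := ∑ x : Cube d, p (Fin.cons false x) with hb
    have a0 : 0 ≤ a := sum_nonneg fun x _ => h0 _
    have b0 : 0 ≤ b := sum_nonneg fun x _ => h0 _
    refine ⟨fun x => Fin.cons (a - b) (α (x 0) (Fin.tail x)), ⟨fun x i => ?_, fun x x' i hx => ?_⟩,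
      fun x => ?_⟩
    · cases i using Fin.cases with
      | zero => simp only [Fin.cons_zero]; rw [abs_le]; constructor <;> linarith
      | succ i => exact (hα _).1 _ _
    · cases i using Fin.cases with
      | zero => rfl
      | succ i =>
        simp only [Fin.cons_succ]
        rw [hx 0 (Fin.succ_pos i)]
        exact (hα _).2 _ _ _ fun j hj => hx j.succ (Fin.succ_lt_succ_iff.2 hj)
    · obtain ⟨s, y, rfl⟩ : ∃ (s : Bool) (y : Cube d), x = Fin.cons s y :=
        ⟨x 0, Fin.tail x, (Fin.cons_self_tail x).symm⟩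
      rw [Fin.prod_univ_succ]
      simp only [Fin.cons_zero, Fin.cons_succ, Fin.tail_cons, sg_zero, sg_succ]
      rw [← hα', hr s y]
      congr 1
      cases s
      · simp only [← hb]; simp; linarith
      · simp only [← ha]; simp; linarith

theorem sup : S_Sup := by
  intro d α β ψ hα hβ h0
  induction d with
  | zero => simp
  | succ d ih =>
    have a1 := hα.1 (fun _ => true) 0
    have b1 := hβ.1 (fun _ => true) 0
    set a := α (fun _ => true) 0 with ha
    set b := β (fun _ => true) 0 with hb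
    let I : Bool → Bool → ℝ := fun s t => ∑ x : Cube d, ∑ y : Cube d,
      ∏ i, ψ (α (Fin.cons s x) i.succ) (β (Fin.cons t y) i.succ) (sg x i) (sg y i)
    have e : ∑ x, ∑ y, ∏ i, ψ (α x i) (β y i) (sg x i) (sg y i)
        = ψ a b 1 1 * I true true + ψ a b 1 (-1) * I true false
          + ψ a b (-1) 1 * I false true + ψ a b (-1) (-1) * I false false := by
      simp only [sum_cube, Fin.prod_univ_succ, prd_head hα, prd_head hβ, ← ha, ← hb, sg_zero,
        sg_succ, sum_add_distrib, I, mul_sum]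
      simp only [if_true, Bool.false_eq_true, if_false]
      ring
    have p1 := h0 a b 1 1 a1 b1 (Or.inl rfl) (Or.inl rfl)
    have p2 := h0 a b 1 (-1) a1 b1 (Or.inl rfl) (Or.inr rfl)
    have p3 := h0 a b (-1) 1 a1 b1 (Or.inr rfl) (Or.inl rfl)
    have p4 := h0 a b (-1) (-1) a1 b1 (Or.inr rfl) (Or.inr rfl)
    rw [e]
    refine ⟨fun h => ?_, fun h => ?_⟩
    · have q : ∀ s t, I s t ≤ 1 := fun s t => (ih _ _ (prd_tail hα s) (prd_tail hβ t)).1 h
      have := h a b a1 b1
      unfold sum4 at this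
      nlinarith [mul_le_mul_of_nonneg_left (q true true) p1,
        mul_le_mul_of_nonneg_left (q true false) p2, mul_le_mul_of_nonneg_left (q false true) p3,
        mul_le_mul_of_nonneg_left (q false false) p4]
    · have q : ∀ s t, 1 ≤ I s t := fun s t => (ih _ _ (prd_tail hα s) (prd_tail hβ t)).2 h
      have := h a b a1 b1
      unfold sum4 at this
      nlinarith [mul_le_mul_of_nonneg_left (q true true) p1,
        mul_le_mul_of_nonneg_left (q true false) p2, mul_le_mul_of_nonneg_left (q false true) p3,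
        mul_le_mul_of_nonneg_left (q false false) p4]

end Pool.Agent.P.MP_0b9d6e_co
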