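import Pool.Agent.P.MP_0b9d6e_co.Base

/-!
One-step inequalities for the tilt.
-/

namespace Pool.Agent.P.MP_0b9d6e_co

open Finset Real

namespace GBP

variable {e a b s t : ℝ}

theorem half_le (ha : |a| ≤ 1 / 2) (hs : s = 1 ∨ s = -1) : 1 / 2 ≤ 1 + a * s := by
  have := abs_le.1 ha
  rcases hs with rfl | rfl <;> linarith

theorem nonneg (ha : |a| ≤ 1) (hs : s = 1 ∨ s = -1) : 0 ≤ 1 + a * s := by
  have := abs_le.1 ha
  rcases hs with rfl | rfl <;> linarith

theorem tl_cases (e a b : ℝ) :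
    (tl e a b = e ∧ |a| ≤ 1 / 2 ∧ |b| ≤ 1 / 2) ∨ (tl e a b = 0 ∧ ¬ (|a| ≤ 1 / 2 ∧ |b| ≤ 1 / 2)) := by
  unfold tl
  split_ifs with h
  · exact Or.inl ⟨rfl, h⟩
  · exact Or.inr ⟨rfl, h⟩

theorem uu_zero (h : tl e a b = 0) : uu e a b s t = 0 := by simp [uu, h]

theorem uu_abs (he : 0 ≤ e) (hs : s = 1 ∨ s = -1) (ht : t = 1 ∨ t = -1) :
    |uu e a b s t| ≤ 4 * e := by
  rcases tl_cases e a b with ⟨h, ha, hb⟩ | ⟨h, -⟩
  · have h1 := half_le ha hs
    have h2 := half_le hb ht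
    have h3 : 1 / 4 ≤ (1 + a * s) * (1 + b * t) := by nlinarith
    have h4 : |-(e * s * t)| = e := by
      rcases hs with rfl | rfl <;> rcases ht with rfl | rfl <;> simp [abs_of_nonneg he]
    unfold uu
    rw [h, abs_div, h4, abs_of_pos (by linarith : 0 < (1 + a * s) * (1 + b * t)),
      div_le_iff₀ (by linarith)]
    nlinarith
  · rw [uu_zero h, abs_zero]; positivity

theorem qq_eq (hs : s = 1 ∨ s = -1) (ht : t = 1 ∨ t = -1) :
    qq e a b s t = (1 + a * s) * (1 + b * t) / 4 - tl e a b * s * t / 4 := by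
  rcases tl_cases e a b with ⟨h, ha, hb⟩ | ⟨h, -⟩
  · have h1 := half_le ha hs
    have h2 := half_le hb ht
    have h3 : 1 + a * s ≠ 0 := by linarith
    have h4 : 1 + b * t ≠ 0 := by linarith
    unfold qq uu
    field_simp
    ring
  · unfold qq
    rw [uu_zero h, h]
    ring

theorem one_add_le {u : ℝ} (he : e ≤ 1 / 100) (hu : |u| ≤ 4 * e) :
    0 ≤ 1 + u ∧ 1 + u ≤ exp (u - (1 / 2 - 8 * e) * u ^ 2) := by
  have h1 := abs_le.1 hu
  have h0 : 0 < 1 + u := by linarith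
  refine ⟨h0.le, ?_⟩
  have h2 := Real.abs_log_sub_add_sum_range_le (x := -u) (by rw [abs_neg]; linarith) 2
  rw [abs_neg, sub_neg_eq_add] at h2
  simp only [sum_range_succ, range_zero, sum_empty] at h2
  have h3 : |u| ^ (2 + 1) / (1 - |u|) ≤ 8 * e * u ^ 2 := by
    rw [div_le_iff₀ (by linarith), pow_succ, sq_abs]
    have h4 : |u| ≤ 8 * e * (1 - |u|) := by nlinarith [abs_nonneg u]
    nlinarith [sq_nonneg u]
  have h5 := (abs_le.1 (h2.trans h3)).2
  rw [← Real.log_le_iff_le_exp h0]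
  norm_num at h5
  nlinarith

theorem hell (ha : |a| ≤ 1) :
    (1 + a) / 2 * (exp (a ^ 2 / 8) / √(1 + a)) + (1 - a) / 2 * (exp (a ^ 2 / 8) / √(1 - a)) ≤ 1 := by
  have h1 := abs_le.1 ha
  have e1 : ∀ x : ℝ, x / 2 * (exp (a ^ 2 / 8) / √x) = exp (a ^ 2 / 8) * √x / 2 := fun x => by
    rw [show x / 2 * (exp (a ^ 2 / 8) / √x) = exp (a ^ 2 / 8) * (x / √x) / 2 by ring,
      Real.div_sqrt]
  rw [e1, e1]
  have hp := Real.sq_sqrt (show 0 ≤ 1 + a by linarith)
  have hr := Real.sq_sqrt (show 0 ≤ 1 - a by linarith)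
  have hp0 := Real.sqrt_nonneg (1 + a)
  have hr0 := Real.sqrt_nonneg (1 - a)
  set p := √(1 + a)
  set r := √(1 - a)
  have ha2 : a ^ 2 ≤ 1 := by nlinarith
  have h2 : p * r ≤ 1 - a ^ 2 / 2 := by
    refine (abs_le_of_sq_le_sq' ?_ (by linarith)).2
    rw [mul_pow, hp, hr]
    nlinarith [sq_nonneg (a ^ 2)]
  have h3 : ((p + r) / 2) ^ 2 ≤ exp (-(a ^ 2 / 8)) ^ 2 := by
    rw [← Real.exp_nat_mul]
    have := Real.add_one_le_exp (((2 : ℕ) : ℝ) * -(a ^ 2 / 8))
    push_cast at this ⊢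
    nlinarith
  have h4 : (p + r) / 2 ≤ exp (-(a ^ 2 / 8)) := (abs_le_of_sq_le_sq' h3 (exp_pos _).le).2
  have h5 : exp (a ^ 2 / 8) * exp (-(a ^ 2 / 8)) = 1 := by rw [← Real.exp_add]; simp
  have h6 := mul_le_mul_of_nonneg_left h4 (exp_pos (a ^ 2 / 8)).le
  linarith

theorem sum4_le {f g : ℝ → ℝ → ℝ}
    (h : ∀ s t, (s = 1 ∨ s = -1) → (t = 1 ∨ t = -1) → f s t ≤ g s t) : sum4 f ≤ sum4 g := by
  unfold sum4
  linarith [h 1 1 (.inl rfl) (.inl rfl), h 1 (-1) (.inl rfl) (.inr rfl),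
    h (-1) 1 (.inr rfl) (.inl rfl), h (-1) (-1) (.inr rfl) (.inr rfl)]

theorem step {q z : ℝ → ℝ → ℝ} {c : ℝ}
    (hq : ∀ s t, (s = 1 ∨ s = -1) → (t = 1 ∨ t = -1) → 0 ≤ q s t ∧ |z s t| ≤ 1 ∧ z s t ^ 2 ≤ c)
    (h1 : sum4 q = 1) (h2 : sum4 (fun s t => q s t * z s t) ≤ 0) :
    sum4 (fun s t => q s t * exp (z s t - c)) ≤ 1 := by
  have h3 : sum4 (fun s t => q s t * exp (z s t - c))
      ≤ sum4 (fun s t => exp (-c) * ((1 + c) * q s t + q s t * z s t)) := by
    refine sum4_le fun s t hs ht => ?_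
    obtain ⟨k1, k2, k3⟩ := hq s t hs ht
    have k4 := (abs_le.1 (Real.abs_exp_sub_one_sub_id_le k2)).2
    rw [sub_eq_add_neg, Real.exp_add]
    have k5 : q s t * exp (z s t) ≤ q s t * (1 + c + z s t) :=
      mul_le_mul_of_nonneg_left (by linarith) k1
    nlinarith [exp_pos (-c)]
  have h4 : sum4 (fun s t => exp (-c) * ((1 + c) * q s t + q s t * z s t))
      = exp (-c) * ((1 + c) * sum4 q + sum4 (fun s t => q s t * z s t)) := by
    unfold sum4; ring
  have h5 : exp (-c) * exp c = 1 := by rw [← Real.exp_add]; simp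
  have h6 := Real.add_one_le_exp c
  rw [h4, h1] at h3
  have h7 : exp (-c) * ((1 + c) * 1 + sum4 (fun s t => q s t * z s t)) ≤ exp (-c) * exp c :=
    mul_le_mul_of_nonneg_left (by linarith) (exp_pos _).le
  linarith

theorem drift (he : 0 ≤ e) (he1 : e ≤ 1 / 100) :
    sum4 (fun s t => qq e a b s t * rr e a b s t)
      ≤ e ^ 2 * (1 / 2 + 10 * e) * (1 + 2 * a ^ 2 + 2 * b ^ 2) := by
  rcases tl_cases e a b with ⟨h, ha, hb⟩ | ⟨h, -⟩
  · have h1 : sum4 (fun s t => qq e a b s t * rr e a b s t) ≤ sum4 (fun s t =>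
        -(e * s * t) / 4 + e ^ 2 * (1 / 2 + 10 * e) / (4 * ((1 + a * s) * (1 + b * t)))) := by
      refine sum4_le fun s t hs ht => ?_
      have k1 := half_le ha hs
      have k2 := half_le hb ht
      have k3 : 1 + a * s ≠ 0 := by linarith
      have k4 : 1 + b * t ≠ 0 := by linarith
      have k5 := abs_le.1 (uu_abs (a := a) (b := b) he hs ht)
      have hs2 : s ^ 2 = 1 := by rcases hs with rfl | rfl <;> norm_num
      have ht2 : t ^ 2 = 1 := by rcases ht with rfl | rfl <;> norm_num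
      have e1 : -(e * s * t) / 4 = (1 + a * s) * (1 + b * t) / 4 * uu e a b s t := by
        unfold uu
        rw [h]
        have k0 : (1 + a * s) * (1 + b * t) ≠ 0 := mul_ne_zero k3 k4
        generalize (1 + a * s) * (1 + b * t) = P at k0 ⊢
        field_simp
      have e2 : e ^ 2 * (1 / 2 + 10 * e) / (4 * ((1 + a * s) * (1 + b * t)))
          = (1 + a * s) * (1 + b * t) / 4 * (uu e a b s t ^ 2 * (1 / 2 + 10 * e)) := by
        unfold uu
        rw [h, div_pow, neg_sq, mul_pow, mul_pow, hs2, ht2]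
        field_simp
      rw [e1, e2, ← mul_add]
      unfold qq rr
      set u := uu e a b s t
      have k6 : 0 ≤ (1 + a * s) * (1 + b * t) / 4 := by positivity
      have k7 : (1 + u) * (u - (1 / 2 - 8 * e) * u ^ 2) ≤ u + u ^ 2 * (1 / 2 + 10 * e) := by
        have k8 : 1 - (1 / 2 - 8 * e) * (1 + u) ≤ 1 / 2 + 10 * e := by nlinarith
        nlinarith [mul_le_mul_of_nonneg_left k8 (sq_nonneg u)]
      calc _ = (1 + a * s) * (1 + b * t) / 4 * ((1 + u) * (u - (1 / 2 - 8 * e) * u ^ 2)) := by ring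
        _ ≤ _ := mul_le_mul_of_nonneg_left k7 k6
    refine h1.trans ?_
    have ha' := abs_le.1 ha
    have hb' := abs_le.1 hb
    have a2 : a ^ 2 ≤ 1 / 4 := by nlinarith
    have b2 : b ^ 2 ≤ 1 / 4 := by nlinarith
    have k1 : 1 + a ≠ 0 := by linarith
    have k2 : 1 - a ≠ 0 := by linarith
    have k3 : 1 + b ≠ 0 := by linarith
    have k4 : 1 - b ≠ 0 := by linarith
    have e1 : sum4 (fun s t => -(e * s * t) / 4
        + e ^ 2 * (1 / 2 + 10 * e) / (4 * ((1 + a * s) * (1 + b * t))))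
        = e ^ 2 * (1 / 2 + 10 * e) * (1 / (((1 + a) * (1 - a)) * ((1 + b) * (1 - b)))) := by
      unfold sum4
      simp only [mul_one, mul_neg, ← sub_eq_add_neg]
      field_simp
      ring
    rw [e1]
    refine mul_le_mul_of_nonneg_left ?_ (by positivity)
    have e2 : ((1 + a) * (1 - a)) * ((1 + b) * (1 - b)) = (1 - a ^ 2) * (1 - b ^ 2) := by ring
    rw [e2, div_le_iff₀ (mul_pos (by linarith) (by linarith))]
    have x0 := sq_nonneg a
    have y0 := sq_nonneg b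
    generalize a ^ 2 = x at *
    generalize b ^ 2 = y at *
    have m1 : 0 ≤ x * y * (1 + 2 * x + 2 * y) := by positivity
    have m2 : 0 ≤ (x + y) * (1 - 2 * (x + y)) := mul_nonneg (by linarith) (by linarith)
    nlinarith
  · have : sum4 (fun s t => qq e a b s t * rr e a b s t) = 0 := by
      unfold sum4 rr
      simp [uu_zero h]
    rw [this]
    positivity

end GBP

open GBP in
theorem one : S_One := by
  intro e a b he he1 ha hb
  have hu : ∀ s t, (s = 1 ∨ s = -1) → (t = 1 ∨ t = -1) →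
      0 ≤ 1 + uu e a b s t ∧ 1 + uu e a b s t ≤ exp (rr e a b s t) :=
    fun s t hs ht => one_add_le he1 (uu_abs he hs ht)
  have hq : ∀ s t, (s = 1 ∨ s = -1) → (t = 1 ∨ t = -1) → 0 ≤ qq e a b s t := by
    intro s t hs ht
    have h1 := nonneg ha hs
    have h2 := nonneg hb ht
    have h3 := (hu s t hs ht).1
    unfold qq
    positivity
  have q1 := qq_eq (e := e) (a := a) (b := b) (.inl rfl) (.inl rfl)
  have q2 := qq_eq (e := e) (a := a) (b := b) (.inl rfl) (.inr rfl)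
  have q3 := qq_eq (e := e) (a := a) (b := b) (.inr rfl) (.inl rfl)
  have q4 := qq_eq (e := e) (a := a) (b := b) (.inr rfl) (.inr rfl)
  have hs : sum4 (qq e a b) = 1 := by
    unfold sum4
    rw [q1, q2, q3, q4]
    ring
  have ha' := abs_le.1 ha
  have hb' := abs_le.1 hb
  refine ⟨hu, hs, ?_, ?_, fun θ h0 h1 => ?_, fun τ h0 h1 => ?_, fun σ hσ => ?_⟩
  · refine le_trans (le_of_eq ?_) (hell ha)
    unfold sum4
    simp only [q1, q2, q3, q4, mul_one, mul_neg, ← sub_eq_add_neg]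
    ring
  · refine le_trans (le_of_eq ?_) (hell hb)
    unfold sum4
    simp only [q1, q2, q3, q4, mul_one, mul_neg, ← sub_eq_add_neg]
    ring
  · have h2 : |a * b - tl e a b| ≤ 1 := by
      rcases tl_cases e a b with ⟨h, k1, k2⟩ | ⟨h, -⟩
      · have k3 : |a * b| ≤ 1 / 4 := by
          rw [abs_mul]; nlinarith [abs_nonneg a, abs_nonneg b]
        have := abs_le.1 k3
        rw [h, abs_le]
        constructor <;> linarith
      · rw [h, sub_zero, abs_mul]
        nlinarith [abs_nonneg a, abs_nonneg b]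
    have h3 := abs_le.1 h2
    refine step (z := fun s t => θ * (s * t - a * b + tl e a b)) (fun s t k1 k2 => ?_) hs ?_
    · have k3 : |s * t - a * b + tl e a b| ≤ 2 := by
        rw [abs_le]
        rcases k1 with rfl | rfl <;> rcases k2 with rfl | rfl <;> constructor <;> linarith
      have k4 : |θ * (s * t - a * b + tl e a b)| ≤ 2 * θ := by
        rw [abs_mul, abs_of_pos h0]; nlinarith
      refine ⟨hq s t k1 k2, by linarith, ?_⟩
      rw [← sq_abs]
      nlinarith [abs_nonneg (θ * (s * t - a * b + tl e a b))]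
    · unfold sum4
      simp only [q1, q2, q3, q4]
      apply le_of_eq
      ring
  · refine step (z := fun s t => τ * (rr e a b s t -
      e ^ 2 * (1 / 2 + 10 * e) * (1 + 2 * a ^ 2 + 2 * b ^ 2))) (fun s t k1 k2 => ?_) hs ?_
    · have k3 := uu_abs (a := a) (b := b) he k1 k2
      have k4 := abs_le.1 k3
      have k5 : uu e a b s t ^ 2 ≤ (4 * e) ^ 2 := sq_le_sq' k4.1 k4.2
      have k6 : (1 / 2 - 8 * e) * uu e a b s t ^ 2 ≤ e / 2 := by
        nlinarith [sq_nonneg (uu e a b s t)]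
      have k7 : 0 ≤ (1 / 2 - 8 * e) * uu e a b s t ^ 2 :=
        mul_nonneg (by linarith) (sq_nonneg _)
      have k8 : 0 ≤ e ^ 2 * (1 / 2 + 10 * e) * (1 + 2 * a ^ 2 + 2 * b ^ 2) := by positivity
      have k9 : e ^ 2 * (1 / 2 + 10 * e) * (1 + 2 * a ^ 2 + 2 * b ^ 2) ≤ e / 2 := by
        have m1 : 1 + 2 * a ^ 2 + 2 * b ^ 2 ≤ 5 := by nlinarith
        calc _ ≤ e ^ 2 * 1 * 5 := by gcongr; linarith
          _ ≤ _ := by nlinarith
      have k10 : |rr e a b s t - e ^ 2 * (1 / 2 + 10 * e) * (1 + 2 * a ^ 2 + 2 * b ^ 2)|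
          ≤ 5 * e := by
        unfold rr
        rw [abs_le]
        constructor <;> linarith
      have k11 : |τ * (rr e a b s t - e ^ 2 * (1 / 2 + 10 * e) * (1 + 2 * a ^ 2 + 2 * b ^ 2))|
          ≤ τ * (5 * e) := by
        rw [abs_mul, abs_of_pos h0]
        exact mul_le_mul_of_nonneg_left k10 h0.le
      refine ⟨hq s t k1 k2, k11.trans (by nlinarith), ?_⟩
      rw [← sq_abs]
      calc _ ≤ (τ * (5 * e)) ^ 2 := by gcongr
        _ ≤ _ := by nlinarith [sq_nonneg (τ * e)]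
    · have k1 := drift (a := a) (b := b) he he1
      have k2 : sum4 (fun s t => qq e a b s t * (τ * (rr e a b s t -
          e ^ 2 * (1 / 2 + 10 * e) * (1 + 2 * a ^ 2 + 2 * b ^ 2))))
          = τ * (sum4 (fun s t => qq e a b s t * rr e a b s t)
            - e ^ 2 * (1 / 2 + 10 * e) * (1 + 2 * a ^ 2 + 2 * b ^ 2) * sum4 (qq e a b)) := by
        unfold sum4; ring
      rw [k2, hs]
      exact mul_nonpos_of_nonneg_of_nonpos h0.le (by linarith)
  · have h1 : a * b ≤ σ / 2 * a ^ 2 + 1 / (2 * σ) * b ^ 2 := by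
      have : σ / 2 * a ^ 2 + 1 / (2 * σ) * b ^ 2 - a * b = (σ * a - b) ^ 2 / (2 * σ) := by
        field_simp; ring
      have h2 : 0 ≤ (σ * a - b) ^ 2 / (2 * σ) := by positivity
      linarith
    have h2 : 0 ≤ e * a ^ 2 := by positivity
    have h3 : 0 ≤ e * b ^ 2 := by positivity
    rcases tl_cases e a b with ⟨h, -⟩ | ⟨h, k⟩
    · rw [h]; linarith
    · rw [h]
      rw [not_and_or, not_le, not_le] at k
      rcases k with k | k
      · have : 1 / 4 ≤ a ^ 2 := by rw [← sq_abs]; nlinarith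
        nlinarith
      · have : 1 / 4 ≤ b ^ 2 := by rw [← sq_abs]; nlinarith
        nlinarith

end Pool.Agent.P.MP_0b9d6e_co
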