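import Pool.Agent.P.MP_0b9d6e_co.Base

/-!
Package GC: the tilt lemma on the cube.
-/

namespace Pool.Agent.P.MP_0b9d6e_co

open Finset Real

namespace GCP

theorem le_of_exp_le {z : ℝ} (h : exp z ≤ 8) : z ≤ 17 / 8 := by
  have h1 : (8 : ℝ) ≤ exp (17 / 8) := by
    have e : exp (17 / 8) = exp 1 * exp 1 * exp (1 / 8) := by
      rw [← exp_add, ← exp_add]; norm_num
    have h2 := Real.exp_one_gt_d9
    have h3 := Real.add_one_le_exp (1 / 8)
    have h4 : (2.7182818283 : ℝ) * 2.7182818283 ≤ exp 1 * exp 1 := by gcongr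
    have h5 : (2.7182818283 : ℝ) * 2.7182818283 * (1 / 8 + 1) ≤ exp 1 * exp 1 * exp (1 / 8) := by
      gcongr
    rw [e]; linarith
  exact exp_le_exp.1 (h.trans h1)

/-- the uniform law on a set of positive measure -/
theorem unif (h1 : S_Dec) {d : ℕ} (A : Cube d → Prop) [DecidablePred A] {a₁ : ℝ}
    (hA : exp (-a₁) ≤ pr A) : 0 < ((univ.filter A).card : ℝ) ∧
    ∃ α : Cube d → Fin d → ℝ, Prd α ∧
      (∀ x, ∏ i, (1 + α x i * sg x i) / 2 = if A x then 1 / ((univ.filter A).card : ℝ) else 0) ∧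
      ∀ x, A x → ∏ i, exp (α x i ^ 2 / 8) / √(1 + α x i * sg x i) ≤ 8 →
        ∑ i, α x i ^ 2 ≤ 4 * a₁ + 17 := by
  have hpos : 0 < pr A := (exp_pos _).trans_le hA
  have hc : 0 < ((univ.filter A).card : ℝ) := by
    rw [pr_eq_card] at hpos
    exact (div_pos_iff_of_pos_right (by rw [card_cube]; positivity)).1 hpos
  obtain ⟨α, hα, hp⟩ := h1 d (fun x => if A x then 1 / ((univ.filter A).card : ℝ) else 0)
    (fun x => by split_ifs <;> positivity) (by
      rw [← sum_filter, sum_const, nsmul_eq_mul]; field_simp)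
  refine ⟨hc, α, hα, fun x => (hp x).symm, fun x hx h8 => ?_⟩
  have e1 := hp x
  simp only [hx, if_true] at e1
  rw [prod_div_distrib, prod_const, card_univ, Fintype.card_fin] at e1
  have e2 : ∏ i, (1 + α x i * sg x i) = (pr A)⁻¹ := by
    rw [pr_eq_card, card_cube, inv_div, eq_div_iff hc.ne']
    rw [div_eq_div_iff hc.ne' (by positivity)] at e1
    push_cast
    linarith
  have hn : ∀ i ∈ (univ : Finset (Fin d)), 0 ≤ 1 + α x i * sg x i := fun i _ => by
    have := abs_le.1 (hα.1 x i)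
    rcases sg_eq x i with h | h <;> rw [h] <;> linarith [this.1, this.2]
  rw [prod_div_distrib, ← Real.sqrt_prod _ hn, e2, ← exp_sum, sqrt_inv, div_inv_eq_mul,
    ← sum_div] at h8
  have e3 : exp (-a₁ / 2) ≤ √(pr A) := by
    apply le_sqrt_of_sq_le
    rw [← exp_nat_mul]
    push_cast
    rwa [show 2 * (-a₁ / 2) = -a₁ by ring]
  have e4 : exp ((∑ i, α x i ^ 2) / 8 + -a₁ / 2) ≤ 8 := by
    rw [exp_add]
    exact le_trans (by gcongr) h8
  linarith [le_of_exp_le e4]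

theorem split {Q E1 E2 E3 E4 B : ℝ} (hQ : 0 ≤ Q) (h1 : 0 ≤ E1) (h2 : 0 ≤ E2) (h3 : 0 ≤ E3)
    (h4 : 0 ≤ E4) (hB : 0 ≤ B) (h : E1 ≤ 8 → E2 ≤ 8 → E3 ≤ 8 → E4 ≤ 8 → Q ≤ B) :
    Q ≤ B + (Q * E1 + Q * E2 + Q * E3 + Q * E4) / 8 := by
  have a1 := mul_nonneg hQ h1
  have a2 := mul_nonneg hQ h2
  have a3 := mul_nonneg hQ h3
  have a4 := mul_nonneg hQ h4
  rcases le_or_gt E1 8 with b1 | b1
  · rcases le_or_gt E2 8 with b2 | b2
    · rcases le_or_gt E3 8 with b3 | b3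
      · rcases le_or_gt E4 8 with b4 | b4
        · linarith [h b1 b2 b3 b4]
        · linarith [mul_le_mul_of_nonneg_left b4.le hQ]
      · linarith [mul_le_mul_of_nonneg_left b3.le hQ]
    · linarith [mul_le_mul_of_nonneg_left b2.le hQ]
  · linarith [mul_le_mul_of_nonneg_left b1.le hQ]

theorem qq_nonneg (h3 : S_One) {e a b s t : ℝ} (he : 0 ≤ e) (he' : e ≤ 1 / 100) (ha : |a| ≤ 1)
    (hb : |b| ≤ 1) (hs : s = 1 ∨ s = -1) (ht : t = 1 ∨ t = -1) : 0 ≤ qq e a b s t := by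
  have h := ((h3 e a b he he' ha hb).1 s t hs ht).1
  have a1 := abs_le.1 ha
  have a2 := abs_le.1 hb
  have b1 : 0 ≤ 1 + a * s := by rcases hs with h | h <;> rw [h] <;> linarith [a1.1, a1.2]
  have b2 : 0 ≤ 1 + b * t := by rcases ht with h | h <;> rw [h] <;> linarith [a2.1, a2.2]
  unfold qq
  positivity

end GCP

open GCP in
theorem gG (h1 : S_Dec) (h2 : S_Sup) (h3 : S_One) : S_G := by
  classical
  intro d A U a₁ a₂ e σ θ τ t he he' hσ hθ hθ' hτ hτ' hA hU ht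
  obtain ⟨ca, α, hα, pa, sa⟩ := unif h1 A hA
  obtain ⟨cu, β, hβ, pu, su⟩ := unif h1 U hU
  set a : ℝ := ((univ.filter A).card : ℝ) with ha
  set u : ℝ := ((univ.filter U).card : ℝ) with hu
  have sup : ∀ E : ℝ → ℝ → ℝ → ℝ → ℝ, (∀ a b s t, 0 ≤ E a b s t) →
      (∀ a b, |a| ≤ 1 → |b| ≤ 1 → sum4 (fun s t => qq e a b s t * E a b s t) ≤ 1) →
      ∑ x, ∑ y, (∏ i, qq e (α x i) (β y i) (sg x i) (sg y i))
        * ∏ i, E (α x i) (β y i) (sg x i) (sg y i) ≤ 1 := fun E hE hs => by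
    have := (h2 d α β (fun a b s t => qq e a b s t * E a b s t) hα hβ
      (fun a b s t ha hb hs ht => mul_nonneg (qq_nonneg h3 he he' ha hb hs ht) (hE a b s t))).1 hs
    simpa only [prod_mul_distrib] using this
  have s0 := (h2 d α β (qq e) hα hβ
    (fun a b s t ha hb hs ht => qq_nonneg h3 he he' ha hb hs ht)).2
    (fun a b ha hb => (h3 e a b he he' ha hb).2.1.ge)
  have s1 := sup (fun a _ s _ => exp (a ^ 2 / 8) / √(1 + a * s)) (fun _ _ _ _ => by positivity)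
    (fun a b ha hb => (h3 e a b he he' ha hb).2.2.1)
  have s2 := sup (fun _ b _ t => exp (b ^ 2 / 8) / √(1 + b * t)) (fun _ _ _ _ => by positivity)
    (fun a b ha hb => (h3 e a b he he' ha hb).2.2.2.1)
  have s3 := sup (fun a b s t => exp (θ * (s * t - a * b + tl e a b) - 4 * θ ^ 2))
    (fun _ _ _ _ => by positivity)
    (fun a b ha hb => (h3 e a b he he' ha hb).2.2.2.2.1 θ hθ hθ')
  have s4 := sup (fun a b s t => exp (τ * (rr e a b s t -
      e ^ 2 * (1 / 2 + 10 * e) * (1 + 2 * a ^ 2 + 2 * b ^ 2)) - 100 * τ ^ 2 * e ^ 2))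
    (fun _ _ _ _ => by positivity)
    (fun a b ha hb => (h3 e a b he he' ha hb).2.2.2.2.2.1 τ hτ hτ')
  have key : ∀ x y, ∏ i, exp (α x i ^ 2 / 8) / √(1 + α x i * sg x i) ≤ 8 →
      ∏ i, exp (β y i ^ 2 / 8) / √(1 + β y i * sg y i) ≤ 8 →
      ∏ i, exp (θ * (sg x i * sg y i - α x i * β y i + tl e (α x i) (β y i)) - 4 * θ ^ 2) ≤ 8 →
      ∏ i, exp (τ * (rr e (α x i) (β y i) (sg x i) (sg y i) - e ^ 2 * (1 / 2 + 10 * e) *
        (1 + 2 * α x i ^ 2 + 2 * β y i ^ 2)) - 100 * τ ^ 2 * e ^ 2) ≤ 8 →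
      ∏ i, qq e (α x i) (β y i) (sg x i) (sg y i)
        ≤ if A x ∧ U y ∧ adj t x y then exp (cost d a₁ a₂ e τ) / (a * u) else 0 := by
    intro x y e1 e2 e3 e4
    have hQ : ∏ i, qq e (α x i) (β y i) (sg x i) (sg y i) = (if A x then 1 / a else 0) *
        (if U y then 1 / u else 0) * ∏ i, (1 + uu e (α x i) (β y i) (sg x i) (sg y i)) := by
      rw [← pa, ← pu, ← prod_mul_distrib, ← prod_mul_distrib]; rfl
    rw [hQ]
    by_cases hx : A x
    swap
    · simp [hx]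
    by_cases hy : U y
    swap
    · simp [hy]
    have b1 := sa x hx e1
    have b2 := su y hy e2
    have n1 : 0 ≤ ∑ i, α x i ^ 2 := sum_nonneg fun i _ => sq_nonneg _
    have n2 : 0 ≤ ∑ i, β y i ^ 2 := sum_nonneg fun i _ => sq_nonneg _
    rw [← exp_sum] at e3 e4
    have b3 := le_of_exp_le e3
    have b4 := le_of_exp_le e4
    simp only [sum_sub_distrib, sum_add_distrib, ← mul_sum, sum_const, card_univ,
      Fintype.card_fin, nsmul_eq_mul] at b3 b4
    have b5 : ∑ i, α x i * β y i - ∑ i, tl e (α x i) (β y i) ≤ -e * d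
        + (4 * e + σ / 2) * ∑ i, α x i ^ 2 + (4 * e + 1 / (2 * σ)) * ∑ i, β y i ^ 2 := by
      have := sum_le_sum (s := univ) fun i _ =>
        (h3 e (α x i) (β y i) he he' (hα.1 x i) (hβ.1 y i)).2.2.2.2.2.2 σ hσ
      simp only [sum_sub_distrib, sum_add_distrib, ← mul_sum, sum_const, card_univ,
        Fintype.card_fin, nsmul_eq_mul] at this
      linarith
    have hadj : adj t x y := by
      have c1 : ∑ i, sg x i * sg y i - ∑ i, α x i * β y i + ∑ i, tl e (α x i) (β y i)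
          ≤ 4 * θ * d + 3 / θ := by
        have c2 : 4 * θ * d + 3 / θ = (d * (4 * θ ^ 2) + 3) / θ := by field_simp
        rw [c2, le_div_iff₀ hθ]; linarith
      have c2 : (4 * e + σ / 2) * ∑ i, α x i ^ 2 ≤ (4 * e + σ / 2) * (4 * a₁ + 17) := by gcongr
      have c3 : (4 * e + 1 / (2 * σ)) * ∑ i, β y i ^ 2 ≤ (4 * e + 1 / (2 * σ)) * (4 * a₂ + 17) := by
        gcongr
      unfold loss at ht
      unfold adj dotProduct
      linarith
    have hr : ∑ i, rr e (α x i) (β y i) (sg x i) (sg y i) ≤ cost d a₁ a₂ e τ := by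
      have c1 : ∑ i, rr e (α x i) (β y i) (sg x i) (sg y i) - e ^ 2 * (1 / 2 + 10 * e) *
          (d * 1 + 2 * ∑ i, α x i ^ 2 + 2 * ∑ i, β y i ^ 2) ≤ 100 * τ * e ^ 2 * d + 3 / τ := by
        have c2 : 100 * τ * e ^ 2 * d + 3 / τ = (d * (100 * τ ^ 2 * e ^ 2) + 3) / τ := by field_simp
        rw [c2, le_div_iff₀ hτ]; linarith
      have c2 : (1 / 2 + 10 * e) * (∑ i, α x i ^ 2 + ∑ i, β y i ^ 2)
          ≤ 1 * (4 * a₁ + 4 * a₂ + 34) := by
        apply mul_le_mul <;> linarith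
      have c3 := mul_le_mul_of_nonneg_left c2 (sq_nonneg e)
      unfold cost
      linarith
    have hp : ∏ i, (1 + uu e (α x i) (β y i) (sg x i) (sg y i)) ≤ exp (cost d a₁ a₂ e τ) := by
      refine le_trans ?_ (exp_le_exp.2 hr)
      rw [exp_sum]
      exact prod_le_prod
        (fun i _ => ((h3 e _ _ he he' (hα.1 x i) (hβ.1 y i)).1 _ _ (sg_eq x i) (sg_eq y i)).1)
        (fun i _ => ((h3 e _ _ he he' (hα.1 x i) (hβ.1 y i)).1 _ _ (sg_eq x i) (sg_eq y i)).2)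
    simp only [hx, hy, hadj, if_true, and_self]
    calc 1 / a * (1 / u) * ∏ i, (1 + uu e (α x i) (β y i) (sg x i) (sg y i))
        ≤ 1 / a * (1 / u) * exp (cost d a₁ a₂ e τ) := by gcongr
      _ = exp (cost d a₁ a₂ e τ) / (a * u) := by field_simp
  have tot := sum_le_sum (s := univ) fun x _ => sum_le_sum (s := univ) fun y _ =>
    split (prod_nonneg fun i _ => qq_nonneg h3 he he' (hα.1 x i) (hβ.1 y i) (sg_eq x i) (sg_eq y i))
      (prod_nonneg fun i _ => by positivity) (prod_nonneg fun i _ => by positivity)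
      (prod_nonneg fun i _ => by positivity) (prod_nonneg fun i _ => by positivity)
      (by split_ifs <;> positivity) (key x y)
  simp only [sum_add_distrib, ← sum_div] at tot
  have hs : ∑ x, ∑ y, (if A x ∧ U y ∧ adj t x y then exp (cost d a₁ a₂ e τ) / (a * u) else 0)
      = exp (cost d a₁ a₂ e τ) / (a * u) *
        ∑ z : Cube d × Cube d, if A z.1 ∧ U z.2 ∧ adj t z.1 z.2 then (1 : ℝ) else 0 := by
    rw [Fintype.sum_prod_type, mul_sum]
    refine sum_congr rfl fun x _ => ?_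
    rw [mul_sum]
    refine sum_congr rfl fun y _ => ?_
    split_ifs <;> simp
  rw [hs] at tot
  rw [pr_eq_sum (fun z : Cube d × Cube d => A z.1 ∧ U z.2 ∧ adj t z.1 z.2), pr_eq_card A,
    pr_eq_card U, ← ha, ← hu, Fintype.card_prod, Nat.cast_mul]
  set n := ∑ z : Cube d × Cube d, if A z.1 ∧ U z.2 ∧ adj t z.1 z.2 then (1 : ℝ) else 0
  have h12 : 1 / 2 ≤ exp (cost d a₁ a₂ e τ) / (a * u) * n := by linarith
  have hN : (0 : ℝ) < Fintype.card (Cube d) := by rw [card_cube]; positivity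
  have hE := exp_pos (cost d a₁ a₂ e τ)
  rw [div_mul_eq_mul_div, le_div_iff₀ (by positivity)] at h12
  rw [exp_neg, div_mul_div_comm, div_mul_eq_mul_div]
  gcongr
  rw [← mul_div_assoc, div_le_iff₀ (by norm_num), ← div_eq_mul_inv, div_le_iff₀ hE]
  linarith

theorem bad (h : S_G) : S_Bad := by
  classical
  intro d a₁ a₂ e σ θ τ t ϖ he he' hσ hθ hθ' hτ hτ' ht hϖ U hU
  by_contra hc
  push Not at hc
  have h1 := h d (Bad t ϖ U) U a₁ a₂ e σ θ τ t he he' hσ hθ hθ' hτ hτ' hc.le hU ht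
  obtain ⟨z₀, hz₀⟩ := exists_of_pr_pos ((exp_pos _).trans hc)
  have hN : (0 : ℝ) < Fintype.card (Cube d) := by rw [card_cube]; positivity
  have h2 : pr (fun z : Cube d × Cube d => Bad t ϖ U z.1 ∧ U z.2 ∧ adj t z.1 z.2)
      < pr (Bad t ϖ U) * (ϖ * pr U) := by
    rw [pr_prod_eq_avg, pr_eq_sum (Bad t ϖ U), div_mul_eq_mul_div, sum_mul]
    refine div_lt_div_of_pos_right (sum_lt_sum (fun z _ => ?_) ⟨z₀, mem_univ _, ?_⟩) hN
    · by_cases hz : Bad t ϖ U z
      · simp only [hz, true_and, if_true, one_mul]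
        exact hz.2.le
      · simp only [hz, false_and, if_false, zero_mul]
        exact (pr_of_forall_not fun _ => not_false).le
    · simp only [hz₀, true_and, if_true, one_mul]
      exact hz₀.2
  have h3 : pr (Bad t ϖ U) * (ϖ * pr U)
      ≤ pr (Bad t ϖ U) * pr U * (exp (-cost d a₁ a₂ e τ) / 2) := by
    rw [mul_comm ϖ, ← mul_assoc]
    exact mul_le_mul_of_nonneg_left hϖ (mul_nonneg (pr_nonneg _) (pr_nonneg _))
  linarith

end Pool.Agent.P.MP_0b9d6e_co
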