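import Pool.Agent.P.MP_0b9d6e_co.Base

/-!
The random sparse labelling of pairs of digits.
-/

namespace Pool.Agent.P.MP_0b9d6e_co

open Finset

namespace GamP

variable {M Q : ℕ} [NeZero Q]

theorem pr_eq_pt (a c : ZMod Q) : pr (fun t : ZMod Q => a + t = c) = 1 / Q := by
  rw [pr_eq_card, ZMod.card]
  have : (univ.filter fun t : ZMod Q => a + t = c) = {c - a} := by
    ext t
    simp only [mem_filter, mem_univ, true_and, mem_singleton]
    constructor
    · rintro rfl; ring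
    · rintro rfl; ring
  rw [this, card_singleton, Nat.cast_one]

theorem pr_ne_pt (a c : ZMod Q) : pr (fun t : ZMod Q => a + t ≠ c) = 1 - 1 / Q := by
  have h := pr_and_add_pr_and_not (fun _ : ZMod Q => True) (fun t => a + t = c)
  rw [pr_of_forall (p := fun _ : ZMod Q => True) fun _ => trivial] at h
  simp only [true_and] at h
  rw [pr_eq_pt] at h
  linarith

theorem pr_on (A : Finset (Fin M)) (r : Fin M → ZMod Q → Prop) (x : ℝ)
    (h : ∀ u ∈ A, pr (r u) ≤ x) :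
    pr (fun z : Fin M → ZMod Q => ∀ u ∈ A, r u (z u)) ≤ x ^ A.card := by
  rw [pr_pi (fun u t => u ∈ A → r u t), ← prod_subset (subset_univ A)]
  · rw [← prod_const]
    refine prod_le_prod (fun u _ => pr_nonneg _) fun u hu => ?_
    exact (pr_mono fun t ht => ht hu).trans (h u hu)
  · intro u _ hu
    exact pr_of_forall fun t h => absurd h hu

/-- the first kind of rule -/
def D1 (a₀ : ℕ) (c : ZMod Q) (A _R : Finset (Fin M)) (ω : Fin M → Fin M → ZMod Q) (v : Fin M)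
    (z : Fin M → ZMod Q) : Prop := A.card = a₀ ∧ ∀ u ∈ A, ω u v + z u ≠ c

/-- the second kind of rule -/
def D2 (s₀ r : ℕ) (A _R : Finset (Fin M)) (ω : Fin M → Fin M → ZMod Q) (v : Fin M)
    (z : Fin M → ZMod Q) : Prop :=
  A.card ≤ s₀ ∧ ∃ N ⊆ A, r ≤ N.card ∧ ∀ u ∈ N, ω u v + z u = 0 ∨ ω u v + z u = 1

theorem pr_D1 (a₀ : ℕ) (c : ZMod Q) (A R : Finset (Fin M)) (ω : Fin M → Fin M → ZMod Q)
    (v : Fin M) (h : A.card = a₀) : pr (D1 a₀ c A R ω v) ≤ (1 - 1 / (Q : ℝ)) ^ a₀ := by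
  refine (pr_mono fun z hz => hz.2).trans ?_
  rw [← h]
  exact pr_on A (fun u t => ω u v + t ≠ c) _ fun u _ => (pr_ne_pt _ _).le

theorem pr_D2 (s₀ r : ℕ) (A R : Finset (Fin M)) (ω : Fin M → Fin M → ZMod Q)
    (v : Fin M) (h : A.card ≤ s₀) : pr (D2 s₀ r A R ω v) ≤ (2 * (s₀ : ℝ) / Q) ^ r := by
  have h1 : pr (D2 s₀ r A R ω v) ≤ pr (fun z : Fin M → ZMod Q => ∃ N ∈ powersetCard r A,
      ∀ u ∈ N, ω u v + z u = 0 ∨ ω u v + z u = 1) := by
    refine pr_mono ?_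
    rintro z ⟨-, N, hN, hr, hz⟩
    obtain ⟨N', h1, h2⟩ := exists_subset_card_eq hr
    exact ⟨N', mem_powersetCard.2 ⟨h1.trans hN, h2⟩, fun u hu => hz u (h1 hu)⟩
  refine h1.trans ((pr_exists_le _ _).trans ?_)
  have h2 : ∀ N ∈ powersetCard r A, pr (fun z : Fin M → ZMod Q =>
      ∀ u ∈ N, ω u v + z u = 0 ∨ ω u v + z u = 1) ≤ (2 / (Q : ℝ)) ^ r := by
    intro N hN
    rw [← (mem_powersetCard.1 hN).2]
    refine pr_on N (fun u t => ω u v + t = 0 ∨ ω u v + t = 1) _ fun u _ => ?_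
    refine (pr_or_le _ _).trans ?_
    rw [pr_eq_pt, pr_eq_pt]
    exact le_of_eq (by ring)
  refine (sum_le_card_nsmul _ _ _ h2).trans ?_
  rw [card_powersetCard, nsmul_eq_mul]
  have h3 : (A.card.choose r : ℝ) ≤ (s₀ : ℝ) ^ r := by
    exact_mod_cast (Nat.choose_le_pow _ _).trans (Nat.pow_le_pow_left h r)
  calc (A.card.choose r : ℝ) * (2 / (Q : ℝ)) ^ r ≤ (s₀ : ℝ) ^ r * (2 / (Q : ℝ)) ^ r :=
        mul_le_mul_of_nonneg_right h3 (by positivity)
    _ = (2 * (s₀ : ℝ) / Q) ^ r := by rw [← mul_pow]; congr 1; ring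

/-- the labelling -/
def lab (ω : Fin M → Fin M → ZMod Q) (u v : Fin M) : Option Bool :=
  if u = v then none else if ω u v + ω v u = 0 then some true
    else if ω u v + ω v u = 1 then some false else none

omit [NeZero Q] in
theorem lab_symm (ω : Fin M → Fin M → ZMod Q) (u v : Fin M) : lab ω u v = lab ω v u := by
  unfold lab
  rw [add_comm (ω u v)]
  by_cases h : u = v
  · rw [if_pos h, if_pos h.symm]
  · rw [if_neg h, if_neg (Ne.symm h)]

end GamP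

open GamP in
theorem gam (h1 : S_UB) (h2 : S_MC) : S_Gam := by
  intro M Q s₀ r a₀ hQ hM ha hr
  have : NeZero Q := ⟨by omega⟩
  have : Fact (1 < Q) := ⟨by omega⟩
  have hM0 : (0 : ℝ) < M := by exact_mod_cast (by omega : 0 < M)
  have hM1 : (M : ℝ)⁻¹ ≤ 1 := inv_le_one_of_one_le₀ (by exact_mod_cast (by omega : 1 ≤ M))
  have e1 := fun c : ZMod Q => h1 M (Fin M → ZMod Q) (D1 a₀ c) (((M : ℝ)⁻¹) ^ 2) (fun a => a + 1)
    (by omega) (by positivity)
    (fun A R ω ω' v z hA _ h => ⟨h.1, fun u hu => by rw [← hA u hu]; exact h.2 u hu⟩)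
    (fun a => le_of_eq (by congr 1; field_simp))
  have e2 := h1 M (Fin M → ZMod Q) (D2 s₀ r) (((M : ℝ)⁻¹) ^ 3) (fun a => max a 1)
    (by omega) (by positivity)
    (fun A R ω ω' v z hA _ ⟨h, N, hN, hc, hz⟩ =>
      ⟨h, N, hN, hc, fun u hu => by rw [← hA u (hN hu)]; exact hz u hu⟩)
    (fun a => by
      have : (M : ℝ) * ((M : ℝ)⁻¹) ^ 3 = ((M : ℝ)⁻¹) ^ 2 := by field_simp
      rw [this, ← pow_mul]
      exact pow_le_pow_of_le_one (by positivity) hM1 (by omega))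
  have e3 := ((pr_or_le _ _).trans (add_le_add ((pr_or_le _ _).trans
    (add_le_add (e1 0) (e1 1))) e2)).trans_lt (show (9 : ℝ) / M + 9 / M + 9 / M < 1 by
      have : (27 : ℝ) < M := by exact_mod_cast hM
      rw [← add_div, ← add_div, div_lt_one hM0]
      linarith)
  obtain ⟨ω, hω⟩ := exists_not_of_pr_lt_one e3
  have g1 : ∀ c : ZMod Q, c = 0 ∨ c = 1 → ∀ S : Finset (Fin M),
      (∀ u ∈ S, ∀ v ∈ S, u ≠ v → ω u v + ω v u ≠ c) → S.card ≤ 2 * a₀ := by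
    intro c hc S hS
    by_contra hlt
    obtain ⟨A, hA, hAc⟩ := exists_subset_card_eq (show a₀ ≤ S.card by omega)
    have key : ∃ A R S : Finset (Fin M), A.card + R.card + 1 ≤ S.card ∧
        ∀ v ∈ S, v ∉ A ∧ v ∉ R ∧ D1 a₀ c A R ω v (ω v) ∧
          pr (D1 a₀ c A R ω v) ≤ ((M : ℝ)⁻¹) ^ 2 := by
      refine ⟨A, ∅, S \ A, ?_, fun v hv => ?_⟩
      · rw [card_sdiff_of_subset hA, card_empty]; omega
      · obtain ⟨hv1, hv2⟩ := mem_sdiff.1 hv
        exact ⟨hv2, notMem_empty v, ⟨hAc, fun u hu => hS u (hA hu) v hv1 fun e => hv2 (e ▸ hu)⟩,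
          (pr_D1 a₀ c A ∅ ω v hAc).trans ha⟩
    rcases hc with rfl | rfl
    · exact hω (Or.inl (Or.inl key))
    · exact hω (Or.inl (Or.inr key))
  refine ⟨lab ω, lab_symm ω, fun u => if_pos rfl, ?_, fun l S hS => ?_⟩
  · refine h2 (Fin M) _ s₀ r (fun u v h => by rwa [lab_symm]) fun A B hA hB => ?_
    by_contra hlt
    refine hω (Or.inr ⟨A, ∅, B, by simpa using not_lt.1 hlt, fun v hv => ?_⟩)
    obtain ⟨hv1, N, hN, hc, hG⟩ := hB v hv
    refine ⟨hv1, notMem_empty v, ⟨hA, N, hN, hc, fun u hu => ?_⟩, (pr_D2 s₀ r A ∅ ω v hA).trans hr⟩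
    by_contra hn
    rw [not_or] at hn
    exact hG u hu (by simp [lab, hn.1, hn.2])
  · cases l
    · refine g1 1 (Or.inr rfl) S fun u hu v hv huv e => hS u hu v hv ?_
      simp [lab, huv, e]
    · refine g1 0 (Or.inl rfl) S fun u hu v hv huv e => hS u hu v hv ?_
      simp [lab, huv, e]

end Pool.Agent.P.MP_0b9d6e_co
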