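import Pool.Agent.P.MP_0b9d6e_co.Base

/-!
Package Hoef: the Hoeffding bound on the cube and three small consequences.
-/

namespace Pool.Agent.P.MP_0b9d6e_co

open Finset Real

namespace HoefP

lemma mgf (d : ℕ) (s : Fin d → ℝ) (θ : ℝ) :
    ∑ z : Cube d, exp (θ * (sg z ⬝ᵥ s)) ≤ 2 ^ d * exp (θ ^ 2 * (s ⬝ᵥ s) / 2) := by
  have e : ∀ z : Cube d, exp (θ * (sg z ⬝ᵥ s)) =
      ∏ i, exp (θ * ((if z i then (1 : ℝ) else -1) * s i)) := fun z => by
    rw [← Real.exp_sum, dotProduct, mul_sum]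
    rfl
  have e2 : ∑ z : Cube d, ∏ i, exp (θ * ((if z i then (1 : ℝ) else -1) * s i)) =
      ∏ i, ∑ b : Bool, exp (θ * ((if b then (1 : ℝ) else -1) * s i)) := by
    rw [Finset.prod_univ_sum, Fintype.piFinset_univ]
  rw [sum_congr rfl fun z _ => e z, e2]
  have e3 : (2 : ℝ) ^ d * exp (θ ^ 2 * (s ⬝ᵥ s) / 2) = ∏ i, (2 * exp ((θ * s i) ^ 2 / 2)) := by
    rw [prod_mul_distrib, prod_const, card_univ, Fintype.card_fin, ← Real.exp_sum, dotProduct,
      mul_sum, sum_div]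
    congr 2
    exact sum_congr rfl fun i _ => by ring
  rw [e3]
  refine prod_le_prod (fun i _ => sum_nonneg fun b _ => (exp_pos _).le) fun i _ => ?_
  have h := Real.cosh_le_exp_half_sq (θ * s i)
  rw [Real.cosh_eq] at h
  rw [Fintype.sum_bool]
  simp only [if_true, Bool.false_eq_true, if_false, one_mul, neg_mul, mul_neg]
  linarith

lemma dot_nonneg {d : ℕ} (s : Fin d → ℝ) : 0 ≤ s ⬝ᵥ s :=
  sum_nonneg fun _ _ => mul_self_nonneg _

end HoefP

theorem hoef : S_Hoef := by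
  intro d s u σ hu hσ hs
  have h := pr_le_avg (p := fun z : Cube d => u ≤ sg z ⬝ᵥ s)
    (fun z => exp (u / σ * (sg z ⬝ᵥ s)) * exp (-(u / σ * u))) (fun z => by positivity)
    (fun z hz => by
      rw [← exp_add]
      refine one_le_exp ?_
      have := mul_le_mul_of_nonneg_left hz (div_nonneg hu hσ.le)
      linarith)
  refine h.trans ?_
  rw [← sum_mul, card_cube, div_le_iff₀ (by positivity)]
  have h1 := HoefP.mgf d s (u / σ)
  have h2 : exp ((u / σ) ^ 2 * (s ⬝ᵥ s) / 2) * exp (-(u / σ * u)) ≤ exp (-(u ^ 2 / (2 * σ))) := by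
    rw [← exp_add]
    refine exp_le_exp.2 ?_
    have h3 : (u / σ) ^ 2 * (s ⬝ᵥ s) ≤ (u / σ) ^ 2 * σ := mul_le_mul_of_nonneg_left hs (sq_nonneg _)
    have h4 : (u / σ) ^ 2 * σ / 2 + -(u / σ * u) = -(u ^ 2 / (2 * σ)) := by field_simp; ring
    linarith
  calc _ ≤ (2 ^ d * exp ((u / σ) ^ 2 * (s ⬝ᵥ s) / 2)) * exp (-(u / σ * u)) :=
        mul_le_mul_of_nonneg_right h1 (exp_pos _).le
    _ = 2 ^ d * (exp ((u / σ) ^ 2 * (s ⬝ᵥ s) / 2) * exp (-(u / σ * u))) := by ring
    _ ≤ 2 ^ d * exp (-(u ^ 2 / (2 * σ))) := mul_le_mul_of_nonneg_left h2 (by positivity)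
    _ = _ := by push_cast; ring

theorem attM : S_AttM := by
  intro V d x a A ha
  have one : ∀ s : Fin d → ℝ, pr (att a s) ≤ exp (-(a ^ 2 / 2)) := fun s => by
    rcases (HoefP.dot_nonneg s).eq_or_lt with h0 | h0
    · have hs : s = 0 := dotProduct_self_eq_zero.1 h0.symm
      rw [pr_of_forall_not (fun z => by simp [att, hs])]
      exact (exp_pos _).le
    · have h := hoef d s (a * √(s ⬝ᵥ s)) (s ⬝ᵥ s) (by positivity) h0 le_rfl
      have e : (a * √(s ⬝ᵥ s)) ^ 2 / (2 * (s ⬝ᵥ s)) = a ^ 2 / 2 := by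
        rw [mul_pow, Real.sq_sqrt h0.le]
        field_simp
      rw [e] at h
      exact (pr_mono fun z hz => le_of_lt hz).trans h
  have h := pr_exists_le A.powerset fun F (z : Cube d) => att a (sv x F) z
  have e : pr (Att a x A) = pr fun z : Cube d => ∃ F ∈ A.powerset, att a (sv x F) z :=
    pr_congr fun z => by simp [Att]
  rw [e]
  refine h.trans ((sum_le_sum fun F _ => one (sv x F)).trans (le_of_eq ?_))
  rw [sum_const, card_powerset, nsmul_eq_mul]
  push_cast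
  rfl

theorem clq : S_Clq := by
  classical
  intro V d x t F ht h
  rcases F.eq_empty_or_nonempty with rfl | hF
  · simp only [card_empty, Nat.cast_zero, zero_sub, mul_neg, mul_one]
    have : (0 : ℝ) ≤ d := Nat.cast_nonneg _
    linarith
  have h0 := HoefP.dot_nonneg (sv x F)
  have e : sv x F ⬝ᵥ sv x F = ∑ u ∈ F, ∑ v ∈ F, sg (x u) ⬝ᵥ sg (x v) := by
    unfold sv
    rw [sum_dotProduct]
    exact sum_congr rfl fun u _ => dotProduct_sum _ _ _
  have h1 : ∀ u ∈ F, ∑ v ∈ F, sg (x u) ⬝ᵥ sg (x v) ≤ d - t * ((F.card : ℝ) - 1) := fun u hu => by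
    rw [← add_sum_erase F _ hu, sg_dot_self]
    have h2 : ∑ v ∈ F.erase u, sg (x u) ⬝ᵥ sg (x v) ≤ ∑ v ∈ F.erase u, -t :=
      sum_le_sum fun v hv => h u hu v (mem_of_mem_erase hv) (ne_of_mem_erase hv).symm
    rw [sum_const, card_erase_of_mem hu, nsmul_eq_mul,
      Nat.cast_sub (card_pos.2 ⟨u, hu⟩), Nat.cast_one] at h2
    linarith
  have h3 := sum_le_sum h1
  rw [← e, sum_const, nsmul_eq_mul] at h3
  have h4 : (0 : ℝ) < F.card := by exact_mod_cast card_pos.2 hF
  have h5 := (mul_nonneg_iff_of_pos_left h4).1 (h0.trans h3)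
  linarith

theorem gen : S_Gen := by
  intro m d x a F
  induction F using Finset.induction_on_min with
  | empty => exact fun _ => Gen.empty
  | insert v F hv ih =>
    intro h
    have hvF : v ∉ F := fun hm => lt_irrefl _ (hv v hm)
    refine Gen.step (ih fun u hu hA => h u (mem_insert_of_mem hu) (hA.mono ?_)) hvF
      fun hA => h v (mem_insert_self _ _) (hA.mono ?_)
    · exact filter_subset_filter _ (subset_insert _ _)
    · intro u hu
      exact mem_filter.2 ⟨mem_insert_of_mem hu, hv u hu⟩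

end Pool.Agent.P.MP_0b9d6e_co
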