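import Pool.Agent.P.MP_0b9d6e_co.Base

/-!
An explicit matching that meets every three comparable intervals.
-/

namespace Pool.Agent.P.MP_0b9d6e_co

open Finset

namespace MatchP

theorem dm {M p p' u u' : ℕ} (h : u < M) (h' : u' < M) (e : M * p + u = M * p' + u') :
    p = p' ∧ u = u' := by
  have M0 : 0 < M := by omega
  have a := congrArg (· / M) e
  simp only [Nat.mul_add_div M0, Nat.div_eq_of_lt h, Nat.div_eq_of_lt h', add_zero] at a
  subst a
  exact ⟨rfl, by omega⟩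

/-- The jump lengths. -/
def off (σ i : ℕ) : ℕ := i / σ * 2 ^ (i % σ)

/-- The edges. -/
def Ed (σ a x y z : ℕ) : Prop := ∃ i < a, ∃ j < a, ∃ s,
  x = 3 * a ^ 2 * s + 3 * (a * i + j) ∧ y = 3 * a ^ 2 * (s + off σ i) + (3 * (a * i + j) + 1) ∧
    z = 3 * a ^ 2 * (s + off σ i + off σ j) + (3 * (a * i + j) + 2)

theorem code_lt {a i j : ℕ} (hi : i < a) (hj : j < a) : a * i + j < a ^ 2 := by
  have : a * (i + 1) ≤ a * a := Nat.mul_le_mul_left a hi
  nlinarith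

theorem uniq {σ a x y z x' y' z' v : ℕ} (h : Ed σ a x y z) (h' : Ed σ a x' y' z')
    (hv : v = x ∨ v = y ∨ v = z) (hv' : v = x' ∨ v = y' ∨ v = z') :
    x = x' ∧ y = y' ∧ z = z' := by
  obtain ⟨i, hi, j, hj, s, rfl, rfl, rfl⟩ := h
  obtain ⟨i', hi', j', hj', s', rfl, rfl, rfl⟩ := h'
  have c := code_lt hi hj
  have c' := code_lt hi' hj'
  suffices i = i' ∧ j = j' ∧ s = s' by
    obtain ⟨rfl, rfl, rfl⟩ := this
    exact ⟨rfl, rfl, rfl⟩
  rcases hv with rfl | rfl | rfl <;> rcases hv' with e | e | e <;>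
    obtain ⟨e1, e2⟩ := dm (by omega) (by omega) e
  all_goals first
    | (exfalso; omega)
    | (obtain ⟨rfl, rfl⟩ := dm hj hj' (show a * i + j = a * i' + j' by omega)
       exact ⟨rfl, rfl, by omega⟩)

theorem key {n B P len lo hi : ℕ} (hP : 0 < P) (h1 : 12 * P ≤ len) (h2 : len ≤ n)
    (h3 : lo + len = hi + 3 * P) (h4 : hi ≤ B * len) :
    ∃ i < 3 * B * (Nat.log 2 n + 1), lo ≤ 3 * P * off (Nat.log 2 n + 1) i ∧
      3 * P * off (Nat.log 2 n + 1) i ≤ hi := by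
  have q0 : len / (4 * P) ≠ 0 := (Nat.div_pos (by omega) (by omega)).ne'
  obtain ⟨s, hs⟩ : ∃ s, s = Nat.log 2 (len / (4 * P)) := ⟨_, rfl⟩
  have a1 : 2 ^ s ≤ len / (4 * P) := hs ▸ Nat.pow_log_le_self 2 q0
  have a2 : len / (4 * P) < 2 ^ (s + 1) := hs ▸ Nat.lt_pow_succ_log_self (by norm_num) _
  rw [Nat.le_div_iff_mul_le (by omega)] at a1
  rw [Nat.div_lt_iff_lt_mul (by omega), pow_succ] at a2
  have s1 : s < Nat.log 2 n + 1 := by
    rw [hs]
    exact Nat.lt_succ_of_le (Nat.log_mono_right ((Nat.div_le_self _ _).trans h2))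
  obtain ⟨G, hG⟩ : ∃ G, G = P * 2 ^ s := ⟨_, rfl⟩
  have G0 : 0 < G := by rw [hG]; positivity
  have b1 : 4 * G ≤ len := by rw [hG]; linarith
  have b2 : len < 8 * G := by rw [hG]; linarith
  obtain ⟨j, hj⟩ : ∃ j, j = (lo + 3 * G - 1) / (3 * G) := ⟨_, rfl⟩
  have c1 := Nat.div_add_mod (lo + 3 * G - 1) (3 * G)
  have c2 := Nat.mod_lt (lo + 3 * G - 1) (show 0 < 3 * G by omega)
  rw [← hj] at c1
  have d1 : lo ≤ 3 * G * j := by omega
  have d2 : 3 * G * j ≤ hi := by omega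
  have d3 : j < 3 * B := by
    by_contra h
    have e1 : 3 * G * (3 * B) ≤ 3 * G * j := Nat.mul_le_mul_left _ (not_lt.1 h)
    have e2 : B * len ≤ B * (8 * G) := Nat.mul_le_mul_left _ b2.le
    have e3 : 0 < B := by
      rcases Nat.eq_zero_or_pos B with rfl | h0
      · omega
      · exact h0
    nlinarith
  have e : 3 * P * off (Nat.log 2 n + 1) ((Nat.log 2 n + 1) * j + s) = 3 * G * j := by
    rw [off, Nat.mul_add_div (by omega), Nat.div_eq_of_lt s1, Nat.mul_add_mod,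
      Nat.mod_eq_of_lt s1, hG]
    ring
  refine ⟨(Nat.log 2 n + 1) * j + s, ?_, e ▸ d1, e ▸ d2⟩
  have : (Nat.log 2 n + 1) * (j + 1) ≤ (Nat.log 2 n + 1) * (3 * B) := Nat.mul_le_mul_left _ d3
  nlinarith

theorem pick {M u : ℕ} (h : u < M) (y₀ : ℕ) : ∃ t, y₀ ≤ M * t + u ∧ M * t + u < y₀ + M := by
  have c1 := Nat.div_add_mod (y₀ + M - 1 - u) M
  have c2 := Nat.mod_lt (y₀ + M - 1 - u) (show 0 < M by omega)
  exact ⟨(y₀ + M - 1 - u) / M, by omega, by omega⟩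

end MatchP

open MatchP

theorem mat : S_Match := by
  intro n B hB
  classical
  obtain ⟨a, ha⟩ : ∃ a, a = 3 * B * (Nat.log 2 n + 1) := ⟨_, rfl⟩
  have a0 : 0 < a ^ 2 := by rw [ha]; positivity
  refine ⟨(range n ×ˢ range n ×ˢ range n).filter
    fun e => Ed (Nat.log 2 n + 1) a e.1 e.2.1 e.2.2, ⟨fun e he => ?_, ?_⟩, ?_⟩
  · obtain ⟨h1, i, -, j, -, s, e1, e2, e3⟩ := mem_filter.1 he
    simp only [mem_product, mem_range] at h1
    rw [mul_add] at e2
    rw [mul_add, mul_add] at e3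
    exact ⟨by omega, by omega, h1.2.2⟩
  · intro e he e' he' v hv hv'
    obtain ⟨h1, h2, h3⟩ := uniq (mem_filter.1 he).2 (mem_filter.1 he').2 hv hv'
    exact Prod.ext h1 (Prod.ext h2 h3)
  · intro x₀ x₁ y₀ y₁ z₀ z₁ h1 h2 h3 h4 h5 h6 h7 h8
    rw [PP, ← ha] at h4 h5 h6
    obtain ⟨i, hi, i1, i2⟩ := key (n := n) (B := B) (len := x₁ - x₀)
      (lo := y₀ + 3 * a ^ 2 - 1 - x₁) (hi := y₀ - 1 - x₀) a0 (by omega) (by omega) (by omega)
      (by omega)
    obtain ⟨j, hj, j1, j2⟩ := key (n := n) (B := B) (len := z₁ - z₀)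
      (lo := z₀ - y₀ - 1) (hi := z₁ - y₀ - 3 * a ^ 2 - 1) a0 (by omega) (by omega) (by omega)
      (by omega)
    rw [← ha] at hi hj
    have c := code_lt hi hj
    obtain ⟨t, t1, t2⟩ := pick (M := 3 * a ^ 2) (u := 3 * (a * i + j) + 1) (by omega) y₀
    have ht : off (Nat.log 2 n + 1) i ≤ t := by
      by_contra h
      have := Nat.mul_le_mul_left (3 * a ^ 2) (Nat.succ_le_of_lt (not_le.1 h))
      rw [Nat.mul_succ] at this
      omega
    obtain ⟨s, rfl⟩ := Nat.exists_eq_add_of_le' ht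
    have e1 := mul_add (3 * a ^ 2) s (off (Nat.log 2 n + 1) i)
    have e2 := mul_add (3 * a ^ 2) (s + off (Nat.log 2 n + 1) i) (off (Nat.log 2 n + 1) j)
    refine ⟨_, _, _, ?_, ?_, ?_, ?_, ?_, ?_,
      mem_filter.2 ⟨?_, i, hi, j, hj, s, rfl, rfl, rfl⟩⟩
    all_goals first
      | omega
      | (simp only [mem_product, mem_range]; omega)

end Pool.Agent.P.MP_0b9d6e_co

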