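import Pool.Agent.P.MP_0b9d6e_co.Base

/-!
Numeric instances of the measure bounds.
-/

namespace Pool.Agent.P.MP_0b9d6e_co

open Finset Real

namespace MeasP

theorem d_eq (d : ℕ) : (d : ℝ) = 2 * 10 ^ 72 * lam d := by
  rw [lam_eq]
  field_simp

theorem d_pos {d : ℕ} (h : 1 ≤ lam d) : (0 : ℝ) < d := by
  rw [d_eq d]
  positivity

theorem atr_nonneg (d : ℕ) : 0 ≤ atr d := Real.sqrt_nonneg _

/-- the exponent after cancelling the dimension -/
theorem expo {d : ℕ} (h : 1 ≤ lam d) (n c : ℝ) (hc : 0 < c) :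
    thr d ^ 2 * n / (2 * (d * c)) = lam d * n / c := by
  have hd := d_pos h
  rw [thr_sq]
  field_simp

/-- the first bound with the dimension cancelled -/
theorem p1' (h3 : S_P1) {m d : ℕ} (x : Fin m → Cube d) (h : 1 ≤ lam d) (θ n : ℝ)
    (F : Finset (Fin m)) (hθ : 0 ≤ θ) (hG : Gen (atr d) x F) (hn : (F.card : ℝ) = n)
    (hc : n * (4 * 10 ^ 30) ≤ θ ^ 2 * (2 * 10 ^ 72)) :
    pr (NA (thr d) x F) ≤ exp (-(lam d * n / (1 + θ) ^ 2)) := by
  have hd := d_pos h
  have h0 : 0 ≤ lam d := lam_nonneg d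
  have key := h3 m d x (atr d) (thr d) θ F (by exact_mod_cast hd) (atr_nonneg d) (thr_nonneg d)
    hθ hG (by
      rw [atr_sq, hn]
      calc n * (4 * 10 ^ 30 * lam d) = n * (4 * 10 ^ 30) * lam d := by ring
        _ ≤ θ ^ 2 * (2 * 10 ^ 72) * lam d := mul_le_mul_of_nonneg_right hc h0
        _ = θ ^ 2 * (2 * 10 ^ 72 * lam d) := by ring
        _ = θ ^ 2 * d := by rw [← d_eq d])
  rwa [expo h _ _ (by positivity), hn] at key

/-- comparing exponents -/
theorem cmp {L n c b : ℝ} (hL : 0 ≤ L) (hc : 0 < c) (hb : b * c ≤ n) :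
    exp (-(L * n / c)) ≤ exp (-(b * L)) := by
  rw [Real.exp_le_exp, neg_le_neg_iff, le_div_iff₀ hc]
  calc b * L * c = L * (b * c) := by ring
    _ ≤ L * n := mul_le_mul_of_nonneg_left hb hL

end MeasP

open MeasP

theorem meas (h1 : S_AttM) (h2 : S_Clq) (h3 : S_P1) (h4 : S_P2) : S_Meas := by
  intro p m d x hC hS
  have hL : 1 ≤ lam d := hS.lam1
  have h0 : 0 ≤ lam d := lam_nonneg d
  have hd : (0 : ℝ) < d := d_pos hL
  have hω : (p.ω : ℝ) = 10 ^ 36 + 1 := by rw [hC.ω]; norm_num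
  have hi₀ : (p.i₀ : ℝ) = 10 ^ 30 - 9 * 10 ^ 23 := by rw [hC.i₀]; norm_num
  have hi₁ : (p.i₁ : ℝ) = 10 ^ 30 + 5 * 10 ^ 24 := by rw [hC.i₁]; norm_num
  have hρ : (p.ρ : ℝ) = 12 * 10 ^ 24 := by rw [hC.ρ]; norm_num
  have hj₀ : (p.j₀ : ℝ) = 995 * 10 ^ 27 := by rw [hC.j₀]; norm_num
  have hq : (p.q : ℝ) = 20 * 10 ^ 30 := by rw [hC.q]; norm_num
  refine ⟨?_, ?_, ?_, ?_, ?_, ?_⟩
  · intro A hA
    have h2A : (2 : ℝ) ^ A.card ≤ exp (lam d) :=
      (pow_le_pow_right₀ (by norm_num) hA).trans hS.I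
    refine (h1 _ d x (atr d) A (atr_nonneg d)).trans ?_
    refine (mul_le_mul_of_nonneg_right h2A (Real.exp_pos _).le).trans ?_
    rw [← Real.exp_add, atr_sq, bet, Real.exp_le_exp]
    nlinarith
  · intro F hF
    have key := h2 _ d x (thr d) F (thr_nonneg d) hF
    have ht : thr d = d / 10 ^ 36 := by
      unfold thr eta
      ring
    rw [ht, div_mul_eq_mul_div, div_le_iff₀ (by norm_num)] at key
    have k2 : (F.card : ℝ) - 1 ≤ 10 ^ 36 := le_of_mul_le_mul_left key hd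
    have k3 : (F.card : ℝ) ≤ p.ω := by
      rw [hω]
      linarith
    exact_mod_cast k3
  · intro F hG hF
    have hn : (F.card : ℝ) = 10 ^ 30 + 5 * 10 ^ 24 + 1 := by
      rw [hF, Nat.cast_add, hi₁, Nat.cast_one]
    refine (p1' h3 x hL (2 / 10 ^ 6) _ F (by norm_num) hG hn (by norm_num)).trans ?_
    exact cmp h0 (by norm_num) (by norm_num)
  · intro F hA hN hF
    have hn : (F.card : ℝ) = 10 ^ 30 - 9 * 10 ^ 23 + 1 := by
      rw [hF, Nat.cast_add, hi₀, Nat.cast_one]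
    have ht : thr d = d / 10 ^ 36 := by
      unfold thr eta
      ring
    have key := h4 m d x (atr d) (thr d) (1 / 10 ^ 8) (d * (1 - 97 / 10 ^ 8)) p.ρ F
      (atr_nonneg d) (thr_nonneg d) (by norm_num) (by positivity) hA hN
      (by
        rw [atr_sq, hρ]
        conv_rhs => rw [d_eq d]
        nlinarith)
      (by
        rw [hn, hρ, ht]
        nlinarith)
    rw [expo hL _ _ (by norm_num), hn] at key
    exact key.trans (cmp h0 (by norm_num) (by norm_num))
  · intro F hG hF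
    have hn : (F.card : ℝ) = 995 * 10 ^ 27 := by rw [hF, hj₀]
    have key : pr (NA (thr d) x F) ≤ exp (-((99 * 10 ^ 28 + 1) * lam d)) :=
      (p1' h3 x hL (2 / 10 ^ 6) _ F (by norm_num) hG hn (by norm_num)).trans
        (cmp h0 (by norm_num) (by norm_num))
    refine (mul_le_mul_of_nonneg_right key (Real.exp_pos _).le).trans ?_
    rw [← Real.exp_add, bet, Real.exp_le_exp]
    nlinarith
  · refine ⟨exp (-((19 * 10 ^ 30) * lam d)), ?_, ?_⟩
    · intro F hG hF
      have hn : (F.card : ℝ) = 20 * 10 ^ 30 := by rw [hF, hq]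
      exact (p1' h3 x hL (7 / 10 ^ 6) _ F (by norm_num) hG hn (by norm_num)).trans
        (cmp h0 (by norm_num) (by norm_num))
    · have hg : exp (lam d / 4) ≤ (p.gg : ℝ) := by
        rw [hC.gg]
        exact Nat.le_ceil _
      have hw : (p.w : ℝ) * p.q ≤ exp ((1 + 6 / 10 ^ 6) * lam d) := by
        refine le_trans ?_ hS.w
        exact mul_le_mul_of_nonneg_right (by linarith) (Nat.cast_nonneg _)
      have hr : (p.w : ℝ) * p.q / p.gg ≤ exp ((1 + 6 / 10 ^ 6) * lam d - lam d / 4) := by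
        rw [Real.exp_sub]
        exact div_le_div₀ (Real.exp_pos _).le hw (Real.exp_pos _) hg
      have hp : ((p.w : ℝ) * p.q / p.gg) ^ p.q ≤
          exp (p.q * ((1 + 6 / 10 ^ 6) * lam d - lam d / 4)) := by
        rw [Real.exp_nat_mul]
        exact pow_le_pow_left₀ (by positivity) hr _
      refine (mul_le_mul_of_nonneg_right hp (Real.exp_pos _).le).trans ?_
      rw [← Real.exp_add, bet', Real.exp_le_exp, hq]
      nlinarith

end Pool.Agent.P.MP_0b9d6e_co
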