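import Pool.Agent.P.MP_0b9d6e_co.Base

/-!
The final numerical estimates.
-/

namespace Pool.Agent.P.MP_0b9d6e_co

open Finset Real Filter

namespace NumQP

theorem ev_log (c : ℝ) : ∀ᶠ Q : ℕ in atTop, c * (log Q + 1) ≤ Q := by
  have h1 : Tendsto (fun Q : ℕ => log (Q : ℝ)) atTop atTop :=
    tendsto_log_atTop.comp tendsto_natCast_atTop_atTop
  have h := (Real.tendsto_exp_div_pow_atTop 1).comp h1
  filter_upwards [h.eventually_ge_atTop (2 * |c|), h1.eventually_ge_atTop 1,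
    eventually_gt_atTop 0] with Q h2 h3 h4
  simp only [Function.comp, pow_one] at h2
  rw [le_div_iff₀ (by linarith), exp_log (by exact_mod_cast h4)] at h2
  calc c * (log Q + 1) ≤ |c| * (2 * log Q) :=
        mul_le_mul (le_abs_self c) (by linarith) (by linarith) (abs_nonneg c)
    _ = 2 * |c| * log Q := by ring
    _ ≤ _ := h2

theorem B_le (k Q D : ℕ) (hQ : 91 ≤ Q) (hD : D ≤ Q) :
    16 * D * ((2 * (2 * Q ^ 2)) ^ k * Q ^ (k + 1)) ≤ Q ^ (4 * (k + 1)) := by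
  have h1 : 2 * (2 * Q ^ 2) ≤ Q ^ 3 := by
    calc 2 * (2 * Q ^ 2) = 4 * Q ^ 2 := by ring
      _ ≤ Q * Q ^ 2 := Nat.mul_le_mul_right _ (by omega)
      _ = Q ^ 3 := by ring
  have h2 : 16 * D ≤ Q ^ 3 := by
    calc 16 * D ≤ Q * Q := Nat.mul_le_mul (by omega) hD
      _ ≤ Q * (Q * Q) := Nat.le_mul_of_pos_left _ (by omega)
      _ = Q ^ 3 := by ring
  calc 16 * D * ((2 * (2 * Q ^ 2)) ^ k * Q ^ (k + 1))
      ≤ Q ^ 3 * ((Q ^ 3) ^ k * Q ^ (k + 1)) :=
        Nat.mul_le_mul h2 (Nat.mul_le_mul_right _ (Nat.pow_le_pow_left h1 k))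
    _ = Q ^ (4 * (k + 1)) := by
        rw [← pow_mul, ← pow_add, ← pow_add]
        congr 1
        ring

end NumQP

open NumQP

theorem numQ : S_NumQ := by
  intro k hk d₀
  have hkR : (k : ℝ) + 1 = 10 ^ 8 := by exact_mod_cast hk
  have h1 : Tendsto (fun Q : ℕ => log (Q : ℝ)) atTop atTop :=
    tendsto_log_atTop.comp tendsto_natCast_atTop_atTop
  obtain ⟨Q₀, hQ₀⟩ := eventually_atTop.1 ((ev_log (2 * 10 ^ 16)).and
    ((h1.eventually_ge_atTop (max (d₀ : ℝ) 1)).and (eventually_ge_atTop 91)))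
  refine ⟨Q₀, fun Q hQ => ?_⟩
  obtain ⟨hl, hd, h91⟩ := hQ₀ Q hQ
  have hQR : (91 : ℝ) ≤ Q := by exact_mod_cast h91
  have hQ0 : (0 : ℝ) < Q := by linarith
  obtain ⟨l, hlq⟩ : ∃ l, l = log (Q : ℝ) := ⟨_, rfl⟩
  rw [← hlq] at hl hd
  have hl1 : 1 ≤ l := le_of_max_le_right hd
  have hd0 : (d₀ : ℝ) ≤ l := le_of_max_le_left hd
  have hQe : (Q : ℝ) = exp l := by rw [hlq, exp_log hQ0]
  have hpow : ∀ n : ℕ, ((Q ^ n : ℕ) : ℝ) = exp (n * l) := fun n => by
    rw [Nat.cast_pow, hQe, exp_nat_mul]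
  have hM : ((Q ^ (k + 1) : ℕ) : ℝ) = exp (10 ^ 8 * l) := by
    rw [hpow, Nat.cast_add, Nat.cast_one, hkR]
  have hm : (((Q ^ (k + 1)) ^ (k + 1) : ℕ) : ℝ) = exp (10 ^ 16 * l) := by
    rw [Nat.cast_pow, hM, ← exp_nat_mul, Nat.cast_add, Nat.cast_one, hkR]
    congr 1
    ring
  obtain ⟨d, hdd⟩ : ∃ d : ℕ, d = ⌈2 * 10 ^ 58 * l⌉₊ := ⟨_, rfl⟩
  have hd1 : 2 * 10 ^ 58 * l ≤ d := hdd ▸ Nat.le_ceil _
  have hd2 : (d : ℝ) < 2 * 10 ^ 58 * l + 1 := hdd ▸ Nat.ceil_lt_add_one (by positivity)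
  have hlam1 : 10 ^ 16 * l ≤ 10 ^ 30 * lam d := by rw [lam_eq]; linarith
  have hlam2 : 10 ^ 30 * lam d ≤ 10 ^ 16 * l + 1 := by rw [lam_eq]; linarith
  refine ⟨d, ?_, h91, ?_, ?_, fun s₀ hs => ?_, fun D T B n hD hT hB hn => ?_⟩
  · have : (d₀ : ℝ) ≤ d := by linarith
    exact_mod_cast this
  · rw [hm, log_exp]
    exact hlam1
  · rw [hM, ← exp_neg, ← exp_nat_mul]
    have h0 : 0 ≤ 1 - 1 / (Q : ℝ) := by
      rw [sub_nonneg, div_le_one hQ0]
      linarith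
    refine (pow_le_pow_left₀ h0 (one_sub_le_exp_neg _) _).trans ?_
    rw [← exp_nat_mul, exp_le_exp]
    have : ((Q ^ 2 : ℕ) : ℝ) * -(1 / (Q : ℝ)) = -Q := by
      push_cast
      field_simp
    rw [this]
    push_cast
    linarith
  · have h2 : 2 * (s₀ : ℝ) ≤ exp (l / 2) := hs.trans (exp_le_exp.2 (by linarith))
    constructor
    · have : (s₀ : ℝ) ≤ Q := by
        have h3 : exp (l / 2) ≤ exp l := exp_le_exp.2 (by linarith)
        have h4 : (0 : ℝ) ≤ s₀ := Nat.cast_nonneg _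
        linarith
      exact_mod_cast this
    · have h3 : 2 * (s₀ : ℝ) / Q ≤ exp (-(l / 2)) := by
        rw [div_le_iff₀ hQ0, hQe, ← exp_add]
        exact h2.trans (le_of_eq (by congr 1; ring))
      refine (pow_le_pow_left₀ (by positivity) h3 _).trans ?_
      rw [hM, ← exp_neg, ← exp_nat_mul, ← exp_nat_mul, exp_le_exp]
      push_cast
      rw [hkR]
      linarith
  · have hB' : (B : ℝ) ≤ exp (4 * 10 ^ 8 * l) := by
      have h2 : (B : ℝ) ≤ ((Q ^ (4 * (k + 1)) : ℕ) : ℝ) := by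
        exact_mod_cast hB ▸ B_le k Q D h91 hD
      rw [hpow] at h2
      push_cast at h2
      rwa [hkR] at h2
    have hlog : (Nat.log 2 n : ℝ) + 1 ≤ exp l := by
      rw [← hQe]
      rcases Nat.eq_zero_or_pos n with rfl | hn0
      · simp only [Nat.log_zero_right, Nat.cast_zero]
        linarith
      have h2 : ((2 ^ Nat.log 2 n : ℕ) : ℝ) ≤ exp (10 ^ 16 * l) := by
        rw [← hm]
        exact_mod_cast (Nat.pow_log_le_self 2 hn0.ne').trans hn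
      have h3 : exp (1 / 2) ≤ 2 := by
        have := exp_one_lt_d9
        have h4 : exp (1 / 2) * exp (1 / 2) = exp 1 := by rw [← exp_add]; norm_num
        nlinarith [exp_pos (1 / 2)]
      have h4 : exp ((Nat.log 2 n : ℝ) * (1 / 2)) ≤ exp (10 ^ 16 * l) := by
        rw [exp_nat_mul]
        refine (pow_le_pow_left₀ (exp_pos _).le h3 _).trans ?_
        exact_mod_cast h2
      rw [exp_le_exp] at h4
      linarith
    have hT' : (T : ℝ) + 1 ≤ exp ((10 ^ 16 - 42 * 10 ^ 8) * l + 1) :=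
      hT.trans (exp_le_exp.2 (by linarith))
    have hc : (432 : ℝ) ≤ exp (2 * l) := by
      rw [show 2 * l = l + l by ring, exp_add, ← hQe]
      nlinarith
    have key : ((2 * (2 * PP B n * B) * (T + 1) : ℕ) : ℝ) ≤ ((Q ^ (k * (k + 2)) : ℕ) : ℝ) := by
      have e1 : ((2 * (2 * PP B n * B) * (T + 1) : ℕ) : ℝ) =
          432 * ((B : ℝ) ^ 3 * (((Nat.log 2 n : ℝ) + 1) ^ 2 * ((T : ℝ) + 1))) := by
        unfold PP
        push_cast
        ring
      have e2 : ((k * (k + 2) : ℕ) : ℝ) = 10 ^ 16 - 1 := by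
        push_cast
        have : (k : ℝ) = 10 ^ 8 - 1 := by linarith
        rw [this]
        ring
      rw [e1, hpow, e2]
      calc 432 * ((B : ℝ) ^ 3 * (((Nat.log 2 n : ℝ) + 1) ^ 2 * ((T : ℝ) + 1)))
          ≤ exp (2 * l) * (exp (4 * 10 ^ 8 * l) ^ 3 * (exp l ^ 2 *
            exp ((10 ^ 16 - 42 * 10 ^ 8) * l + 1))) := by gcongr
        _ ≤ _ := by
          rw [← exp_nat_mul, ← exp_nat_mul, ← exp_add, ← exp_add, ← exp_add, exp_le_exp]
          push_cast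
          linarith
    exact_mod_cast key

end Pool.Agent.P.MP_0b9d6e_co
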