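import Pool.Agent.P.MP_0b9d6e_co.Base

/-!
Norm bounds for sums of sign vectors and the measure of common neighbourhoods.
-/

namespace Pool.Agent.P.MP_0b9d6e_co

open Finset Real

namespace P12P

variable {V : Type} {d : ℕ}

theorem dot_nonneg (s : Fin d → ℝ) : 0 ≤ s ⬝ᵥ s := sum_nonneg fun i _ => mul_self_nonneg (s i)

theorem dot_sv (x : V → Cube d) (F : Finset V) (z : Cube d) :
    sg z ⬝ᵥ sv x F = ∑ v ∈ F, sg (x v) ⬝ᵥ sg z := by
  rw [sv, dotProduct_sum]
  exact sum_congr rfl fun v _ => dotProduct_comm _ _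

theorem dot_sv_le (x : V → Cube d) (F : Finset V) (z : Cube d) (t : ℝ)
    (h : ∀ v ∈ F, adj t (x v) z) : sg z ⬝ᵥ sv x F ≤ -(t * F.card) := by
  rw [dot_sv]
  have := sum_le_card_nsmul F (fun v => sg (x v) ⬝ᵥ sg z) (-t) h
  rw [nsmul_eq_mul] at this
  linarith

theorem sq_insert [DecidableEq V] (x : V → Cube d) {F : Finset V} {v : V} (hv : v ∉ F) :
    sv x (insert v F) ⬝ᵥ sv x (insert v F) =
      d + 2 * (sg (x v) ⬝ᵥ sv x F) + sv x F ⬝ᵥ sv x F := by
  have : sv x (insert v F) = sg (x v) + sv x F := sum_insert hv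
  rw [this, add_dotProduct, dotProduct_add, dotProduct_add, sg_dot_self,
    dotProduct_comm (sv x F) (sg (x v))]
  ring

theorem meas (h : S_Hoef) (x : V → Cube d) (F : Finset V) {t ν : ℝ} (ht : 0 ≤ t) (hν : 0 < ν)
    (hs : sv x F ⬝ᵥ sv x F ≤ F.card * ν) :
    pr (NA t x F) ≤ exp (-(t ^ 2 * F.card / (2 * ν))) := by
  rcases Nat.eq_zero_or_pos F.card with h0 | h0
  · rw [h0]; simpa using pr_le_one _
  have h1 : (0 : ℝ) < F.card := Nat.cast_pos.2 h0
  have h2 := h d (-sv x F) (t * F.card) (F.card * ν) (by positivity) (by positivity)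
    (by simpa using hs)
  refine (pr_mono fun z hz => ?_).trans (h2.trans (le_of_eq ?_))
  · have := dot_sv_le x F z t hz
    rw [dotProduct_neg]
    linarith
  · congr 2
    field_simp

theorem n1 [DecidableEq V] {x : V → Cube d} {a : ℝ} (ha : 0 ≤ a) {F : Finset V}
    (h : Gen a x F) : ∀ F' ⊆ F, √(sv x F' ⬝ᵥ sv x F') ≤ √(F'.card * d) + F'.card * a := by
  induction h with
  | empty =>
    intro F' hF'
    rw [subset_empty.1 hF']
    simp [sv]
  | @step F v _ hv hA ih =>
    intro F' hF'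
    by_cases hv' : v ∈ F'
    · have hG : F'.erase v ⊆ F := subset_insert_iff.1 hF'
      have h1 := ih _ hG
      have h2 : sg (x v) ⬝ᵥ sv x (F'.erase v) ≤
          a * √(sv x (F'.erase v) ⬝ᵥ sv x (F'.erase v)) := not_lt.1 fun h3 => hA ⟨_, hG, h3⟩
      rw [← insert_erase hv', sq_insert x (notMem_erase v F'),
        card_insert_of_notMem (notMem_erase v F')]
      push_cast
      set i : ℝ := ((F'.erase v).card : ℝ) with hi
      have hi0 : 0 ≤ i := Nat.cast_nonneg _
      have hd0 : (0 : ℝ) ≤ d := Nat.cast_nonneg _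
      have h4 := Real.sq_sqrt (dot_nonneg (sv x (F'.erase v)))
      set n := √(sv x (F'.erase v) ⬝ᵥ sv x (F'.erase v)) with hn
      have hn0 : 0 ≤ n := Real.sqrt_nonneg _
      have h5 : √(i * d) ^ 2 = i * d := Real.sq_sqrt (by positivity)
      have h6 : √((i + 1) * d) ^ 2 = (i + 1) * d := Real.sq_sqrt (by positivity)
      have h7 : √(i * d) ≤ √((i + 1) * d) := Real.sqrt_le_sqrt (by nlinarith)
      have h8 : 0 ≤ √(i * d) := Real.sqrt_nonneg _
      refine Real.sqrt_le_iff.2 ⟨by positivity, ?_⟩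
      have h9 : n ^ 2 ≤ (√(i * d) + i * a) ^ 2 := pow_le_pow_left₀ hn0 h1 2
      have h10 : a * n ≤ a * (√(i * d) + i * a) := mul_le_mul_of_nonneg_left h1 ha
      have h11 : (i + 1) * a * √(i * d) ≤ (i + 1) * a * √((i + 1) * d) :=
        mul_le_mul_of_nonneg_left h7 (by positivity)
      nlinarith [sq_nonneg a]
    · exact ih F' ((subset_insert_iff_of_notMem hv').1 hF')

end P12P

open P12P

theorem p1 (h : S_Hoef) : S_P1 := by
  intro m d x a t θ F hd ha ht hθ hG hF
  have hd' : (0 : ℝ) < d := Nat.cast_pos.2 hd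
  refine meas h x F ht (by positivity) ?_
  have h1 := n1 ha hG F subset_rfl
  have hj : (0 : ℝ) ≤ F.card := Nat.cast_nonneg _
  have h5 : √(F.card * d) ^ 2 = F.card * d := Real.sq_sqrt (by positivity)
  have h2 : (F.card : ℝ) * a ≤ θ * √(F.card * d) := by
    refine le_of_sq_le_sq ?_ (by positivity)
    rw [mul_pow, mul_pow, h5]
    nlinarith [mul_le_mul_of_nonneg_left hF hj]
  have h3 : √(sv x F ⬝ᵥ sv x F) ≤ (1 + θ) * √(F.card * d) := by linarith
  have h4 := pow_le_pow_left₀ (Real.sqrt_nonneg _) h3 2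
  rw [Real.sq_sqrt (dot_nonneg _), mul_pow, h5] at h4
  linarith

theorem p2 (h : S_Hoef) (hg : S_Gen) : S_P2 := by
  intro m d x a t θ ν ρ F ha ht hθ hν h1 h2 hρ hF
  have hd0 : (0 : ℝ) ≤ d := Nat.cast_nonneg _
  have key : ∀ F : Finset (Fin m), (∀ v ∈ F, ¬ Att a x (F.filter (v < ·)) (x v)) →
      (∀ v ∈ F, ∀ S ⊆ F, (∀ u ∈ S, v < u ∧ ¬ adj t (x u) (x v)) → S.card ≤ ρ) →
      sv x F ⬝ᵥ sv x F ≤
        F.card * (d - t * ((F.card : ℝ) - 1 - 2 * ρ) + 2 * θ * (1 + θ) * d) := by
    intro F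
    induction F using Finset.induction_on_min with
    | empty => intro _ _; simp [sv]
    | insert v F hv ih =>
      intro h1 h2
      classical
      have hvF : v ∉ F := fun h3 => lt_irrefl _ (hv v h3)
      have ih' := ih
        (fun u hu h3 => h1 u (mem_insert_of_mem hu)
          (h3.mono (filter_subset_filter _ (subset_insert v F))))
        fun u hu S hS => h2 u (mem_insert_of_mem hu) S (hS.trans (subset_insert v F))
      set X := F.filter fun u => adj t (x u) (x v) with hX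
      set S := F.filter fun u => ¬ adj t (x u) (x v) with hS
      have hSF : S ⊆ insert v F := (filter_subset _ _).trans (subset_insert v F)
      have hc : (S.card : ℝ) ≤ ρ := Nat.cast_le.2 (h2 v (mem_insert_self v F) S hSF fun u hu =>
        ⟨hv u (mem_filter.1 hu).1, (mem_filter.1 hu).2⟩)
      have hXS : (X.card : ℝ) + S.card = F.card := by
        rw [← Nat.cast_add, card_filter_add_card_filter_not]
      have e1 : sg (x v) ⬝ᵥ sv x F = sg (x v) ⬝ᵥ sv x X + sg (x v) ⬝ᵥ sv x S := by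
        rw [← dotProduct_add, sv, sv, sv, sum_filter_add_sum_filter_not]
      have e2 := dot_sv_le x X (x v) t fun u hu => (mem_filter.1 hu).2
      have e3 : sg (x v) ⬝ᵥ sv x S ≤ a * √(sv x S ⬝ᵥ sv x S) := not_lt.1 fun h3 =>
        h1 v (mem_insert_self v F) ⟨S, fun u hu =>
          mem_filter.2 ⟨hSF hu, hv u (mem_filter.1 hu).1⟩, h3⟩
      have e4 := n1 ha (hg m d x a _ h1) S hSF
      have hS0 : (0 : ℝ) ≤ S.card := Nat.cast_nonneg _
      have e5 : (S.card : ℝ) * a ^ 2 ≤ θ ^ 2 * d :=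
        (mul_le_mul_of_nonneg_right hc (sq_nonneg a)).trans hρ
      have e6 : a * √(S.card * d) ≤ θ * d := by
        refine le_of_sq_le_sq ?_ (by positivity)
        rw [mul_pow, Real.sq_sqrt (by positivity)]
        nlinarith [mul_le_mul_of_nonneg_right e5 hd0]
      have e7 := mul_le_mul_of_nonneg_left e4 ha
      have e8 : t * (F.card - ρ) ≤ t * X.card := mul_le_mul_of_nonneg_left (by linarith) ht
      rw [sq_insert x hvF, card_insert_of_notMem hvF]
      push_cast
      nlinarith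
  exact meas h x F ht hν ((key F h1 h2).trans (mul_le_mul_of_nonneg_left hF (Nat.cast_nonneg _)))

end Pool.Agent.P.MP_0b9d6e_co
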