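import Pool.Agent.P.MP_0b9d6e_co.Base

/-!
Online predictors from a rank function.
-/

namespace Pool.Agent.P.MP_0b9d6e_co

open Finset

namespace PredP

variable {V T : Type} [Fintype V] (c : V → V → Option T) (lev : List Bool → V)

open scoped Classical in
/-- the levels that agree with all recorded surprises along the word -/
noncomputable def Al (κ : ℕ → T → Prop) (u : List Bool) : Finset V :=
  univ.filter fun y => ∀ i < u.length, ∀ t, κ i t → c (lev (u.take i)) y = some t

open scoped Classical in
/-- the prediction from the data at one step -/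
noncomputable def FF (P : T → Prop) (S : Finset V) (a : V) : Option T :=
  if h : ∃ t, P t then some h.choose
  else if h' : ∃ t, ∀ y ∈ S, c a y = some t then some h'.choose else none

/-- the predictor -/
noncomputable def hh (κ : ℕ → T → Prop) (u : List Bool) : Option T :=
  FF c (κ u.length) (Al c lev κ u) (lev u)

theorem mem_Al {κ : ℕ → T → Prop} {u : List Bool} {y : V} :
    y ∈ Al c lev κ u ↔ ∀ i < u.length, ∀ t, κ i t → c (lev (u.take i)) y = some t := by
  simp [Al]

theorem hh_congr {κ κ' : ℕ → T → Prop} {u : List Bool} (h : ∀ i ≤ u.length, κ i = κ' i) :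
    hh c lev κ u = hh c lev κ' u := by
  have h1 : Al c lev κ u = Al c lev κ' u := by
    ext y
    rw [mem_Al, mem_Al]
    refine forall_congr' fun i => forall_congr' fun hi => ?_
    rw [h i hi.le]
  unfold hh
  rw [h1, h _ le_rfl]

/-- the surprises recorded by a code -/
def hit {K D : ℕ} (g : Fin K → Option (Fin D × T)) (i : ℕ) (t : T) : Prop :=
  ∃ (j : Fin K) (h : i < D), g j = some (⟨i, h⟩, t)

theorem main {K D : ℕ} (rk : Finset V → ℕ) (h0 : ∀ S, rk S ≤ K)
    (h1 : ∀ (S S' : Finset V) (a : V) (t : T), S' ⊆ S → S'.Nonempty →
      (∀ y ∈ S', c a y = some t) → (∃ y ∈ S, c a y ≠ some t) → rk S' < rk S)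
    (w : List Bool) (y : V) (hw : w.length ≤ D) :
    ∀ n ≤ w.length, ∃ (g : Fin K → Option (Fin D × T)) (r : ℕ),
      (∀ j : Fin K, r ≤ j.1 → g j = none) ∧ (∀ i t, hit g i t → i < n) ∧
      y ∈ Al c lev (hit g) (w.take n) ∧ r + rk (Al c lev (hit g) (w.take n)) ≤ K ∧
      ∀ i < n, hh c lev (hit g) (w.take i) = c (lev (w.take i)) y := by
  classical
  intro n
  induction n with
  | zero =>
    intro _
    refine ⟨fun _ => none, 0, fun _ _ => rfl, ?_, ?_, by simpa using h0 _, by simp⟩
    · rintro i t ⟨j, h, hj⟩
      simp at hj
    · rw [mem_Al]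
      simp
  | succ n ih =>
    intro hn
    obtain ⟨g, r, hg, hlt, hy, hr, hp⟩ := ih (by omega)
    have hl : (w.take n).length = n := by rw [List.length_take]; omega
    have hl' : (w.take (n + 1)).length = n + 1 := by rw [List.length_take]; omega
    have tk : ∀ i ≤ n, (w.take (n + 1)).take i = w.take i := by
      intro i hi
      rw [List.take_take, min_eq_left (by omega)]
    have tk' : ∀ i ≤ n, (w.take n).take i = w.take i := by
      intro i hi
      rw [List.take_take, min_eq_left hi]
    by_cases hc : hh c lev (hit g) (w.take n) = c (lev (w.take n)) y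
    · have e : Al c lev (hit g) (w.take (n + 1)) = Al c lev (hit g) (w.take n) := by
        ext z
        rw [mem_Al, mem_Al, hl, hl']
        constructor
        · intro h i hi t ht
          have := h i (by omega) t ht
          rwa [tk i hi.le, ← tk' i hi.le] at this
        · intro h i _ t ht
          have hi := hlt i t ht
          have := h i hi t ht
          rwa [tk' i hi.le, ← tk i hi.le] at this
      refine ⟨g, r, hg, fun i t h => (hlt i t h).trans (Nat.lt_succ_self n), e ▸ hy, e ▸ hr, ?_⟩
      intro i hi
      rcases Nat.lt_succ_iff_lt_or_eq.1 hi with h | h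
      · exact hp i h
      · rw [h]; exact hc
    · have n1 : ¬ ∃ t, hit g (w.take n).length t := by
        rintro ⟨t, ht⟩
        have := hlt _ t ht
        omega
      have n2 : ¬ ∃ t, ∀ z ∈ Al c lev (hit g) (w.take n), c (lev (w.take n)) z = some t := by
        intro h
        apply hc
        unfold hh FF
        rw [dif_neg n1, dif_pos h]
        exact (h.choose_spec y hy).symm
      have n3 : hh c lev (hit g) (w.take n) = none := by
        unfold hh FF
        rw [dif_neg n1, dif_neg n2]
      obtain ⟨t, ht⟩ : ∃ t, c (lev (w.take n)) y = some t := by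
        rw [n3] at hc
        exact Option.ne_none_iff_exists'.1 fun h => hc h.symm
      have n4 : ∃ z ∈ Al c lev (hit g) (w.take n), c (lev (w.take n)) z ≠ some t := by
        by_contra h
        push Not at h
        exact n2 ⟨t, h⟩
      have hlt' := h1 (Al c lev (hit g) (w.take n))
        ((Al c lev (hit g) (w.take n)).filter fun z => c (lev (w.take n)) z = some t)
        (lev (w.take n)) t (filter_subset _ _) ⟨y, mem_filter.2 ⟨hy, ht⟩⟩
        (fun z hz => (mem_filter.1 hz).2) n4
      have hrK : r < K := by omega
      have hnD : n < D := by omega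
      set g' : Fin K → Option (Fin D × T) := Function.update g ⟨r, hrK⟩ (some (⟨n, hnD⟩, t))
        with hg'
      have hh' : ∀ i s, hit g' i s ↔ hit g i s ∨ (i = n ∧ s = t) := by
        intro i s
        constructor
        · rintro ⟨j, h, hj⟩
          by_cases e : j = ⟨r, hrK⟩
          · right
            rw [e, hg', Function.update_self] at hj
            simp only [Option.some.injEq, Prod.mk.injEq, Fin.mk.injEq] at hj
            exact ⟨hj.1.symm, hj.2.symm⟩
          · left
            rw [hg', Function.update_of_ne e] at hj
            exact ⟨j, h, hj⟩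
        · rintro (⟨j, h, hj⟩ | ⟨rfl, rfl⟩)
          · have e : j ≠ ⟨r, hrK⟩ := by
              rintro rfl
              rw [hg _ le_rfl] at hj
              simp at hj
            exact ⟨j, h, by rw [hg', Function.update_of_ne e]; exact hj⟩
          · exact ⟨⟨r, hrK⟩, hnD, by rw [hg', Function.update_self]⟩
      have e : Al c lev (hit g') (w.take (n + 1)) =
          (Al c lev (hit g) (w.take n)).filter fun z => c (lev (w.take n)) z = some t := by
        ext z
        rw [mem_filter, mem_Al, mem_Al, hl, hl']
        constructor
        · intro h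
          refine ⟨fun i hi s hs => ?_, ?_⟩
          · have := h i (by omega) s ((hh' i s).2 (Or.inl hs))
            rwa [tk i hi.le, ← tk' i hi.le] at this
          · have := h n (by omega) t ((hh' n t).2 (Or.inr ⟨rfl, rfl⟩))
            rwa [tk n le_rfl] at this
        · rintro ⟨h, h'⟩ i _ s hs
          rcases (hh' i s).1 hs with hs | ⟨rfl, rfl⟩
          · have hi := hlt i s hs
            have := h i hi s hs
            rwa [tk' i hi.le, ← tk i hi.le] at this
          · rwa [tk i le_rfl]
      refine ⟨g', r + 1, ?_, ?_, ?_, ?_, ?_⟩
      · intro j hj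
        have e' : j ≠ ⟨r, hrK⟩ := by
          rintro rfl
          simp at hj
        rw [hg', Function.update_of_ne e']
        exact hg j (by omega)
      · intro i s hs
        rcases (hh' i s).1 hs with hs | ⟨rfl, _⟩
        · exact (hlt i s hs).trans (Nat.lt_succ_self n)
        · exact Nat.lt_succ_self _
      · rw [e]; exact mem_filter.2 ⟨hy, ht⟩
      · rw [e]; omega
      · intro i hi
        rcases Nat.lt_succ_iff_lt_or_eq.1 hi with h | h
        · rw [← hp i h]
          apply hh_congr
          intro i' hi'
          have : i' ≤ i := hi'.trans (List.length_take_le _ _)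
          funext s
          rw [hh' i' s]
          apply propext
          constructor
          · rintro (h' | ⟨h', _⟩)
            · exact h'
            · omega
          · exact Or.inl
        · rw [h, ht]
          have ex : ∃ s, hit g' (w.take n).length s :=
            ⟨t, (hh' _ t).2 (Or.inr ⟨hl, rfl⟩)⟩
          unfold hh FF
          rw [dif_pos ex]
          rcases (hh' _ _).1 ex.choose_spec with h' | ⟨_, h'⟩
          · exact absurd ⟨_, h'⟩ n1
          · rw [h']

end PredP

theorem pred : S_Pred := by
  classical
  intro p m c lev ⟨rk, h0, h1⟩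
  refine ⟨(univ : Finset (Fin p.K → Option (Fin p.D × (Fin p.k × Bool)))).image
    fun g => PredP.hh c lev (PredP.hit g), ?_, ?_⟩
  · refine card_image_le.trans (le_of_eq ?_)
    rw [card_univ, Fintype.card_fun]
    simp only [Fintype.card_option, Fintype.card_prod, Fintype.card_fin, Fintype.card_bool, Par.Nh]
    congr 1
    ring
  · intro w y hw
    obtain ⟨g, r, -, -, -, -, hp⟩ := PredP.main c lev rk h0 h1 w y hw w.length le_rfl
    exact ⟨_, mem_image.2 ⟨g, mem_univ _, rfl⟩, hp⟩

end Pool.Agent.P.MP_0b9d6e_co
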