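import Pool.Agent.P.MP_0b9d6e_co.Base

/-!
Package Sam: a typical sample.
-/

namespace Pool.Agent.P.MP_0b9d6e_co

open Finset Real

namespace SamP

variable {m d : ℕ} {T : Type} {Ω : Type} [Fintype Ω] [Nonempty Ω]

theorem att_congr {a : ℝ} {x x' : Fin m → Cube d} {A : Finset (Fin m)}
    (h : ∀ u ∈ A, x u = x' u) : Att a x A = Att a x' A := by
  have e : ∀ F ⊆ A, sv x F = sv x' F := fun F hF =>
    sum_congr rfl fun u hu => by rw [h u (hF hu)]
  funext z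
  exact propext ⟨fun ⟨F, hF, hz⟩ => ⟨F, hF, e F hF ▸ hz⟩, fun ⟨F, hF, hz⟩ => ⟨F, hF, e F hF ▸ hz⟩⟩

theorem nu_congr {t : ℝ} {x x' : Fin m → Cube d} {A : Finset (Fin m)}
    (h : ∀ u ∈ A, x u = x' u) : NU t x A = NU t x' A := by
  funext z
  exact propext (forall₂_congr fun u hu => by rw [h u hu])

theorem dg_congr {t : ℝ} {g : ℕ} {x x' : Fin m → Cube d} {A : Finset (Fin m)}
    (h : ∀ u ∈ A, x u = x' u) (z : Cube d) : Dg t x g A z → Dg t x' g A z :=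
  fun ⟨N, hN, h1, h2⟩ => ⟨N, hN, h1, fun v hv => h v (hN hv) ▸ h2 v hv⟩

/-- a rule that involves one set and one coordinate -/
theorem rule (h : S_UB) (f : Ω → Cube d) (hf : ∀ p : Cube d → Prop, pr (fun z => p (f z)) = pr p)
    (P : (Fin m → Cube d) → Finset (Fin m) → Cube d → Prop)
    (hP : ∀ x x' A z, (∀ u ∈ A, x u = x' u) → P x A z → P x' A z) (β : ℝ) (b : ℕ → ℕ)
    (hm : 0 < m) (hβ : 0 ≤ β) (hb : ∀ a, ((m : ℝ) * β) ^ b a ≤ ((m : ℝ)⁻¹) ^ (a + 1)) :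
    pr (fun ω : Fin m → Ω => ¬ ∀ A S : Finset (Fin m),
      (∀ v ∈ S, v ∉ A ∧ P (f ∘ ω) A ((f ∘ ω) v) ∧ pr (P (f ∘ ω) A) ≤ β) → S.card < b A.card)
      ≤ 9 / m := by
  refine le_trans (pr_mono fun ω hω => ?_) (h m Ω (fun A _ ω _ z => P (f ∘ ω) A (f z)) β b hm hβ
    (fun A R ω ω' v z h1 _ => hP _ _ _ _ fun u hu => congrArg f (h1 u hu)) hb)
  push Not at hω
  obtain ⟨A, S, h1, h2⟩ := hω
  refine ⟨A, ∅, S, by simpa using h2, fun v hv => ⟨(h1 v hv).1, notMem_empty v, (h1 v hv).2.1, ?_⟩⟩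
  rw [hf (P (f ∘ ω) A)]
  exact (h1 v hv).2.2

theorem num1 {n₀ : ℕ} (hm : 0 < m) (hn : n₀ = 10 ^ 30) (hl : log m ≤ 10 ^ 30 * lam d) (a : ℕ) :
    ((m : ℝ) * bet d) ^ (n₀ * (a + 1)) ≤ ((m : ℝ)⁻¹) ^ (a + 1) := by
  have hm' : (0 : ℝ) < m := by exact_mod_cast hm
  have hn' : (n₀ : ℝ) = 10 ^ 30 := by rw [hn]; norm_num
  have h0 : 0 ≤ (m : ℝ) * bet d := by unfold bet; positivity
  have h1 : (m : ℝ) * bet d ≤ exp (-lam d) := by
    unfold bet
    rw [← exp_log hm', ← exp_add]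
    exact exp_le_exp.2 (by linarith)
  have h2 : exp (-lam d) ^ n₀ ≤ (m : ℝ)⁻¹ := by
    rw [← exp_nat_mul, hn', ← exp_log hm', ← exp_neg]
    exact exp_le_exp.2 (by linarith)
  rw [pow_mul]
  exact pow_le_pow_left₀ (pow_nonneg h0 _) ((pow_le_pow_left₀ h0 h1 _).trans h2) _

theorem num2 (hm : 0 < m) (hl : log m ≤ 10 ^ 30 * lam d) (a : ℕ) :
    ((m : ℝ) * bet' d) ^ max a 1 ≤ ((m : ℝ)⁻¹) ^ (a + 1) := by
  have hm' : (0 : ℝ) < m := by exact_mod_cast hm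
  have hm1 : (1 : ℝ) ≤ m := by exact_mod_cast hm
  have h0 : 0 ≤ (m : ℝ) * bet' d := by unfold bet'; positivity
  have h1 : (m : ℝ) * bet' d ≤ ((m : ℝ)⁻¹) ^ 2 := by
    unfold bet'
    rw [← exp_log hm', ← exp_add, ← exp_neg, ← exp_nat_mul]
    exact exp_le_exp.2 (by push_cast; linarith)
  refine (pow_le_pow_left₀ h0 h1 _).trans ?_
  rw [← pow_mul]
  exact pow_le_pow_of_le_one (by positivity) (inv_le_one_of_one_le₀ hm1) (by omega)

theorem good (h : S_UB) (c : Fin m → Fin m → Option T) (f g : Ω → Cube d)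
    (hfg : ∀ p q : Cube d → Prop, pr (fun z => p (f z) ∧ q (g z)) = pr p * pr q) {n₀ : ℕ} (g' : ℕ)
    (hm : 0 < m) (hn : n₀ = 10 ^ 30) (hl : log m ≤ 10 ^ 30 * lam d) :
    pr (fun ω : Fin m → Ω => ¬ Good c (f ∘ ω) (g ∘ ω) n₀ g') ≤ 45 / m := by
  have hf : ∀ p : Cube d → Prop, pr (fun z => p (f z)) = pr p := fun p => by
    rw [← mul_one (pr p), ← pr_of_forall (p := fun _ : Cube d => True) fun _ => trivial, ← hfg]
    exact pr_congr fun z => by simp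
  have hg : ∀ p : Cube d → Prop, pr (fun z => p (g z)) = pr p := fun p => by
    rw [← one_mul (pr p), ← pr_of_forall (p := fun _ : Cube d => True) fun _ => trivial, ← hfg]
    exact pr_congr fun z => by simp
  have hβ : 0 ≤ bet d := (exp_pos _).le
  have hβ' : 0 ≤ bet' d := (exp_pos _).le
  have r1 := rule h f hf (fun x A => Att (atr d) x A)
    (fun x x' A z h1 h2 => att_congr h1 ▸ h2) (bet d) (fun a => n₀ * (a + 1)) hm hβ
    (num1 hm hn hl)
  have r3 := rule h g hg (fun x A => Bad (thr d) (pi₁ d) (NU (thr d) x A))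
    (fun x x' A z h1 h2 => nu_congr h1 ▸ h2) (bet d) (fun a => n₀ * (a + 1)) hm hβ
    (num1 hm hn hl)
  have r4 := rule h g hg (fun x A => Bad (thr d) (pi₂ d) (NU (thr d) x A))
    (fun x x' A z h1 h2 => nu_congr h1 ▸ h2) (bet d) (fun a => n₀ * (a + 1)) hm hβ
    (num1 hm hn hl)
  have r5 := rule h f hf (fun x A => Dg (thr d) x g' A)
    (fun x x' A z h1 => dg_congr h1 z) (bet' d) (fun a => max a 1) hm hβ' (num2 hm hl)
  have r2 : pr (fun ω : Fin m → Ω => ¬ ∀ A R S : Finset (Fin m),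
      (∀ v ∈ S, v ∉ A ∧ v ∉ R ∧ WW c (f ∘ ω) (g ∘ ω) A R v) →
      S.card < n₀ * (A.card + R.card + 1)) ≤ 9 / m := by
    refine le_trans (pr_mono fun ω hω => ?_) (h m Ω
      (fun A R ω v z => NX c (f ∘ ω) A v (f z) ∧ UX c (g ∘ ω) R v (g z)) (bet d)
      (fun a => n₀ * (a + 1)) hm hβ (fun A R ω ω' v z h1 h2 h3 => ⟨fun a ha hc => ?_,
        fun a ha hc => ?_⟩) (num1 hm hn hl))
    · push Not at hω
      obtain ⟨A, R, S, h1, h2⟩ := hω
      refine ⟨A, R, S, h2, fun v hv => ⟨(h1 v hv).1, (h1 v hv).2.1,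
        ⟨(h1 v hv).2.2.1, (h1 v hv).2.2.2.1⟩, ?_⟩⟩
      rw [hfg (NX c (f ∘ ω) A v) (UX c (g ∘ ω) R v)]
      exact (h1 v hv).2.2.2.2
    · have := h3.1 a ha hc
      simpa only [Function.comp, h1 a ha] using this
    · have := h3.2 a ha hc
      simpa only [Function.comp, h2 a ha] using this
  refine le_trans (pr_mono fun ω hω => ?_) ((pr_or_le _ _).trans (add_le_add r1
    ((pr_or_le _ _).trans (add_le_add r2 ((pr_or_le _ _).trans (add_le_add r3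
      ((pr_or_le _ _).trans (add_le_add r4 r5)))))))) |>.trans (le_of_eq (by ring))
  by_contra hc
  simp only [not_or, not_not] at hc
  exact hω ⟨hc.1, hc.2.1, hc.2.2.1, hc.2.2.2.1, hc.2.2.2.2⟩

end SamP

open SamP in
theorem sam (h : S_UB) : S_Sam := by
  intro m d n₀ g' T c hm hn hl
  have hm0 : 0 < m := by omega
  have hm' : (90 : ℝ) < m := by exact_mod_cast hm
  have g1 := good h c (Prod.fst : Cube d × Cube d → Cube d) Prod.snd pr_prod g' hm0 hn hl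
  have g2 := good h c (Prod.snd : Cube d × Cube d → Cube d) Prod.fst (fun p q => by
    rw [mul_comm, ← pr_prod]; exact pr_congr fun z => and_comm) g' hm0 hn hl
  have g3 := (pr_or_le _ _).trans (add_le_add g1 g2)
  obtain ⟨ω, hω⟩ := exists_not_of_pr_lt_one (g3.trans_lt (by
    rw [← add_div, div_lt_one (by linarith)]; linarith))
  simp only [not_or, not_not] at hω
  exact ⟨_, _, hω⟩

end Pool.Agent.P.MP_0b9d6e_co
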