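import Pool.Agent.P.MP_0b9d6e_co.Base

/-!
Counting the sets of small independence number in a degenerate graph.
-/

namespace Pool.Agent.P.MP_0b9d6e_co

open Finset

namespace SetsP

variable {V : Type} {G : V → V → Prop} {w g : ℕ}

open Classical in
/-- the later neighbours of a point -/
noncomputable def later (G : V → V → Prop) (π : V → ℕ) (W : Finset V) (v : V) : Finset V :=
  W.filter fun u => π v < π u ∧ G u v

open Classical in
/-- the points without an earlier neighbour -/
noncomputable def roots (G : V → V → Prop) (π : V → ℕ) (S : Finset V) : Finset V :=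
  S.filter fun v => ∀ u ∈ S, π u < π v → ¬ G v u

open Classical in
/-- the sets of size `n` with at most `j` roots -/
noncomputable def fam (G : V → V → Prop) (π : V → ℕ) (W : Finset V) (n j : ℕ) :
    Finset (Finset V) :=
  W.powerset.filter fun S => S.card = n ∧ (roots G π S).card ≤ j

theorem order (h : Degen G w g) (n : ℕ) : ∀ W : Finset V, W.card = n → n ≤ w →
    ∃ π : V → ℕ, Set.InjOn π W ∧ ∀ v ∈ W, (later G π W v).card ≤ g := by
  classical
  induction n with
  | zero =>
    intro W hW _
    rw [card_eq_zero] at hW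
    subst hW
    exact ⟨fun _ => 0, by simp, by simp⟩
  | succ n ih =>
    intro W hW hn
    obtain ⟨v, hv, hd⟩ := h W (card_pos.1 (by omega)) (by omega)
    obtain ⟨π, h1, h2⟩ := ih (W.erase v) (by rw [card_erase_of_mem hv]; omega) (by omega)
    refine ⟨fun u => if u = v then 0 else π u + 1, fun a ha b hb hab => ?_, fun a ha => ?_⟩
    · by_cases h3 : a = v <;> by_cases h4 : b = v
      · rw [h3, h4]
      · simp [h3, h4] at hab
      · simp [h3, h4] at hab
      · simp only [h3, h4, if_false, add_left_inj] at hab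
        exact h1 (mem_coe.2 (mem_erase.2 ⟨h3, ha⟩)) (mem_coe.2 (mem_erase.2 ⟨h4, hb⟩)) hab
    · by_cases h3 : a = v
      · subst h3
        refine hd _ (filter_subset _ _) fun u hu => ?_
        obtain ⟨-, h5, h6⟩ := mem_filter.1 hu
        refine ⟨fun h7 => ?_, h6⟩
        simp [h7] at h5
      · refine le_trans (card_le_card fun u hu => ?_) (h2 a (mem_erase.2 ⟨h3, ha⟩))
        obtain ⟨h4, h5, h6⟩ := mem_filter.1 hu
        by_cases h7 : u = v
        · simp [h7] at h5
        · simp only [h3, h7, if_false, add_lt_add_iff_right] at h5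
          exact mem_filter.2 ⟨mem_erase.2 ⟨h7, h4⟩, h5, h6⟩

theorem count {π : V → ℕ} {W : Finset V} {s : ℕ} (hW : W.card ≤ w)
    (hl : ∀ v ∈ W, (later G π W v).card ≤ g) (n : ℕ) : n ≤ s → ∀ j,
    (fam G π W n j).card ≤ (w + 1) ^ j * (s * g + 1) ^ n := by
  classical
  induction n with
  | zero =>
    intro _ j
    have h1 : fam G π W 0 j ⊆ {∅} := fun S hS => by
      rw [mem_singleton, ← card_eq_zero]
      exact (mem_filter.1 hS).2.1
    refine (card_le_card h1).trans ?_
    rw [card_singleton, pow_zero, mul_one]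
    exact Nat.one_le_pow _ _ (by omega)
  | succ n ih =>
    intro hn j
    have ih' := ih (by omega)
    have key : ∀ S ∈ fam G π W (n + 1) j, ∃ T x, S = insert x T ∧
        ((1 ≤ j ∧ T ∈ fam G π W n (j - 1) ∧ x ∈ W) ∨
          (T ∈ fam G π W n j ∧ ∃ u ∈ T, x ∈ later G π W u)) := by
      intro S hS
      obtain ⟨h1, h2, h3⟩ := mem_filter.1 hS
      rw [mem_powerset] at h1
      obtain ⟨x, hx, hm⟩ := exists_max_image S π (card_pos.1 (by omega))
      have h4 : roots G π (S.erase x) ⊆ (roots G π S).erase x := fun v hv => by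
        obtain ⟨h5, h6⟩ := mem_filter.1 hv
        obtain ⟨h7, h8⟩ := mem_erase.1 h5
        refine mem_erase.2 ⟨h7, mem_filter.2 ⟨h8, fun u hu h9 => h6 u (mem_erase.2 ⟨?_, hu⟩) h9⟩⟩
        rintro rfl
        exact absurd (hm v h8) (by omega)
      have h5 : S.erase x ∈ W.powerset := mem_powerset.2 ((erase_subset _ _).trans h1)
      have h6 : (S.erase x).card = n := by rw [card_erase_of_mem hx]; omega
      refine ⟨S.erase x, x, (insert_erase hx).symm, ?_⟩
      by_cases hr : x ∈ roots G π S
      · have h7 := card_le_card h4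
        rw [card_erase_of_mem hr] at h7
        have h8 : 0 < (roots G π S).card := card_pos.2 ⟨x, hr⟩
        exact Or.inl ⟨by omega, mem_filter.2 ⟨h5, h6, by omega⟩, h1 hx⟩
      · refine Or.inr ⟨mem_filter.2 ⟨h5, h6,
          (card_le_card (h4.trans (erase_subset _ _))).trans h3⟩, ?_⟩
        by_contra hc
        refine hr (mem_filter.2 ⟨hx, fun u hu h7 h8 => hc ⟨u, mem_erase.2 ⟨?_, hu⟩,
          mem_filter.2 ⟨h1 hx, h7, h8⟩⟩⟩)
        rintro rfl
        exact lt_irrefl _ h7
    have hB : ((fam G π W n j).biUnion fun T =>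
        (T.biUnion (later G π W)).image fun x => insert x T).card
        ≤ (w + 1) ^ j * (s * g + 1) ^ n * (s * g) := by
      refine (card_biUnion_le_card_mul _ _ (s * g) fun T hT => ?_).trans
        (Nat.mul_le_mul_right _ (ih' j))
      obtain ⟨h1, h2, -⟩ := mem_filter.1 hT
      refine card_image_le.trans ((card_biUnion_le_card_mul _ _ g fun u hu =>
        hl u (mem_powerset.1 h1 hu)).trans (Nat.mul_le_mul_right _ (by omega)))
    rcases j with _ | j
    · refine le_trans (card_le_card fun S hS => ?_) (hB.trans ?_)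
      · obtain ⟨T, x, rfl, h | ⟨h1, h2⟩⟩ := key S hS
        · omega
        · exact mem_biUnion.2 ⟨T, h1, mem_image.2 ⟨x, mem_biUnion.2 h2, rfl⟩⟩
      · rw [pow_succ (s * g + 1), ← mul_assoc ((w + 1) ^ 0)]
        exact Nat.mul_le_mul_left _ (Nat.le_succ _)
    · have hA : ((fam G π W n j ×ˢ W).image fun p => insert p.2 p.1).card
          ≤ (w + 1) ^ (j + 1) * (s * g + 1) ^ n := by
        refine card_image_le.trans ?_
        rw [card_product, pow_succ (w + 1), mul_right_comm]
        exact Nat.mul_le_mul (ih' j) (by omega)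
      refine le_trans (card_le_card fun S hS => ?_)
        ((card_union_le _ _).trans ((add_le_add hA hB).trans (le_of_eq (by ring))))
      obtain ⟨T, x, rfl, ⟨-, h1, h2⟩ | ⟨h1, h2⟩⟩ := key S hS
      · exact mem_union_left _ (mem_image.2 ⟨(T, x), mem_product.2 ⟨h1, h2⟩, rfl⟩)
      · exact mem_union_right _
          (mem_biUnion.2 ⟨T, h1, mem_image.2 ⟨x, mem_biUnion.2 h2, rfl⟩⟩)

end SetsP

open SetsP in
theorem sets : S_Sets := by
  classical
  intro V G w g s ρ W 𝒮 hs hd hW h𝒮
  obtain ⟨π, h1, h2⟩ := order hd _ W rfl hW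
  have h3 : 𝒮 ⊆ (range (s + 1)).biUnion fun n => fam G π W n ρ := fun S hS => by
    obtain ⟨h4, h5, h6⟩ := h𝒮 S hS
    refine mem_biUnion.2 ⟨S.card, mem_range.2 (by omega),
      mem_filter.2 ⟨mem_powerset.2 h4, rfl, h6 _ (filter_subset _ _) fun u hu v hv huv hG => ?_⟩⟩
    obtain ⟨h7, h8⟩ := mem_filter.1 hu
    obtain ⟨h9, h10⟩ := mem_filter.1 hv
    rcases lt_trichotomy (π u) (π v) with h | h | h
    · exact h10 u h7 h (hs _ _ hG)
    · exact huv (h1 (h4 h7) (h4 h9) h)
    · exact h8 v h9 h hG
  refine (card_le_card h3).trans ((card_biUnion_le_card_mul _ _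
    ((w + 1) ^ ρ * (s * g + 1) ^ s) fun n hn => ?_).trans (le_of_eq ?_))
  · have hn' : n ≤ s := by simpa [Nat.lt_succ_iff] using hn
    exact (count hW h2 n hn' ρ).trans
      (Nat.mul_le_mul_left _ (Nat.pow_le_pow_right (by omega) hn'))
  · rw [card_range, mul_assoc]

end Pool.Agent.P.MP_0b9d6e_co
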