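import Pool.Agent.P.MP_0b9d6e_co.Base

/-!
Growth bounds for the parameters.
-/

namespace Pool.Agent.P.MP_0b9d6e_co

open Real

namespace SizeP

theorem spend {x c l α β : ℝ} (hl : 0 ≤ l) (hc : c * (l + 1) ≤ exp (2 / 10 ^ 8 * l))
    (hx : x ≤ c * ((l + 1) * exp (α * l))) (h : α + 2 / 10 ^ 8 ≤ β) : x ≤ exp (β * l) := by
  refine hx.trans ?_
  rw [← mul_assoc]
  refine (mul_le_mul_of_nonneg_right hc (exp_pos _).le).trans ?_
  rw [← exp_add]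
  exact exp_le_exp.2 (by nlinarith)

theorem ceil_le {a l α : ℝ} (ha : 1 ≤ a) (hl : 0 ≤ l) (hα : 0 ≤ α) :
    ((⌈a * l / exp (-(α * l))⌉₊ : ℕ) : ℝ) ≤ a * ((l + 1) * exp (α * l)) := by
  have h1 : 1 ≤ exp (α * l) := one_le_exp (mul_nonneg hα hl)
  rw [exp_neg, div_inv_eq_mul]
  have h2 := Nat.ceil_lt_add_one (a := a * l * exp (α * l)) (by positivity)
  nlinarith [mul_le_mul ha h1 zero_le_one (by linarith)]

theorem one_le_ue {l α : ℝ} (hl : 0 ≤ l) (hα : 0 ≤ α) : 1 ≤ (l + 1) * exp (α * l) :=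
  one_le_mul_of_one_le_of_one_le (by linarith) (one_le_exp (mul_nonneg hα hl))

end SizeP

open SizeP in
theorem size : S_Size := by
  intro C
  obtain ⟨I₀, hI₀⟩ : ∃ I₀ : ℕ, I₀ = C * (10 ^ 36 + 1) := ⟨_, rfl⟩
  obtain ⟨t₀, ht₀⟩ : ∃ t₀ : ℕ, t₀ = (I₀ + 1) * (2 * (10 ^ 30 * (I₀ + 1))) := ⟨_, rfl⟩
  obtain ⟨d₀, hd₀⟩ := Filter.eventually_atTop.1
    (((tendsto_lam.eventually_ge_atTop 1).and
      (eventually_le_exp (10 ^ 130 * C) (2 / 10 ^ 8) (by norm_num))).and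
      ((eventually_le_exp (2 ^ I₀) 1 one_pos).and
        (eventually_le_exp (5 * (10 ^ 30 + 1) * 4 ^ t₀ * 2 ^ (t₀ + 1)) 1 one_pos)))
  refine ⟨d₀, fun d hd p h hC => ?_⟩
  obtain ⟨⟨hl, hA⟩, hB, hJ⟩ := hd₀ d hd
  have eI : p.I = I₀ := by rw [Par.I, hC, h.ω, hI₀]
  have et : p.tt = t₀ := by rw [Par.tt, Par.t, eI, h.n₀, ht₀]
  have hl0 : 0 ≤ lam d := by linarith
  have hc : (1 : ℝ) ≤ C := by rw [← hC]; exact_mod_cast h.C
  have cC : (p.C : ℝ) = C := by rw [hC]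
  have cn : (p.n₀ : ℝ) = 10 ^ 30 := by rw [h.n₀]; norm_num
  have cq : (p.q : ℝ) = 20 * 10 ^ 30 := by rw [h.q]; norm_num
  have ck : (p.k : ℝ) = 10 ^ 8 - 1 := by
    have : (p.k : ℝ) + 1 = 10 ^ 8 := by exact_mod_cast h.k
    linarith
  have cs : (p.s : ℝ) ≤ 10 ^ 30 := by
    have : p.s ≤ 10 ^ 30 := by
      rw [Par.s, h.i₀]; exact (Nat.sub_le _ _).trans (Nat.sub_le _ _)
    exact_mod_cast this
  have cI : (p.I : ℝ) = C * (10 ^ 36 + 1) := by rw [eI, hI₀]; norm_num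
  have f1 : (p.φ₁ : ℝ) ≤ 10 ^ 28 * ((lam d + 1) * exp ((1 + 43 / 10 ^ 8) * lam d)) := by
    rw [h.φ₁, pi₁]; exact ceil_le (by norm_num) hl0 (by norm_num)
  have f2 : (p.φ₂ : ℝ) ≤ (10 ^ 30 + 1) * ((lam d + 1) * exp ((1 + 43 / 10 ^ 7) * lam d)) := by
    rw [h.φ₂, pi₂]; exact ceil_le (by norm_num) hl0 (by norm_num)
  have f4 : (p.gg : ℝ) ≤ 2 * ((lam d + 1) * exp (1 / 4 * lam d)) := by
    have h1 := Nat.ceil_lt_add_one (exp_pos (lam d / 4)).le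
    rw [← h.gg, show lam d / 4 = 1 / 4 * lam d by ring] at h1
    have h2 : 1 ≤ exp (1 / 4 * lam d) := one_le_exp (by linarith)
    nlinarith
  have u1 := one_le_ue hl0 (α := 1 + 43 / 10 ^ 8) (by norm_num)
  have u2 := one_le_ue hl0 (α := 1 + 43 / 10 ^ 7) (by norm_num)
  have u4 := one_le_ue hl0 (α := 1 / 4) (by norm_num)
  have s1 := fun x β hx => spend (x := x) (α := 1 + 43 / 10 ^ 8) (β := β) hl0 hA hx
  have s2 := fun x β hx => spend (x := x) (α := 1 + 43 / 10 ^ 7) (β := β) hl0 hA hx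
  have s4 := fun x β hx => spend (x := x) (α := 1 / 4) (β := β) hl0 hA hx
  generalize (lam d + 1) * exp ((1 + 43 / 10 ^ 8) * lam d) = P1 at f1 u1 s1
  generalize (lam d + 1) * exp ((1 + 43 / 10 ^ 7) * lam d) = P2 at f2 u2 s2
  generalize (lam d + 1) * exp (1 / 4 * lam d) = P4 at f4 u4 s4
  have hc0 : (0 : ℝ) ≤ C := by linarith
  have q1 : P1 ≤ C * P1 := le_mul_of_one_le_left (by linarith) hc
  have q2 : (C : ℝ) ≤ C * P2 := le_mul_of_one_le_right hc0 u2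
  have q4 : P4 ≤ C * P4 := le_mul_of_one_le_left (by linarith) hc
  have j1 : (p.J₁ : ℝ) ≤ 10 ^ 60 * P1 := by
    rw [Par.J₁]; push_cast; rw [cn]; linarith
  have j2 : (p.J₂ : ℝ) ≤ 10 ^ 62 * P2 := by
    rw [Par.J₂]; push_cast; rw [cn]; linarith
  have k1 : ((p.C * p.J₁ : ℕ) : ℝ) ≤ 10 ^ 60 * (C * P1) := by
    push_cast; rw [cC]; linarith [mul_le_mul_of_nonneg_left j1 hc0]
  have k2 : (p.L : ℝ) ≤ 10 ^ 62 * (C * P2) := by
    rw [Par.L]; push_cast; rw [cC]; linarith [mul_le_mul_of_nonneg_left j2 hc0]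
  have g1 : (p.g : ℝ) ≤ 10 ^ 63 * P4 := by
    rw [Par.g, Par.g']; push_cast; rw [cn, cq]; linarith
  have g2 : ((p.s * p.g : ℕ) : ℝ) ≤ 10 ^ 30 * (10 ^ 63 * P4) := by
    push_cast; exact mul_le_mul cs g1 (Nat.cast_nonneg _) (by positivity)
  refine ⟨hl, s2 _ _ (by linarith) (by norm_num), s1 _ _ (by linarith) (by norm_num),
    s2 _ _ ?_ (by norm_num), s4 _ _ (by linarith) (by norm_num), s2 _ _ ?_ (by norm_num),
    s2 _ _ ?_ (by norm_num), ?_, ?_⟩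
  · rw [Par.w]; push_cast; rw [cn, cq, cI]; linarith
  · rw [h.s₀]; push_cast; rw [cI]; linarith
  · rw [Par.D]; push_cast; rw [ck, cI]; linarith
  · rw [eI]
    rw [one_mul] at hB
    exact (le_mul_of_one_le_right (by positivity) (by linarith)).trans hB
  · rw [et]
    rw [one_mul] at hJ
    refine le_trans ?_ ((le_mul_of_one_le_right (by positivity) (by linarith)).trans hJ)
    gcongr

end Pool.Agent.P.MP_0b9d6e_co
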