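import Pool.Agent.P.MP_0b9d6e_co.Base
import Pool.Agent.P.MP_2feb70_lc.Ramsey

/-!
Stepping up levels, and the finite Ramsey theorem by compactness.
-/

namespace Pool.Agent.P.MP_0b9d6e_co

open Finset

namespace StepP

/-- The highest binary digit where `x` and `y` differ. -/
def lv (m x y : ℕ) : ℕ := Nat.findGreatest (fun j => x / 2 ^ j ≠ y / 2 ^ j) m

theorem le_lv {m x y : ℕ} (h : x < y) (hy : y < 2 ^ (m + 1)) (k : ℕ) :
    k ≤ lv m x y ↔ x / 2 ^ k ≠ y / 2 ^ k := by
  constructor
  · intro hk e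
    have s : x / 2 ^ lv m x y ≠ y / 2 ^ lv m x y :=
      Nat.findGreatest_spec (P := fun j => x / 2 ^ j ≠ y / 2 ^ j) (Nat.zero_le m)
        (by simpa using h.ne)
    obtain ⟨r, hr⟩ := Nat.exists_eq_add_of_le hk
    rw [hr, pow_add, ← Nat.div_div_eq_div_mul, ← Nat.div_div_eq_div_mul, e] at s
    exact s rfl
  · intro e
    refine Nat.le_findGreatest (P := fun j => x / 2 ^ j ≠ y / 2 ^ j) ?_ e
    by_contra hk
    have : 2 ^ (m + 1) ≤ 2 ^ k := Nat.pow_le_pow_right (by norm_num) (by omega)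
    exact e ((Nat.div_eq_of_lt (by omega)).trans (Nat.div_eq_of_lt (by omega)).symm)

end StepP

open StepP

theorem step : S_Step := by
  intro m hm
  obtain ⟨m, rfl⟩ := Nat.exists_eq_add_of_le' hm
  refine ⟨fun x y => ⟨lv m x y, Nat.lt_succ_of_le (Nat.findGreatest_le m)⟩,
    fun x y z h1 h2 h3 => ?_⟩
  have a := le_lv (m := m) h1 (h2.trans h3)
  have b := le_lv (m := m) h2 h3
  have c := le_lv (m := m) (h1.trans h2) h3
  have m1 : ∀ k, x / 2 ^ k ≤ y / 2 ^ k := fun k => Nat.div_le_div_right h1.le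
  have m2 : ∀ k, y / 2 ^ k ≤ z / 2 ^ k := fun k => Nat.div_le_div_right h2.le
  constructor
  · intro e
    have e' : lv m x y = lv m y z := congrArg Fin.val e
    have a1 := (a _).1 le_rfl
    have b1 := (b _).1 e'.le
    have a2 := (a (lv m x y + 1)).not.1 (by omega)
    have b2 := (b (lv m x y + 1)).not.1 (by omega)
    rw [not_not, pow_succ, ← Nat.div_div_eq_div_mul, ← Nat.div_div_eq_div_mul] at a2 b2
    have := m1 (lv m x y)
    have := m2 (lv m x y)
    omega
  · apply Fin.ext
    rw [Fin.coe_max]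
    refine eq_of_forall_le_iff fun k => ?_
    rw [le_max_iff, a, b, c]
    have := m1 k
    have := m2 k
    omega

theorem fin : S_Fin := by
  intro n H hH
  by_contra h
  simp only [Arrows, not_exists, not_forall] at h
  choose χ hχ using h
  classical
  let c : ℕ → Finset ℕ → Bool := fun N s => χ N (univ.filter fun i : Fin N => (i : ℕ) ∈ s)
  have lim : ∀ s, ∃ b, ∀ᶠ N in (Filter.hyperfilter ℕ : Filter ℕ), c N s = b := fun s => by
    rcases (Filter.hyperfilter ℕ).em (fun N => c N s = true) with h | h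
    · exact ⟨true, h⟩
    · exact ⟨false, h.mono fun N hN => by simpa using hN⟩
  choose l hl using lim
  obtain ⟨T, -, hT, x, hx⟩ := MP_2feb70_lc.inf_ramsey 3 l Set.univ Set.infinite_univ
  have mono : StrictMono (Nat.nth (· ∈ T)) := Nat.nth_strictMono hT
  have ev : ∀ᶠ N in (Filter.hyperfilter ℕ : Filter ℕ), ∀ e ∈ H,
      c N (e.image fun i : Fin n => Nat.nth (· ∈ T) i) = x := by
    refine (Filter.eventually_all_finset H).2 fun e he => ?_
    rw [← hx (e.image fun i : Fin n => Nat.nth (· ∈ T) i) ?_ ?_]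
    · exact hl _
    · intro v hv
      obtain ⟨i, -, rfl⟩ := mem_image.1 hv
      exact Nat.nth_mem_of_infinite hT i
    · exact (card_image_of_injective _ (mono.injective.comp Fin.val_injective)).trans (hH e he)
  obtain ⟨N, h1, h2⟩ := (ev.and (Nat.hyperfilter_le_atTop
    (Filter.eventually_ge_atTop (Nat.nth (· ∈ T) n)))).exists
  let φ : Fin n ↪o Fin N := OrderEmbedding.ofStrictMono
    (fun i => ⟨Nat.nth (· ∈ T) i, (mono i.2).trans_le h2⟩) fun i j hij => mono hij
  obtain ⟨e, he, hne⟩ := hχ N x φ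
  refine hne (Eq.trans (congrArg (χ N) ?_) (h1 e he))
  ext i
  simp only [mem_map, mem_filter, mem_univ, true_and, mem_image]
  exact exists_congr fun j => and_congr_right fun _ => Fin.ext_iff

end Pool.Agent.P.MP_0b9d6e_co

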