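import Pool.Agent.P.MP_0b9d6e_co.Base

/-!
Final assembly: add a sunflower to the matching and compute the growth rate.
-/

namespace Pool.Agent.P.MP_0b9d6e_co

open Finset Real

namespace TopP

/-- the edge of a triple -/
def tr (n : ℕ) (t : ℕ × ℕ × ℕ) : Finset (Fin n) :=
  univ.filter fun v : Fin n => v.1 = t.1 ∨ v.1 = t.2.1 ∨ v.1 = t.2.2

theorem mem_tr {n : ℕ} {t : ℕ × ℕ × ℕ} {v : Fin n} :
    v ∈ tr n t ↔ v.1 = t.1 ∨ v.1 = t.2.1 ∨ v.1 = t.2.2 := by
  simp [tr]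

theorem tr_eq {n : ℕ} {t : ℕ × ℕ × ℕ} (h1 : t.1 < n) (h2 : t.2.1 < n) (h3 : t.2.2 < n) :
    tr n t = {⟨t.1, h1⟩, ⟨t.2.1, h2⟩, ⟨t.2.2, h3⟩} := by
  ext v
  rw [mem_tr]
  simp [Fin.ext_iff]

theorem card_tr {n : ℕ} {t : ℕ × ℕ × ℕ} (h1 : t.1 < t.2.1) (h2 : t.2.1 < t.2.2)
    (h3 : t.2.2 < n) : (tr n t).card = 3 := by
  rw [tr_eq (by omega) (by omega) h3, card_eq_three]
  refine ⟨_, _, _, ?_, ?_, ?_, rfl⟩ <;> intro h <;> have := congrArg Fin.val h <;>
    simp only at this <;> omega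

/-- the sunflower triples -/
def star (n' d : ℕ) : Finset (ℕ × ℕ × ℕ) :=
  (range d).image fun i => (n', n' + 2 * i + 1, n' + 2 * i + 2)

/-- the hypergraph -/
def hyp (n n' d : ℕ) (E : Finset (ℕ × ℕ × ℕ)) : Finset (Finset (Fin n)) :=
  (E ∪ star n' d).image (tr n)

theorem hyp_card {n n' d : ℕ} {E : Finset (ℕ × ℕ × ℕ)} (hn : n' + (2 * d + 1) ≤ n)
    (hE : IsMat n' E) : ∀ e ∈ hyp n n' d E, e.card = 3 := by
  intro e he
  obtain ⟨t, ht, rfl⟩ := mem_image.1 he
  rcases mem_union.1 ht with h | h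
  · obtain ⟨a, b, c⟩ := hE.1 t h
    exact card_tr a b (by omega)
  · obtain ⟨i, hi, rfl⟩ := mem_image.1 h
    have := mem_range.1 hi
    exact card_tr (by simp only; omega) (by simp only; omega) (by simp only; omega)

theorem hyp_deg {n n' d : ℕ} {E : Finset (ℕ × ℕ × ℕ)} (hd : 0 < d) (hn : n' + (2 * d + 1) ≤ n)
    (hE : IsMat n' E) : maxDeg (hyp n n' d E) = d := by
  apply le_antisymm
  · refine Finset.sup_le fun v _ => ?_
    by_cases hv : v.1 < n'
    · refine le_trans (card_le_one.2 fun a ha b hb => ?_) hd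
      obtain ⟨ha1, ha2⟩ := mem_filter.1 ha
      obtain ⟨hb1, hb2⟩ := mem_filter.1 hb
      obtain ⟨s, hs, rfl⟩ := mem_image.1 ha1
      obtain ⟨t, ht, rfl⟩ := mem_image.1 hb1
      rw [mem_tr] at ha2 hb2
      have key : ∀ u ∈ E ∪ star n' d, (v.1 = u.1 ∨ v.1 = u.2.1 ∨ v.1 = u.2.2) → u ∈ E := by
        intro u hu h
        rcases mem_union.1 hu with h' | h'
        · exact h'
        · obtain ⟨i, _, rfl⟩ := mem_image.1 h'
          simp only at h
          omega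
      rw [hE.2 s (key s hs ha2) t (key t ht hb2) v.1 ha2 hb2]
    · have hsub : (hyp n n' d E).filter (v ∈ ·) ⊆ (star n' d).image (tr n) := by
        intro a ha
        obtain ⟨ha1, ha2⟩ := mem_filter.1 ha
        obtain ⟨s, hs, rfl⟩ := mem_image.1 ha1
        rw [mem_tr] at ha2
        rcases mem_union.1 hs with h' | h'
        · obtain ⟨a, b, c⟩ := hE.1 s h'
          omega
        · exact mem_image_of_mem _ h'
      refine (card_le_card hsub).trans (card_image_le.trans (card_image_le.trans ?_))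
      rw [card_range]
  · have hn' : n' < n := by omega
    refine le_trans ?_ (Finset.le_sup (f := fun v => ((hyp n n' d E).filter (v ∈ ·)).card)
      (mem_univ (⟨n', hn'⟩ : Fin n)))
    conv_lhs => rw [← card_range d]
    refine card_le_card_of_injOn (fun i => tr n (n', n' + 2 * i + 1, n' + 2 * i + 2)) ?_ ?_
    · intro i hi
      refine mem_coe.2 (mem_filter.2 ⟨?_, mem_tr.2 (Or.inl rfl)⟩)
      exact mem_image_of_mem _ (mem_union_right _ (mem_image_of_mem _ (mem_coe.1 hi)))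
    · intro i hi j _ hij
      have hi' : i < d := mem_range.1 (mem_coe.1 hi)
      have h1 : (⟨n' + 2 * i + 1, by omega⟩ : Fin n) ∈
          tr n (n', n' + 2 * i + 1, n' + 2 * i + 2) := mem_tr.2 (Or.inr (Or.inl rfl))
      simp only at hij
      rw [hij, mem_tr] at h1
      simp only at h1
      omega

theorem hyp_arr {n n' d N : ℕ} {E : Finset (ℕ × ℕ × ℕ)} (hn : n' ≤ n) (hE : IsMat n' E)
    (h : Arrows N (hyp n n' d E)) : Arr N n' E := by
  classical
  intro χ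
  obtain ⟨col, φ, hφ⟩ := h fun S => decide (∃ x y z : Fin N, x < y ∧ y < z ∧ S = {x, y, z} ∧
    χ x.1 y.1 z.1 = true)
  refine ⟨col, fun x => if h : x < n then (φ ⟨x, h⟩).1 else 0, ?_, ?_, ?_⟩
  · intro x y hxy hy
    have hy' : y < n := by omega
    have hx' : x < n := by omega
    simp only [dif_pos hx', dif_pos hy']
    exact φ.strictMono (show (⟨x, hx'⟩ : Fin n) < ⟨y, hy'⟩ from hxy)
  · intro x hx
    have hx' : x < n := by omega
    simp only [dif_pos hx']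
    exact (φ _).2
  · intro e he
    obtain ⟨a, b, c⟩ := hE.1 e he
    have h3 : e.2.2 < n := by omega
    have h2 : e.2.1 < n := by omega
    have h1 : e.1 < n := by omega
    have hm := hφ (tr n e) (mem_image_of_mem _ (mem_union_left _ he))
    rw [tr_eq h1 h2 h3, map_insert, map_insert, map_singleton] at hm
    simp only [dif_pos h1, dif_pos h2, dif_pos h3]
    have l1 : φ ⟨e.1, h1⟩ < φ ⟨e.2.1, h2⟩ :=
      φ.strictMono (show (⟨e.1, h1⟩ : Fin n) < ⟨e.2.1, h2⟩ from a)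
    have l2 : φ ⟨e.2.1, h2⟩ < φ ⟨e.2.2, h3⟩ :=
      φ.strictMono (show (⟨e.2.1, h2⟩ : Fin n) < ⟨e.2.2, h3⟩ from b)
    rw [← hm]
    simp only [RelEmbedding.coe_toEmbedding]
    generalize φ ⟨e.1, h1⟩ = A at l1 ⊢
    generalize φ ⟨e.2.1, h2⟩ = B at l1 l2 ⊢
    generalize φ ⟨e.2.2, h3⟩ = C at l2 ⊢
    rw [Bool.eq_iff_iff, decide_eq_true_eq]
    constructor
    · intro hc
      exact ⟨A, B, C, l1, l2, rfl, hc⟩
    · rintro ⟨x, y, z, hxy, hyz, hS, hc⟩
      have hx : x ∈ ({A, B, C} : Finset (Fin N)) := by rw [hS]; simp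
      have hy : y ∈ ({A, B, C} : Finset (Fin N)) := by rw [hS]; simp
      have hz : z ∈ ({A, B, C} : Finset (Fin N)) := by rw [hS]; simp
      simp only [mem_insert, mem_singleton, Fin.ext_iff] at hx hy hz
      rw [Fin.lt_def] at l1 l2 hxy hyz
      have e1 : A.1 = x.1 := by omega
      have e2 : B.1 = y.1 := by omega
      have e3 : C.1 = z.1 := by omega
      rw [e1, e2, e3]
      exact hc

/-- the base used for a given size -/
def qq' (K n' : ℕ) : ℕ := Nat.findGreatest (fun Q => Q ^ K < n') n'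

theorem qq_spec {K n' M : ℕ} (hK : 0 < K) (hM : M ^ K < n') :
    M ≤ qq' K n' ∧ qq' K n' ^ K < n' ∧ n' ≤ (qq' K n' + 1) ^ K := by
  have hle : ∀ Q : ℕ, Q ≤ Q ^ K := fun Q => Nat.le_self_pow hK.ne' Q
  have h1 : M ≤ n' := (hle M).trans hM.le
  have h2 : qq' K n' ^ K < n' := Nat.findGreatest_spec (P := fun Q => Q ^ K < n') h1 hM
  refine ⟨Nat.le_findGreatest h1 hM, h2, ?_⟩
  have h3 : qq' K n' + 1 ≤ n' := lt_of_le_of_lt (hle _) h2
  exact not_lt.1 (Nat.findGreatest_is_greatest (P := fun Q => Q ^ K < n')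
    (Nat.lt_succ_self (qq' K n')) h3)

end TopP

open TopP

theorem top (h1 : S_Core) (h2 : S_Fin) : S_Top := by
  classical
  intro d hd
  obtain ⟨K, Q₀, hK, hc⟩ := h1
  have hE : ∀ n' : ℕ, ∃ E, IsMat n' E ∧ (Q₀ ≤ qq' K n' → qq' K n' ^ K < n' →
      n' ≤ qq' K n' ^ (K + 1) → ∀ N ≤ 2 ^ qq' K n' ^ (K + 1), ¬ Arr N n' E) := by
    intro n'
    by_cases h : Q₀ ≤ qq' K n' ∧ qq' K n' ^ K < n' ∧ n' ≤ qq' K n' ^ (K + 1)
    · obtain ⟨E, hE1, hE2⟩ := hc _ n' h.1 h.2.1 h.2.2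
      exact ⟨E, hE1, fun _ _ _ => hE2⟩
    · exact ⟨∅, ⟨by simp, by simp⟩, fun a b c => absurd ⟨a, b, c⟩ h⟩
  choose E hE1 hE2 using hE
  let H : ∀ n : ℕ, Finset (Finset (Fin n)) := fun n =>
    if 2 * d + 1 ≤ n then hyp n (n - (2 * d + 1)) d (E (n - (2 * d + 1))) else ∅
  have hH : ∀ n, 2 * d + 1 ≤ n → H n = hyp n (n - (2 * d + 1)) d (E (n - (2 * d + 1))) :=
    fun n hn => if_pos hn
  have hcard : ∀ n, ∀ e ∈ H n, e.card = 3 := by
    intro n e he
    by_cases hn : 2 * d + 1 ≤ n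
    · rw [hH n hn] at he
      exact hyp_card (by omega) (hE1 _) e he
    · have : H n = ∅ := if_neg hn
      rw [this] at he
      exact absurd he (notMem_empty e)
  have harr : ∀ n, Arrows (ramsey (H n)) (H n) := fun n =>
    Nat.sInf_mem (s := {N | Arrows N (H n)}) (h2 n (H n) (hcard n))
  refine ⟨H, hcard, fun n hn => ?_, harr, ?_⟩
  · rw [hH n hn]
    exact hyp_deg hd (by omega) (hE1 _)
  · refine Filter.tendsto_atTop.2 fun b => ?_
    obtain ⟨M₁, hM₁⟩ := exists_nat_ge (b * 2 ^ (K + 1))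
    set M : ℕ := M₁ + Q₀ + 2 ^ K with hM
    filter_upwards [Filter.eventually_ge_atTop (2 * (M ^ K + 1) + 2 * (2 * d + 1))] with n hn
    set n' := n - (2 * d + 1) with hn'
    have hMn : M ^ K < n' := by omega
    have hnn : n ≤ 2 * n' := by omega
    have hdn : 2 * d + 1 ≤ n := by omega
    obtain ⟨a1, a2, a3⟩ := qq_spec hK hMn
    set Q := qq' K n' with hQ
    have hp : 0 < 2 ^ K := by positivity
    have hQ1 : 1 ≤ Q := by omega
    have hQ2 : 2 ^ K ≤ Q := by omega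
    have a4 : n' ≤ 2 ^ K * Q ^ K := by
      rw [← mul_pow]
      exact a3.trans (Nat.pow_le_pow_left (by omega) K)
    have a5 : n' ≤ Q ^ (K + 1) := by
      rw [pow_succ, mul_comm]
      exact a4.trans (Nat.mul_le_mul_right _ hQ2)
    have hlt : 2 ^ Q ^ (K + 1) < ramsey (H n) := by
      by_contra hcon
      refine hE2 n' (by omega) a2 a5 _ (not_lt.1 hcon) ?_
      have := harr n
      rw [hH n hdn] at this ⊢
      exact hyp_arr (by omega) (hE1 _) this
    have hlog : ((Q ^ (K + 1) : ℕ) : ℝ) ≤ logb 2 (ramsey (H n)) := by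
      have h0 : (0 : ℝ) < ramsey (H n) := by
        exact_mod_cast lt_of_le_of_lt (Nat.zero_le _) hlt
      rw [Real.le_logb_iff_rpow_le (by norm_num) h0, Real.rpow_natCast]
      exact_mod_cast hlt.le
    have hnpos : (0 : ℝ) < n := by exact_mod_cast (by omega : 0 < n)
    rw [le_div_iff₀ hnpos]
    refine le_trans ?_ hlog
    have b1 : (n : ℝ) ≤ 2 ^ (K + 1) * (Q : ℝ) ^ K := by
      have : n ≤ 2 ^ (K + 1) * Q ^ K := by
        rw [pow_succ, mul_comm (2 ^ K) 2, mul_assoc]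
        omega
      exact_mod_cast this
    have b2 : b * 2 ^ (K + 1) ≤ Q := by
      refine hM₁.trans ?_
      exact_mod_cast (by omega : M₁ ≤ Q)
    have b3 : (0 : ℝ) < 2 ^ (K + 1) := by positivity
    have b4 : b ≤ Q / 2 ^ (K + 1) := by rwa [le_div_iff₀ b3]
    calc b * n ≤ Q / 2 ^ (K + 1) * n := mul_le_mul_of_nonneg_right b4 hnpos.le
      _ ≤ Q / 2 ^ (K + 1) * (2 ^ (K + 1) * (Q : ℝ) ^ K) :=
        mul_le_mul_of_nonneg_left b1 (by positivity)
      _ = ((Q ^ (K + 1) : ℕ) : ℝ) := by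
        push_cast
        field_simp
        ring

end Pool.Agent.P.MP_0b9d6e_co
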