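import Pool.Agent.P.MP_0b9d6e_co.Base

/-!
Extraction of a binary tree of levels from balanced intervals.
-/

namespace Pool.Agent.P.MP_0b9d6e_co

open Finset

namespace TreeP

variable {m : ℕ}

/-- the level `a` is realised across a balanced cut inside `[lo, hi)` -/
def Nd (δ : ℕ → ℕ → Fin m) (p₀ B lo hi : ℕ) (a : Fin m) : Prop :=
  ∃ l md r, lo ≤ l ∧ l + p₀ ≤ md ∧ md + p₀ ≤ r ∧ r ≤ hi ∧ r - l ≤ B * (md - l) ∧
    r - l ≤ B * (r - md) ∧ ∀ x y, l ≤ x → x < md → md ≤ y → y < r → δ x y = a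

theorem Nd.mono {δ : ℕ → ℕ → Fin m} {p₀ B lo hi lo' hi' : ℕ} {a : Fin m}
    (h : Nd δ p₀ B lo hi a) (h1 : lo' ≤ lo) (h2 : hi ≤ hi') : Nd δ p₀ B lo' hi' a := by
  obtain ⟨l, md, r, a1, a2, a3, a4, a5⟩ := h
  exact ⟨l, md, r, h1.trans a1, a2, a3, a4.trans h2, a5⟩

def join (L R : Finset (List Bool)) : Finset (List Bool) :=
  insert [] (L.image (List.cons true) ∪ R.image (List.cons false))

def jlev {V : Type} (a : V) (f g : List Bool → V) : List Bool → V
  | [] => a
  | true :: u => f u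
  | false :: u => g u

theorem nil_mem (L R : Finset (List Bool)) : [] ∈ join L R := mem_insert_self _ _

theorem true_mem {L R : Finset (List Bool)} {u : List Bool} : true :: u ∈ join L R ↔ u ∈ L := by
  simp [join]

theorem false_mem {L R : Finset (List Bool)} {u : List Bool} :
    false :: u ∈ join L R ↔ u ∈ R := by
  simp [join]

theorem card_join (L R : Finset (List Bool)) : (join L R).card = L.card + R.card + 1 := by
  rw [join, card_insert_of_notMem (by simp), card_union_of_disjoint,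
    card_image_of_injective _ List.cons_injective, card_image_of_injective _ List.cons_injective]
  simp [disjoint_left]

theorem isTree_join {V : Type} [LT V] {P : Bool → V → V → Prop} {L R : Finset (List Bool)}
    {a : V} {f g : List Bool → V} (hL : IsTree P L f) (hR : IsTree P R g)
    (h1 : ∀ u ∈ L, f u < a ∧ P true a (f u)) (h2 : ∀ u ∈ R, g u < a ∧ P false a (g u)) :
    IsTree P (join L R) (jlev a f g) := by
  constructor
  · intro w hw i
    rcases i with _ | i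
    · exact nil_mem _ _
    rcases w with _ | ⟨_ | _, u⟩
    · exact nil_mem _ _
    · exact false_mem.2 (hR.pre u (false_mem.1 hw) i)
    · exact true_mem.2 (hL.pre u (true_mem.1 hw) i)
  · intro w hw i b hb
    rcases w with _ | ⟨_ | _, u⟩
    · simp at hb
    · rcases i with _ | i
      · obtain rfl : false = b := by simpa using hb
        exact h2 u (false_mem.1 hw)
      · exact hR.rel u (false_mem.1 hw) i b hb
    · rcases i with _ | i
      · obtain rfl : true = b := by simpa using hb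
        exact h1 u (true_mem.1 hw)
      · exact hL.rel u (true_mem.1 hw) i b hb

theorem main {n p₀ B D : ℕ} {δ : ℕ → ℕ → Fin m} {P : Bool → Fin m → Fin m → Prop}
    (hB : Bal n δ (2 * p₀ * B) B D) (hJ : Jum p₀ B n (fun x y z => Red P (δ x y) (δ y z)))
    (hB0 : 0 < B) (hD : 0 < D) (s : ℕ) : ∀ lo hi, lo ≤ hi → hi ≤ n → hi - lo = s →
    ∃ 𝒟 lev, IsTree P 𝒟 lev ∧ (∀ w ∈ 𝒟, Nd δ p₀ B lo hi (lev w)) ∧
      ∀ H : ℕ, (∀ w ∈ 𝒟, w.length < H) →
        ((hi : ℝ) - lo) * (1 - 1 / (2 * D)) ^ H ≤ (2 * p₀ * B : ℕ) * ((𝒟.card : ℝ) + 1) := by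
  have hD' : (1 : ℝ) ≤ D := by exact_mod_cast hD
  have hq1 : (1 : ℝ) / (2 * D) ≤ 1 := by rw [div_le_one (by positivity)]; linarith
  have hq0 : (0 : ℝ) ≤ 1 - 1 / (2 * D) := sub_nonneg.2 hq1
  have hq2 : (1 : ℝ) - 1 / (2 * D) ≤ 1 := sub_le_self _ (by positivity)
  induction s using Nat.strong_induction_on with
  | _ s ih =>
  intro lo hi hle hn hs
  by_cases hc : lo + 2 * p₀ * B ≤ hi
  swap
  · refine ⟨∅, fun _ => δ 0 0, ⟨by simp, by simp⟩, by simp, fun H _ => ?_⟩
    have h1 : (hi : ℝ) ≤ lo + (2 * p₀ * B : ℕ) := by exact_mod_cast (not_le.1 hc).le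
    have h2 : (lo : ℝ) ≤ hi := by exact_mod_cast hle
    rw [card_empty, Nat.cast_zero, zero_add, mul_one]
    exact (mul_le_of_le_one_right (sub_nonneg.2 h2) (pow_le_one₀ hq0 hq2)).trans (by linarith)
  obtain ⟨l, md, r, a, a1, a2, a3, a4, a5, a6, a7, a8, a9, a10⟩ := hB lo hi hn hc
  obtain ⟨L, f, hL, hL1, hL2⟩ := ih (md - l) (by omega) l md a2.le (by omega) rfl
  obtain ⟨R, g, hR, hR1, hR2⟩ := ih (r - md) (by omega) md r a3.le (by omega) rfl
  have hp : ∀ t, hi - lo ≤ B * t → p₀ ≤ t := fun t ht => by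
    refine Nat.le_of_mul_le_mul_left ?_ hB0
    have : B * p₀ ≤ 2 * p₀ * B := by nlinarith
    omega
  have b1 := hp _ a6
  have b2 := hp _ a7
  refine ⟨join L R, jlev a f g, isTree_join hL hR (fun u hu => ?_) fun u hu => ?_,
    fun w hw => ?_, fun H hH => ?_⟩
  · obtain ⟨l', md', r', c1, c2, c3, c4, c5, c6, c7⟩ := hL1 u hu
    obtain ⟨x, y, z, d1, d2, d3, d4, d5, d6, d7⟩ := hJ l' md' md' r' md r le_rfl c4 (by omega)
      c2 c3 (by omega) c5 (le_trans (by omega) a7)
    have e1 := a9 x y (by omega) (by omega) (by omega)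
    simp only [c7 x y d1 d2 d3 d4, a8 y z (by omega) (by omega) d5 d6] at d7 e1
    exact d7.resolve_left fun h => lt_asymm e1 h.1
  · obtain ⟨l', md', r', c1, c2, c3, c4, c5, c6, c7⟩ := hR1 u hu
    obtain ⟨x, y, z, d1, d2, d3, d4, d5, d6, d7⟩ := hJ l md l' md' md' r' c1 le_rfl (by omega)
      (by omega) c2 c3 (le_trans (by omega) a6) c6
    have e1 := a10 y z (by omega) (by omega) (by omega)
    simp only [c7 y z d3 d4 d5 d6, a8 x y d1 d2 (by omega) (by omega)] at d7 e1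
    exact d7.resolve_right fun h => lt_asymm e1 h.1
  · rcases w with _ | ⟨_ | _, u⟩
    · exact ⟨l, md, r, a1, by omega, by omega, a4, le_trans (by omega) a6,
        le_trans (by omega) a7, a8⟩
    · exact (hR1 u (false_mem.1 hw)).mono (by omega) a4
    · exact (hL1 u (true_mem.1 hw)).mono a1 (by omega)
  · rcases H with _ | H
    · exact absurd (hH [] (nil_mem _ _)) (by simp)
    have h1 := hL2 H fun u hu => Nat.lt_of_succ_lt_succ (hH _ (true_mem.2 hu))
    have h2 := hR2 H fun u hu => Nat.lt_of_succ_lt_succ (hH _ (false_mem.2 hu))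
    have h3 : ((hi : ℝ) - lo) * (1 - 1 / (2 * D)) ≤ (r : ℝ) - l := by
      have h4 : (2 * D * (((hi : ℝ) - lo) - ((r : ℝ) - l))) ≤ (hi : ℝ) - lo := by
        have := (Nat.cast_le (α := ℝ)).2 a5
        rwa [Nat.cast_mul, Nat.cast_mul, Nat.cast_sub (by omega), Nat.cast_sub hle,
          Nat.cast_sub (by omega), Nat.cast_ofNat] at this
      rw [mul_sub, mul_one, mul_one_div, sub_le_comm, le_div_iff₀ (by positivity)]
      linarith
    have h5 := mul_le_mul_of_nonneg_right h3 (pow_nonneg hq0 H)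
    rw [card_join, pow_succ', ← mul_assoc]
    push_cast at h1 h2 ⊢
    linarith

end TreeP

theorem tree : S_Tree := by
  intro m n p₀ B D T δ P hB hJ hT _ hB0 hD
  obtain ⟨𝒟, lev, h1, -, h2⟩ := TreeP.main hB hJ hB0 hD n 0 n (Nat.zero_le _) le_rfl rfl
  obtain ⟨h3, h4⟩ := hT 𝒟 lev h1
  have h5 := h2 D h3
  have hD' : (1 : ℝ) ≤ D := by exact_mod_cast hD
  have h6 := one_add_mul_le_pow (a := -(1 / (2 * (D : ℝ)))) (by
    have : (1 : ℝ) / (2 * D) ≤ 1 := by rw [div_le_one (by positivity)]; linarith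
    linarith) D
  have h7 : 1 + (D : ℝ) * -(1 / (2 * D)) = 1 / 2 := by field_simp; norm_num
  rw [h7, ← sub_eq_add_neg] at h6
  have h8 : (𝒟.card : ℝ) ≤ T := by exact_mod_cast h4
  have h9 := mul_le_mul_of_nonneg_left h6 (Nat.cast_nonneg n : (0 : ℝ) ≤ n)
  have h10 : ((2 * p₀ * B : ℕ) : ℝ) * ((𝒟.card : ℝ) + 1) ≤ (2 * p₀ * B : ℕ) * ((T : ℝ) + 1) := by
    gcongr
  rw [Nat.cast_zero, sub_zero] at h5
  have h11 : (n : ℝ) ≤ 2 * (2 * p₀ * B : ℕ) * ((T : ℝ) + 1) := by linarith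
  exact_mod_cast h11

end Pool.Agent.P.MP_0b9d6e_co
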