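import Pool.Agent.P.MP_0b9d6e_co.Base

/-!
The first moment lemma.
-/

namespace Pool.Agent.P.MP_0b9d6e_co

open Finset Function

namespace UBP

variable {ι Ω : Type} [Fintype ι] [DecidableEq ι] [Fintype Ω] [Nonempty Ω]

theorem step (v : ι) (E : (ι → Ω) → Prop) (P : (ι → Ω) → Ω → Prop) {β : ℝ} (hβ : 0 ≤ β)
    (hE : ∀ ω z, E (update ω v z) → E ω) (hP : ∀ ω z, P (update ω v z) = P ω) :
    pr (fun ω => E ω ∧ P ω (ω v) ∧ pr (P ω) ≤ β) ≤ β * pr E := by
  classical
  have inv : Involutive fun x : (ι → Ω) × Ω => (update x.1 v x.2, x.1 v) := fun x => by simp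
  rw [← pr_fst (β := Ω), ← pr_equiv inv.toPerm, pr_prod_eq_avg, pr_eq_sum E, ← mul_div_assoc,
    mul_sum]
  refine div_le_div_of_nonneg_right (sum_le_sum fun ω _ => ?_) (Nat.cast_nonneg _)
  change pr (fun z => E (update ω v z) ∧ P (update ω v z) (update ω v z v) ∧
    pr (P (update ω v z)) ≤ β) ≤ _
  simp only [hP, update_self]
  by_cases h : E ω ∧ pr (P ω) ≤ β
  · rw [if_pos h.1, mul_one]
    exact (pr_mono fun z hz => hz.2.1).trans h.2
  · rw [pr_of_forall_not fun z hz => h ⟨hE ω z hz.1, hz.2.2⟩]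
    split_ifs <;> simp [hβ]

theorem prod_bound (D : (ι → Ω) → ι → Ω → Prop) (U : Finset ι) {β : ℝ} (hβ : 0 ≤ β)
    (hD : ∀ ω v z, v ∉ U → D (update ω v z) = D ω) (S : Finset ι) :
    pr (fun ω => ∀ v ∈ S, v ∉ U ∧ D ω v (ω v) ∧ pr (D ω v) ≤ β) ≤ β ^ S.card := by
  induction S using Finset.induction_on with
  | empty => rw [card_empty, pow_zero]; exact pr_le_one _
  | insert v S hv ih =>
    rw [card_insert_of_notMem hv, pow_succ']
    by_cases hU : v ∈ U
    · rw [pr_of_forall_not fun ω h => (h v (mem_insert_self _ _)).1 hU]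
      positivity
    refine le_trans (pr_mono fun ω h => ?_) ((step v
      (fun ω => ∀ u ∈ S, u ∉ U ∧ D ω u (ω u) ∧ pr (D ω u) ≤ β) (fun ω => D ω v) hβ ?_ ?_).trans
      (mul_le_mul_of_nonneg_left ih hβ))
    · exact ⟨fun u hu => h u (mem_insert_of_mem hu), (h v (mem_insert_self _ _)).2⟩
    · intro ω z h u hu
      have := h u hu
      rwa [hD ω v z hU, update_of_ne (by rintro rfl; exact hv hu)] at this
    · intro ω z
      rw [hD ω v z hU]

theorem sum_pow (m : ℕ) : ∑ A : Finset (Fin m), ((m : ℝ)⁻¹) ^ A.card ≤ 3 := by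
  have h := Finset.prod_one_add (f := fun _ : Fin m => (m : ℝ)⁻¹) univ
  simp only [prod_const, card_univ, Fintype.card_fin, powerset_univ] at h
  rw [← h]
  exact Real.one_add_inv_pow_le_exp.trans (Real.exp_one_lt_d9.le.trans (by norm_num))

end UBP

open UBP in
theorem ub : S_UB := by
  intro m Ω _ _ D β b hm hβ hD hb
  have hm' : (0 : ℝ) < m := Nat.cast_pos.2 hm
  have key : ∀ A R : Finset (Fin m), pr (fun ω : Fin m → Ω =>
      ∃ S ∈ powersetCard (b (A.card + R.card)) univ,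
        ∀ v ∈ S, v ∉ A ∪ R ∧ D A R ω v (ω v) ∧ pr (D A R ω v) ≤ β) ≤
      (m : ℝ)⁻¹ * ((m : ℝ)⁻¹ ^ A.card * (m : ℝ)⁻¹ ^ R.card) := by
    intro A R
    have hU : ∀ ω v z, v ∉ A ∪ R → D A R (update ω v z) = D A R ω := by
      intro ω v z hv
      have a1 : ∀ u ∈ A, update ω v z u = ω u := fun u hu =>
        update_of_ne (by rintro rfl; exact hv (mem_union_left _ hu)) _ _
      have a2 : ∀ u ∈ R, update ω v z u = ω u := fun u hu =>
        update_of_ne (by rintro rfl; exact hv (mem_union_right _ hu)) _ _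
      funext u y
      exact propext ⟨hD A R _ _ u y a1 a2,
        hD A R _ _ u y (fun u hu => (a1 u hu).symm) fun u hu => (a2 u hu).symm⟩
    refine (pr_exists_le _ _).trans ((sum_le_card_nsmul _ _ (β ^ b (A.card + R.card))
      fun S hS => ?_).trans ?_)
    · rw [← (mem_powersetCard.1 hS).2]
      exact prod_bound (D A R) (A ∪ R) hβ hU S
    · rw [card_powersetCard, card_univ, Fintype.card_fin, nsmul_eq_mul, ← pow_add, ← pow_succ']
      refine le_trans ?_ (hb _)
      rw [mul_pow]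
      refine mul_le_mul_of_nonneg_right ?_ (pow_nonneg hβ _)
      exact_mod_cast Nat.choose_le_pow _ _
  calc _ ≤ pr (fun ω : Fin m → Ω => ∃ A ∈ (univ : Finset (Finset (Fin m))),
        ∃ R ∈ (univ : Finset (Finset (Fin m))), ∃ S ∈ powersetCard (b (A.card + R.card)) univ,
          ∀ v ∈ S, v ∉ A ∪ R ∧ D A R ω v (ω v) ∧ pr (D A R ω v) ≤ β) := by
        refine pr_mono ?_
        rintro ω ⟨A, R, S, h1, h2⟩
        obtain ⟨S', h3, h4⟩ := exists_subset_card_eq h1
        refine ⟨A, mem_univ _, R, mem_univ _, S', mem_powersetCard.2 ⟨subset_univ _, h4⟩,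
          fun v hv => ?_⟩
        obtain ⟨a1, a2, a3⟩ := h2 v (h3 hv)
        exact ⟨fun h => (mem_union.1 h).elim a1 a2, a3⟩
    _ ≤ ∑ A : Finset (Fin m), ∑ R : Finset (Fin m),
        (m : ℝ)⁻¹ * ((m : ℝ)⁻¹ ^ A.card * (m : ℝ)⁻¹ ^ R.card) :=
        (pr_exists_le _ _).trans (sum_le_sum fun A _ =>
          (pr_exists_le _ _).trans (sum_le_sum fun R _ => key A R))
    _ = (m : ℝ)⁻¹ * ((∑ A : Finset (Fin m), (m : ℝ)⁻¹ ^ A.card) *
        ∑ R : Finset (Fin m), (m : ℝ)⁻¹ ^ R.card) := by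
        rw [sum_mul_sum, mul_sum]
        exact sum_congr rfl fun A _ => (mul_sum _ _ _).symm
    _ ≤ (m : ℝ)⁻¹ * (3 * 3) :=
        mul_le_mul_of_nonneg_left (mul_le_mul (sum_pow m) (sum_pow m)
          (sum_nonneg fun _ _ => by positivity) (by norm_num)) (by positivity)
    _ = 9 / m := by ring

end Pool.Agent.P.MP_0b9d6e_co
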