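import Pool.Agent.P.MP_0b9d6e_co.Core
import Pool.Agent.P.MP_0b9d6e_co.UB
import Pool.Agent.P.MP_0b9d6e_co.Hoef
import Pool.Agent.P.MP_0b9d6e_co.P12
import Pool.Agent.P.MP_0b9d6e_co.GA
import Pool.Agent.P.MP_0b9d6e_co.GB
import Pool.Agent.P.MP_0b9d6e_co.GC
import Pool.Agent.P.MP_0b9d6e_co.FP
import Pool.Agent.P.MP_0b9d6e_co.Deg
import Pool.Agent.P.MP_0b9d6e_co.Sets
import Pool.Agent.P.MP_0b9d6e_co.Gam
import Pool.Agent.P.MP_0b9d6e_co.Cls
import Pool.Agent.P.MP_0b9d6e_co.Cat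
import Pool.Agent.P.MP_0b9d6e_co.Pred
import Pool.Agent.P.MP_0b9d6e_co.Cnt
import Pool.Agent.P.MP_0b9d6e_co.Basic
import Pool.Agent.P.MP_0b9d6e_co.C12
import Pool.Agent.P.MP_0b9d6e_co.C3a
import Pool.Agent.P.MP_0b9d6e_co.C3
import Pool.Agent.P.MP_0b9d6e_co.Sam
import Pool.Agent.P.MP_0b9d6e_co.Size
import Pool.Agent.P.MP_0b9d6e_co.Meas
import Pool.Agent.P.MP_0b9d6e_co.BadN
import Pool.Agent.P.MP_0b9d6e_co.Der
import Pool.Agent.P.MP_0b9d6e_co.NumT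
import Pool.Agent.P.MP_0b9d6e_co.NumQ
import Pool.Agent.P.MP_0b9d6e_co.Match
import Pool.Agent.P.MP_0b9d6e_co.Bal
import Pool.Agent.P.MP_0b9d6e_co.Tree
import Pool.Agent.P.MP_0b9d6e_co.Step
import Pool.Agent.P.MP_0b9d6e_co.Top

/-!
Assembly of all packages.
-/

namespace Pool.Agent.P.MP_0b9d6e_co

theorem tl_all : S_TL := treeBound basic tri (c1 cnt) (c2 cnt) (c3 cnt sets c3a) pred red

theorem core_all : S_Core :=
  core tl_all (gam ub mc) (cls ind) (rank kfree) cat (sam ub) size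
    (meas attM clq (p1 hoef) (p2 hoef gen)) (badN (bad (gG dec sup one))) (der gen fp ls mc)
    numT numQ mat bal tree step

theorem top_all : S_Top := top core_all fin

end Pool.Agent.P.MP_0b9d6e_co
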