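import Pool.Agent.P.MP_0b9d6e_co.St

/-!
Basic lemmas on proportions and the cube.
-/

namespace Pool.Agent.P.MP_0b9d6e_co

open Finset

section pr

variable {α β : Type} [Fintype α] [Fintype β] {p q : α → Prop}

theorem pr_eq_card (p : α → Prop) [DecidablePred p] :
    pr p = ((univ.filter p).card : ℝ) / Fintype.card α := by
  unfold pr
  congr

theorem pr_eq_sum (p : α → Prop) [DecidablePred p] :
    pr p = (∑ z, if p z then (1 : ℝ) else 0) / Fintype.card α := by
  rw [pr_eq_card, Finset.sum_boole]

theorem pr_nonneg (p : α → Prop) : 0 ≤ pr p := by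
  unfold pr
  positivity

theorem pr_mono (h : ∀ z, p z → q z) : pr p ≤ pr q := by
  classical
  rw [pr_eq_card, pr_eq_card]
  refine div_le_div_of_nonneg_right ?_ (Nat.cast_nonneg _)
  exact_mod_cast card_le_card (monotone_filter_right _ fun z _ => h z)

theorem pr_congr (h : ∀ z, p z ↔ q z) : pr p = pr q :=
  le_antisymm (pr_mono fun z => (h z).1) (pr_mono fun z => (h z).2)

theorem pr_of_forall [Nonempty α] (h : ∀ z, p z) : pr p = 1 := by
  classical
  rw [pr_eq_card, filter_true_of_mem fun z _ => h z, card_univ, div_self]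
  exact_mod_cast Fintype.card_ne_zero

theorem pr_of_forall_not (h : ∀ z, ¬ p z) : pr p = 0 := by
  classical
  rw [pr_eq_card, filter_false_of_mem fun z _ => h z, card_empty, Nat.cast_zero, zero_div]

theorem pr_le_one (p : α → Prop) : pr p ≤ 1 := by
  classical
  rw [pr_eq_card]
  refine div_le_one_of_le₀ ?_ (Nat.cast_nonneg _)
  exact_mod_cast card_le_univ _

theorem pr_and_add_pr_and_not (p q : α → Prop) :
    pr (fun z => p z ∧ q z) + pr (fun z => p z ∧ ¬ q z) = pr p := by
  classical
  rw [pr_eq_card, pr_eq_card, pr_eq_card, ← add_div, ← Nat.cast_add, ← filter_filter,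
    ← filter_filter, card_filter_add_card_filter_not]

theorem pr_or_le (p q : α → Prop) : pr (fun z => p z ∨ q z) ≤ pr p + pr q := by
  classical
  rw [pr_eq_card, pr_eq_card, pr_eq_card, ← add_div, filter_or]
  refine div_le_div_of_nonneg_right ?_ (Nat.cast_nonneg _)
  exact_mod_cast card_union_le _ _

/-- union bound -/
theorem pr_exists_le {ι : Type} (s : Finset ι) (p : ι → α → Prop) :
    pr (fun z => ∃ i ∈ s, p i z) ≤ ∑ i ∈ s, pr (p i) := by
  classical
  induction s using Finset.induction_on with
  | empty => rw [pr_of_forall_not (by simp), sum_empty]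
  | insert a s ha ih =>
    rw [sum_insert ha]
    refine le_trans (le_of_eq (pr_congr fun z => ?_))
      ((pr_or_le (p a) fun z => ∃ i ∈ s, p i z).trans (add_le_add_right ih _))
    simp

theorem exists_not_of_pr_lt_one [Nonempty α] (h : pr p < 1) : ∃ z, ¬ p z := by
  by_contra hc
  push Not at hc
  exact h.ne (pr_of_forall hc)

theorem exists_of_pr_pos (h : 0 < pr p) : ∃ z, p z := by
  by_contra hc
  push Not at hc
  exact h.ne' (pr_of_forall_not hc)

/-- Markov type bound: a pointwise majorant of the indicator -/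
theorem pr_le_avg (f : α → ℝ) (h0 : ∀ z, 0 ≤ f z) (h1 : ∀ z, p z → 1 ≤ f z) :
    pr p ≤ (∑ z, f z) / Fintype.card α := by
  classical
  rw [pr_eq_sum]
  refine div_le_div_of_nonneg_right (sum_le_sum fun z _ => ?_) (Nat.cast_nonneg _)
  split_ifs with h
  exacts [h1 z h, h0 z]

/-- Fubini -/
theorem pr_prod_eq_avg (r : α × β → Prop) :
    pr r = (∑ a, pr fun b => r (a, b)) / Fintype.card α := by
  classical
  rw [pr_eq_sum, Fintype.sum_prod_type, Fintype.card_prod, Nat.cast_mul,
    sum_congr rfl fun a _ => pr_eq_sum fun b => r (a, b), ← sum_div, div_div, mul_comm]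

theorem pr_prod (p : α → Prop) (q : β → Prop) :
    pr (fun z : α × β => p z.1 ∧ q z.2) = pr p * pr q := by
  classical
  rw [pr_eq_card, pr_eq_card, pr_eq_card, ← univ_product_univ, filter_product, card_product,
    Fintype.card_prod, Nat.cast_mul, Nat.cast_mul, mul_div_mul_comm]

theorem pr_fst [Nonempty β] (p : α → Prop) : pr (fun z : α × β => p z.1) = pr p := by
  rw [← mul_one (pr p), ← pr_of_forall (p := fun _ : β => True) fun _ => trivial, ← pr_prod]
  exact pr_congr fun z => by simp

theorem pr_snd [Nonempty α] (q : β → Prop) : pr (fun z : α × β => q z.2) = pr q := by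
  rw [← one_mul (pr q), ← pr_of_forall (p := fun _ : α => True) fun _ => trivial, ← pr_prod]
  exact pr_congr fun z => by simp

theorem pr_equiv (e : α ≃ β) (r : β → Prop) : pr (fun z => r (e z)) = pr r := by
  classical
  rw [pr_eq_sum, pr_eq_sum, Fintype.card_congr e,
    Equiv.sum_comp e fun z => if r z then (1 : ℝ) else 0]

/-- coordinatewise events are independent -/
theorem pr_pi {ι : Type} [Fintype ι] [DecidableEq ι] (r : ι → α → Prop) :
    pr (fun z : ι → α => ∀ i, r i (z i)) = ∏ i, pr (r i) := by
  classical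
  have : (univ.filter fun z : ι → α => ∀ i, r i (z i)) =
      Fintype.piFinset fun i => univ.filter (r i) := by
    ext z
    simp
  rw [pr_eq_card, this, Fintype.card_piFinset, prod_congr rfl fun i _ => pr_eq_card (r i),
    prod_div_distrib, Fintype.card_fun, prod_const, card_univ, Nat.cast_prod, Nat.cast_pow]

end pr

section cube

variable {d : ℕ}

theorem sg_eq (x : Cube d) (i : Fin d) : sg x i = 1 ∨ sg x i = -1 := by
  unfold sg
  split_ifs <;> simp

theorem sg_mul_self (x : Cube d) (i : Fin d) : sg x i * sg x i = 1 := by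
  rcases sg_eq x i with h | h <;> rw [h] <;> norm_num

theorem sg_dot_self (x : Cube d) : sg x ⬝ᵥ sg x = d := by
  simp [dotProduct, sg_mul_self]

theorem adj_comm {t : ℝ} {x y : Cube d} : adj t x y ↔ adj t y x := by
  rw [adj, adj, dotProduct_comm]

theorem card_cube : Fintype.card (Cube d) = 2 ^ d := by simp

theorem Att.mono {V : Type} {a : ℝ} {x : V → Cube d} {A B : Finset V} {z : Cube d}
    (h : Att a x A z) (hAB : A ⊆ B) : Att a x B z := by
  obtain ⟨F, hF, h⟩ := h
  exact ⟨F, hF.trans hAB, h⟩

theorem lam_nonneg (d : ℕ) : 0 ≤ lam d := by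
  unfold lam
  positivity

theorem lam_eq (d : ℕ) : lam d = d / (2 * 10 ^ 72) := by
  unfold lam eta
  ring

theorem atr_sq (d : ℕ) : atr d ^ 2 = 4 * 10 ^ 30 * lam d :=
  Real.sq_sqrt (by have := lam_nonneg d; positivity)

theorem thr_nonneg (d : ℕ) : 0 ≤ thr d := by
  unfold thr eta
  positivity

theorem thr_sq (d : ℕ) : thr d ^ 2 = 2 * d * lam d := by
  unfold thr lam
  ring

theorem tendsto_lam : Filter.Tendsto lam Filter.atTop Filter.atTop := by
  rw [show lam = fun d : ℕ => (d : ℝ) / (2 * 10 ^ 72) from funext lam_eq]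
  exact tendsto_natCast_atTop_atTop.atTop_div_const (by norm_num)

/-- constants and linear terms are swallowed by any exponential -/
theorem eventually_le_exp (c δ : ℝ) (hδ : 0 < δ) :
    ∀ᶠ d : ℕ in Filter.atTop, c * (lam d + 1) ≤ Real.exp (δ * lam d) := by
  have h := (Real.tendsto_exp_div_pow_atTop 1).comp (tendsto_lam.const_mul_atTop hδ)
  filter_upwards [h.eventually_ge_atTop (2 * |c| / δ), tendsto_lam.eventually_ge_atTop 1]
    with d h1 h2
  simp only [Function.comp, pow_one] at h1
  rw [le_div_iff₀ (by positivity)] at h1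
  calc c * (lam d + 1) ≤ |c| * (2 * lam d) :=
        mul_le_mul (le_abs_self c) (by linarith) (by linarith) (abs_nonneg c)
    _ = 2 * |c| / δ * (δ * lam d) := by field_simp
    _ ≤ _ := h1

end cube

end Pool.Agent.P.MP_0b9d6e_co
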