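import Pool.Agent.P.MP_0b9d6e_co.Base

/-!
The multi-scale caterpillar bound.
-/

namespace Pool.Agent.P.MP_0b9d6e_co

open Finset

namespace CatP

theorem conv (S : Finset ℕ) (h : ∀ x ∈ S, ∀ y ∈ S, ∀ z, x ≤ z → z ≤ y → z ∈ S) :
    ∃ a b, S = Ico a b := by
  rcases S.eq_empty_or_nonempty with rfl | hS
  · exact ⟨0, 0, by simp⟩
  · refine ⟨S.min' hS, S.max' hS + 1, ?_⟩
    ext z
    rw [mem_Ico]
    refine ⟨fun hz => ⟨min'_le _ _ hz, Nat.lt_succ_of_le (le_max' _ _ hz)⟩, fun hz => ?_⟩
    exact h _ (min'_mem _ hS) _ (max'_mem _ hS) z hz.1 (Nat.le_of_lt_succ hz.2)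

theorem eq_of_div_mod {M a b : ℕ} (h1 : a / M = b / M) (h2 : a % M = b % M) : a = b := by
  rw [← Nat.div_add_mod a M, h1, h2, Nat.div_add_mod]

theorem base {m M N h : ℕ} (hM : 0 < M) (f : ℕ → Fin m) (hh : 0 < h)
    (hs : ∀ x y, x + h ≤ y → y < N → f y < f x) (lo hi : ℕ) (hN : hi ≤ N)
    (he : ∀ x ∈ Ico lo hi, ∀ y ∈ Ico lo hi, (f x).1 / M = (f y).1 / M) : hi - lo ≤ M * h := by
  have key : ∀ x ∈ Ico lo hi, ∀ y ∈ Ico lo hi, x ≤ y → (f x).1 % M = (f y).1 % M →
      x % h = y % h → x = y := by
    intro x hx y hy hxy e1 e2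
    have e : f x = f y := Fin.ext (eq_of_div_mod (he x hx y hy) e1)
    have hlt : y < x + h := by
      by_contra hc
      exact (hs x y (not_lt.1 hc) ((mem_Ico.1 hy).2.trans_le hN)).ne e.symm
    have hd : h ∣ y - x := (Nat.modEq_iff_dvd' hxy).1 e2
    have := Nat.eq_zero_of_dvd_of_lt hd (by omega)
    omega
  have := card_le_card_of_injOn (s := Ico lo hi) (t := range M ×ˢ range h)
    (fun x => ((f x).1 % M, x % h))
    (fun x _ => mem_coe.2 (mem_product.2
      ⟨mem_range.2 (Nat.mod_lt _ hM), mem_range.2 (Nat.mod_lt _ hh)⟩))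
    (fun x hx y hy e => by
      have e1 := congrArg Prod.fst e
      have e2 := congrArg Prod.snd e
      rcases le_total x y with p | p
      · exact key x hx y hy p e1 e2
      · exact (key y hy x hx p e1.symm e2.symm).symm)
  rwa [Nat.card_Ico, card_product, card_range, card_range] at this

theorem count {M α W n : ℕ} (hM : 0 < M) (w : Fin M → ℕ) (hn : n = ∑ u, w u)
    (hW : ∀ u, w u ≤ W) (hS : (univ.filter fun u => n ≤ 2 * M * w u).card ≤ α) :
    n ≤ 2 * α * W := by
  have h1 : ∑ u ∈ univ.filter (fun u => n ≤ 2 * M * w u), w u ≤ α * W :=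
    (sum_le_card_nsmul _ _ W fun u _ => hW u).trans (Nat.mul_le_mul_right _ hS)
  have h2 : 2 * M * ∑ u ∈ univ.filter (fun u => ¬ n ≤ 2 * M * w u), w u ≤ M * n := by
    rw [mul_sum]
    refine (sum_le_card_nsmul _ _ n fun u hu => (not_le.1 (mem_filter.1 hu).2).le).trans ?_
    refine Nat.mul_le_mul_right _ ((card_le_univ _).trans_eq (Fintype.card_fin M))
  have h3 := sum_filter_add_sum_filter_not univ (fun u => n ≤ 2 * M * w u) w
  have h4 : 2 * ∑ u ∈ univ.filter (fun u => ¬ n ≤ 2 * M * w u), w u ≤ n := by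
    refine Nat.le_of_mul_le_mul_left ?_ hM
    rw [← mul_assoc, mul_comm M 2]
    exact h2
  rw [mul_assoc]
  omega

end CatP

open CatP in
theorem cat : S_Cat := by
  intro m M k _ Γ s₀ r α B c hL hC hm hα hB l f N h p₀ hh hp ha hs hP
  have hM : 0 < M := Nat.pos_of_ne_zero (NeZero.ne M)
  have main : ∀ j ≤ k, ∀ lo hi, hi ≤ N →
      (∀ x ∈ Ico lo hi, ∀ y ∈ Ico lo hi, (f x).1 / M ^ (j + 1) = (f y).1 / M ^ (j + 1)) →
      hi - lo ≤ (2 * α) ^ j * M * h := by
    intro j
    induction j with
    | zero =>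
      intro _ lo hi hN he
      rw [pow_zero, one_mul]
      exact base hM f hh hs lo hi hN (by simpa using he)
    | succ j ih =>
      intro hj lo hi hN he
      by_contra hc
      rw [not_le] at hc
      have hg : ∀ x ∈ Ico lo hi, ∀ y ∈ Ico lo hi, dig M (j + 1) (f x).1 = dig M (j + 1) (f y).1 →
          (f x).1 / M ^ (j + 1) = (f y).1 / M ^ (j + 1) := by
        intro x hx y hy e
        refine eq_of_div_mod (M := M) ?_ (congrArg Fin.val e)
        rw [Nat.div_div_eq_div_mul, Nat.div_div_eq_div_mul, ← pow_succ]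
        exact he x hx y hy
      have hI : ∀ u : Fin M, ∃ a b,
          (Ico lo hi).filter (fun x => dig M (j + 1) (f x).1 = u) = Ico a b := by
        intro u
        refine conv _ fun x hx y hy z h1 h2 => ?_
        obtain ⟨hx, ex⟩ := mem_filter.1 hx
        obtain ⟨hy, ey⟩ := mem_filter.1 hy
        have e := hg x hx y hy (ex.trans ey.symm)
        rw [mem_Ico] at hx hy
        have q1 : (f z).1 / M ^ (j + 1) ≤ (f x).1 / M ^ (j + 1) :=
          Nat.div_le_div_right (ha x z h1 (by omega))
        have q2 : (f y).1 / M ^ (j + 1) ≤ (f z).1 / M ^ (j + 1) :=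
          Nat.div_le_div_right (ha z y h2 (by omega))
        refine mem_filter.2 ⟨mem_Ico.2 ⟨by omega, by omega⟩, ?_⟩
        rw [← ex]
        unfold dig
        rw [le_antisymm q1 (e.trans_le q2)]
      choose a b hab using hI
      have hmem : ∀ u x, a u ≤ x → x < b u → x ∈ Ico lo hi ∧ dig M (j + 1) (f x).1 = u := by
        intro u x h1 h2
        have : x ∈ Ico (a u) (b u) := mem_Ico.2 ⟨h1, h2⟩
        rw [← hab] at this
        exact mem_filter.1 this
      have hsum : hi - lo = ∑ u, (b u - a u) := by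
        rw [← Nat.card_Ico, card_eq_sum_card_fiberwise
          (f := fun x => dig M (j + 1) (f x).1) (t := univ) fun _ _ => mem_coe.2 (mem_univ _)]
        exact sum_congr rfl fun u _ => by rw [hab, Nat.card_Ico]
      have hW : ∀ u, b u - a u ≤ (2 * α) ^ j * M * h := by
        intro u
        rcases le_or_gt (b u) (a u) with q | q
        · rw [Nat.sub_eq_zero_of_le q]
          exact Nat.zero_le _
        · have := mem_Ico.1 (hmem u (b u - 1) (by omega) (by omega)).1
          refine ih (by omega) _ _ (by omega) fun x hx y hy => ?_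
          obtain ⟨hx, ex⟩ := hmem u x (mem_Ico.1 hx).1 (mem_Ico.1 hx).2
          obtain ⟨hy, ey⟩ := hmem u y (mem_Ico.1 hy).1 (mem_Ico.1 hy).2
          exact hg x hx y hy (ex.trans ey.symm)
      have hbig : ∀ u, hi - lo ≤ 2 * M * (b u - a u) → h < b u - a u := by
        intro u hu
        refine Nat.lt_of_mul_lt_mul_left (a := 2 * M) (lt_of_le_of_lt ?_ (hc.trans_le hu))
        refine Nat.mul_le_mul_right _ (Nat.mul_le_mul_right _ ?_)
        exact (by omega : 2 ≤ 2 * α).trans (Nat.le_self_pow (by omega) _)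
      have pair : ∀ u v, hi - lo ≤ 2 * M * (b u - a u) → hi - lo ≤ 2 * M * (b v - a v) → u ≠ v →
          a u ≤ a v → Γ u v ≠ some l := by
        intro u v hu hv huv hle hΓ
        have bu := hbig u hu
        have bv := hbig v hv
        have hba : b u ≤ a v := by
          by_contra hlt
          exact huv ((hmem u (a v) hle (not_le.1 hlt)).2.symm.trans
            (hmem v (a v) le_rfl (by omega)).2)
        have t1 := mem_Ico.1 (hmem u (a u) le_rfl (by omega)).1
        have t2 := mem_Ico.1 (hmem v (b v - 1) (by omega) (by omega)).1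
        have t3 : b v - a u ≤ hi - lo := by omega
        obtain ⟨x, y, x0, x1, y0, y1, hxy⟩ := hP (a u) (b u) (a v) (b v) hba (by omega) (by omega)
          (by omega) (t3.trans (hu.trans (Nat.mul_le_mul_right _ hB)))
          (t3.trans (hv.trans (Nat.mul_le_mul_right _ hB))) fun x y x0 x1 y0 y1 => by
            refine lt_of_le_of_ne (ha x y (by omega) (by omega)) fun e => huv ?_
            rw [← (hmem u x x0 x1).2, ← (hmem v y y0 y1).2, e]
        obtain ⟨hx, ex⟩ := hmem u x x0 x1
        obtain ⟨hy, ey⟩ := hmem v y y0 y1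
        refine hxy ⟨j, hj⟩ ((hC _ _ _).2 ⟨he x hx y hy, ?_⟩)
        dsimp only
        rw [ex, ey, hΓ]
      have := count (α := α) hM (fun u => b u - a u) hsum hW
        (hL.indep l _ fun u hu v hv => by
          have hu := (mem_filter.1 hu).2
          have hv := (mem_filter.1 hv).2
          by_cases huv : u = v
          · rw [huv, hL.diag]
            exact fun e => nomatch e
          · rcases le_total (a u) (a v) with q | q
            · exact pair u v hu hv huv q
            · rw [hL.symm]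
              exact pair v u hv hu (Ne.symm huv) q)
      rw [← mul_assoc, ← mul_assoc, ← pow_succ'] at this
      omega
  have := main k le_rfl 0 N le_rfl fun x _ y _ => by
    rw [Nat.div_eq_of_lt ((f x).2.trans_le hm), Nat.div_eq_of_lt ((f y).2.trans_le hm)]
  exact this

end Pool.Agent.P.MP_0b9d6e_co
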