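import Pool.Agent.P.MP_0b9d6e_co.Base

/-!
Assembly: the tree bound and the lower bound for matchings.
-/

namespace Pool.Agent.P.MP_0b9d6e_co

open Finset Real

theorem treeBound (h1 : S_Basic) (h2 : S_Tri) (h3 : S_C1) (h4 : S_C2) (h5 : S_C3) (h6 : S_Pred)
    (h7 : S_Red) : S_TL := by
  classical
  intro p m c Ga Gb Rig W 𝒟 lev hH hT
  have hB := h1 p m c Ga Gb Rig W 𝒟 lev hH hT
  obtain ⟨ℋ, hP⟩ := h6 p m c lev hH.rank
  refine ⟨hB.len, h7 𝒟 (Rigid Rig lev) p.tt _ hT.pre hB.rigid fun 𝒲 hW hn => ?_⟩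
  have e : 𝒲 ⊆ 𝒲.filter (CaseI p c Rig lev) ∪ 𝒲.filter (CaseII p c Rig lev) ∪
      𝒲.filter (CaseIII p c Rig lev) := by
    intro w hw
    rcases h2 p m c Rig 𝒟 lev hB w (hW hw) (hn w hw) with h | h | h <;> simp [hw, h]
  refine (card_le_card e).trans ((card_union_le _ _).trans (add_le_add
    ((card_union_le _ _).trans (add_le_add ?_ ?_)) ?_))
  · exact h3 p m c Rig 𝒟 _ lev ℋ hB hP fun w hw =>
      ⟨hW (mem_filter.1 hw).1, hn w (mem_filter.1 hw).1, (mem_filter.1 hw).2⟩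
  · exact h4 p m c Rig 𝒟 _ lev ℋ hB hP fun w hw => ⟨hW (mem_filter.1 hw).1, (mem_filter.1 hw).2⟩
  · exact h5 p m c Ga Gb Rig W 𝒟 _ lev ℋ hH hT hB hP fun w hw =>
      ⟨hW (mem_filter.1 hw).1, (mem_filter.1 hw).2⟩

namespace CoreP

theorem map_not_not (w : List Bool) : (w.map not).map not = w := by
  induction w with
  | nil => rfl
  | cons b w ih => simp [ih]

/-- the mirror image of a tree -/
theorem flip {V : Type} [LT V] {P : Bool → V → V → Prop} {𝒟 : Finset (List Bool)}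
    {lev : List Bool → V} (h : IsTree (fun b => P (!b)) 𝒟 lev) :
    IsTree P (𝒟.image (List.map not)) fun w => lev (w.map not) := by
  refine ⟨fun w hw i => ?_, fun w hw i b hb => ?_⟩
  · obtain ⟨u, hu, rfl⟩ := mem_image.1 hw
    exact mem_image.2 ⟨u.take i, h.pre u hu i, List.map_take ..⟩
  · obtain ⟨u, hu, rfl⟩ := mem_image.1 hw
    have hb' : u[i]? = some (!b) := by
      rw [List.getElem?_map] at hb
      cases hx : u[i]? with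
      | none => simp [hx] at hb
      | some x =>
        simp only [hx, Option.map_some, Option.some.injEq] at hb
        rw [← hb, Bool.not_not]
    have := h.rel u hu i (!b) hb'
    rw [Bool.not_not] at this
    rw [← List.map_take, map_not_not, map_not_not]
    exact this

theorem flip_bound {V : Type} [LT V] {P : Bool → V → V → Prop} {D T : ℕ}
    (h : ∀ 𝒟 lev, IsTree P 𝒟 lev → (∀ w ∈ 𝒟, w.length < D) ∧ 𝒟.card ≤ T)
    (𝒟 : Finset (List Bool)) (lev : List Bool → V) (hT : IsTree (fun b => P (!b)) 𝒟 lev) :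
    (∀ w ∈ 𝒟, w.length < D) ∧ 𝒟.card ≤ T := by
  obtain ⟨h1, h2⟩ := h _ _ (flip hT)
  refine ⟨fun w hw => by simpa using h1 _ (mem_image_of_mem _ hw), ?_⟩
  rwa [card_image_of_injective _ fun u v e => by rw [← map_not_not u, e, map_not_not]] at h2

theorem not_OK {V : Type} {k : ℕ} {c : V → V → Option (Fin k × Bool)} {Ga Gb : V → V → Prop}
    {b : Bool} {a y : V} (h : ¬ OK c Ga Gb b a y) : OK c Gb Ga (!b) a y := by
  unfold OK at h ⊢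
  rcases hc : c a y with _ | ⟨j, l⟩
  · right
    cases b <;> simpa [hc] using h
  · left
    refine ⟨j, ?_⟩
    cases b <;> cases l <;> simp_all

theorem OK_ne {V : Type} {k : ℕ} {c : V → V → Option (Fin k × Bool)} {Ga Gb : V → V → Prop}
    {b : Bool} {a y : V} (h : OK c Ga Gb b a y) (j : Fin k) : c a y ≠ some (j, !b) := by
  rcases h with ⟨i, hi⟩ | ⟨h, -⟩
  · rw [hi]
    cases b <;> simp
  · rw [h]
    simp

theorem Jum.imp {p₀ B n : ℕ} {Q Q' : ℕ → ℕ → ℕ → Prop} (h : Jum p₀ B n Q)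
    (hQ : ∀ x y z, Q x y z → Q' x y z) : Jum p₀ B n Q' := by
  intro x₀ x₁ y₀ y₁ z₀ z₁ a1 a2 a3 a4 a5 a6 a7 a8
  obtain ⟨x, y, z, b1, b2, b3, b4, b5, b6, b7⟩ := h x₀ x₁ y₀ y₁ z₀ z₁ a1 a2 a3 a4 a5 a6 a7 a8
  exact ⟨x, y, z, b1, b2, b3, b4, b5, b6, hQ x y z b7⟩

/-- the lower bound from the level structure -/
theorem no_arr (hBal : S_Bal) (hTree : S_Tree) (hStep : S_Step) {m k n p₀ B D T Kc N : ℕ}
    (c : Fin m → Fin m → Option (Fin k × Bool)) (G₁ G₂ : Fin m → Fin m → Prop) (hm : 0 < m)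
    (hCat : Cat c B Kc)
    (t₁ : ∀ 𝒟 lev, IsTree (OK c G₁ G₂) 𝒟 lev → (∀ w ∈ 𝒟, w.length < D) ∧ 𝒟.card ≤ T)
    (t₂ : ∀ 𝒟 lev, IsTree (OK c G₂ G₁) 𝒟 lev → (∀ w ∈ 𝒟, w.length < D) ∧ 𝒟.card ≤ T)
    (hp : 0 < p₀) (hD : 0 < D) (hK : 0 < Kc) (hB : 16 * D * Kc ≤ B)
    (E : Finset (ℕ × ℕ × ℕ)) (hE : IsMat n E) (hJ : Jum p₀ B n fun x y z => (x, y, z) ∈ E)
    (hn : 2 * (2 * p₀ * B) * (T + 1) < n) (hN : N ≤ 2 ^ m) : ¬ Arr N n E := by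
  classical
  intro hA
  obtain ⟨lv, hlv⟩ := hStep m hm
  obtain ⟨col, φ, hφ, hφN, hcol⟩ :=
    hA fun x y z => decide (Red (OK c G₁ G₂) (lv x y) (lv y z))
  let δ : ℕ → ℕ → Fin m := fun x y => lv (φ x) (φ y)
  have hU : Ultra n δ := fun x y z hxy hyz hz =>
    hlv _ _ _ (hφ x y hxy (hyz.trans hz)) (hφ y z hyz hz) ((hφN z hz).trans_le hN)
  have hB0 : 0 < B := lt_of_lt_of_le (by positivity) hB
  have main : ∀ P : Bool → Fin m → Fin m → Prop,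
      (∀ b, ∃ l, ∀ a y, P b a y → ∀ j, c a y ≠ some (j, l)) →
      (∀ 𝒟 lev, IsTree P 𝒟 lev → (∀ w ∈ 𝒟, w.length < D) ∧ 𝒟.card ≤ T) →
      (∀ e ∈ E, Red P (δ e.1 e.2.1) (δ e.2.1 e.2.2)) → False := by
    intro P hP hT hR
    have hJ' : Jum p₀ B n fun x y z => Red P (δ x y) (δ y z) :=
      Jum.imp hJ fun x y z h => hR (x, y, z) h
    exact absurd (hTree m n p₀ B D T δ P (hBal m k n p₀ B D Kc δ c P hU hJ' hCat hP hp hD hK hB)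
      hJ' hT hp hB0 hD) (not_le.2 hn)
  cases col with
  | true =>
    exact main (OK c G₁ G₂) (fun b => ⟨!b, fun a y h => OK_ne h⟩) t₁ fun e he =>
      of_decide_eq_true (hcol e he)
  | false =>
    refine main (fun b => OK c G₂ G₁ (!b)) (fun b => ⟨!!b, fun a y h => OK_ne h⟩) (flip_bound t₂)
      fun e he => ?_
    have h : ¬ Red (OK c G₁ G₂) (δ e.1 e.2.1) (δ e.2.1 e.2.2) := of_decide_eq_false (hcol e he)
    obtain ⟨e1, e2, e3⟩ := hE.1 e he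
    rcases lt_or_gt_of_ne (hU _ _ _ e1 e2 e3).1 with h' | h'
    · exact Or.inr ⟨h', not_OK fun h2 => h (Or.inr ⟨h', h2⟩)⟩
    · exact Or.inl ⟨h', not_OK fun h2 => h (Or.inl ⟨h', h2⟩)⟩

theorem exists_par (k C K d : ℕ) (hk : k + 1 = 10 ^ 8) (hC : 1 ≤ C) (hK : K ≤ 10 ^ 18) :
    ∃ p : Par, Cst p d ∧ p.k = k ∧ p.C = C ∧ p.K = K := by
  let p₀ : Par :=
    { k := k, C := C, n₀ := 10 ^ 30, ω := 10 ^ 36 + 1, φ₁ := ⌈10 ^ 28 * lam d / pi₁ d⌉₊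
      φ₂ := ⌈(10 ^ 30 + 1) * lam d / pi₂ d⌉₊, s₀ := 0, K := K, i₀ := 10 ^ 30 - 9 * 10 ^ 23
      i₁ := 10 ^ 30 + 5 * 10 ^ 24, ρ := 12 * 10 ^ 24, j₀ := 995 * 10 ^ 27, q := 20 * 10 ^ 30
      gg := ⌈Real.exp (lam d / 4)⌉₊ }
  exact ⟨{ p₀ with s₀ := p₀.I + p₀.L + 3 * 10 ^ 9 },
    ⟨hk, hC, rfl, rfl, rfl, rfl, rfl, hK, rfl, rfl, rfl, rfl, rfl, rfl⟩, rfl, rfl, rfl⟩

end CoreP

open CoreP

theorem core (hTL : S_TL) (hGam : S_Gam) (hCls : S_Cls) (hRank : S_Rank) (hCat : S_Cat)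
    (hSam : S_Sam) (hSize : S_Size) (hMeas : S_Meas) (hBadN : S_BadN) (hDer : S_Der)
    (hNumT : S_NumT) (hNumQ : S_NumQ) (hMat : S_Match) (hBal : S_Bal) (hTree : S_Tree)
    (hStep : S_Step) : S_Core := by
  obtain ⟨k, hk⟩ : ∃ k : ℕ, k + 1 = 10 ^ 8 := ⟨10 ^ 8 - 1, by norm_num⟩
  obtain ⟨d₁, hd₁⟩ := hSize ((2 * (6 * (k + 1)) + 1) ^ k)
  obtain ⟨d₂, hd₂⟩ := hBadN
  obtain ⟨Q₀, hQ₀⟩ := hNumQ k hk (max d₁ d₂)
  have hk0 : 0 < k := by omega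
  refine ⟨k * (k + 2), Q₀, by positivity, fun Q n hQ hn1 hn2 => ?_⟩
  obtain ⟨d, hd, hQ91, hlog, ha₀, hs₀, hfin⟩ := hQ₀ Q hQ
  obtain ⟨p, hp, hpk, hpC, hpK⟩ := exists_par k ((2 * (6 * (k + 1)) + 1) ^ k)
    (k * (2 * (2 * (6 * (k + 1))) + 1)) d hk (Nat.one_le_pow _ _ (by positivity)) (by
      have : k ≤ 10 ^ 8 := by omega
      rw [hk]
      calc k * (2 * (2 * (6 * 10 ^ 8)) + 1) ≤ 10 ^ 8 * (2 * (2 * (6 * 10 ^ 8)) + 1) :=
            Nat.mul_le_mul_right _ this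
        _ ≤ 10 ^ 18 := by norm_num)
  subst hpk
  have hS : Size p d := hd₁ d (le_of_max_le_left hd) p hp hpC
  obtain ⟨hb₁, hb₂, hφ⟩ := hd₂ d (le_of_max_le_right hd)
  obtain ⟨hφ₁, hφ₂⟩ := hφ p hp
  obtain ⟨hsQ, hs3⟩ := hs₀ p.s₀ hS.s₀
  have hmE : Q ^ (p.k * (p.k + 2) + 1) = (Q ^ (p.k + 1)) ^ (p.k + 1) := by
    rw [← pow_mul]
    congr 1
    ring
  rw [hmE] at hn2 ⊢
  have hQM : Q ≤ Q ^ (p.k + 1) := Nat.le_self_pow (by omega) Q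
  generalize hM : Q ^ (p.k + 1) = M at *
  have hMm : M ≤ M ^ (p.k + 1) := Nat.le_self_pow (by omega) M
  generalize hm : M ^ (p.k + 1) = m at *
  have : NeZero M := ⟨by omega⟩
  obtain ⟨Γ, hΓ⟩ := hGam M Q p.s₀ (6 * (p.k + 1)) (Q ^ 2) (by omega) (by omega) ha₀ hs3
  obtain ⟨c, hc, hfree⟩ := hCls m M p.k Γ _ _ _ hΓ
  have hs₀' := hp.s₀
  have hrank := hRank m M p.k Γ _ _ _ c hΓ (by omega) hc
  rw [← hpC] at hfree
  rw [← hpK] at hrank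
  obtain ⟨x, y, hxy, hyx⟩ := hSam m d p.n₀ p.g' _ c (by omega) hp.n₀ hlog
  have hqI : p.q ≤ p.I := by
    have h1 : p.ω ≤ p.I := Nat.le_mul_of_pos_left _ hp.C
    have h2 := hp.ω
    have h3 := hp.q
    omega
  have hgg : 0 < p.gg := by
    rw [hp.gg]
    exact Nat.ceil_pos.2 (Real.exp_pos _)
  have H₁ := hDer p m d c x y hxy (hMeas p m d x hp hS) hb₁ hb₂ hφ₁ hφ₂ hfree hrank (by omega)
    (by omega) hqI hgg
  have H₂ := hDer p m d c y x hyx (hMeas p m d y hp hS) hb₁ hb₂ hφ₁ hφ₂ hfree hrank (by omega)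
    (by omega) hqI hgg
  have hQ2 : 0 < Q ^ 2 := by positivity
  have hKc : 0 < (2 * (2 * Q ^ 2)) ^ p.k := by positivity
  obtain ⟨B, hB⟩ : ∃ B, B = 16 * (p.D + 1) * ((2 * (2 * Q ^ 2)) ^ p.k * M) := ⟨_, rfl⟩
  have hB2 : 2 * M ≤ B := by
    rw [hB]
    exact Nat.mul_le_mul (by omega) (Nat.le_mul_of_pos_left _ hKc)
  have hB0 : 0 < B := by omega
  obtain ⟨E, hE, hJ⟩ := hMat n B hB0
  have hDQ : p.D + 1 ≤ Q := by
    have : p.D = p.I + p.L := rfl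
    omega
  refine ⟨E, hE, fun N hN => no_arr hBal hTree hStep c
    (fun u v => adj (thr d) (x u) (x v)) (fun u v => adj (thr d) (y u) (y v)) (by omega)
    (hCat m M p.k Γ _ _ _ B c hΓ hc hm.ge (by omega) hB2) (D := p.D + 1) (T := p.T)
    (fun 𝒟 lev h => ?_) (fun 𝒟 lev h => ?_) ?_ (by omega) (Nat.mul_pos hKc (by omega)) hB.ge E hE hJ
    ((hfin (p.D + 1) p.T B n hDQ (hNumT p d hp hS) hB hn2).trans_lt hn1) hN⟩
  · obtain ⟨h1, h2⟩ := hTL p m c _ _ _ _ 𝒟 lev H₁ h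
    exact ⟨fun w hw => Nat.lt_succ_of_le (h1 w hw), h2⟩
  · obtain ⟨h1, h2⟩ := hTL p m c _ _ _ _ 𝒟 lev H₂ h
    exact ⟨fun w hw => Nat.lt_succ_of_le (h1 w hw), h2⟩
  · unfold PP
    positivity

end Pool.Agent.P.MP_0b9d6e_co
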