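import Mathlib

/-!
Definitions for the superexponential lower bound for ordered 3-uniform matchings.
-/

namespace Pool.Agent.P.MP_0b9d6e_co

open Finset

/-! ### finite probability, the cube -/

open scoped Classical in
/-- the proportion of points satisfying `p` -/
noncomputable def pr {α : Type} [Fintype α] (p : α → Prop) : ℝ :=
  ((univ.filter p).card : ℝ) / Fintype.card α

/-- the discrete cube -/
abbrev Cube (d : ℕ) : Type := Fin d → Bool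

/-- the sign vector of a point of the cube -/
def sg {d : ℕ} (x : Cube d) : Fin d → ℝ := fun i => if x i then 1 else -1

/-- the threshold graph -/
def adj {d : ℕ} (t : ℝ) (x y : Cube d) : Prop := sg x ⬝ᵥ sg y ≤ -t

/-- the sum of the sign vectors -/
def sv {V : Type} {d : ℕ} (x : V → Cube d) (F : Finset V) : Fin d → ℝ := ∑ v ∈ F, sg (x v)

/-- `z` is attracted by the vector `s` -/
def att {d : ℕ} (a : ℝ) (s : Fin d → ℝ) (z : Cube d) : Prop := a * √(s ⬝ᵥ s) < sg z ⬝ᵥ s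

/-- `z` is attracted by the sum over some subset of `A` -/
def Att {V : Type} {d : ℕ} (a : ℝ) (x : V → Cube d) (A : Finset V) (z : Cube d) : Prop :=
  ∃ F ⊆ A, att a (sv x F) z

/-- sets built one point at a time without attraction -/
inductive Gen {V : Type} [DecidableEq V] {d : ℕ} (a : ℝ) (x : V → Cube d) : Finset V → Prop
  | empty : Gen a x ∅
  | step {F : Finset V} {v : V} : Gen a x F → v ∉ F → ¬ Att a x F (x v) → Gen a x (insert v F)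

/-- common neighbourhood -/
def NA {V : Type} {d : ℕ} (t : ℝ) (x : V → Cube d) (F : Finset V) (z : Cube d) : Prop :=
  ∀ v ∈ F, adj t (x v) z

/-- common non-neighbourhood -/
def NU {V : Type} {d : ℕ} (t : ℝ) (y : V → Cube d) (F : Finset V) (z : Cube d) : Prop :=
  ∀ v ∈ F, ¬ adj t (y v) z

/-- points of `U` with few neighbours in `U` -/
def Bad {d : ℕ} (t ϖ : ℝ) (U : Cube d → Prop) (z : Cube d) : Prop :=
  U z ∧ pr (fun w => U w ∧ adj t z w) < ϖ * pr U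

/-- large sets have few bad points -/
def BadSmall (d : ℕ) (t ϖ μ β : ℝ) : Prop :=
  ∀ U : Cube d → Prop, μ ≤ pr U → pr (Bad t ϖ U) ≤ β

/-- at least `g` neighbours in `A` -/
def Dg {V : Type} {d : ℕ} (t : ℝ) (x : V → Cube d) (g : ℕ) (A : Finset V) (z : Cube d) : Prop :=
  ∃ N ⊆ A, g ≤ N.card ∧ NA t x N z

/-- predictable processes -/
def Prd {d : ℕ} (α : Cube d → Fin d → ℝ) : Prop :=
  (∀ x i, |α x i| ≤ 1) ∧ ∀ x x' i, (∀ j < i, x j = x' j) → α x i = α x' i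

/-- the sum over the four sign patterns -/
def sum4 (f : ℝ → ℝ → ℝ) : ℝ := f 1 1 + f 1 (-1) + f (-1) 1 + f (-1) (-1)

/-- the tilt used at one step -/
noncomputable def tl (e a b : ℝ) : ℝ := if |a| ≤ 1 / 2 ∧ |b| ≤ 1 / 2 then e else 0

/-- the relative tilt -/
noncomputable def uu (e a b s t : ℝ) : ℝ := -(tl e a b * s * t) / ((1 + a * s) * (1 + b * t))

/-- the tilted one step law -/
noncomputable def qq (e a b s t : ℝ) : ℝ := (1 + a * s) / 2 * ((1 + b * t) / 2) * (1 + uu e a b s t)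

/-- the upper bound for the log likelihood of one step -/
noncomputable def rr (e a b s t : ℝ) : ℝ := uu e a b s t - (1 / 2 - 8 * e) * uu e a b s t ^ 2

/-- the loss in the threshold -/
noncomputable def loss (d : ℕ) (a₁ a₂ e σ θ : ℝ) : ℝ :=
  (4 * e + σ / 2) * (4 * a₁ + 17) + (4 * e + 1 / (2 * σ)) * (4 * a₂ + 17) + 4 * θ * d + 3 / θ

/-- the cost of the tilt -/
noncomputable def cost (d : ℕ) (a₁ a₂ e τ : ℝ) : ℝ :=
  e ^ 2 * (1 / 2 + 10 * e) * d + 2 * e ^ 2 * (4 * a₁ + 4 * a₂ + 34) + 100 * τ * e ^ 2 * d + 3 / τ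

/-! ### graphs, labels -/

/-- every nonempty set of at most `w` vertices has a vertex of degree at most `g` -/
def Degen {V : Type} (G : V → V → Prop) (w g : ℕ) : Prop :=
  ∀ S : Finset V, S.Nonempty → S.card ≤ w →
    ∃ v ∈ S, ∀ N ⊆ S, (∀ u ∈ N, u ≠ v ∧ G u v) → N.card ≤ g

/-- the properties of the sparse labelling of pairs of digits -/
structure Lab {M : ℕ} (Γ : Fin M → Fin M → Option Bool) (s₀ r α : ℕ) : Prop where
  symm : ∀ u v, Γ u v = Γ v u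
  diag : ∀ u, Γ u u = none
  degen : Degen (fun u v => Γ u v ≠ none) s₀ r
  indep : ∀ (l : Bool) (S : Finset (Fin M)), (∀ u ∈ S, ∀ v ∈ S, Γ u v ≠ some l) → S.card ≤ α

/-- the digit of index `j` in base `M` -/
def dig (M : ℕ) [NeZero M] (j a : ℕ) : Fin M := Fin.ofNat M (a / M ^ j)

/-- the class of a pair of levels: the scale at which it is labelled, and the label -/
def IsCls {m : ℕ} (M k : ℕ) [NeZero M] (Γ : Fin M → Fin M → Option Bool)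
    (c : Fin m → Fin m → Option (Fin k × Bool)) : Prop :=
  ∀ (a y : Fin m) (t : Fin k × Bool), c a y = some t ↔
    (a.1 / M ^ (t.1.1 + 2) = y.1 / M ^ (t.1.1 + 2) ∧
      Γ (dig M (t.1.1 + 1) a.1) (dig M (t.1.1 + 1) y.1) = some t.2)

/-- small sets contain large unlabelled subsets -/
def Free {V T : Type} (c : V → V → Option T) (s₀ C : ℕ) : Prop :=
  ∀ A : Finset V, A.card ≤ s₀ →
    ∃ A' ⊆ A, A.card ≤ C * A'.card ∧ ∀ u ∈ A', ∀ v ∈ A', c u v = none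

/-- a rank function bounding the number of surprises -/
def Rank {V T : Type} (c : V → V → Option T) (K : ℕ) : Prop :=
  ∃ rk : Finset V → ℕ, (∀ S, rk S ≤ K) ∧
    ∀ (S S' : Finset V) (a : V) (t : T), S' ⊆ S → S'.Nonempty → (∀ y ∈ S', c a y = some t) →
      (∃ y ∈ S, c a y ≠ some t) → rk S' < rk S

/-- long decreasing sequences of levels see every label -/
def Cat {m k : ℕ} (c : Fin m → Fin m → Option (Fin k × Bool)) (B Kc : ℕ) : Prop :=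
  ∀ (l : Bool) (f : ℕ → Fin m) (N h p₀ : ℕ), 0 < h → 2 * p₀ ≤ h →
    (∀ x y, x ≤ y → y < N → f y ≤ f x) → (∀ x y, x + h ≤ y → y < N → f y < f x) →
    (∀ x₀ x₁ y₀ y₁, x₁ ≤ y₀ → y₁ ≤ N → x₀ + p₀ ≤ x₁ → y₀ + p₀ ≤ y₁ →
      y₁ - x₀ ≤ B * (x₁ - x₀) → y₁ - x₀ ≤ B * (y₁ - y₀) →
      (∀ x y, x₀ ≤ x → x < x₁ → y₀ ≤ y → y < y₁ → f y < f x) →
      ∃ x y, x₀ ≤ x ∧ x < x₁ ∧ y₀ ≤ y ∧ y < y₁ ∧ ∀ j, c (f x) (f y) ≠ some (j, l)) →
    N ≤ Kc * h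

/-! ### trees of levels -/

/-- a finite binary tree with decreasing levels and constraints along the branches -/
structure IsTree {V : Type} [LT V] (P : Bool → V → V → Prop) (𝒟 : Finset (List Bool))
    (lev : List Bool → V) : Prop where
  pre : ∀ w ∈ 𝒟, ∀ i, w.take i ∈ 𝒟
  rel : ∀ w ∈ 𝒟, ∀ (i : ℕ) (b : Bool), w[i]? = some b →
    lev w < lev (w.take i) ∧ P b (lev (w.take i)) (lev w)

/-- the allowed pairs: `true` is the sharp direction, `false` the blunt direction -/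
def OK {V : Type} {k : ℕ} (c : V → V → Option (Fin k × Bool)) (Ga Gb : V → V → Prop)
    (b : Bool) (a y : V) : Prop :=
  (∃ j, c a y = some (j, b)) ∨ (c a y = none ∧ if b then Ga a y else ¬ Gb a y)

/-- the levels of the ancestors at which the word turns in direction `b` -/
def Anc {V : Type} [DecidableEq V] (lev : List Bool → V) (b : Bool) (w : List Bool) : Finset V :=
  ((range w.length).filter fun i => w[i]? = some b).image fun i => lev (w.take i)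

/-- classes of steps -/
inductive Cl : Type
  | frc (b : Bool)
  | rig
  | fa
  | fb

/-- at most `n` steps of the word have class `x` and letter `b` -/
def AtMost (γ : List Bool → Cl) (w : List Bool) (x : Cl) (b : Bool) (n : ℕ) : Prop :=
  ∀ I : Finset ℕ, (∀ i ∈ I, γ (w.take i) = x ∧ w[i]? = some b) → I.card ≤ n

/-- the natural number parameters -/
structure Par : Type where
  k : ℕ
  C : ℕ
  n₀ : ℕ
  ω : ℕ
  φ₁ : ℕ
  φ₂ : ℕ
  s₀ : ℕ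
  K : ℕ
  i₀ : ℕ
  i₁ : ℕ
  ρ : ℕ
  j₀ : ℕ
  q : ℕ
  gg : ℕ

namespace Par

variable (p : Par)

def J₁ : ℕ := p.φ₁ + p.n₀ * (p.φ₁ + 1)
def J₂ : ℕ := p.φ₂ + p.n₀ * (p.φ₂ + 1)
def I : ℕ := p.C * p.ω
def L : ℕ := p.C * p.J₂
def D : ℕ := p.I + p.L
def t : ℕ := 2 * (p.n₀ * (p.I + 1))
def tt : ℕ := (p.I + 1) * p.t
def js : ℕ := p.j₀ + p.ρ
def s : ℕ := p.i₀ - p.js
def w : ℕ := p.n₀ * (p.I + p.L + 1)
def g' : ℕ := p.gg + p.n₀ * (p.q + 1) + p.q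
def g : ℕ := 2 * p.g'
def Nh : ℕ := (1 + p.D * (2 * p.k)) ^ p.K
def T₁ : ℕ := p.Nh ^ 2 * (p.D + 1) ^ 2 * 2 ^ p.tt * (p.L + 1) ^ (p.i₁ - p.ρ)
def T₂ : ℕ := p.Nh ^ 2 * (p.D + 1) ^ 2 * 2 ^ p.tt * (p.C * p.J₁ + 1) ^ p.js * (p.L + 1) ^ p.s
def T₃ : ℕ := p.Nh * (p.D + 1) ^ 2 * 4 ^ p.tt * (p.L + 1) ^ p.js *
  ((p.s + 1) * (p.w + 1) ^ (p.ρ + 1) * (p.s * p.g + 1) ^ p.s)
def T : ℕ := (1 + (p.T₁ + p.T₂ + p.T₃)) * 2 ^ (p.tt + 1)

end Par

/-- the combinatorial input of the tree bound -/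
structure Hyp (p : Par) {m : ℕ} (c : Fin m → Fin m → Option (Fin p.k × Bool))
    (Ga Gb : Fin m → Fin m → Prop) (Rig : Finset (Fin m) → Fin m → Prop)
    (W : Finset (Fin m) → Finset (Fin m) → Fin m → Prop) : Prop where
  sI : p.I + 1 ≤ p.s₀
  sL : p.L + 1 ≤ p.s₀
  symm : ∀ u v, Ga u v → Ga v u
  free : Free c p.s₀ p.C
  rank : Rank c p.K
  clq : ∀ F : Finset (Fin m), (∀ u ∈ F, ∀ v ∈ F, v < u → Ga u v) → F.card ≤ p.ω
  ind : ∀ R : Finset (Fin m), (∀ u ∈ R, ∀ v ∈ R, c u v = none) →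
    (∀ u ∈ R, ∀ v ∈ R, v < u → ¬ Gb u v) → R.card ≤ p.J₂
  rig : ∀ A S : Finset (Fin m), A.card ≤ p.I → (∀ v ∈ S, v ∉ A ∧ Rig A v) → S.card ≤ p.t
  sharp : ∀ (A F : Finset (Fin m)) (y : Fin m), A.card ≤ p.I → F ⊆ A →
    (∀ v ∈ F, ¬ Rig (A.filter (v < ·)) v) → (∀ v ∈ F, c v y = none) → ¬ Rig A y →
    (∀ a ∈ A, c a y = none → Ga a y) → F.card ≤ p.i₁ ∧
      ((∀ v ∈ F, ∀ S ⊆ F, (∀ u ∈ S, v < u ∧ ¬ Ga u v) → S.card ≤ p.ρ) → F.card ≤ p.i₀)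
  wcard : ∀ A R S : Finset (Fin m), A.card ≤ p.I → R.card ≤ p.L →
    (∀ v ∈ S, v ∉ A ∧ v ∉ R ∧ W A R v) → S.card ≤ p.w
  wmem : ∀ (A R F R' : Finset (Fin m)) (v : Fin m), F ⊆ A →
    (∀ u ∈ F, ¬ Rig (A.filter (u < ·)) u) → (∀ u ∈ F, c u v = none) → p.j₀ ≤ F.card →
    R' ⊆ R → (∀ u ∈ R', c u v = none) → (∀ u ∈ R', ∀ u' ∈ R', u' < u → ¬ Gb u u') →
    p.J₁ < R'.card → (∀ a ∈ A, c a v = none → Ga a v) → (∀ a ∈ R, c a v = none → ¬ Gb a v) →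
    W A R v
  degen : Degen Ga p.w p.g

section words

variable (p : Par) {m : ℕ} (c : Fin m → Fin m → Option (Fin p.k × Bool))
  (Rig : Finset (Fin m) → Fin m → Prop) (lev : List Bool → Fin m)

/-- rigid nodes -/
def Rigid (u : List Bool) : Prop := Rig (Anc lev true u) (lev u)

/-- the sharp steps that carry entropy -/
def InF (w : List Bool) (i : ℕ) : Prop :=
  w[i]? = some true ∧ ¬ Rigid Rig lev (w.take i) ∧ c (lev (w.take i)) (lev w) = none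

/-- some sharp step is labelled with many earlier ones -/
def CaseI (w : List Bool) : Prop :=
  ∃ i', InF p c Rig lev w i' ∧ ∃ I : Finset ℕ, p.ρ < I.card ∧
    ∀ i ∈ I, i < i' ∧ InF p c Rig lev w i ∧ c (lev (w.take i)) (lev (w.take i')) ≠ none

/-- the time `τ` cuts off the first `js` sharp steps -/
def Cut (w : List Bool) (τ : ℕ) : Prop :=
  τ ≤ w.length ∧ (∀ I : Finset ℕ, (∀ i ∈ I, i < τ ∧ InF p c Rig lev w i) → I.card ≤ p.js) ∧
    (∀ I : Finset ℕ, (∀ i ∈ I, τ ≤ i ∧ InF p c Rig lev w i) → I.card ≤ p.s) ∧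
    ∀ i', τ ≤ i' → InF p c Rig lev w i' →
      ∃ I : Finset ℕ, p.js ≤ I.card ∧ ∀ i ∈ I, i < τ ∧ InF p c Rig lev w i

/-- some late sharp step has few unlabelled early blunt ancestors -/
def CaseII (w : List Bool) : Prop :=
  ∃ τ, Cut p c Rig lev w τ ∧ ∃ i', τ ≤ i' ∧ InF p c Rig lev w i' ∧
    ∀ I : Finset ℕ, (∀ i ∈ I, i < τ ∧ w[i]? = some false ∧
      c (lev (w.take i)) (lev (w.take i')) = none) → I.card ≤ p.C * p.J₁

/-- all late sharp steps have many unlabelled early blunt ancestors -/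
def CaseIII (w : List Bool) : Prop :=
  ¬ CaseI p c Rig lev w ∧ ∃ τ, Cut p c Rig lev w τ ∧ ∀ i', τ ≤ i' → InF p c Rig lev w i' →
    ∃ I : Finset ℕ, p.C * p.J₁ < I.card ∧ ∀ i ∈ I, i < τ ∧ w[i]? = some false ∧
      c (lev (w.take i)) (lev (w.take i')) = none

/-- the basic facts about the words of a tree -/
structure Basic (𝒟 : Finset (List Bool)) : Prop where
  cardA : ∀ w ∈ 𝒟, (Anc lev true w).card ≤ p.I
  cardR : ∀ w ∈ 𝒟, (Anc lev false w).card ≤ p.L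
  len : ∀ w ∈ 𝒟, w.length ≤ p.D
  anti : ∀ w ∈ 𝒟, ∀ i j, i < j → j ≤ w.length → lev (w.take j) < lev (w.take i)
  anc : ∀ w ∈ 𝒟, ∀ b i, i ≤ w.length →
    Anc lev b (w.take i) = (Anc lev b w).filter (lev (w.take i) < ·)
  blunt : ∀ w ∈ 𝒟, ∀ I : Finset ℕ, (∀ i ∈ I, w[i]? = some false) → I.card ≤ p.L
  rigid : ∀ w ∈ 𝒟, ∀ I : Finset ℕ, (∀ i ∈ I, i ≤ w.length ∧ Rigid Rig lev (w.take i)) →
    I.card ≤ p.tt
  sharp : ∀ w ∈ 𝒟, ¬ Rigid Rig lev w → ∀ I : Finset ℕ, (∀ i ∈ I, InF p c Rig lev w i) →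
    I.card ≤ p.i₁ ∧ (¬ CaseI p c Rig lev w → I.card ≤ p.i₀)
  forced : ∀ w ∈ 𝒟, ∀ i i' t, i < i' → i' ≤ w.length →
    c (lev (w.take i)) (lev (w.take i')) = some t → w[i]? = some t.2

/-- a small family of online predictors -/
def Pred (ℋ : Finset (List Bool → Option (Fin p.k × Bool))) : Prop :=
  ℋ.card ≤ p.Nh ∧ ∀ (w : List Bool) (y : Fin m), w.length ≤ p.D →
    ∃ h ∈ ℋ, ∀ i < w.length, h (w.take i) = c (lev (w.take i)) y

end words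

/-! ### the sample -/

/-- the threshold rate -/
noncomputable def eta : ℝ := 1 / 10 ^ 36
/-- the logarithm of the inverse density -/
noncomputable def lam (d : ℕ) : ℝ := eta ^ 2 * d / 2
/-- the threshold -/
noncomputable def thr (d : ℕ) : ℝ := eta * d
/-- the attraction threshold -/
noncomputable def atr (d : ℕ) : ℝ := √(4 * 10 ^ 30 * lam d)
noncomputable def bet (d : ℕ) : ℝ := Real.exp (-((10 ^ 30 + 1) * lam d))
noncomputable def bet' (d : ℕ) : ℝ := Real.exp (-(3 * 10 ^ 30 * lam d))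
noncomputable def mu₀ (d : ℕ) : ℝ := Real.exp (-(10 ^ 28 * lam d))
noncomputable def pi₁ (d : ℕ) : ℝ := Real.exp (-((1 + 43 / 10 ^ 8) * lam d))
noncomputable def pi₂ (d : ℕ) : ℝ := Real.exp (-((1 + 43 / 10 ^ 7) * lam d))

section sample

variable {m d : ℕ} {T : Type} (c : Fin m → Fin m → Option T) (x y : Fin m → Cube d)

/-- neighbours of all unlabelled points of `A` -/
def NX (A : Finset (Fin m)) (v : Fin m) (z : Cube d) : Prop :=
  ∀ a ∈ A, c a v = none → adj (thr d) (x a) z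

/-- non-neighbours of all unlabelled points of `R` -/
def UX (R : Finset (Fin m)) (v : Fin m) (z : Cube d) : Prop :=
  ∀ a ∈ R, c a v = none → ¬ adj (thr d) (y a) z

/-- the level lies in a target of small measure -/
def WW (A R : Finset (Fin m)) (v : Fin m) : Prop :=
  NX c x A v (x v) ∧ UX c y R v (y v) ∧ pr (NX c x A v) * pr (UX c y R v) ≤ bet d

/-- rigid levels -/
def RG (A : Finset (Fin m)) (v : Fin m) : Prop := Att (atr d) x A (x v) ∨ WW c x y A ∅ v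

/-- the properties of a typical sample -/
structure Good (n₀ g' : ℕ) : Prop where
  att : ∀ A S : Finset (Fin m), (∀ v ∈ S, v ∉ A ∧ Att (atr d) x A (x v) ∧
    pr (Att (atr d) x A) ≤ bet d) → S.card < n₀ * (A.card + 1)
  ww : ∀ A R S : Finset (Fin m), (∀ v ∈ S, v ∉ A ∧ v ∉ R ∧ WW c x y A R v) →
    S.card < n₀ * (A.card + R.card + 1)
  bad₁ : ∀ A S : Finset (Fin m), (∀ v ∈ S, v ∉ A ∧ Bad (thr d) (pi₁ d) (NU (thr d) y A) (y v) ∧
    pr (Bad (thr d) (pi₁ d) (NU (thr d) y A)) ≤ bet d) → S.card < n₀ * (A.card + 1)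
  bad₂ : ∀ A S : Finset (Fin m), (∀ v ∈ S, v ∉ A ∧ Bad (thr d) (pi₂ d) (NU (thr d) y A) (y v) ∧
    pr (Bad (thr d) (pi₂ d) (NU (thr d) y A)) ≤ bet d) → S.card < n₀ * (A.card + 1)
  ls : ∀ A S : Finset (Fin m), (∀ v ∈ S, v ∉ A ∧ Dg (thr d) x g' A (x v) ∧
    pr (Dg (thr d) x g' A) ≤ bet' d) → S.card < max A.card 1

end sample

/-- the values of the parameters -/
structure Cst (p : Par) (d : ℕ) : Prop where
  k : p.k + 1 = 10 ^ 8
  C : 1 ≤ p.C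
  n₀ : p.n₀ = 10 ^ 30
  ω : p.ω = 10 ^ 36 + 1
  φ₁ : p.φ₁ = ⌈10 ^ 28 * lam d / pi₁ d⌉₊
  φ₂ : p.φ₂ = ⌈(10 ^ 30 + 1) * lam d / pi₂ d⌉₊
  s₀ : p.s₀ = p.I + p.L + 3 * 10 ^ 9
  K : p.K ≤ 10 ^ 18
  i₀ : p.i₀ = 10 ^ 30 - 9 * 10 ^ 23
  i₁ : p.i₁ = 10 ^ 30 + 5 * 10 ^ 24
  ρ : p.ρ = 12 * 10 ^ 24
  j₀ : p.j₀ = 995 * 10 ^ 27
  q : p.q = 20 * 10 ^ 30
  gg : p.gg = ⌈Real.exp (lam d / 4)⌉₊

/-- measure bounds used to derive the combinatorial input -/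
structure Meas (p : Par) {m d : ℕ} (x : Fin m → Cube d) : Prop where
  att : ∀ A : Finset (Fin m), A.card ≤ p.I → pr (Att (atr d) x A) ≤ bet d
  clq : ∀ F : Finset (Fin m), (∀ u ∈ F, ∀ v ∈ F, u ≠ v → adj (thr d) (x u) (x v)) → F.card ≤ p.ω
  m₁ : ∀ F : Finset (Fin m), Gen (atr d) x F → F.card = p.i₁ + 1 → pr (NA (thr d) x F) ≤ bet d
  m₀ : ∀ F : Finset (Fin m), (∀ v ∈ F, ¬ Att (atr d) x (F.filter (v < ·)) (x v)) →
    (∀ v ∈ F, ∀ S ⊆ F, (∀ u ∈ S, v < u ∧ ¬ adj (thr d) (x u) (x v)) → S.card ≤ p.ρ) →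
    F.card = p.i₀ + 1 → pr (NA (thr d) x F) ≤ bet d
  mj : ∀ F : Finset (Fin m), Gen (atr d) x F → F.card = p.j₀ →
    pr (NA (thr d) x F) * mu₀ d ≤ bet d
  mq : ∃ P : ℝ, (∀ F : Finset (Fin m), Gen (atr d) x F → F.card = p.q → pr (NA (thr d) x F) ≤ P) ∧
    ((p.w : ℝ) * p.q / p.gg) ^ p.q * P ≤ bet' d

/-- growth bounds for the parameters -/
structure Size (p : Par) (d : ℕ) : Prop where
  lam1 : 1 ≤ lam d
  L : (p.L : ℝ) + 1 ≤ Real.exp ((1 + 5 / 10 ^ 6) * lam d)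
  J : ((p.C * p.J₁ : ℕ) : ℝ) + 1 ≤ Real.exp ((1 + 45 / 10 ^ 8) * lam d)
  w : ((p.w : ℝ) + 1) * p.q ≤ Real.exp ((1 + 6 / 10 ^ 6) * lam d)
  g : ((p.s * p.g : ℕ) : ℝ) + 1 ≤ Real.exp (26 / 100 * lam d)
  s₀ : 2 * (p.s₀ : ℝ) ≤ Real.exp (2 * lam d)
  D : 1 + (p.D : ℝ) * (2 * p.k) ≤ Real.exp (2 * lam d)
  I : (2 : ℝ) ^ p.I ≤ Real.exp (lam d)
  junk : 5 * ((p.s : ℝ) + 1) * 4 ^ p.tt * 2 ^ (p.tt + 1) ≤ Real.exp (lam d)

/-! ### matchings and stepping up -/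

/-- an ordered matching of triples on `[0, n)` -/
def IsMat (n : ℕ) (E : Finset (ℕ × ℕ × ℕ)) : Prop :=
  (∀ e ∈ E, e.1 < e.2.1 ∧ e.2.1 < e.2.2 ∧ e.2.2 < n) ∧
    ∀ e ∈ E, ∀ e' ∈ E, ∀ v, (v = e.1 ∨ v = e.2.1 ∨ v = e.2.2) →
      (v = e'.1 ∨ v = e'.2.1 ∨ v = e'.2.2) → e = e'

/-- three comparable intervals always carry a triple with property `Q` -/
def Jum (p₀ B n : ℕ) (Q : ℕ → ℕ → ℕ → Prop) : Prop :=
  ∀ x₀ x₁ y₀ y₁ z₀ z₁, x₁ ≤ y₀ → y₁ ≤ z₀ → z₁ ≤ n → x₀ + p₀ ≤ x₁ → y₀ + p₀ ≤ y₁ →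
    z₀ + p₀ ≤ z₁ → y₁ - x₀ ≤ B * (x₁ - x₀) → z₁ - y₀ ≤ B * (z₁ - z₀) →
    ∃ x y z, x₀ ≤ x ∧ x < x₁ ∧ y₀ ≤ y ∧ y < y₁ ∧ z₀ ≤ z ∧ z < z₁ ∧ Q x y z

/-- the stepping up property on `[0, n)` -/
def Ultra {m : ℕ} (n : ℕ) (δ : ℕ → ℕ → Fin m) : Prop :=
  ∀ x y z, x < y → y < z → z < n → δ x y ≠ δ y z ∧ δ x z = max (δ x y) (δ y z)

/-- the colour of a triple with consecutive levels `a` and `b` -/
def Red {V : Type} [LT V] (P : Bool → V → V → Prop) (a b : V) : Prop :=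
  (b < a ∧ P false a b) ∨ (a < b ∧ P true b a)

/-- every long interval has a large balanced subinterval -/
def Bal {m : ℕ} (n : ℕ) (δ : ℕ → ℕ → Fin m) (s₂ B D : ℕ) : Prop :=
  ∀ lo hi, hi ≤ n → lo + s₂ ≤ hi → ∃ (lo' mid hi' : ℕ) (a : Fin m),
    lo ≤ lo' ∧ lo' < mid ∧ mid < hi' ∧ hi' ≤ hi ∧ 2 * D * ((hi - lo) - (hi' - lo')) ≤ hi - lo ∧
    hi - lo ≤ B * (mid - lo') ∧ hi - lo ≤ B * (hi' - mid) ∧
    (∀ x y, lo' ≤ x → x < mid → mid ≤ y → y < hi' → δ x y = a) ∧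
    (∀ x y, lo' ≤ x → x < y → y < mid → δ x y < a) ∧
    (∀ x y, mid ≤ x → x < y → y < hi' → δ x y < a)

/-- the scale of the matching -/
def PP (B n : ℕ) : ℕ := 12 * (3 * B * (Nat.log 2 n + 1)) ^ 2

/-- every two-colouring of the triples of `[0, N)` has a monochromatic ordered copy of `E` -/
def Arr (N n : ℕ) (E : Finset (ℕ × ℕ × ℕ)) : Prop :=
  ∀ χ : ℕ → ℕ → ℕ → Bool, ∃ (col : Bool) (φ : ℕ → ℕ), (∀ x y, x < y → y < n → φ x < φ y) ∧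
    (∀ x < n, φ x < N) ∧ ∀ e ∈ E, χ (φ e.1) (φ e.2.1) (φ e.2.2) = col

end Pool.Agent.P.MP_0b9d6e_co
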