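import Pool.Agent.P.MP_0b9d6e_co.Base

/-! Numeric bound for the tree count. -/

namespace Pool.Agent.P.MP_0b9d6e_co

open Real

namespace NumTP

theorem pow_le_exp {x a l b : ℝ} {n : ℕ} (hx : 0 ≤ x) (h : x ≤ exp (a * l)) (hl : 0 ≤ l)
    (hb : n * a ≤ b) : x ^ n ≤ exp (b * l) := by
  refine (pow_le_pow_left₀ hx h n).trans ?_
  rw [← Real.exp_nat_mul]
  refine Real.exp_le_exp.2 ?_
  rw [← mul_assoc]
  exact mul_le_mul_of_nonneg_right hb hl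

theorem mul_le_exp {x y a b l : ℝ} (hy : 0 ≤ y) (h1 : x ≤ exp (a * l)) (h2 : y ≤ exp (b * l)) :
    x * y ≤ exp ((a + b) * l) := by
  rw [add_mul, Real.exp_add]
  exact mul_le_mul h1 h2 hy (exp_pos _).le

theorem exp_mono {x a b l : ℝ} (hl : 0 ≤ l) (h : x ≤ exp (a * l)) (hab : a ≤ b) :
    x ≤ exp (b * l) :=
  h.trans (Real.exp_le_exp.2 (mul_le_mul_of_nonneg_right hab hl))

theorem fin_step {T₁ T₂ T₃ c u Y Z : ℝ} (hc : 1 ≤ c) (hu : 1 ≤ u) (hY : 1 ≤ Y)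
    (h1 : T₁ ≤ c * Y) (h2 : T₂ ≤ c * Y) (h3 : T₃ ≤ c * Y) (hZ : 5 * c * u ≤ Z) :
    (1 + (T₁ + T₂ + T₃)) * u + 1 ≤ Z * Y := by
  have h0 : 1 ≤ c * Y := one_le_mul_of_one_le_of_one_le hc hY
  have h4 : (1 + (T₁ + T₂ + T₃)) * u ≤ 4 * (c * Y) * u :=
    mul_le_mul_of_nonneg_right (by linarith) (by linarith)
  have h5 : 1 ≤ c * Y * u := one_le_mul_of_one_le_of_one_le h0 hu
  have h6 : 5 * c * u * Y ≤ Z * Y := mul_le_mul_of_nonneg_right hZ (by linarith)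
  nlinarith

end NumTP

open NumTP in
theorem numT : S_NumT := by
  intro p d h hs
  have hl : 0 ≤ lam d := lam_nonneg d
  have ek : (1 : ℝ) ≤ p.k := by
    have : 1 ≤ p.k := by have := h.k; omega
    exact_mod_cast this
  have eK : (p.K : ℝ) ≤ 10 ^ 18 := by exact_mod_cast h.K
  have ei : ((p.i₁ - p.ρ : ℕ) : ℝ) = 10 ^ 30 - 7 * 10 ^ 24 := by rw [h.i₁, h.ρ]; norm_num
  have ejs : (p.js : ℝ) = 995 * 10 ^ 27 + 12 * 10 ^ 24 := by
    rw [Par.js, h.j₀, h.ρ]; norm_num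
  have es : (p.s : ℝ) = 5 * 10 ^ 27 - 129 * 10 ^ 23 := by
    rw [Par.s, Par.js, h.j₀, h.ρ, h.i₀]; norm_num
  have eρ : ((p.ρ + 1 : ℕ) : ℝ) = 12 * 10 ^ 24 + 1 := by rw [h.ρ]; norm_num
  have eq : (1 : ℝ) ≤ p.q := by rw [h.q]; norm_num
  have hD0 : (0 : ℝ) ≤ p.D := Nat.cast_nonneg _
  have hD : (p.D : ℝ) + 1 ≤ exp (2 * lam d) := by
    refine le_trans ?_ hs.D
    nlinarith
  have hD2 : ((p.D : ℝ) + 1) ^ 2 ≤ exp (4 * lam d) :=
    pow_le_exp (by positivity) hD hl (by norm_num)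
  have hN : (p.Nh : ℝ) ≤ exp (2 * 10 ^ 18 * lam d) := by
    have e : (p.Nh : ℝ) = (1 + (p.D : ℝ) * (2 * p.k)) ^ p.K := by rw [Par.Nh]; push_cast; rfl
    rw [e]
    exact pow_le_exp (by positivity) hs.D hl (by linarith)
  have hN2 : (p.Nh : ℝ) ^ 2 ≤ exp (4 * 10 ^ 18 * lam d) :=
    pow_le_exp (Nat.cast_nonneg _) hN hl (by norm_num)
  have hw : (p.w : ℝ) + 1 ≤ exp ((1 + 6 / 10 ^ 6) * lam d) :=
    le_trans (le_mul_of_one_le_right (by positivity) eq) hs.w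
  have hL1 : ((p.L : ℝ) + 1) ^ (p.i₁ - p.ρ) ≤ exp ((10 ^ 30 - 427 * 10 ^ 21) * lam d) :=
    pow_le_exp (by positivity) hs.L hl (by rw [ei]; norm_num)
  have hJ : (((p.C * p.J₁ : ℕ) : ℝ) + 1) ^ p.js ≤
      exp ((995 * 10 ^ 27 + 12 * 10 ^ 24) * (1 + 45 / 10 ^ 8) * lam d) :=
    pow_le_exp (by positivity) hs.J hl (by rw [ejs])
  have hL2 : ((p.L : ℝ) + 1) ^ p.s ≤
      exp ((5 * 10 ^ 27 - 129 * 10 ^ 23) * (1 + 5 / 10 ^ 6) * lam d) :=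
    pow_le_exp (by positivity) hs.L hl (by rw [es])
  have hL3 : ((p.L : ℝ) + 1) ^ p.js ≤ exp (996 * 10 ^ 27 * lam d) :=
    pow_le_exp (by positivity) hs.L hl (by rw [ejs]; norm_num)
  have hw3 : ((p.w : ℝ) + 1) ^ (p.ρ + 1) ≤ exp (10 ^ 27 * lam d) :=
    pow_le_exp (by positivity) hw hl (by rw [eρ]; norm_num)
  have hg3 : (((p.s * p.g : ℕ) : ℝ) + 1) ^ p.s ≤ exp (2 * 10 ^ 27 * lam d) :=
    pow_le_exp (by positivity) hs.g hl (by rw [es]; norm_num)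
  set Y : ℝ := exp ((4 * 10 ^ 18 + 4 + (10 ^ 30 - 427 * 10 ^ 21)) * lam d) with hY
  set c : ℝ := ((p.s : ℝ) + 1) * 4 ^ p.tt with hc
  have h4 : (1 : ℝ) ≤ 4 ^ p.tt := one_le_pow₀ (by norm_num)
  have hs1 : (1 : ℝ) ≤ (p.s : ℝ) + 1 := by linarith [(Nat.cast_nonneg p.s : (0 : ℝ) ≤ p.s)]
  have hc1 : 1 ≤ c := one_le_mul_of_one_le_of_one_le hs1 h4
  have h2c : (2 : ℝ) ^ p.tt ≤ c :=
    (pow_le_pow_left₀ (by norm_num) (by norm_num) _).trans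
      (le_mul_of_one_le_left (by positivity) hs1)
  have hY1 : 1 ≤ Y := Real.one_le_exp (mul_nonneg (by norm_num) hl)
  have t1 : (p.T₁ : ℝ) ≤ c * Y := by
    have e : (p.T₁ : ℝ) = 2 ^ p.tt * ((p.Nh : ℝ) ^ 2 * ((p.D : ℝ) + 1) ^ 2 *
        ((p.L : ℝ) + 1) ^ (p.i₁ - p.ρ)) := by rw [Par.T₁]; push_cast; ring
    rw [e]
    exact mul_le_mul h2c (mul_le_exp (by positivity) (mul_le_exp (by positivity) hN2 hD2) hL1)
      (by positivity) (by positivity)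
  have t2 : (p.T₂ : ℝ) ≤ c * Y := by
    have e : (p.T₂ : ℝ) = 2 ^ p.tt * ((p.Nh : ℝ) ^ 2 * ((p.D : ℝ) + 1) ^ 2 *
        ((((p.C * p.J₁ : ℕ) : ℝ) + 1) ^ p.js * ((p.L : ℝ) + 1) ^ p.s)) := by
      rw [Par.T₂]; push_cast; ring
    rw [e]
    exact mul_le_mul h2c (mul_le_exp (by positivity) (mul_le_exp (by positivity) hN2 hD2)
      (exp_mono hl (mul_le_exp (by positivity) hJ hL2) (by norm_num))) (by positivity)
      (by positivity)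
  have t3 : (p.T₃ : ℝ) ≤ c * Y := by
    have e : (p.T₃ : ℝ) = c * ((p.Nh : ℝ) * ((p.D : ℝ) + 1) ^ 2 *
        (((p.L : ℝ) + 1) ^ p.js * ((p.w : ℝ) + 1) ^ (p.ρ + 1) *
          (((p.s * p.g : ℕ) : ℝ) + 1) ^ p.s)) := by
      rw [Par.T₃, hc]; push_cast; ring
    rw [e]
    refine mul_le_mul_of_nonneg_left ?_ (by positivity)
    exact mul_le_exp (by positivity)
      (mul_le_exp (by positivity) (exp_mono hl hN (by norm_num)) hD2)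
      (exp_mono hl (mul_le_exp (by positivity) (mul_le_exp (by positivity) hL3 hw3) hg3)
        (by norm_num))
  have e : (p.T : ℝ) = (1 + ((p.T₁ : ℝ) + p.T₂ + p.T₃)) * 2 ^ (p.tt + 1) := by
    rw [Par.T]; push_cast; rfl
  rw [e]
  have hj : 5 * c * 2 ^ (p.tt + 1) ≤ exp (1 * lam d) := by
    rw [one_mul, hc, ← mul_assoc]; exact hs.junk
  refine (fin_step hc1 (one_le_pow₀ (by norm_num)) hY1 t1 t2 t3 hj).trans ?_
  exact exp_mono hl (mul_le_exp (by positivity) le_rfl le_rfl) (by norm_num)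

end Pool.Agent.P.MP_0b9d6e_co
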