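import Mathlib

/-!
Ordered Ramsey numbers of ordered 3-uniform hypergraphs on `Fin n`.
-/

namespace Pool.Agent.P.MP_0b9d6e_co

open Finset

/-- every two-colouring has a monochromatic ordered copy of `H` -/
def Arrows (N : ℕ) {n : ℕ} (H : Finset (Finset (Fin n))) : Prop :=
  ∀ χ : Finset (Fin N) → Bool, ∃ (col : Bool) (φ : Fin n ↪o Fin N),
    ∀ e ∈ H, χ (e.map φ.toEmbedding) = col

/-- the ordered Ramsey number -/
noncomputable def ramsey {n : ℕ} (H : Finset (Finset (Fin n))) : ℕ := sInf {N | Arrows N H}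

/-- the maximum degree -/
def maxDeg {n : ℕ} (H : Finset (Finset (Fin n))) : ℕ :=
  univ.sup fun v => (H.filter (v ∈ ·)).card

end Pool.Agent.P.MP_0b9d6e_co
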