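import Pool.Agent.P.MP_0b9d6e_co.Defs
import Pool.Agent.P.MP_0b9d6e_co.Ram

/-!
Statements of the packages.
-/

namespace Pool.Agent.P.MP_0b9d6e_co

open Finset Real

/-! ### probability -/

def S_UB : Prop :=
  ∀ (m : ℕ) (Ω : Type) [Fintype Ω] [Nonempty Ω]
    (D : Finset (Fin m) → Finset (Fin m) → (Fin m → Ω) → Fin m → Ω → Prop) (β : ℝ) (b : ℕ → ℕ),
    0 < m → 0 ≤ β →
    (∀ A R ω ω' v z, (∀ u ∈ A, ω u = ω' u) → (∀ u ∈ R, ω u = ω' u) → D A R ω v z → D A R ω' v z) →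
    (∀ a, ((m : ℝ) * β) ^ b a ≤ ((m : ℝ)⁻¹) ^ (a + 1)) →
    pr (fun ω : Fin m → Ω => ∃ A R S : Finset (Fin m), b (A.card + R.card) ≤ S.card ∧
      ∀ v ∈ S, v ∉ A ∧ v ∉ R ∧ D A R ω v (ω v) ∧ pr (D A R ω v) ≤ β) ≤ 9 / m

def S_Hoef : Prop :=
  ∀ (d : ℕ) (s : Fin d → ℝ) (u σ : ℝ), 0 ≤ u → 0 < σ → s ⬝ᵥ s ≤ σ →
    pr (fun z : Cube d => u ≤ sg z ⬝ᵥ s) ≤ exp (-(u ^ 2 / (2 * σ)))

def S_AttM : Prop :=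
  ∀ (V : Type) (d : ℕ) (x : V → Cube d) (a : ℝ) (A : Finset V), 0 ≤ a →
    pr (Att a x A) ≤ 2 ^ A.card * exp (-(a ^ 2 / 2))

def S_Clq : Prop :=
  ∀ (V : Type) (d : ℕ) (x : V → Cube d) (t : ℝ) (F : Finset V), 0 ≤ t →
    (∀ u ∈ F, ∀ v ∈ F, u ≠ v → adj t (x u) (x v)) → t * ((F.card : ℝ) - 1) ≤ d

def S_Gen : Prop :=
  ∀ (m d : ℕ) (x : Fin m → Cube d) (a : ℝ) (F : Finset (Fin m)),
    (∀ v ∈ F, ¬ Att a x (F.filter (v < ·)) (x v)) → Gen a x F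

def S_P1 : Prop :=
  ∀ (m d : ℕ) (x : Fin m → Cube d) (a t θ : ℝ) (F : Finset (Fin m)), 0 < d → 0 ≤ a → 0 ≤ t →
    0 ≤ θ → Gen a x F → (F.card : ℝ) * a ^ 2 ≤ θ ^ 2 * d →
    pr (NA t x F) ≤ exp (-(t ^ 2 * F.card / (2 * (d * (1 + θ) ^ 2))))

def S_P2 : Prop :=
  ∀ (m d : ℕ) (x : Fin m → Cube d) (a t θ ν : ℝ) (ρ : ℕ) (F : Finset (Fin m)), 0 ≤ a → 0 ≤ t →
    0 ≤ θ → 0 < ν → (∀ v ∈ F, ¬ Att a x (F.filter (v < ·)) (x v)) →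
    (∀ v ∈ F, ∀ S ⊆ F, (∀ u ∈ S, v < u ∧ ¬ adj t (x u) (x v)) → S.card ≤ ρ) →
    (ρ : ℝ) * a ^ 2 ≤ θ ^ 2 * d →
    d - t * ((F.card : ℝ) - 1 - 2 * ρ) + 2 * θ * (1 + θ) * d ≤ ν →
    pr (NA t x F) ≤ exp (-(t ^ 2 * F.card / (2 * ν)))

def S_Dec : Prop :=
  ∀ (d : ℕ) (p : Cube d → ℝ), (∀ x, 0 ≤ p x) → ∑ x, p x = 1 →
    ∃ α : Cube d → Fin d → ℝ, Prd α ∧ ∀ x, p x = ∏ i, (1 + α x i * sg x i) / 2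

def S_Sup : Prop :=
  ∀ (d : ℕ) (α β : Cube d → Fin d → ℝ) (ψ : ℝ → ℝ → ℝ → ℝ → ℝ), Prd α → Prd β →
    (∀ a b s t, |a| ≤ 1 → |b| ≤ 1 → (s = 1 ∨ s = -1) → (t = 1 ∨ t = -1) → 0 ≤ ψ a b s t) →
    ((∀ a b, |a| ≤ 1 → |b| ≤ 1 → sum4 (ψ a b) ≤ 1) →
      ∑ x, ∑ y, ∏ i, ψ (α x i) (β y i) (sg x i) (sg y i) ≤ 1) ∧
    ((∀ a b, |a| ≤ 1 → |b| ≤ 1 → 1 ≤ sum4 (ψ a b)) →
      1 ≤ ∑ x, ∑ y, ∏ i, ψ (α x i) (β y i) (sg x i) (sg y i))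

def S_One : Prop :=
  ∀ e a b : ℝ, 0 ≤ e → e ≤ 1 / 100 → |a| ≤ 1 → |b| ≤ 1 →
    (∀ s t, (s = 1 ∨ s = -1) → (t = 1 ∨ t = -1) →
      0 ≤ 1 + uu e a b s t ∧ 1 + uu e a b s t ≤ exp (rr e a b s t)) ∧
    sum4 (qq e a b) = 1 ∧
    sum4 (fun s t => qq e a b s t * (exp (a ^ 2 / 8) / √(1 + a * s))) ≤ 1 ∧
    sum4 (fun s t => qq e a b s t * (exp (b ^ 2 / 8) / √(1 + b * t))) ≤ 1 ∧
    (∀ θ, 0 < θ → θ ≤ 1 / 2 →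
      sum4 (fun s t => qq e a b s t * exp (θ * (s * t - a * b + tl e a b) - 4 * θ ^ 2)) ≤ 1) ∧
    (∀ τ, 0 < τ → τ ≤ 1 →
      sum4 (fun s t => qq e a b s t * exp (τ * (rr e a b s t -
        e ^ 2 * (1 / 2 + 10 * e) * (1 + 2 * a ^ 2 + 2 * b ^ 2)) - 100 * τ ^ 2 * e ^ 2)) ≤ 1) ∧
    ∀ σ, 0 < σ → a * b - tl e a b ≤ -e + (4 * e + σ / 2) * a ^ 2 + (4 * e + 1 / (2 * σ)) * b ^ 2

def S_G : Prop :=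
  ∀ (d : ℕ) (A U : Cube d → Prop) (a₁ a₂ e σ θ τ t : ℝ), 0 ≤ e → e ≤ 1 / 100 → 0 < σ → 0 < θ →
    θ ≤ 1 / 2 → 0 < τ → τ ≤ 1 → exp (-a₁) ≤ pr A → exp (-a₂) ≤ pr U →
    t + loss d a₁ a₂ e σ θ ≤ e * d →
    pr A * pr U * (exp (-cost d a₁ a₂ e τ) / 2) ≤
      pr (fun z : Cube d × Cube d => A z.1 ∧ U z.2 ∧ adj t z.1 z.2)

def S_Bad : Prop :=
  ∀ (d : ℕ) (a₁ a₂ e σ θ τ t ϖ : ℝ), 0 ≤ e → e ≤ 1 / 100 → 0 < σ → 0 < θ →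
    θ ≤ 1 / 2 → 0 < τ → τ ≤ 1 → t + loss d a₁ a₂ e σ θ ≤ e * d →
    ϖ ≤ exp (-cost d a₁ a₂ e τ) / 2 → BadSmall d t ϖ (exp (-a₂)) (exp (-a₁))

def S_FP : Prop :=
  ∀ (m d : ℕ) (y : Fin m → Cube d) (t ϖ μ β : ℝ) (n₀ φ : ℕ) (R : Finset (Fin m)), ϖ ≤ 1 →
    (1 - ϖ) ^ φ ≤ μ → BadSmall d t ϖ μ β →
    (∀ A S : Finset (Fin m), (∀ v ∈ S, v ∉ A ∧ Bad t ϖ (NU t y A) (y v) ∧
      pr (Bad t ϖ (NU t y A)) ≤ β) → S.card < n₀ * (A.card + 1)) →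
    (∀ u ∈ R, ∀ v ∈ R, u ≠ v → ¬ adj t (y u) (y v)) →
    R.card ≤ φ + n₀ * (φ + 1) ∨ ∃ A ⊆ R, A.card ≤ φ ∧ pr (NU t y A) ≤ μ

def S_LS : Prop :=
  ∀ (m d : ℕ) (x : Fin m → Cube d) (t a P : ℝ) (w q t₀ gg : ℕ) (A : Finset (Fin m)),
    A.card ≤ w → 0 < gg → 0 ≤ P →
    (∀ F S : Finset (Fin m), F.card ≤ q → (∀ v ∈ S, v ∉ F ∧ Att a x F (x v)) → S.card ≤ t₀) →
    (∀ F : Finset (Fin m), Gen a x F → F.card = q → pr (NA t x F) ≤ P) →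
    pr (Dg t x (gg + t₀ + q) A) ≤ ((w : ℝ) * q / gg) ^ q * P

/-! ### degenerate graphs and labels -/

def S_MC : Prop :=
  ∀ (V : Type) (G : V → V → Prop) (w g : ℕ), (∀ u v, G u v → G v u) →
    (∀ A B : Finset V, A.card ≤ w →
      (∀ v ∈ B, v ∉ A ∧ ∃ N ⊆ A, g ≤ N.card ∧ ∀ u ∈ N, G u v) → B.card < max A.card 1) →
    Degen G w (2 * g)

def S_Ind : Prop :=
  ∀ (V α : Type) (G : V → V → Prop) (w r : ℕ) (A : Finset α) (f : α → V),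
    (∀ u v, G u v → G v u) → Degen G w r → A.card ≤ w →
    ∃ A' ⊆ A, A.card ≤ (r + 1) * A'.card ∧ ∀ u ∈ A', ∀ v ∈ A', f u ≠ f v → ¬ G (f u) (f v)

def S_Kfree : Prop :=
  ∀ (V : Type) (G : V → V → Prop) (w r : ℕ) (U W : Finset V), (∀ u v, G u v → G v u) →
    (∀ u, ¬ G u u) → Degen G w r → 2 * r + 2 ≤ w → (∀ u ∈ U, ∀ v ∈ W, G u v) →
    U.card ≤ r ∨ W.card ≤ r

def S_Sets : Prop :=
  ∀ (V : Type) (G : V → V → Prop) (w g s ρ : ℕ) (W : Finset V) (𝒮 : Finset (Finset V)),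
    (∀ u v, G u v → G v u) → Degen G w g → W.card ≤ w →
    (∀ S ∈ 𝒮, S ⊆ W ∧ S.card ≤ s ∧
      ∀ I ⊆ S, (∀ u ∈ I, ∀ v ∈ I, u ≠ v → ¬ G u v) → I.card ≤ ρ) →
    𝒮.card ≤ (s + 1) * (w + 1) ^ ρ * (s * g + 1) ^ s

def S_Gam : Prop :=
  ∀ M Q s₀ r a₀ : ℕ, 2 ≤ Q → 27 < M → (1 - 1 / (Q : ℝ)) ^ a₀ ≤ ((M : ℝ)⁻¹) ^ 2 →
    (2 * (s₀ : ℝ) / Q) ^ r ≤ ((M : ℝ)⁻¹) ^ 3 →
    ∃ Γ : Fin M → Fin M → Option Bool, Lab Γ s₀ (2 * r) (2 * a₀)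

def S_Cls : Prop :=
  ∀ (m M k : ℕ) [NeZero M] (Γ : Fin M → Fin M → Option Bool) (s₀ r α : ℕ), Lab Γ s₀ r α →
    ∃ c : Fin m → Fin m → Option (Fin k × Bool), IsCls M k Γ c ∧ Free c s₀ ((r + 1) ^ k)

def S_Rank : Prop :=
  ∀ (m M k : ℕ) [NeZero M] (Γ : Fin M → Fin M → Option Bool) (s₀ r α : ℕ)
    (c : Fin m → Fin m → Option (Fin k × Bool)), Lab Γ s₀ r α → 2 * r + 2 ≤ s₀ →
    IsCls M k Γ c → Rank c (k * (2 * r + 1))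

def S_Cat : Prop :=
  ∀ (m M k : ℕ) [NeZero M] (Γ : Fin M → Fin M → Option Bool) (s₀ r α B : ℕ)
    (c : Fin m → Fin m → Option (Fin k × Bool)), Lab Γ s₀ r α → IsCls M k Γ c →
    m ≤ M ^ (k + 1) → 1 ≤ α → 2 * M ≤ B → Cat c B ((2 * α) ^ k * M)

/-! ### the tree bound -/

def S_Pred : Prop :=
  ∀ (p : Par) (m : ℕ) (c : Fin m → Fin m → Option (Fin p.k × Bool)) (lev : List Bool → Fin m),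
    Rank c p.K → ∃ ℋ, Pred p c lev ℋ

def S_Cnt : Prop :=
  ∀ (γ : List Bool → Cl) (𝒲 : Finset (List Bool)) (n t a₁ j₁ a₂ j₂ : ℕ),
    (∀ w ∈ 𝒲, w.length = n ∧ (∀ i b, i < n → γ (w.take i) = Cl.frc b → w[i]? = some b) ∧
      (∀ I : Finset ℕ, (∀ i ∈ I, i < n ∧ γ (w.take i) = Cl.rig) → I.card ≤ t) ∧
      AtMost γ w Cl.fa true a₁ ∧ AtMost γ w Cl.fa false j₁ ∧
      AtMost γ w Cl.fb true a₂ ∧ AtMost γ w Cl.fb false j₂) →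
    𝒲.card ≤ 2 ^ t * (j₁ + 1) ^ a₁ * (j₂ + 1) ^ a₂

def S_Red : Prop :=
  ∀ (𝒟 : Finset (List Bool)) (Rg : List Bool → Prop) (t N : ℕ),
    (∀ w ∈ 𝒟, ∀ i, w.take i ∈ 𝒟) →
    (∀ w ∈ 𝒟, ∀ I : Finset ℕ, (∀ i ∈ I, i ≤ w.length ∧ Rg (w.take i)) → I.card ≤ t) →
    (∀ 𝒲 ⊆ 𝒟, (∀ w ∈ 𝒲, ¬ Rg w) → 𝒲.card ≤ N) → 𝒟.card ≤ (1 + N) * 2 ^ (t + 1)

def S_Basic : Prop :=
  ∀ (p : Par) (m : ℕ) (c : Fin m → Fin m → Option (Fin p.k × Bool))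
    (Ga Gb : Fin m → Fin m → Prop) (Rig : Finset (Fin m) → Fin m → Prop)
    (W : Finset (Fin m) → Finset (Fin m) → Fin m → Prop) (𝒟 : Finset (List Bool))
    (lev : List Bool → Fin m), Hyp p c Ga Gb Rig W → IsTree (OK c Ga Gb) 𝒟 lev →
    Basic p c Rig lev 𝒟

def S_Tri : Prop :=
  ∀ (p : Par) (m : ℕ) (c : Fin m → Fin m → Option (Fin p.k × Bool))
    (Rig : Finset (Fin m) → Fin m → Prop) (𝒟 : Finset (List Bool)) (lev : List Bool → Fin m),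
    Basic p c Rig lev 𝒟 → ∀ w ∈ 𝒟, ¬ Rigid Rig lev w →
    CaseI p c Rig lev w ∨ CaseII p c Rig lev w ∨ CaseIII p c Rig lev w

def S_C1 : Prop :=
  ∀ (p : Par) (m : ℕ) (c : Fin m → Fin m → Option (Fin p.k × Bool))
    (Rig : Finset (Fin m) → Fin m → Prop) (𝒟 𝒲 : Finset (List Bool)) (lev : List Bool → Fin m)
    (ℋ : Finset (List Bool → Option (Fin p.k × Bool))), Basic p c Rig lev 𝒟 → Pred p c lev ℋ →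
    (∀ w ∈ 𝒲, w ∈ 𝒟 ∧ ¬ Rigid Rig lev w ∧ CaseI p c Rig lev w) → 𝒲.card ≤ p.T₁

def S_C2 : Prop :=
  ∀ (p : Par) (m : ℕ) (c : Fin m → Fin m → Option (Fin p.k × Bool))
    (Rig : Finset (Fin m) → Fin m → Prop) (𝒟 𝒲 : Finset (List Bool)) (lev : List Bool → Fin m)
    (ℋ : Finset (List Bool → Option (Fin p.k × Bool))), Basic p c Rig lev 𝒟 → Pred p c lev ℋ →
    (∀ w ∈ 𝒲, w ∈ 𝒟 ∧ CaseII p c Rig lev w) → 𝒲.card ≤ p.T₂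

/-- the set of late sharp levels in case III -/
def S_C3a : Prop :=
  ∀ (p : Par) (m : ℕ) (c : Fin m → Fin m → Option (Fin p.k × Bool))
    (Ga Gb : Fin m → Fin m → Prop) (Rig : Finset (Fin m) → Fin m → Prop)
    (W : Finset (Fin m) → Finset (Fin m) → Fin m → Prop) (𝒟 : Finset (List Bool))
    (lev : List Bool → Fin m), Hyp p c Ga Gb Rig W → IsTree (OK c Ga Gb) 𝒟 lev →
    Basic p c Rig lev 𝒟 → ∀ w ∈ 𝒟, CaseIII p c Rig lev w →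
    ∃ τ, Cut p c Rig lev w τ ∧ ∃ S : Finset (Fin m),
      (∀ i, τ ≤ i → i < w.length → (lev (w.take i) ∈ S ↔ InF p c Rig lev w i)) ∧
      (∀ v ∈ S, v ∉ Anc lev true (w.take τ) ∧ v ∉ Anc lev false (w.take τ) ∧
        W (Anc lev true (w.take τ)) (Anc lev false (w.take τ)) v) ∧
      S.card ≤ p.s ∧ ∀ I ⊆ S, (∀ u ∈ I, ∀ v ∈ I, u ≠ v → ¬ Ga u v) → I.card ≤ p.ρ + 1

def S_C3 : Prop :=
  ∀ (p : Par) (m : ℕ) (c : Fin m → Fin m → Option (Fin p.k × Bool))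
    (Ga Gb : Fin m → Fin m → Prop) (Rig : Finset (Fin m) → Fin m → Prop)
    (W : Finset (Fin m) → Finset (Fin m) → Fin m → Prop) (𝒟 𝒲 : Finset (List Bool))
    (lev : List Bool → Fin m) (ℋ : Finset (List Bool → Option (Fin p.k × Bool))),
    Hyp p c Ga Gb Rig W → IsTree (OK c Ga Gb) 𝒟 lev → Basic p c Rig lev 𝒟 → Pred p c lev ℋ →
    (∀ w ∈ 𝒲, w ∈ 𝒟 ∧ CaseIII p c Rig lev w) → 𝒲.card ≤ p.T₃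

def S_TL : Prop :=
  ∀ (p : Par) (m : ℕ) (c : Fin m → Fin m → Option (Fin p.k × Bool))
    (Ga Gb : Fin m → Fin m → Prop) (Rig : Finset (Fin m) → Fin m → Prop)
    (W : Finset (Fin m) → Finset (Fin m) → Fin m → Prop) (𝒟 : Finset (List Bool))
    (lev : List Bool → Fin m), Hyp p c Ga Gb Rig W → IsTree (OK c Ga Gb) 𝒟 lev →
    (∀ w ∈ 𝒟, w.length ≤ p.D) ∧ 𝒟.card ≤ p.T

/-! ### the sample and the numerics -/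

def S_Sam : Prop :=
  ∀ (m d n₀ g' : ℕ) (T : Type) (c : Fin m → Fin m → Option T), 90 < m → n₀ = 10 ^ 30 →
    log m ≤ 10 ^ 30 * lam d → ∃ x y : Fin m → Cube d, Good c x y n₀ g' ∧ Good c y x n₀ g'

def S_Size : Prop :=
  ∀ C : ℕ, ∃ d₀ : ℕ, ∀ d, d₀ ≤ d → ∀ p : Par, Cst p d → p.C = C → Size p d

def S_Meas : Prop :=
  ∀ (p : Par) (m d : ℕ) (x : Fin m → Cube d), Cst p d → Size p d → Meas p x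

def S_BadN : Prop :=
  ∃ d₀ : ℕ, ∀ d, d₀ ≤ d → BadSmall d (thr d) (pi₁ d) (mu₀ d) (bet d) ∧
    BadSmall d (thr d) (pi₂ d) (bet d) (bet d) ∧
    ∀ p : Par, Cst p d → (1 - pi₁ d) ^ p.φ₁ ≤ mu₀ d ∧ (1 - pi₂ d) ^ p.φ₂ ≤ bet d

def S_Der : Prop :=
  ∀ (p : Par) (m d : ℕ) (c : Fin m → Fin m → Option (Fin p.k × Bool)) (x y : Fin m → Cube d),
    Good c x y p.n₀ p.g' → Meas p x → BadSmall d (thr d) (pi₁ d) (mu₀ d) (bet d) →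
    BadSmall d (thr d) (pi₂ d) (bet d) (bet d) → (1 - pi₁ d) ^ p.φ₁ ≤ mu₀ d →
    (1 - pi₂ d) ^ p.φ₂ ≤ bet d → Free c p.s₀ p.C → Rank c p.K → p.I + 1 ≤ p.s₀ →
    p.L + 1 ≤ p.s₀ → p.q ≤ p.I → 0 < p.gg →
    Hyp p c (fun u v => adj (thr d) (x u) (x v)) (fun u v => adj (thr d) (y u) (y v))
      (RG c x y) (WW c x y)

def S_NumT : Prop :=
  ∀ (p : Par) (d : ℕ), Cst p d → Size p d →
    (p.T : ℝ) + 1 ≤ exp ((10 ^ 30 - 42 * 10 ^ 22) * lam d)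

def S_NumQ : Prop :=
  ∀ k : ℕ, k + 1 = 10 ^ 8 → ∀ d₀ : ℕ, ∃ Q₀ : ℕ, ∀ Q, Q₀ ≤ Q → ∃ d, d₀ ≤ d ∧ 91 ≤ Q ∧
    log (((Q ^ (k + 1)) ^ (k + 1) : ℕ) : ℝ) ≤ 10 ^ 30 * lam d ∧
    (1 - 1 / (Q : ℝ)) ^ (Q ^ 2) ≤ (((Q ^ (k + 1) : ℕ) : ℝ)⁻¹) ^ 2 ∧
    (∀ s₀ : ℕ, 2 * (s₀ : ℝ) ≤ exp (2 * lam d) → s₀ ≤ Q ∧
      (2 * (s₀ : ℝ) / Q) ^ (6 * (k + 1)) ≤ (((Q ^ (k + 1) : ℕ) : ℝ)⁻¹) ^ 3) ∧
    ∀ D T B n : ℕ, D ≤ Q → (T : ℝ) + 1 ≤ exp ((10 ^ 30 - 42 * 10 ^ 22) * lam d) →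
      B = 16 * D * ((2 * (2 * Q ^ 2)) ^ k * Q ^ (k + 1)) → n ≤ (Q ^ (k + 1)) ^ (k + 1) →
      2 * (2 * PP B n * B) * (T + 1) ≤ Q ^ (k * (k + 2))

/-! ### matchings, stepping up, assembly -/

def S_Match : Prop :=
  ∀ n B : ℕ, 0 < B → ∃ E, IsMat n E ∧ Jum (PP B n) B n fun x y z => (x, y, z) ∈ E

def S_Bal : Prop :=
  ∀ (m k n p₀ B D Kc : ℕ) (δ : ℕ → ℕ → Fin m) (c : Fin m → Fin m → Option (Fin k × Bool))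
    (P : Bool → Fin m → Fin m → Prop), Ultra n δ →
    Jum p₀ B n (fun x y z => Red P (δ x y) (δ y z)) → Cat c B Kc →
    (∀ b, ∃ l, ∀ a y, P b a y → ∀ j, c a y ≠ some (j, l)) → 0 < p₀ → 0 < D → 0 < Kc →
    16 * D * Kc ≤ B → Bal n δ (2 * p₀ * B) B D

def S_Tree : Prop :=
  ∀ (m n p₀ B D T : ℕ) (δ : ℕ → ℕ → Fin m) (P : Bool → Fin m → Fin m → Prop),
    Bal n δ (2 * p₀ * B) B D → Jum p₀ B n (fun x y z => Red P (δ x y) (δ y z)) →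
    (∀ 𝒟 lev, IsTree P 𝒟 lev → (∀ w ∈ 𝒟, w.length < D) ∧ 𝒟.card ≤ T) → 0 < p₀ → 0 < B →
    0 < D → n ≤ 2 * (2 * p₀ * B) * (T + 1)

def S_Step : Prop :=
  ∀ m : ℕ, 0 < m → ∃ lv : ℕ → ℕ → Fin m, Ultra (2 ^ m) lv

def S_Fin : Prop :=
  ∀ (n : ℕ) (H : Finset (Finset (Fin n))), (∀ e ∈ H, e.card = 3) → ∃ N, Arrows N H

def S_Core : Prop :=
  ∃ K Q₀ : ℕ, 0 < K ∧ ∀ Q n, Q₀ ≤ Q → Q ^ K < n → n ≤ Q ^ (K + 1) →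
    ∃ E, IsMat n E ∧ ∀ N ≤ 2 ^ Q ^ (K + 1), ¬ Arr N n E

def S_Top : Prop :=
  ∀ d : ℕ, 0 < d → ∃ H : ∀ n : ℕ, Finset (Finset (Fin n)), (∀ n, ∀ e ∈ H n, e.card = 3) ∧
    (∀ n, 2 * d + 1 ≤ n → maxDeg (H n) = d) ∧ (∀ n, Arrows (ramsey (H n)) (H n)) ∧
    Filter.Tendsto (fun n : ℕ => logb 2 (ramsey (H n)) / n) Filter.atTop Filter.atTop

end Pool.Agent.P.MP_0b9d6e_co
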